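import Pool.Agent.Lib.MP_acf82c_lc.S.SpecC

namespace MPacf82c.St

/-- The error of the moves is monotone in `D` and `Rt`. -/
theorem sErrMono : S_ErrMono := by
  intro n T0 h β Γ D D' Rt Rt' hn hh hβ hΓ hT hD hR
  have hn' : (0 : ℝ) < n := by exact_mod_cast hn
  have hden : 0 < T0 - Γ := by linarith
  have hT0 : 0 < T0 := by linarith
  unfold errN
  gcongr

end MPacf82c.St
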