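import Pool.Agent.Lib.MP_acf82c_lc.S.SpecA

set_option autoImplicit false

/-!
# Random order against every plan (`S_UpA1`)
-/

namespace MPacf82c.St

open Finset
open scoped Nat

namespace UpA1

lemma blk_card {n B k : ℕ} (h : (k + 1) * B ≤ n) : (blk B k : Finset (Fin n)).card = B := by
  have hkB : k * B + B = (k + 1) * B := by ring
  have h1 : (blk B k : Finset (Fin n)).map Fin.valEmbedding = Finset.Ico (k * B) ((k + 1) * B) := by
    ext i
    simp only [blk, mem_map, mem_filter, mem_univ, true_and, Fin.valEmbedding_apply, mem_Ico]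
    constructor
    · rintro ⟨a, ha, rfl⟩
      exact ha
    · rintro ⟨h2, h3⟩
      exact ⟨⟨i, h3.trans_le h⟩, ⟨h2, h3⟩, rfl⟩
  have h2 := congrArg Finset.card h1
  rw [card_map, Nat.card_Ico] at h2
  omega

/-- the labels take at most `K + 1` values -/
lemma labels {n M K : ℕ} {y : ℕ → Fin n} {b : ℕ → Bool} (hA : Adm M K y b) :
    ((range (M + 1)).image y).card ≤ K + 1 := by
  have key : ∀ N, N ≤ M → ((range (N + 1)).image y).card
      ≤ ((range N).filter fun k => b k = true).card + 1 := by
    intro N
    induction N with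
    | zero =>
      intro _
      simp
    | succ N ih =>
      intro hN
      have ih' := ih (by omega)
      rw [range_add_one (n := N + 1), image_insert, range_add_one (n := N), filter_insert]
      cases hb : b N with
      | false =>
        have hy := hA.1 N (by omega) hb
        have hmem : y (N + 1) ∈ (insert N (range N)).image y := by
          rw [← hy]
          exact mem_image_of_mem _ (mem_insert_self _ _)
        rw [insert_eq_of_mem hmem, if_neg (by simp)]
        rw [range_add_one (n := N)] at ih'
        exact ih'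
      | true =>
        have h1 : (insert N ((range N).filter fun k => b k = true)).card
            = ((range N).filter fun k => b k = true).card + 1 :=
          card_insert_of_notMem (by simp)
        rw [if_pos rfl, h1]
        rw [range_add_one (n := N)] at ih'
        exact (card_insert_le _ _).trans (by omega)
  exact (key M le_rfl).trans (by have := hA.2; omega)

/-- one factor in the first `q` rounds -/
lemma fct_lt {n B q k : ℕ} [NeZero n] (hB : 0 < B) (hq : q * B ≤ n) (hk : k < q)
    (σ : Equiv.Perm (Fin n)) (y : Fin n) (b : Bool) :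
    (∑ j, fac B (typA B q σ k j) y b) / (n : ℝ)
      = if b = false then (if σ y ∉ (blk B k : Finset (Fin n)) then (1 : ℝ) else 0) else 1 := by
  have hn : (n : ℝ) ≠ 0 := by exact_mod_cast NeZero.ne n
  have hB' : (B : ℝ) ≠ 0 := by exact_mod_cast hB.ne'
  have h1 : ∀ j : Fin n, fac B (typA B q σ k j) y b
      = if b = false then (if σ y ∉ (blk B k : Finset (Fin n)) then (1 : ℝ) else 0) else 1 := by
    intro j
    have ht : typA B q σ k j = (blk B k : Finset (Fin n)).map σ.symm.toEmbedding := by
      unfold typA
      rw [if_pos hk]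
    rw [ht]
    cases b with
    | true =>
      simp only [fac, card_map]
      rw [blk_card ((Nat.mul_le_mul_right B (by omega)).trans hq)]
      simp [hB']
    | false =>
      have hm : y ∈ (blk B k : Finset (Fin n)).map σ.symm.toEmbedding
          ↔ σ y ∈ (blk B k : Finset (Fin n)) := by
        rw [mem_map_equiv, Equiv.symm_symm]
      by_cases h : σ y ∈ (blk B k : Finset (Fin n))
      · have h' := hm.2 h
        simp only [fac, h', h]
        simp
      · have h' : ¬ _ := fun h2 => h (hm.1 h2)
        simp only [fac, h', h]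
        simp
  rw [Finset.sum_congr rfl fun j _ => h1 j, sum_const, card_univ, Fintype.card_fin, nsmul_eq_mul]
  field_simp

/-- one factor after round `q` -/
lemma fct_ge {n B q k : ℕ} [NeZero n] (hB : 0 < B) (hBn : B ≤ n) (hk : ¬ k < q)
    (σ : Equiv.Perm (Fin n)) (y : Fin n) (b : Bool) :
    (∑ j, fac B (typA B q σ k j) y b) / (n : ℝ)
      = if b then (1 : ℝ) else 1 - (B : ℝ) / n := by
  have hn : (n : ℝ) ≠ 0 := by exact_mod_cast NeZero.ne n
  have hB' : (B : ℝ) ≠ 0 := by exact_mod_cast hB.ne'
  have ht : ∀ j, typA B q σ k j = crudeShift n B j := by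
    intro j
    unfold typA
    rw [if_neg hk]
  simp only [ht]
  cases b with
  | true =>
    have h3 : ∀ j, fac B (crudeShift n B j) y true = 1 := by
      intro j
      simp [fac, crudeShift_card hBn, hB']
    simp only [h3]
    rw [sum_const, card_univ, Fintype.card_fin, nsmul_eq_mul]
    simp [hn]
  | false =>
    have h3 : ∀ j, fac B (crudeShift n B j) y false =
        1 - (if y ∈ crudeShift n B j then (1 : ℝ) else 0) := by
      intro j
      by_cases h : y ∈ crudeShift n B j <;> simp [fac, h]
    simp only [h3]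
    rw [Finset.sum_sub_distrib, Finset.sum_boole, crude_count hBn]
    simp only [sum_const, card_univ, Fintype.card_fin, nsmul_eq_mul, mul_one]
    simp only [Bool.false_eq_true, if_false]
    field_simp

end UpA1

open UpA1 in
theorem sUpA1 (hG : S_Geo) (hP : S_PermAvoid) : S_UpA1 := by
  intro n B M K q _ y b hB hK hBn hqB hqM hA
  have hn0 : 0 < n := Nat.pos_of_ne_zero (NeZero.ne n)
  have hn : (0 : ℝ) < n := by exact_mod_cast hn0
  have hBr : (0 : ℝ) < B := by exact_mod_cast hB
  have hBnr : (B : ℝ) ≤ n := by exact_mod_cast hBn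
  have hKr : (K : ℝ) + 1 < n := by exact_mod_cast hK
  set ρ : ℝ := (B : ℝ) / n with hρ
  have hρ0 : 0 < ρ := div_pos hBr hn
  have hρ1 : ρ ≤ 1 := (div_le_one hn).2 hBnr
  set Cn : ℝ := ((n : ℝ) / ((n : ℝ) - K - 1)) ^ (K + 1) with hCn
  have hCn0 : 0 ≤ Cn := pow_nonneg (div_nonneg hn.le (by linarith)) _
  have hfact : (0 : ℝ) < (n ! : ℝ) := by exact_mod_cast Nat.factorial_pos n
  -- the bound for one `m`
  have key : ∀ m, m ≤ M → (∑ σ : Equiv.Perm (Fin n),
      ∏ k ∈ range m, ((∑ j, fac B (typA B q σ k j) (y k) (b k)) / (n : ℝ)))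
        ≤ (n ! : ℝ) * (Cn * ∏ k ∈ range m, (if b k then (1 : ℝ) else 1 - ρ)) := by
    intro m hm
    set T : Finset ℕ := (range m).filter fun k => k < q ∧ b k = false with hT
    set P2 : ℝ := ∏ k ∈ range m, (if k < q then (1 : ℝ) else (if b k then (1 : ℝ) else 1 - ρ))
      with hP2
    have hP20 : 0 ≤ P2 := by
      refine Finset.prod_nonneg fun k _ => ?_
      split_ifs
      · exact zero_le_one
      · exact zero_le_one
      · linarith
    have e1 : ∀ σ : Equiv.Perm (Fin n),
        ∏ k ∈ range m, ((∑ j, fac B (typA B q σ k j) (y k) (b k)) / (n : ℝ))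
          = (if ∀ k ∈ T, σ (y k) ∉ (blk B k : Finset (Fin n)) then (1 : ℝ) else 0) * P2 := by
      intro σ
      have e2 : (if ∀ k ∈ T, σ (y k) ∉ (blk B k : Finset (Fin n)) then (1 : ℝ) else 0)
          = ∏ k ∈ range m, (if k < q ∧ b k = false then
              (if σ (y k) ∉ (blk B k : Finset (Fin n)) then (1 : ℝ) else 0) else 1) := by
        rw [← Finset.prod_filter, Finset.prod_boole]
      rw [e2, hP2, ← Finset.prod_mul_distrib]
      refine Finset.prod_congr rfl fun k _ => ?_
      by_cases hk : k < q
      · rw [fct_lt hB hqB hk, if_pos hk, mul_one]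
        by_cases hb : b k = false
        · simp only [hb, hk, and_self, if_true]
        · rw [if_neg hb, if_neg (fun h : k < q ∧ b k = false => hb h.2)]
      · rw [fct_ge hB hBn hk, if_neg hk]
        simp only [hk, false_and, if_false, one_mul, hρ]
    have hTq : T ⊆ range q := by
      intro k hk
      rw [hT, mem_filter] at hk
      exact mem_range.2 hk.2.1
    have hTl : (T.image y).card ≤ K + 1 := by
      refine (card_le_card (image_subset_image ?_)).trans (labels hA)
      intro k hk
      have := mem_range.1 (hTq hk)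
      exact mem_range.2 (by omega)
    have h3 := hP n B K q y T hB hK hqB hTq hTl
    have e4 : (1 - ρ) ^ T.card * P2 = ∏ k ∈ range m, (if b k then (1 : ℝ) else 1 - ρ) := by
      have e5 : (1 - ρ) ^ T.card
          = ∏ k ∈ range m, (if k < q ∧ b k = false then (1 - ρ) else 1) := by
        rw [← Finset.prod_filter, Finset.prod_const]
      rw [e5, hP2, ← Finset.prod_mul_distrib]
      refine Finset.prod_congr rfl fun k _ => ?_
      by_cases hk : k < q
      · rw [if_pos hk, mul_one]
        cases hb : b k with
        | false => simp [hk]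
        | true => simp
      · rw [if_neg hk, if_neg (fun h => hk h.1), one_mul]
    calc _ = ∑ σ : Equiv.Perm (Fin n),
          (if ∀ k ∈ T, σ (y k) ∉ (blk B k : Finset (Fin n)) then (1 : ℝ) else 0) * P2 :=
          Finset.sum_congr rfl fun σ _ => e1 σ
      _ = ((univ.filter fun σ : Equiv.Perm (Fin n) => ∀ k ∈ T, σ (y k) ∉ blk B k).card : ℝ)
            * P2 := by
          rw [← Finset.sum_mul, Finset.sum_boole]
      _ ≤ ((n ! : ℝ) * Cn * (1 - ρ) ^ T.card) * P2 :=
          mul_le_mul_of_nonneg_right h3 hP20
      _ = (n ! : ℝ) * (Cn * ((1 - ρ) ^ T.card * P2)) := by ring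
      _ = _ := by rw [e4]
  have hsum : ∑ σ : Equiv.Perm (Fin n), rnd B M (typA B q σ) y b
      ≤ (n ! : ℝ) * (Cn * ((K : ℝ) + (n : ℝ) / B)) := by
    unfold rnd
    rw [Finset.sum_comm]
    calc _ ≤ ∑ m ∈ range M,
          (n ! : ℝ) * (Cn * ∏ k ∈ range m, (if b k then (1 : ℝ) else 1 - ρ)) :=
          Finset.sum_le_sum fun m hm => key m (mem_range.1 hm).le
      _ = (n ! : ℝ) * (Cn * ∑ m ∈ range M, ∏ k ∈ range m, (if b k then (1 : ℝ) else 1 - ρ)) := by
          rw [Finset.mul_sum, Finset.mul_sum]
      _ ≤ _ := by
          refine mul_le_mul_of_nonneg_left (mul_le_mul_of_nonneg_left ?_ hCn0) hfact.le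
          have h5 := hG M K b ρ hρ0 hρ1 hA.2
          rw [hρ, one_div_div] at h5
          exact h5
  unfold pavg
  rw [div_le_iff₀ hfact, mul_comm]
  exact hsum

end MPacf82c.St
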