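import Pool.Agent.Lib.MP_acf82c_lc.S.Defs

/-!
# Stability, part A: the block game with a bonus

Every statement `S_X` is to be proved as `theorem sX : S_X` in the file `S/X.lean`, namespace
`MPacf82c.St`; the statements named after `Uses` are hypotheses of the theorem (in this order),
e.g. `theorem sY (hX : S_X) : S_Y`. Lemmas of the landed library
(`Crude`, `PermAvg`, `ProdIneq`, `Notions`, ...) can be imported.
Notation: `x_k = |L k| / B`, `a_k = 1 - x_k = am B L k`.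
-/

namespace MPacf82c.St

open Finset
open scoped Nat

/-- Independent random search. Average the inequality `hval` over the sequences
`L_c k = Λ k (c k)` (`k < M`, `= ∅` for `k ≥ M`), `c : Fin M → Fin n`: the average over `c` of the
product `∏_{k < m} f_k (c k)` (`m ≤ M`) is `∏_{k < m} ((∑ j, f_k j) / n)`
(`Finset.prod_univ_sum` for the product over `Fin M` with the factor `1` for `k ≥ m`;
`Fintype.piFinset_univ`). -/
def S_Mix : Prop := ∀ (n B M : ℕ) (ι : Type) (_ : Fintype ι) (q : ι → ℝ) (y : ι → ℕ → Fin n)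
  (b : ι → ℕ → Bool) (V : ℝ) (Λ : ℕ → Fin n → Finset (Fin n)), 0 < n → (∀ i, 0 ≤ q i) →
  (∀ L : ℕ → Finset (Fin n), (∀ k, (L k).card ≤ B) → V ≤ ∑ i, q i * payoff B M L (y i) (b i)) →
  (∀ k j, (Λ k j).card ≤ B) → V ≤ ∑ i, q i * rnd B M Λ (y i) (b i)

/-- The same with permuted labels. Uses `S_Mix`. For every `π` apply `S_Mix` to the labels
`π (y i k)`: the hypothesis holds because of `payoff_perm`. Average over `π`
(`pavg` of a constant is the constant, `Fintype.card_perm`). -/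
def S_MixP : Prop := ∀ (n B M K : ℕ) (ι : Type) (_ : Fintype ι) (q : ι → ℝ)
  (y : ι → ℕ → Fin n) (b : ι → ℕ → Bool) (V : ℝ) (Λ : ℕ → Fin n → Finset (Fin n)), 0 < n →
  IsMix n B M K q y b V → (∀ k j, (Λ k j).card ≤ B) →
  V ≤ ∑ i, q i * pavg fun π => rnd B M Λ (fun k => π (y i k)) (b i)

/-- Geometric sum with `K` free rounds. Induction on `M` (generalising `b` and `K`), splitting
off the round `0`: with `F = ∑_{m < M} ∏_{k < m} (..)` for the shifted bits, the new sum is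
`1 + F` if `b 0` (then the shifted bits have at most `K - 1` stars, `K ≥ 1`) and
`1 + (1 - ρ) F` otherwise, and `1 + (1 - ρ)(K + 1/ρ) ≤ K + 1/ρ`. (`Finset.sum_range_succ'`,
`Finset.prod_range_succ'`.) -/
def S_Geo : Prop := ∀ (M K : ℕ) (b : ℕ → Bool) (ρ : ℝ), 0 < ρ → ρ ≤ 1 →
  ((range M).filter fun k => b k = true).card ≤ K →
  ∑ m ∈ range M, ∏ k ∈ range m, (if b k then (1 : ℝ) else 1 - ρ) ≤ K + 1 / ρ

/-- Star product, upper bound. Induction on the finset `E` with the stronger claim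
`∏ (x + θ (1 - x)) ≤ A + θ C + θ² (1 - A - C)` and `0 ≤ 1 - A - C`, where `A = ∏ x`,
`C = ∑_j (1 - x_j) ∏_{k ≠ j} x_k`. Inserting a new element with `x`, `a = 1 - x`:
`(A + θ C + θ² R)(x + θ a) = A x + θ (a A + x C) + θ² (a C + x R) + θ³ a R` and
`R' = 1 - A x - a A - x C = R + a C`, `a C + x R + θ a R ≤ a C + R = R'`. -/
def S_StarUp : Prop := ∀ (E : Finset ℕ) (x : ℕ → ℝ) (θ : ℝ), (∀ k ∈ E, 0 ≤ x k) →
  (∀ k ∈ E, x k ≤ 1) → 0 ≤ θ → θ ≤ 1 →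
  ∏ k ∈ E, (x k + θ * (1 - x k)) ≤
    ∏ k ∈ E, x k + θ * ∑ j ∈ E, (1 - x j) * ∏ k ∈ E.erase j, x k + θ ^ 2

/-- Star product, lower bound. Induction on `E`. -/
def S_StarLow : Prop := ∀ (E : Finset ℕ) (x w : ℕ → ℝ), (∀ k ∈ E, 0 ≤ x k) →
  (∀ k ∈ E, 0 ≤ w k) →
  ∏ k ∈ E, x k + ∑ j ∈ E, w j * ∏ k ∈ E.erase j, x k ≤ ∏ k ∈ E, (x k + w k)

/-- The emulation against one plan. Uses `S_Geo`, `S_StarUp`. Let `e_k = ⌊θ (B - |L k|)⌋₊`.
The averaged factors `(∑ j, fac B (emu .. k j) y (b k)) / n` are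
* `k < m0`, star: `≤ (|L k| + e_k) / B ≤ x_k + θ a_k`; `k < m0`, stay: `= 0` if `y ∈ L k` and
  `= 1 - e_k / n` otherwise (`crude_count`);
* `m0 ≤ k < m1`: `fac B (L k) y (b k)`;
* `k ≥ m1`: `1` for a star (`crudeShift_card`, `B ≤ n`), `1 - B / n` for a stay.
For `m ≤ m1` the product of the first `m` factors is at most
`dm(m) * stay(m) * ∏_{stars k < m} (x_k + θ a_k [k < m0])`, and by `S_StarUp` (for the stars
`< min m m0`; the other stars have factors `x_k ≤ 1`) and `dm, stay ≤ 1` this is at most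
`dm(m) * stay(m) * xs(m) + θ ∑_{j ∈ est} a_j xsj(m, j) stay(m) + θ²`; average over `π`.
For `m > m1` the product is the one for `m1` times `∏_{m1 ≤ k < m} (1 or 1 - B/n)`; sum over
`m1 < m < M` with `S_Geo` (shifted bits, at most `K` stars). -/
def S_EmuPlan : Prop := ∀ (n B M K m0 m1 : ℕ) [NeZero n] (θ : ℝ) (L : ℕ → Finset (Fin n))
  (y : ℕ → Fin n) (b : ℕ → Bool), 0 < B → B ≤ n → 0 ≤ θ → θ ≤ 1 → m0 ≤ m1 → m1 < M →
  Adm M K y b → (∀ k, (L k).card ≤ B) →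
  pavg (fun π => rnd B M (emu B θ m0 m1 L) (fun k => π (y k)) b) ≤
    (∑ m ∈ range (m1 + 1), (dm B θ m0 L b m * base B L y b m + θ * cs B L y b m0 m + θ ^ 2)) +
      ((K : ℝ) + (n : ℝ) / B) * (base B L y b m1 + θ * cs B L y b m0 m1 + θ ^ 2)

/-- One plan in the game with bonus. Uses `S_StarLow`. For fixed `π` the product of the factors
is `stay(m) * ∏_{stars k < m} (x_k + a_k G_k(π y_k, π y_{k+1}))`, and by `S_StarLow` (for the
stars `< m`, with `w_k = a_k G_k(..)` for `k < m0` and dropping the other bonuses) it is at least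
`stay(m) xs(m) + ∑_{j ∈ est} a_j G_j(π y_j, π y_{j+1}) xsj(m, j) stay(m)`. Since
`stay(m) ≥ 1 - ∑_{k < m, stay} [π y_k ∈ L k]` and `G ≤ 1`, the average over `π` of
`G_j(π y_j, π y_{j+1}) stay(m)` is at least `avg G_j(π y_j, π y_{j+1}) - m B / n`
(`avg_single`: `P(π y_k ∈ L k) = |L k| / n ≤ B / n`), and `avg G_j(π y_j, π y_{j+1}) ≥ γ`:
`avg_pair` if `y_j ≠ y_{j+1}`, `= 1` if `y_j = y_{j+1}` (`γ ≤ 1`). (If `γ - m B / n < 0` the
claim still holds, the left terms are then nonpositive.) -/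
def S_BonusPlan : Prop := ∀ (n B m0 m : ℕ) (γ : ℝ) (L : ℕ → Finset (Fin n))
  (G : ℕ → Fin n → Fin n → ℝ) (y : ℕ → Fin n) (b : ℕ → Bool), 2 ≤ n → 0 < B → γ ≤ 1 →
  (∀ k, (L k).card ≤ B) → (∀ k, IsBonus γ (G k)) →
  base B L y b m + gs γ B L b m0 m ≤
    pavg fun π => ∏ k ∈ range m, facG B (L k) (G k) (π (y k)) (π (y (k + 1))) (b k)

/-- The base payoff is at most the payoff with bonus. All factors: `fac ≤ facG` when the bonus
is nonnegative. Also all factors are in `[0, 1]`. -/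
def S_GePay : Prop := ∀ (n B M : ℕ) (γ : ℝ) (L : ℕ → Finset (Fin n))
  (G : ℕ → Fin n → Fin n → ℝ) (y : ℕ → Fin n) (b : ℕ → Bool), 0 < B →
  (∀ k, (L k).card ≤ B) → (∀ k, IsBonus γ (G k)) →
  payoff B M L y b ≤ payoffG B M L G y b ∧ 0 ≤ payoff B M L y b ∧
    ∀ M', M ≤ M' → payoffG B M L G y b ≤ payoffG B M' L G y b

/-- Monotonicity: `base`, `sv`, and `cj` (after `j`) are nonincreasing in `m`; ranges. The factors
of `xs`, `xsj`, `stay` are in `[0, 1]`. -/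
def S_Mono : Prop := ∀ (n B : ℕ) (L : ℕ → Finset (Fin n)) (y : ℕ → Fin n) (b : ℕ → Bool),
  0 < n → 0 < B → (∀ k, (L k).card ≤ B) →
  (∀ m m', m ≤ m' → base B L y b m' ≤ base B L y b m) ∧
  (∀ m, 0 ≤ base B L y b m ∧ base B L y b m ≤ 1) ∧
  (∀ m, 0 ≤ sv L y b m ∧ sv L y b m ≤ 1) ∧
  (∀ j m, 0 ≤ xsj B L b m j ∧ xsj B L b m j ≤ 1) ∧
  (∀ j m m', j < m → m ≤ m' → cj B L y b m' j ≤ cj B L y b m j) ∧
  (∀ j m, 0 ≤ cj B L y b m j)

/-- Domination of the first order terms. Uses `S_Mono`. Exchange the sums: for a star `j < m0`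
the left side contains `θ cj(m, j)` for `j < m ≤ m1` and `T θ cj(m1, j)`, `T` the factor in the
hypothesis; as `cj(·, j)` is nonincreasing this is at most
`θ ∑_{j < m ≤ mt} cj(m, j) + θ ((m1 - mt) + T) cj(mt, j)`. The right side contains
`a_j (γ - m B / n) xsj(m, j) ≥ (3/4) γ cj(m, j)` for `j < m ≤ mt` (`sv ≤ 1`, `m B ≤ γ n / 4`).
Since `∑_{j < m ≤ mt} cj(m, j) ≥ (mt - m0) cj(mt, j)`, the hypothesis gives the claim. -/
def S_Dom : Prop := ∀ (n B m0 mt m1 : ℕ) (γ θ T : ℝ) (L : ℕ → Finset (Fin n)) (y : ℕ → Fin n)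
  (b : ℕ → Bool), 0 < n → 0 < B → (∀ k, (L k).card ≤ B) → 0 ≤ θ → 0 ≤ T → θ ≤ 3 / 4 * γ →
  m0 ≤ mt → mt ≤ m1 → (mt : ℝ) * B ≤ γ / 4 * n →
  θ * (((m1 : ℝ) - mt) + T) ≤ (3 / 4 * γ - θ) * ((mt : ℝ) - m0) →
  (∑ m ∈ range (m1 + 1), θ * cs B L y b m0 m) + T * (θ * cs B L y b m0 m1) ≤
    ∑ m ∈ range (mt + 1), gs γ B L b m0 m

/-- Damping. With `s = ∑_{k < m0, stay} e_k / n`, `e_k = ⌊θ (B - |L k|)⌋₊ ≥ θ (B - |L k|) - 1`:
`s ≥ (θ α n - m0 - θ K B) / n ≥ θ α / 2` (at most `K` stars), and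
`∏ (1 - e_k / n) ≤ 1 / (1 + s)` (for `0 ≤ u_k ≤ 1`: `∏ (1 - u_k) (1 + ∑ u_k) ≤ 1` by induction),
`1 / (1 + θα/2) ≤ 1 - θ α / 4` as `θ α ≤ 2`. For `m ≥ m0`, `dm(m) = dm(m0)`; in general
`0 ≤ dm ≤ 1`. -/
def S_Dm : Prop := ∀ (n B M K m0 : ℕ) (α θ : ℝ) (L : ℕ → Finset (Fin n)) (y : ℕ → Fin n)
  (b : ℕ → Bool), 0 < n → B ≤ n → Adm M K y b → m0 ≤ M → (∀ k, (L k).card ≤ B) → 0 ≤ θ →
  θ ≤ 1 → 0 < α → α ≤ 1 → α * n ≤ ∑ k ∈ range m0, ((B : ℝ) - (L k).card) →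
  (m0 : ℝ) ≤ θ * α * n / 4 → (K : ℝ) * B ≤ α * n / 4 →
  (∀ m, m0 ≤ m → dm B θ m0 L b m ≤ 1 - θ * α / 4) ∧ ∀ m, 0 ≤ dm B θ m0 L b m ∧
    dm B θ m0 L b m ≤ 1

/-- The gain for one plan. Uses `S_EmuPlan`, `S_BonusPlan`, `S_GePay`, `S_Mono`, `S_Dom`, `S_Dm`.
`pavg payoffG = ∑_{m < M} pavg ∏ ≥ ∑_{m < M} base(m) + ∑_{m ≤ mt} gs(m)` (for `m > mt` use
`pavg ∏ ≥ base`, which follows from the bonus being nonnegative), `mt ≤ m1 < M`. Insert
`S_EmuPlan` and `S_Dom` with `T = K + n / B`, and `dm ≤ 1 - θα/4` for `m ≥ m0`. -/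
def S_GainPlan : Prop := ∀ (n B M K m0 mt m1 : ℕ) [NeZero n] (γ α θ : ℝ)
  (L : ℕ → Finset (Fin n)) (G : ℕ → Fin n → Fin n → ℝ) (y : ℕ → Fin n) (b : ℕ → Bool),
  2 ≤ n → 0 < B → B ≤ n → γ ≤ 1 → 0 ≤ θ → θ ≤ 1 → 0 < α → α ≤ 1 → θ ≤ 3 / 4 * γ → m0 ≤ mt →
  mt ≤ m1 → m1 < M → Adm M K y b → (∀ k, (L k).card ≤ B) → (∀ k, IsBonus γ (G k)) →
  (mt : ℝ) * B ≤ γ / 4 * n →
  θ * (((m1 : ℝ) - mt) + (K + (n : ℝ) / B)) ≤ (3 / 4 * γ - θ) * ((mt : ℝ) - m0) →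
  α * n ≤ ∑ k ∈ range m0, ((B : ℝ) - (L k).card) → (m0 : ℝ) ≤ θ * α * n / 4 →
  (K : ℝ) * B ≤ α * n / 4 →
  pavg (fun π => rnd B M (emu B θ m0 m1 L) (fun k => π (y k)) b) +
      θ * α / 4 * ∑ m ∈ Icc m0 m1, base B L y b m ≤
    pavg (fun π => payoffG B M L G (fun k => π (y k)) b) +
      ((K : ℝ) + (n : ℝ) / B) * base B L y b m1 +
      θ ^ 2 * ((m1 : ℝ) + 1 + (K + (n : ℝ) / B))

/-- Pigeonhole over the scales. The intervals `(2^(r-1) R, 2^r R]`, `r = 1, ..., J`, are disjoint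
subsets of `range M`, the `r`-th contains `2^(r-1) R` numbers `m` with `f m ≥ f (2^r R)`. If all
`2^(r-1) R f (2^r R) > X / J` then the sum over `range M` would be `> X`. -/
def S_Pig : Prop := ∀ (R J M : ℕ) (f : ℕ → ℝ) (X : ℝ), 0 < R → 0 < J → 2 ^ J * R < M →
  (∀ m, 0 ≤ f m) → (∀ m m', m ≤ m' → f m' ≤ f m) → ∑ m ∈ range M, f m ≤ X →
  ∃ r, 1 ≤ r ∧ r ≤ J ∧ (2 : ℝ) ^ (r - 1) * R * f (2 ^ r * R) ≤ X / J

/-- The case of early ambush. Uses `S_MixP`, `S_EmuPlan`, `S_GainPlan`, `S_GePay`, `S_Mono`,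
`S_Pig`.
Constants: `η2 = min (γ²/40) (α/240)`, `J ≥ 1920/(η2 α)` (also `J ≥ 64`),
`η = η2 α / (80 * 2^J)`, `L0 = 2^J + 1`, `B0 ≥ 4 * 2^J / (η2 α)`, `B0 ≥ 1`,
`R0 ≥ 4 K / α, 16 / γ, K, 4`. Note `R ≤ n/B ≤ 2 R`.
Proof. `E i = pavg payoffG` of plan `i`; if `∑ q_i E_i ≥ 2 n / B` we are done. Otherwise
`Nbar(m) = ∑ q_i base_i(m)` satisfies `∑_{m < M} Nbar(m) ≤ ∑ q_i E_i ≤ 2 n / B ≤ 4 R` (`base` is
the `π`-average of the product of the factors `fac`; `S_GePay`), is nonincreasing; `S_Pig` gives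
`r` with `2^(r-1) R Nbar(2^r R) ≤ 4 R / J`, so with `T = 2^r`, `m1 = T R`:
`Nbar(m1) ≤ 8 / (J T)`. Let `θ = η2 / T`, `mt = ⌊γ R / 4⌋₊`; then `mt - m0 ≥ γ R / 8` and
`θ ((m1 - mt) + K + n/B) ≤ θ (T + 3) R ≤ γ² R / 16 ≤ (3γ/4 - θ)(mt - m0)`.
`S_MixP` with `emu` and `S_GainPlan` (multiply by `q_i` and sum):
`V + (θα/4) ∑_{Icc m0 m1} Nbar ≤ ∑ q_i E_i + (K + n/B) Nbar(m1) + θ² (m1 + 1 + K + n/B)`.
`S_MixP`, `S_EmuPlan` with `θ = 0` (so `dm ≤ 1`, `cs` disappears):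
`V ≤ ∑_{m ≤ m1} Nbar(m) + (K + n/B) Nbar(m1)`, hence
`∑_{Icc m0 m1} Nbar ≥ V - m0 - 3 R Nbar(m1) ≥ R/2 - R/16 - 24 R/(J T) ≥ R / 5`
(`V ≥ n/(2B) ≥ R/2`, `Nbar ≤ 1`). So
`∑ q_i E_i - V ≥ (R/T) (η2 α/20 - 24/J - 3 η2²) ≥ (R/T) η2 α/40 ≥ η n / B`. -/
def S_CaseB : Prop := ∀ (γ α : ℝ), 0 < γ → γ ≤ 1 → 0 < α → α ≤ 1 →
  ∃ η : ℝ, 0 < η ∧ η ≤ 1 ∧ ∃ L0 B0 : ℕ, ∀ K : ℕ, ∃ R0 : ℕ, ∀ (R n B M m0 : ℕ) (V : ℝ)
    (ι : Type) (_ : Fintype ι) (q : ι → ℝ) (y : ι → ℕ → Fin n) (b : ι → ℕ → Bool),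
    R0 ≤ R → B0 ≤ B → B * R ≤ n → n ≤ (B + 1) * R → L0 * R ≤ M → (m0 : ℝ) ≤ γ * R / 16 →
    (n : ℝ) / (2 * B) ≤ V → IsMix n B M K q y b V →
    ∀ (L : ℕ → Finset (Fin n)) (G : ℕ → Fin n → Fin n → ℝ), (∀ k, (L k).card ≤ B) →
      (∀ k, IsBonus γ (G k)) → α * n ≤ ∑ k ∈ range m0, ((B : ℝ) - (L k).card) →
      min (2 * ((n : ℝ) / B)) (V + η * ((n : ℝ) / B)) ≤
        ∑ i, q i * pavg fun π => payoffG B M L G (fun k => π (y i k)) (b i)

/-- The plan with an early star is admissible, and so is the extended plan. `Adm` for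
`catY M s u y`, `catB M s b`: for `k < s` the label is `u`; for `k > s` use `Adm M K y b` if
`k - s - 1 < M`, the label is constant afterwards. At most `K + 1` stars. (`s + 1 + M ≤ M'` is
not needed.) -/
def S_CatAdm : Prop := ∀ (n M M' K s : ℕ) (u : Fin n) (y : ℕ → Fin n) (b : ℕ → Bool),
  Adm M K y b → Adm M' (K + 1) (catY M s u y) (catB M s b) ∧ Adm M' (K + 1) (extY M y) (extB M b)

/-- The payoff of the plan with an early star. The product of the first `m` factors is, for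
`m ≤ s`, the indicator of `π u ∉ L k` for `k < m`; for `m = s + 1 + m'` it is this indicator for
`m = s` times `|L s| / B` times the product of the first `m'` factors of the plan `(y, b)` for
the shifted searcher (for `m' ≤ M`). All products are nonnegative; `s + 1 + M ≤ M'`. -/
def S_CatPay : Prop := ∀ (n B M M' s : ℕ) (u : Fin n) (L : ℕ → Finset (Fin n)) (y : ℕ → Fin n)
  (b : ℕ → Bool) (π : Equiv.Perm (Fin n)), 0 < B → (∀ k, (L k).card ≤ B) → s + 1 + M ≤ M' →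
  (∑ m ∈ range (s + 1), if ∀ k < m, π u ∉ L k then (1 : ℝ) else 0) +
      (if ∀ k < s, π u ∉ L k then (1 : ℝ) else 0) * (((L s).card : ℝ) / B) *
        payoff B M (fun k => L (k + s + 1)) (fun k => π (y k)) b ≤
    payoff B M' L (fun k => π (catY M s u y k)) (catB M s b)

/-- The extended plan has at least the same payoff: the factors of the rounds `< M` are the same
(`payoffG B M` uses `y k`, `y (k+1)` for `k < m ≤ M - 1` only), the further terms are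
nonnegative. -/
def S_ExtPay : Prop := ∀ (n B M M' : ℕ) (γ : ℝ) (L : ℕ → Finset (Fin n))
  (G : ℕ → Fin n → Fin n → ℝ) (y : ℕ → Fin n) (b : ℕ → Bool) (π : Equiv.Perm (Fin n)), 0 < B →
  (∀ k, (L k).card ≤ B) → (∀ k, IsBonus γ (G k)) → M ≤ M' →
  payoffG B M L G (fun k => π (y k)) b ≤
    payoffG B M' L G (fun k => π (extY M y k)) (extB M b)

/-- The case of little early ambush: average over the uniform label `u` and the uniform time
`s < m0` of the star. Uses `S_CatPay`. For fixed `π` and `s` sum over `u` (`π u` runs over all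
labels): `(1/n) ∑_u [∀ k < m, π u ∉ L k] ≥ 1 - m B / n`, so the average over `u` is at least
`∑_{m ≤ s} (1 - m B/n) + (1 - s B/n)(|L s|/B) ∑ q_i payoff(shifted L, π y_i) ≥
∑_{m ≤ s} (1 - m B/n) + (1 - s B/n)(|L s|/B) V`
(`IsMix.val` for the shifted searcher relabelled by `π`, `payoff_perm`; `0 ≤ V` can be assumed).
`(1 - sB/n)(|L s|/B) V ≥ (1 - sB/n) V - (1 - |L s|/B) V`. Averages over `s < m0`:
`(m0+1)/2 - (m0²-1)B/(6n) + V - (m0-1) B V/(2n) - V (∑_{s<m0} (B - |L s|))/(B m0)`. -/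
def S_CaseA : Prop := ∀ (n B M M' K m0 : ℕ) (α V : ℝ) (ι : Type) (_ : Fintype ι) (q : ι → ℝ)
  (y : ι → ℕ → Fin n) (b : ι → ℕ → Bool) (L : ℕ → Finset (Fin n)), 0 < B → B ≤ n → 0 < m0 →
  m0 * B ≤ n → 0 ≤ V → IsMix n B M K q y b V → m0 + M ≤ M' → (∀ k, (L k).card ≤ B) →
  ∑ k ∈ range m0, ((B : ℝ) - (L k).card) ≤ α * n →
  ((m0 : ℝ) + 1) / 2 - ((m0 : ℝ) ^ 2 - 1) * B / (6 * n) + V - ((m0 : ℝ) - 1) * B * V / (2 * n) -
      V * (α * n) / (B * m0) ≤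
    ∑ i, q i * ((∑ u : Fin n, ∑ s ∈ range m0, pavg fun π =>
      payoff B M' L (fun k => π (catY M s u (y i) k)) (catB M s (b i))) / ((n : ℝ) * m0))

/-- Key proposition. Uses `S_CaseB`, `S_CaseA`, `S_CatAdm`, `S_ExtPay`, `S_GePay`.
`t0 = min (γ/16) (1/40)`, `κ = 1/40`, `α = t0² κ / 96`, `m0 = ⌊t0 R⌋₊` (large, `≥ t0 R / 2`),
`κ' = t0 κ / 24`, `η3` the constant of `S_CaseB`, `ν = η3 / 4`, `η = η3 κ' / 4`.
Mixture: index type `ι ⊕ ι × Fin n × Fin m0`, weights `(1 - ν) q_i` for the plan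
`(extY M y_i, extB M b_i)` and `ν q_i / (n m0)` for `(catY M s u y_i, catB M s b_i)`, horizon
`M + R` (`m0 ≤ R`).
If `∑_{k<m0} (B - |L k|) ≥ α n`: the first part gives `(1 - ν) min (2n/B) (V + η3 n/B) ≥
V + (η3/2) n/B` (`V ≤ n/B`, `η3 ≤ 1`), the second part is nonnegative. Otherwise the first part
gives `(1 - ν) V` (`S_ExtPay`, `S_GePay`, `IsMix.val` with relabelling `payoff_perm`) and the
second part `ν (V + κ' n/B)` by `S_CaseA`: since `V ≤ (1 - κ) n/B`, `n/B ≤ 2R`, `1/R ≥ B/n`: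
`(m0+1)/2 - m0² /(6R) - (m0-1)(1-κ)/2 - 8 α R/t0 ≥ m0 (κ/2 - t0/6) - 8αR/t0 ≥ t0 κ R/12
≥ κ' n/B`. -/
def S_Key : Prop := ∀ γ : ℝ, 0 < γ → γ ≤ 1 → ∃ η : ℝ, 0 < η ∧ η ≤ 1 ∧ ∃ L0 B0 : ℕ,
  ∀ K : ℕ, ∃ R0 : ℕ, ∀ (R n B M : ℕ) (V : ℝ), R0 ≤ R → B0 ≤ B → B * R ≤ n →
    n ≤ (B + 1) * R → L0 * R ≤ M → (n : ℝ) / (2 * B) ≤ V → V ≤ (1 - 1 / 40) * ((n : ℝ) / B) →
    HiderVal n B M K V → HiderValG n B (M + R) (K + 1) γ (V + η * ((n : ℝ) / B))

/-! ### The clover constant is less than one -/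

/-- Counting permutations. Restriction to `Λ` maps the permutations in question to the
embeddings `f : Λ ↪ Fin n` with `f z ∈ A z`, whose number is at most `∏_{z ∈ Λ} |A z|`
(`Fintype.card_pi` or `Fintype.piFinset`), and every fibre has at most `(n - |Λ|)!` elements (a
permutation is determined by `f` and a bijection of the complement of `Λ` onto the complement of
the image). Or induction on `Λ`. -/
def S_PermCount : Prop := ∀ (n : ℕ) (Λ : Finset (Fin n)) (A : Fin n → Finset (Fin n)),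
  (univ.filter fun σ : Equiv.Perm (Fin n) => ∀ z ∈ Λ, σ z ∈ A z).card ≤
    (∏ z ∈ Λ, (A z).card) * (n - Λ.card)!

/-- Random order. Uses `S_PermCount`. Let `Λ` be the set of the labels `y k`, `k ∈ T`, and
`t_z = #{k ∈ T : y k = z}`, `A z` the complement of the union of the `t_z` disjoint blocks
`blk B k` (`k ∈ T`, `y k = z`, `k < q`; each has `B` elements as `q B ≤ n`), so
`|A z| = n - t_z B = n (1 - t_z B / n) ≤ n (1 - B/n)^{t_z}` (Bernoulli,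
`one_add_mul_le_pow`), `∑ t_z = |T|`. Hence the number is at most
`n^r (1 - B/n)^{|T|} (n - r)!`, `r = |Λ| ≤ K + 1`, and `n^r (n - r)! ≤ n! (n/(n - K - 1))^{K+1}`
(`n! = n (n-1) ... (n-r+1) (n-r)! ≥ (n-K-1)^r (n-r)!`). -/
def S_PermAvoid : Prop := ∀ (n B K q : ℕ) (y : ℕ → Fin n) (T : Finset ℕ), 0 < B → K + 1 < n →
  q * B ≤ n → T ⊆ range q → (T.image y).card ≤ K + 1 →
  ((univ.filter fun σ : Equiv.Perm (Fin n) => ∀ k ∈ T, σ (y k) ∉ blk B k).card : ℝ) ≤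
    (n ! : ℝ) * ((n : ℝ) / ((n : ℝ) - K - 1)) ^ (K + 1) * (1 - (B : ℝ) / n) ^ T.card

/-- Searcher of type A: in round `k < q` the labels `σ⁻¹ (blk B k)`, then random cyclic
intervals. -/
noncomputable def typA {n : ℕ} [NeZero n] (B q : ℕ) (σ : Equiv.Perm (Fin n)) (k : ℕ)
    (j : Fin n) : Finset (Fin n) :=
  if k < q then (blk B k).map σ.symm.toEmbedding else crudeShift n B j

/-- Searcher of type B: ambush in the rounds `< q`, then random cyclic intervals. -/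
noncomputable def typB {n : ℕ} [NeZero n] (B q : ℕ) (k : ℕ) (j : Fin n) : Finset (Fin n) :=
  if k < q then ∅ else crudeShift n B j

/-- Type A, every plan. Uses `S_Geo`, `S_PermAvoid`. For `m ≤ q` the product is the indicator of
`σ (y k) ∉ blk B k` for the stays `k < m` (stars have the factor `|blk| / B = 1`); the labels at
the stays `k < m` take at most `K + 1` values (they change only at stars). For `m > q` it is the
one for `q` times `∏ (1 or 1 - B/n)`. In both cases the `σ`-average is at most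
`(n/(n-K-1))^{K+1} (1 - B/n)^{number of stays < m}`; sum with `S_Geo`. -/
def S_UpA1 : Prop := ∀ (n B M K q : ℕ) [NeZero n] (y : ℕ → Fin n) (b : ℕ → Bool), 0 < B →
  K + 1 < n → B ≤ n → q * B ≤ n → q ≤ M → Adm M K y b →
  pavg (fun σ : Equiv.Perm (Fin n) => rnd B M (typA B q σ) y b) ≤
    ((n : ℝ) / ((n : ℝ) - K - 1)) ^ (K + 1) * (K + (n : ℝ) / B)

/-- Type A, plans without a star before `q`. Uses `S_Geo`. The label is `y 0` up to round `q`;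
for `m ≤ q` the `σ`-average of the product is `1 - m B / n` (`avg_single`), then the factors
`1` or `1 - B/n`. -/
def S_UpA2 : Prop := ∀ (n B M K q : ℕ) [NeZero n] (y : ℕ → Fin n) (b : ℕ → Bool), 0 < B →
  B ≤ n → q * B ≤ n → q ≤ M → Adm M K y b → (∀ k < q, b k = false) →
  pavg (fun σ : Equiv.Perm (Fin n) => rnd B M (typA B q σ) y b) ≤
    (∑ m ∈ range (q + 1), (1 - (m : ℝ) * B / n)) + (1 - (q : ℝ) * B / n) * (K + (n : ℝ) / B)

/-- Type B. Uses `S_Geo`. In general the payoff is at most `(q + 1) + (K + n/B)`; if there is a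
star before `q` the payoff is at most `q` (all products with `m > s` vanish, `s < q` the star).-/
def S_UpB : Prop := ∀ (n B M K q : ℕ) [NeZero n] (y : ℕ → Fin n) (b : ℕ → Bool), 0 < B →
  B ≤ n → Adm M K y b → rnd B M (typB B q) y b ≤ (q : ℝ) + 1 + (K + (n : ℝ) / B) ∧
    ((∃ k < q, k < M ∧ b k = true) → rnd B M (typB B q) y b ≤ q)

/-- The clover constant is less than one. Uses `S_Mix`, `S_UpA1`, `S_UpA2`, `S_UpB`.
`q = R / 2` (if `M < q` every payoff is at most `M`, fine). By `S_Mix` for every `σ` and for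
type B, `V ≤ ∑ q_i ((15/16) A_i + (1/16) B_i)`, `A_i`, `B_i` the payoffs of plan `i`.
No star before `q`: `A ≤ n/B + 1 + K - (B/n) q (q+1)/2 ≤ 0.89 n/B + K + 1`,
`B ≤ 1.5 n/B + K + 2`. Star before `q`: `A ≤ 1.001 (K + n/B)`, `B ≤ q ≤ n/(2B)`. In both cases
`(15/16) A + (1/16) B ≤ (1 - 1/40) n/B` if `R0` is large (depending on `K`; `n ≥ R0²`, and
`(n/(n-K-1))^{K+1} ≤ 1.001`). -/
def S_Upper : Prop := ∀ K : ℕ, ∃ R0 : ℕ, ∀ (R n B M : ℕ) (V : ℝ), R0 ≤ R → R0 ≤ B →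
  B * R ≤ n → n ≤ (B + 1) * R → HiderVal n B M K V → V ≤ (1 - 1 / 40) * ((n : ℝ) / B)

end MPacf82c.St
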