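import Pool.Agent.Lib.MP_acf82c_lc.S.Defs
import Pool.Agent.Lib.MP_acf82c_lc.Meeting
import Pool.Agent.Lib.MP_acf82c_lc.HubBound
import Pool.Agent.Lib.MP_acf82c_lc.GoodMoves

/-!
# Stability, part B: routes and meeting bounds

Every statement `S_X` is to be proved as `theorem sX : S_X` in the file `S/X.lean`, namespace
`MPacf82c.St`; the statements named after `Uses` are hypotheses of the theorem (in this order).
The landed library (`NetBasic`, `NetPot`, `NetFlow`, `RouteReal`, `RealImage`, `Meeting`,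
`TripRoutes`, `MoveOne`, `HubBound`, ...) can be imported; several proofs are adaptations of the
proofs there.
-/

namespace MPacf82c.St

open Set MeasureTheory
open scoped NNReal ENNReal

variable {Q : Type} [MetricSpace Q]

open Classical in
/-- Indicator. -/
noncomputable def ind (p : Prop) : ℝ := if p then 1 else 0

/-- The finite set of nodes. -/
noncomputable def nf (N : Network Q) : Finset Q := (nodes_finite N).toFinset

/-- Lower end of the potential interval of the arc `e`. -/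
noncomputable def loP (N : Network Q) (φ : Q → ℝ) (e : N.Arc) : ℝ :=
  min (φ (N.pt e 0)) (φ (N.pt e (N.len e)))

/-- Upper end of the potential interval of the arc `e`. -/
noncomputable def hiP (N : Network Q) (φ : Q → ℝ) (e : N.Arc) : ℝ :=
  max (φ (N.pt e 0)) (φ (N.pt e (N.len e)))

/-- Clamping to the interval `[a, b]`. -/
noncomputable def cl (a b x : ℝ) : ℝ := max a (min b x)

/-- The departure times for which the traveller, who is at `pt c x` at time `a + d * x` after the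
departure, meets `S` in the open arc `c` during `[t0, t1]`. -/
def imgSet (N : Network Q) (S : ℝ → Q) (t0 t1 : ℝ) (c : N.Arc) (a d : ℝ) : Set ℝ :=
  {θ | ∃ t ∈ Icc t0 t1, ∃ x ∈ Ioo 0 (N.len c), S t = N.pt c x ∧ θ = t - (a + d * x)}

/-- The bad set of a route `r` of duration `T`. -/
def badSet (S : ℝ → Q) (t0 t1 : ℝ) (r : ℝ → Q) (T : ℝ) : Set ℝ :=
  {θ : ℝ | ∃ t ∈ Icc t0 t1, θ ≤ t ∧ t ≤ θ + T ∧ S t = r (t - θ)}

/-- The route of a special trip. -/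
structure IsRt (N : Network Q) (e : N.Arc) (s : ℝ) (e' : N.Arc) (s' : ℝ) (o : Bool)
    (l : List (N.Arc × Bool)) (T : ℝ) (r : ℝ → Q) (u : Q → ℝ) (cc dd : N.Arc → ℝ)
    (c1 d1 c2 d2 : ℝ) : Prop where
  lip : LipschitzWith 1 r
  left : ∀ σ ≤ 0, r σ = N.pt e s
  right : ∀ σ, T ≤ σ → r σ = N.pt e' s'
  hdd : ∀ c, dd c = 1 ∨ dd c = -1
  hd1 : d1 = 1 ∨ d1 = -1
  hd2 : d2 = 1 ∨ d2 = -1
  pos : ∀ σ ∈ Icc 0 T,
    (r σ ∈ vis N (en N e o) l ∧ σ = u (r σ)) ∨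
    (∃ c ∈ l.map Prod.fst, ∃ x ∈ Ioo 0 (N.len c), r σ = N.pt c x ∧ σ = cc c + dd c * x) ∨
    (∃ x ∈ Ioo 0 (N.len e), r σ = N.pt e x ∧ σ = c1 + d1 * x) ∨
    (∃ x ∈ Ioo 0 (N.len e'), r σ = N.pt e' x ∧ σ = c2 + d2 * x)

/-- Special trips for all pairs of sample points on different arcs, of duration at most `Tm`;
every node and every arc is avoided by a proportion `κ` of them. -/
structure SpData (N : Network Q) {n : ℕ} (arcOf : Fin n → N.Arc) (pos : Fin n → ℝ) (Tm κ : ℝ)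
    (o o' : Fin n → Fin n → Bool) (l : Fin n → Fin n → List (N.Arc × Bool))
    (T : Fin n → Fin n → ℝ) : Prop where
  sp : ∀ i j, arcOf i ≠ arcOf j →
    IsSp N (arcOf i) (pos i) (arcOf j) (pos j) (o i j) (o' i j) (l i j) (T i j)
  le : ∀ i j, T i j ≤ Tm
  node : ∀ v, ∑ i, ∑ j ∈ Finset.univ.filter (fun j => j ≠ i),
    ind (arcOf i = arcOf j ∨ v ∈ vis N (en N (arcOf i) (o i j)) (l i j)) ≤
      (1 - κ) * ((n : ℝ) * ((n : ℝ) - 1))
  arc : ∀ c, ∑ i, ∑ j ∈ Finset.univ.filter (fun j => j ≠ i),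
    ind (arcOf i = arcOf j ∨ c ∈ (l i j).map Prod.fst) ≤ (1 - κ) * ((n : ℝ) * ((n : ℝ) - 1))

/-- Levels of the potential. By `flow`, `∑_i lam i ([e ∈ P i] + [e' ∈ P i]) > 1 = ∑ lam i`, so
some `P i` contains both arcs. Along a directed path the potential decreases: if the path is
`(e0, o0) :: l` then all arcs of `l` have both ends of potential at most the lower end of `e0`
(`RouteReal.arcs_low`); induction on the path. -/
def S_Lvl : Prop := ∀ (Q : Type) [MetricSpace Q] (N : Network Q) (D : ℝ) (a b : Q) (φ : Q → ℝ)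
  (F : N.Arc → ℝ) (m : ℕ) (lam : Fin m → ℝ) (P : Fin m → List (N.Arc × Bool)),
  IsCur N D a b φ F lam P → ∀ e e' : N.Arc, e ≠ e' → 1 < |F e| + |F e'| →
    hiP N φ e ≤ loP N φ e' ∨ hiP N φ e' ≤ loP N φ e

/-- Clamping to disjoint intervals. For `y ≤ x` the `i`-th term is the measure of
`Ioo (a i) (b i) ∩ Ioo y x`, and these sets are disjoint subsets of `Ioo y x`. -/
def S_Clamp : Prop := ∀ (ι : Type) (s : Finset ι) (a b : ι → ℝ), (∀ i ∈ s, a i ≤ b i) →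
  (∀ i ∈ s, ∀ j ∈ s, i ≠ j → b i ≤ a j ∨ b j ≤ a i) → ∀ x y : ℝ,
    ∑ i ∈ s, |cl (a i) (b i) x - cl (a i) (b i) y| ≤ |x - y|

/-- The same for derivatives: pass to the limit in the difference quotients
(`hasDerivAt_iff_tendsto_slope`, `le_of_tendsto_of_tendsto`, finite sums). -/
def S_ClampD : Prop := ∀ (ι : Type) (s : Finset ι) (f : ℝ → ℝ) (g : ι → ℝ → ℝ),
  (∀ x y : ℝ, ∑ i ∈ s, |g i x - g i y| ≤ |f x - f y|) → ∀ t : ℝ,
    (∀ i ∈ s, DifferentiableAt ℝ (g i) t) → DifferentiableAt ℝ f t →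
      ∑ i ∈ s, |deriv (g i) t| ≤ |deriv f t|

/-- Image of the time spent in one arc, factor 2. Let `τ z = infDist z (openArc c)ᶜ`
(`infDist_compl_openArc`: `τ (pt c x) = min x (len c - x)`; `TripRoutes.tent_lip`). Split the
times with `S t ∈ openArc c` into those with `x ≤ len c / 2` (where `x = τ (S t)`; this set is
measurable, the image of `[0, len c / 2]` under `pt c` being compact) and the others (where
`x = len c - τ (S t)`); on both parts `θ` is a `2`-Lipschitz function of `t`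
(`TripRoutes.image_le`). -/
def S_ImgArc : Prop := ∀ (Q : Type) [MetricSpace Q] (N : Network Q) (S : ℝ → Q),
  LipschitzWith 1 S → ∀ (t0 t1 : ℝ) (c : N.Arc) (a d : ℝ), (d = 1 ∨ d = -1) →
    volume (imgSet N S t0 t1 c a d) ≠ ⊤ ∧
    (volume (imgSet N S t0 t1 c a d)).toReal ≤ 2 * timeIn S t0 t1 (N.openArc c)

/-- Image of the time spent in an arc with current. With `f = ψ ∘ S`: `f t = φ (pt c 0) - F c * x`,
so `θ = t + (d / F c) * f t + const`; `image_measure_le` for `f` or `-f` and `|F c|`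
(`d / F c = ± 1 / |F c|`), `meeting_deriv_le`, `meeting_vol_shift`. -/
def S_ImgStr : Prop := ∀ (Q : Type) [MetricSpace Q] (N : Network Q) (φ ψ : Q → ℝ)
  (F : N.Arc → ℝ), LipschitzWith 1 ψ →
  (∀ e, ∀ s ∈ Icc 0 (N.len e), ψ (N.pt e s) = φ (N.pt e 0) - F e * s) → ∀ S : ℝ → Q,
  LipschitzWith 1 S → ∀ (t0 t1 : ℝ) (c : N.Arc) (a d : ℝ), (d = 1 ∨ d = -1) → F c ≠ 0 →
    (volume (imgSet N S t0 t1 c a d)).toReal ≤
      ∫ t in meetSet S t0 t1 (N.openArc c), (1 + d / F c * deriv (fun t => ψ (S t)) t)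

/-- Telescoping. Uses `S_Lvl`, `S_Clamp`, `S_ClampD`. Let `f = ψ ∘ S`, `g e t = cl (loP e) (hiP e)
(f t)` for `e ∈ A`, `U e = meetSet .. (openArc e)`, `Z = meetSet .. nodes`.
* On `U e` one has `deriv (g e) = deriv f` (near `t` the point `S` is in the open arc `e`, so `f`
  is in the potential interval of `e` and `g e = f` near `t`).
* On `U e'`, `e' ≠ e`, `1 < |F e| + |F e'|`: `g e` is constant near `t` (`S_Lvl`), so
  `deriv (g e) = 0`; in particular for all `e'` with `1/2 < |F e'|` (as `1/2 < |F e|`).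
* On `Z`: `deriv (g e) = 0` a.e. (`deriv_zero_of_countable_image`, `Z` has finite image).
* `∫_{t0}^{t1} deriv (g e) = g e t1 - g e t0` (`integral_deriv_lip`).
So `∫_{U e} deriv f = (g e t1 - g e t0) - ∑_{|F e'| ≤ 1/2} ∫_{U e'} deriv (g e)`. Multiply by
`κ e` and sum: `∑_{e ∈ A} |κ e| |g e t1 - g e t0| ≤ 2 |f t1 - f t0| ≤ 2 D` (`S_Clamp`, the
intervals of the arcs of `A` are disjoint by `S_Lvl`), and on `U e'` almost everywhere
`∑_{e ∈ A} |κ e| |deriv (g e)| ≤ 2 |deriv f| ≤ 2 |F e'|` (`S_ClampD`, `meeting_deriv_le`;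
Lipschitz functions are differentiable a.e.). Compare the proof of `meeting_total`. -/
def S_Tel : Prop := ∀ (Q : Type) [MetricSpace Q] (N : Network Q) (D : ℝ) (a b : Q)
  (φ ψ : Q → ℝ) (F : N.Arc → ℝ) (m : ℕ) (lam : Fin m → ℝ) (P : Fin m → List (N.Arc × Bool)),
  (∀ x y : Q, dist x y ≤ D) → IsCur N D a b φ F lam P → LipschitzWith 1 ψ →
  (∀ e, ∀ s ∈ Icc 0 (N.len e), ψ (N.pt e s) = φ (N.pt e 0) - F e * s) → ∀ S : ℝ → Q,
  LipschitzWith 1 S → ∀ (t0 t1 : ℝ), t0 ≤ t1 → ∀ (A : Finset N.Arc) (κ : N.Arc → ℝ),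
  (∀ e ∈ A, 1 / 2 < |F e|) → (∀ e ∈ A, |κ e| ≤ 2) →
    ∑ e ∈ A, κ e * ∫ t in meetSet S t0 t1 (N.openArc e), deriv (fun t => ψ (S t)) t ≤
      2 * D + ∑ e, ind (|F e| ≤ 1 / 2) * (2 * |F e| * timeIn S t0 t1 (N.openArc e))

/-- Arcs of a node-simple chain. Induction on the chain: the ends of an arc of the chain are
visited, consecutive nodes are different. -/
def S_ChainNodup : Prop := ∀ (Q : Type) [MetricSpace Q] (N : Network Q) (a b : Q)
  (l : List (N.Arc × Bool)), Chain (tl N) (hd N) a b l → (vis N a l).Nodup →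
    (l.map Prod.fst).Nodup ∧ ∀ c ∈ l.map Prod.fst,
      tl N c ≠ hd N c ∧ tl N c ∈ vis N a l ∧ hd N c ∈ vis N a l

/-- Travelling along a node-simple chain at unit speed. Uses `S_ChainNodup`. Adapt the proof of
`route_real` (`RouteReal.glue`, `RouteReal.gam`): the position at time `σ` is a visited node (and
the time is determined by the node, as the nodes are different), or in the open arc `c`, where
`σ = cc c + dd c * x`, `dd c = 1` if the arc is traversed from `tl` to `hd`, `-1` otherwise. -/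
def S_ChainCurve : Prop := ∀ (Q : Type) [MetricSpace Q] (N : Network Q) (a b : Q)
  (l : List (N.Arc × Bool)), Chain (tl N) (hd N) a b l → (vis N a l).Nodup →
    ∃ (r : ℝ → Q) (u : Q → ℝ) (cc dd : N.Arc → ℝ), LipschitzWith 1 r ∧ (∀ σ ≤ 0, r σ = a) ∧
      (∀ σ, clen N l ≤ σ → r σ = b) ∧ (∀ c, dd c = 1 ∨ dd c = -1) ∧
      ∀ σ ∈ Icc 0 (clen N l), (r σ ∈ vis N a l ∧ σ = u (r σ)) ∨
        (∃ c ∈ l.map Prod.fst, ∃ x ∈ Ioo 0 (N.len c), r σ = N.pt c x ∧ σ = cc c + dd c * x)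

/-- The route of a special trip. Uses `S_ChainCurve`. Glue the path inside `e` from `pt e s` to
the end `o` (duration `cost N e s o`), the chain curve, and the path inside `e'` from the end `o'`
to `pt e' s'` (`TripRoutes.concat`; durations are positive). -/
def S_SpCurve : Prop := ∀ (Q : Type) [MetricSpace Q] (N : Network Q) (e e' : N.Arc) (s s' : ℝ)
  (o o' : Bool) (l : List (N.Arc × Bool)) (T : ℝ), s ∈ Ioo 0 (N.len e) →
  s' ∈ Ioo 0 (N.len e') → IsSp N e s e' s' o o' l T →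
    ∃ (r : ℝ → Q) (u : Q → ℝ) (cc dd : N.Arc → ℝ) (c1 d1 c2 d2 : ℝ),
      IsRt N e s e' s' o l T r u cc dd c1 d1 c2 d2

/-- Bad set of a special trip. Uses `S_ImgArc`, `S_ImgStr`, `S_Tel`, `S_ChainNodup`. Take `ψ` from
`psi_ext`. The bad set is contained in the union of the translates `t ↦ t - u v` of
`{t : S t = v}` (`v ∈ vis`), of `imgSet .. c (cc c) (dd c)` (`c ∈ l`) and of the two sets
`imgSet .. e c1 d1`, `imgSet .. e' c2 d2`. Weak arcs (`|F c| ≤ 1/2`) and the own arcs: `S_ImgArc`.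
Strong arcs: `S_ImgStr`, `∫ (1 + κ f') = timeIn + κ ∫ f'` with `κ = dd c / F c`, `|κ| ≤ 2`, and
`S_Tel` for the strong arcs of `l`. Compare `meeting_one`. -/
def S_SpBad : Prop := ∀ (Q : Type) [MetricSpace Q] (N : Network Q) (D : ℝ) (a b : Q)
  (φ : Q → ℝ) (F : N.Arc → ℝ) (m : ℕ) (lam : Fin m → ℝ) (P : Fin m → List (N.Arc × Bool)),
  (∀ x y : Q, dist x y ≤ D) → IsCur N D a b φ F lam P → ∀ (e e' : N.Arc) (s s' : ℝ)
  (o o' : Bool) (l : List (N.Arc × Bool)) (T : ℝ), IsSp N e s e' s' o o' l T →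
  ∀ (r : ℝ → Q) (u : Q → ℝ) (cc dd : N.Arc → ℝ) (c1 d1 c2 d2 : ℝ),
  IsRt N e s e' s' o l T r u cc dd c1 d1 c2 d2 → ∀ S : ℝ → Q, LipschitzWith 1 S →
  ∀ t0 t1 : ℝ, t0 ≤ t1 →
    (volume (badSet S t0 t1 r T)).toReal ≤
      ∑ v ∈ nf N, ind (v ∈ vis N (en N e o) l) * timeIn S t0 t1 {v} +
      ∑ c, ind (c ∈ l.map Prod.fst) * ((1 + ind (|F c| ≤ 1 / 2)) *
        timeIn S t0 t1 (N.openArc c)) +
      ∑ c, ind (|F c| ≤ 1 / 2) * (2 * |F c| * timeIn S t0 t1 (N.openArc c)) + 2 * D +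
      2 * timeIn S t0 t1 (N.openArc e) + 2 * timeIn S t0 t1 (N.openArc e')

/-- Electrical trips, with the current data. This is `trip_routes` (and `flow_routes`) with
`φ`, the signed current `F`, `lam` and the paths `P` in the conclusion: copy the two proofs, the
data come from `net_flow` for the two nearest ends `a`, `b`. -/
def S_ElTrip : Prop := ∀ (Q : Type) [MetricSpace Q] (N : Network Q) (D : ℝ),
  (∀ x y : Q, dist x y ≤ D) → ∀ (e e' : N.Arc) (s s' : ℝ), s ∈ Ioo 0 (N.len e) →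
  s' ∈ Ioo 0 (N.len e') →
    ∃ (a b : Q) (φ : Q → ℝ) (F : N.Arc → ℝ) (m : ℕ) (lam : Fin m → ℝ)
      (P : Fin m → List (N.Arc × Bool)) (T : Fin m → ℝ) (r : Fin m → ℝ → Q),
      IsCur N D a b φ F lam P ∧ (∀ i, 0 ≤ T i) ∧ (∀ i, LipschitzWith 1 (r i)) ∧
      (∀ i, ∀ σ ≤ 0, r i σ = N.pt e s) ∧ (∀ i σ, T i ≤ σ → r i σ = N.pt e' s') ∧
      ∑ i, lam i * T i ≤ Real.sqrt (N.length * D) + 2 * D ∧
      ∀ S : ℝ → Q, LipschitzWith 1 S → ∀ t0 t1 : ℝ, t0 ≤ t1 →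
        ∑ i, lam i * (volume (badSet S t0 t1 (r i) (T i))).toReal ≤
        timeIn S t0 t1 N.nodes + ∑ c, |F c| * timeIn S t0 t1 (N.openArc c) + D +
          2 * timeIn S t0 t1 (N.openArc e) + 2 * timeIn S t0 t1 (N.openArc e')

/-- Random moves from random routes: the proof of `move_one` for an arbitrary finite family of
routes (uniform departure time in `[0, T0 - Γ]`; the routes with `T i > Γ` are replaced by a
fixed route `i₀` with `T i₀ ≤ Γ`, which exists because `Y < 1`). -/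
def S_MoveGen : Prop := ∀ (Q : Type) [MetricSpace Q] (m : ℕ) (lam T : Fin m → ℝ)
  (r : Fin m → ℝ → Q) (p q : Q) (T0 Γ Y : ℝ), (∀ i, 0 ≤ lam i) → ∑ i, lam i = 1 →
  (∀ i, 0 ≤ T i) → (∀ i, LipschitzWith 1 (r i)) → (∀ i, ∀ σ ≤ 0, r i σ = p) →
  (∀ i σ, T i ≤ σ → r i σ = q) → 0 < Γ → Γ < T0 → ∑ i, lam i * ind (Γ < T i) ≤ Y → Y < 1 →
    ∃ (P : Measure (ℕ × ℝ)) (mv : ℕ × ℝ → ℝ → Q),
      IsProbabilityMeasure P ∧ (∀ ω, LipschitzWith 1 (mv ω)) ∧
      (∀ ω, ∀ t ≤ 0, mv ω t = p) ∧ (∀ ω t, T0 ≤ t → mv ω t = q) ∧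
      (∀ t, @Measurable (ℕ × ℝ) Q _ (borel Q) fun ω => mv ω t) ∧
      ∀ S : ℝ → Q, LipschitzWith 1 S → ∀ t0 : ℝ,
        (P {ω | ∃ t ∈ Icc t0 (t0 + T0), S t = mv ω (t - t0)}).toReal ≤
          (∑ i, lam i * (volume (badSet S t0 (t0 + T0) (r i) (T i))).toReal) / (T0 - Γ) + Y +
            ind (∃ t ∈ Icc t0 (t0 + T0), S t = p) + ind (∃ t ∈ Icc t0 (t0 + T0), S t = q)

/-- The move for a pair with a special trip. Uses `S_ElTrip`, `S_SpCurve`, `S_SpBad`, `S_MoveGen`.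
Apply `S_MoveGen` to the `m + 1` routes: the special one with weight `1/8`, the electrical ones
with weights `(7/8) lam i`; `Y = (√(μD) + 2D)/Γ` (Markov; the special trip has `T ≤ Γ`).
Coefficients: a node has `7/8 + χ/8` (`timeIn nodes = ∑_{v ∈ nf} timeIn {v}`); an arc has
`W c = (7/8)|F c| + (1/8)([c ∈ l](1 + [|F c| ≤ 1/2]) + 2 [|F c| ≤ 1/2] |F c|)`, which is at most
`7/8 + [c ∈ l]/8` (strong: `|F c| ≤ 1`; weak: `9/16 + [c ∈ l]/4`); `∑ len c * W c ≤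
(9/8) √(μD) + clen/4 ≤ 2 √(μD) + 2 T` (the arcs of `l` are distinct: `S_ChainNodup` is not
needed if one sums `ind (c ∈ l.map Prod.fst) * len c ≤` the sum over the list); the constant is
`7/8 D + 2/8 D ≤ 3 D`. -/
def S_PairSp : Prop := ∀ (Q : Type) [MetricSpace Q] (N : Network Q) (D : ℝ),
  (∀ x y : Q, dist x y ≤ D) → ∀ (e e' : N.Arc) (s s' : ℝ), s ∈ Ioo 0 (N.len e) →
  s' ∈ Ioo 0 (N.len e') → ∀ (o o' : Bool) (l : List (N.Arc × Bool)) (T : ℝ),
  IsSp N e s e' s' o o' l T → ∀ T0 Γ : ℝ, 0 < Γ → Real.sqrt (N.length * D) + 2 * D < Γ →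
  T ≤ Γ → Γ < T0 →
    ∃ (P : Measure (ℕ × ℝ)) (mv : ℕ × ℝ → ℝ → Q) (W : N.Arc → ℝ),
      IsProbabilityMeasure P ∧ (∀ ω, LipschitzWith 1 (mv ω)) ∧
      (∀ ω, ∀ t ≤ 0, mv ω t = N.pt e s) ∧ (∀ ω t, T0 ≤ t → mv ω t = N.pt e' s') ∧
      (∀ t, @Measurable (ℕ × ℝ) Q _ (borel Q) fun ω => mv ω t) ∧
      (∀ c, 0 ≤ W c) ∧ (∀ c, W c ≤ 7 / 8 + ind (c ∈ l.map Prod.fst) / 8) ∧
      ∑ c, N.len c * W c ≤ 2 * Real.sqrt (N.length * D) + 2 * T ∧
      ∀ S : ℝ → Q, LipschitzWith 1 S → ∀ t0 : ℝ,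
        (P {ω | ∃ t ∈ Icc t0 (t0 + T0), S t = mv ω (t - t0)}).toReal ≤
          (∑ v ∈ nf N, (7 / 8 + ind (v ∈ vis N (en N e o) l) / 8) * timeIn S t0 (t0 + T0) {v} +
            ∑ c, W c * timeIn S t0 (t0 + T0) (N.openArc c) + 3 * D +
            2 * timeIn S t0 (t0 + T0) (N.openArc e) +
            2 * timeIn S t0 (t0 + T0) (N.openArc e')) / (T0 - Γ) +
          (Real.sqrt (N.length * D) + 2 * D) / Γ +
          ind (∃ t ∈ Icc t0 (t0 + T0), S t = N.pt e s) +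
          ind (∃ t ∈ Icc t0 (t0 + T0), S t = N.pt e' s')

open Classical in
/-- Averaging with a bonus (adapt `hub_bound`; `V`, `Vs` the nodes, `uv` the times spent in
them). Hub arcs: the average of `W · · e` over the ordered pairs is at least `β`. As in
`hub_bound`, with `a = 1 - |L|/B` and `X = ∑_{Vs} uv + ∑_{hub} u`:
`X ≤ (T0 - Γ) a + (Γ + 2h) + Rt/β`. For a pair put
`m i j = (∑_v (1 - χV i j v) uv v + ∑_{hub} (1 - χE i j e) u e) / X ∈ [0, 1]` (if `X = 0`: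
`m = 1`), `G i j = m i j / 8` for `i ≠ j`, `G i i = 1`. Then
`∑_v (7/8 + χV/8) uv + ∑_{hub} W u ≤ X (1 - G i j) ≤ (1 - G i j)(T0 - Γ) a + (Γ + 2h + Rt/β)`.
The sum of `m i j` over the ordered pairs is at least `κ n(n-1)`. The terms of the other arcs, the
constants and the own arcs go into `z` exactly as in `hub_bound`. -/
def S_HubG : Prop := ∀ (E V : Type) [Fintype E] (Vs : Finset V) (n : ℕ) (len u : E → ℝ)
  (uv : V → ℝ) (D h β Γ Rt κ : ℝ) (B : ℕ) (T0 : ℝ) (arcOf : Fin n → E)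
  (W χE : Fin n → Fin n → E → ℝ) (χV : Fin n → Fin n → V → ℝ) (L : Finset (Fin n)),
  2 ≤ n → T0 = h * (B - 1) → 0 < h → 0 < β → 0 < Γ → Γ < T0 → 1 ≤ B → 0 ≤ D → 0 ≤ Rt →
  0 ≤ κ → κ ≤ 1 → (∀ e, 0 < len e) → (∀ e, len e ≤ 2 * D) → (∀ e, 0 ≤ u e) →
  (∀ v ∈ Vs, 0 ≤ uv v) → ∑ v ∈ Vs, uv v + ∑ e, u e = T0 →
  (∀ e, ((Finset.univ.filter fun i => arcOf i = e).card : ℝ) * h ≤ len e) →
  (∀ i j e, 0 ≤ W i j e) → (∀ i j e, W i j e ≤ 7 / 8 + χE i j e / 8) →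
  (∀ i j e, 0 ≤ χE i j e ∧ χE i j e ≤ 1) → (∀ i j v, 0 ≤ χV i j v ∧ χV i j v ≤ 1) →
  (∀ i j, ∑ e, len e * W i j e ≤ Rt) →
  (∀ e, ∑ i, ∑ j ∈ Finset.univ.filter (fun j => j ≠ i), χE i j e ≤
    (1 - κ) * ((n : ℝ) * ((n : ℝ) - 1))) →
  (∀ v ∈ Vs, ∑ i, ∑ j ∈ Finset.univ.filter (fun j => j ≠ i), χV i j v ≤
    (1 - κ) * ((n : ℝ) * ((n : ℝ) - 1))) → L.card ≤ B →
  (∀ A : Finset E, h * (((L.filter fun i => arcOf i ∈ A).card : ℝ) - 2) ≤ ∑ e ∈ A, u e) →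
    ∃ z G : Fin n → Fin n → ℝ, (∀ i j, 0 ≤ z i j) ∧
      ∑ i, ∑ j ∈ Finset.univ.filter (fun j => j ≠ i), z i j ≤
        (n * (n - 1) : ℝ) * errN n T0 h β Γ D Rt ∧
      IsBonus (κ / 8) G ∧
      ∀ i j, i ≠ j → (∑ v ∈ Vs, (7 / 8 + χV i j v / 8) * uv v + ∑ e, W i j e * u e + D +
          2 * u (arcOf i) + 2 * u (arcOf j)) / (T0 - Γ) + (Rt + 2 * D) / Γ ≤
        (1 - G i j) * (1 - (L.card : ℝ) / B) + z i j

end MPacf82c.St
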