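import Pool.Agent.Lib.MP_acf82c_lc.S.SpecA
import Pool.Agent.Lib.MP_acf82c_lc.S.SpecB

/-!
# Stability, part C: geometry, good moves, assembly

Every statement `S_X` is to be proved as `theorem sX : S_X` in the file `S/X.lean`, namespace
`MPacf82c.St`; the statements named after `Uses` are hypotheses of the theorem (in this order).
-/

namespace MPacf82c.St

open Set MeasureTheory
open scoped NNReal ENNReal

/-! ### Walks and chains -/

/-- Short walks stay near. Induction on the walk: `dist (pt e s) (pt e u) ≤ |s - u| ≤ |s - t|`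
for `u` between `s` and `t`, and points within `L` of `pt e t` are within `|s - t| + L` of
`pt e s`. -/
def S_WalkNear : Prop := ∀ (Q : Type) [MetricSpace Q] (N : Network Q) (A : Set Q) (x y : Q)
  (L : ℝ), Walk N.len N.pt x y L → (∀ z, dist x z ≤ L → z ∈ A) → WalkIn N A x y L

/-- From a curve to a walk. Uses `S_WalkNear`. `ρ = inf dist (γ t) p > 0` on `[0, ℓ]`
(compactness); cut `[0, ℓ]` in pieces of length `< ρ`; `N.walk` between consecutive points has
length `dist ≤` the length of the piece, its points are at distance `< ρ` from the first one,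
so `≠ p`. Concatenate (first prove that `WalkIn` walks can be concatenated). -/
def S_CurveWalk : Prop := ∀ (Q : Type) [MetricSpace Q] (N : Network Q) (p : Q) (ℓ : ℝ) (x y : Q),
  0 ≤ ℓ → JoinedOff p ℓ x y → ∃ L ≤ ℓ, WalkIn N {p}ᶜ x y L

/-- From a walk to a chain. Induction on the walk with the following claim for its first point
`x` (`y = pt e' s'` the last point, `L` the length):
(a) if `x` is a node: there are `o'`, `l` with `Chain x (en N e' o') l`, `vis N x l ⊆ A`,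
`clen l + cost e' s' o' ≤ L`;
(b) if `x = pt c s`, `s` in the open arc, `c ≠ e'`: there are `o, o', l` with
`Chain (en N c o) (en N e' o') l`, `vis ⊆ A`, `cost c s o + clen l + cost e' s' o' ≤ L`;
(c) if `x = pt e' s0`, `s0` in the open arc: `|s0 - s'| ≤ L` or the conclusion of (b) for `c = e'`.
Step: the first move goes in the arc `c` from `s` to `t`. If both are interior use (b) or (c) for
the rest and `cost c s o ≤ |s - t| + cost c t o`; if `s` is interior and `t` an end use (a) and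
this end; if `s` is an end and `t` the other end prepend the arc `c` (or nothing if `t = s`); if
`s` is an end and `t` interior use (b) or (c) for the rest: if the end `o` found there is the end
`s` nothing is prepended, otherwise the arc `c` (`|s - t| + cost c t o = len c`); in the first case
of (c) take `l = []`. All nodes used are points of the walk, so in `A`. Interior points of an arc
are not nodes and determine the arc and the position (`N.simple`,
`notMem_nodes_of_mem_openArc`). -/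
def S_WalkChain : Prop := ∀ (Q : Type) [MetricSpace Q] (N : Network Q) (A : Set Q)
  (e e' : N.Arc) (s s' L : ℝ), e ≠ e' → s ∈ Ioo 0 (N.len e) → s' ∈ Ioo 0 (N.len e') →
  WalkIn N A (N.pt e s) (N.pt e' s') L →
    ∃ (o o' : Bool) (l : List (N.Arc × Bool)),
      Chain (tl N) (hd N) (en N e o) (en N e' o') l ∧ (∀ v ∈ vis N (en N e o) l, v ∈ A) ∧
      cost N e s o + clen N l + cost N e' s' o' ≤ L

/-- Splitting a chain at a visited node. Induction on the chain. -/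
def S_ChainSplit : Prop := ∀ (Q : Type) [MetricSpace Q] (N : Network Q) (a b v : Q)
  (l : List (N.Arc × Bool)), Chain (tl N) (hd N) a b l → v ∈ vis N a l →
    ∃ l₁ l₂ : List (N.Arc × Bool), l = l₁ ++ l₂ ∧ Chain (tl N) (hd N) a v l₁ ∧
      Chain (tl N) (hd N) v b l₂ ∧ (∀ w, w ∈ vis N a l ↔ w ∈ vis N a l₁ ∨ w ∈ vis N v l₂) ∧
      (vis N v l₂).Sublist (vis N a l)

/-- A chain is at least as long as the distance of its ends. -/
def S_ChainDist : Prop := ∀ (Q : Type) [MetricSpace Q] (N : Network Q) (a b : Q)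
  (l : List (N.Arc × Bool)), Chain (tl N) (hd N) a b l → dist a b ≤ clen N l

/-- Loop erasure. Uses `S_ChainSplit`. Induction on the chain `(e, o) :: l`, `a'` the second node:
take the chain `l'` of the induction hypothesis from `a'` to `b`; if `a` is not visited by it
prepend `(e, o)`, otherwise take its part from `a` on (`S_ChainSplit`). -/
def S_Erase : Prop := ∀ (Q : Type) [MetricSpace Q] (N : Network Q) (a b : Q)
  (l : List (N.Arc × Bool)), Chain (tl N) (hd N) a b l →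
    ∃ l' : List (N.Arc × Bool), Chain (tl N) (hd N) a b l' ∧ (vis N a l').Nodup ∧
      (∀ v ∈ vis N a l', v ∈ vis N a l) ∧ clen N l' ≤ clen N l

/-- Special trips from walks. Uses `S_WalkChain`, `S_Erase`. -/
def S_SpWalk : Prop := ∀ (Q : Type) [MetricSpace Q] (N : Network Q) (A : Set Q)
  (e e' : N.Arc) (s s' L : ℝ), e ≠ e' → s ∈ Ioo 0 (N.len e) → s' ∈ Ioo 0 (N.len e') →
  WalkIn N A (N.pt e s) (N.pt e' s') L →
    ∃ (o o' : Bool) (l : List (N.Arc × Bool)) (T : ℝ), IsSp N e s e' s' o o' l T ∧ T ≤ L ∧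
      ∀ v ∈ vis N (en N e o) l, v ∈ A

/-- Geodesic special trips. Uses `S_SpWalk`, `S_ChainDist`. `N.walk` is a walk in `univ` of length
`dist`; the trip has `T ≤ dist`, and `dist ≤ T` by the triangle inequality (`S_ChainDist`,
`dist (pt e s) (en N e o) ≤ cost N e s o`). -/
def S_SpGeo : Prop := ∀ (Q : Type) [MetricSpace Q] (N : Network Q) (e e' : N.Arc) (s s' : ℝ),
  e ≠ e' → s ∈ Ioo 0 (N.len e) → s' ∈ Ioo 0 (N.len e') →
    ∃ (o o' : Bool) (l : List (N.Arc × Bool)),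
      IsSp N e s e' s' o o' l (dist (N.pt e s) (N.pt e' s'))

/-- Two nodes on a geodesic trip. Uses `S_ChainSplit`, `S_ChainDist`. Split the chain at `p` and
`p'`: if `p` comes first then, with the durations `a` (up to `p`), `b` (from `p` to `p'`; positive
as `p ≠ p'`: the part is not empty) and `c` (from `p'` on), `a + b + c = dist x x'`,
`dist x p ≤ a`, `dist p' x' ≤ c`, hence `dist x p' ≥ dist x x' - c = a + b > dist x p` and
`dist x' p ≥ dist x x' - a = b + c > dist x' p'`. -/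
def S_GeoSides : Prop := ∀ (Q : Type) [MetricSpace Q] (N : Network Q) (e e' : N.Arc)
  (s s' : ℝ) (o o' : Bool) (l : List (N.Arc × Bool)), s ∈ Ioo 0 (N.len e) →
  s' ∈ Ioo 0 (N.len e') → IsSp N e s e' s' o o' l (dist (N.pt e s) (N.pt e' s')) →
  ∀ p ∈ vis N (en N e o) l, ∀ p' ∈ vis N (en N e o) l, p ≠ p' →
    (dist (N.pt e s) p < dist (N.pt e s) p' ∧ dist (N.pt e' s') p' < dist (N.pt e' s') p) ∨
    (dist (N.pt e s) p' < dist (N.pt e s) p ∧ dist (N.pt e' s') p < dist (N.pt e' s') p')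

/-! ### Counting -/

/-- Pairs on different sides. With `k` the number of `i` with `c i` there are at most
`2 k (n - k) ≤ n ^ 2 / 2` such pairs. -/
def S_TwoPts : Prop := ∀ (n : ℕ) (c : Fin n → Prop) (A : Finset (Fin n × Fin n)),
  (∀ q ∈ A, (c q.1 ∧ ¬ c q.2) ∨ (¬ c q.1 ∧ c q.2)) → 2 * (A.card : ℝ) ≤ (n : ℝ) ^ 2

open Classical in
/-- Sample points with cells: the construction of `samples`, with the additional property that
every point of an arc is at distance at most `h` (inside the arc) from a sample point (the cells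
have length `len e / m ≤ 2 h`, `m = ⌊len e / h⌋₊ ≥ 1`). -/
def S_SamplesX : Prop := ∀ (Q : Type) [MetricSpace Q] (N : Network Q) (h : ℝ), 0 < h →
  (∀ e, h ≤ N.len e) → ∀ n : ℕ, n = ∑ e, ⌊N.len e / h⌋₊ →
    ∃ (arcOf : Fin n → N.Arc) (pos : Fin n → ℝ),
      (∀ i, pos i ∈ Ioo 0 (N.len (arcOf i))) ∧
      (∀ i j, i ≠ j → h ≤ dist (N.pt (arcOf i) (pos i)) (N.pt (arcOf j) (pos j))) ∧
      (∀ i z, dist z (N.pt (arcOf i) (pos i)) < h / 2 → z ∈ N.openArc (arcOf i)) ∧
      (∀ e, ((Finset.univ.filter fun i => arcOf i = e).card : ℝ) * h ≤ N.len e) ∧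
      ∀ e, ∀ t ∈ Icc 0 (N.len e), ∃ i, arcOf i = e ∧ |t - pos i| ≤ h

/-- Sample pairs joined off a node. Uses `S_CurveWalk`. If `(t, t')` is in the set of the arcs
`e, e'` take the sample points `i`, `j` with `arcOf i = e`, `|t - pos i| ≤ h`, ...; the walk from
`pt e t` to `pt e' t'` in `{p}ᶜ` of length `≤ ℓ` is prolonged at both ends inside the arcs `e`,
`e'` (these segments avoid the node `p`: their points are interior points of the arc except
possibly `pt e t`, which is not `p`). So the sets are covered by the squares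
`[pos i - h, pos i + h] × [pos j - h, pos j + h]` of measure `4 h ^ 2` of the pairs counted (with
`arcOf i = e`, `arcOf j = e'`); outer measure is enough. -/
def S_CountJ : Prop := ∀ (Q : Type) [MetricSpace Q] (N : Network Q) (ℓ g h : ℝ) (n : ℕ)
  (arcOf : Fin n → N.Arc) (pos : Fin n → ℝ) (p : Q), p ∈ N.nodes → 0 ≤ ℓ → 0 ≤ g → 0 < h →
  (∀ i, pos i ∈ Ioo 0 (N.len (arcOf i))) →
  (∀ e, ∀ t ∈ Icc 0 (N.len e), ∃ i, arcOf i = e ∧ |t - pos i| ≤ h) → NoCentre N ℓ g →
    g * N.length ^ 2 ≤ 4 * h ^ 2 * ∑ i, ∑ j, ind (∃ L ≤ ℓ + 2 * h,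
      WalkIn N {p}ᶜ (N.pt (arcOf i) (pos i)) (N.pt (arcOf j) (pos j)) L)

open Classical in
/-- Pairs on different arcs. Uses `S_CountJ`. As `n h ≤ μ` the count is at least `g n² / 4`; the
number of the pairs on the same arc is `∑_i #{j : arcOf j = arcOf i} ≤ n * (2 D / h)`
(`len_le_two_diam`), which is at most `g n² / 8` as `D ≤ g μ / 32` and `μ ≤ 2 n h`. -/
def S_CountD : Prop := ∀ (Q : Type) [MetricSpace Q] (N : Network Q) (D ℓ g h : ℝ) (n : ℕ)
  (arcOf : Fin n → N.Arc) (pos : Fin n → ℝ) (p : Q), (∀ x y : Q, dist x y ≤ D) →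
  p ∈ N.nodes → 0 ≤ ℓ → 0 < g → 0 < h → (∀ i, pos i ∈ Ioo 0 (N.len (arcOf i))) →
  (∀ e, ((Finset.univ.filter fun i => arcOf i = e).card : ℝ) * h ≤ N.len e) →
  (∀ e, ∀ t ∈ Icc 0 (N.len e), ∃ i, arcOf i = e ∧ |t - pos i| ≤ h) → NoCentre N ℓ g →
  (n : ℝ) * h ≤ N.length → N.length ≤ 2 * (n * h) → D ≤ g * N.length / 32 →
    ∑ i, ∑ j, ind (arcOf i = arcOf j) ≤ g * (n : ℝ) ^ 2 / 8 ∧
    g * (n : ℝ) ^ 2 / 8 ≤ ∑ i, ∑ j, ind (arcOf i ≠ arcOf j ∧ ∃ L ≤ ℓ + 2 * h,
      WalkIn N {p}ᶜ (N.pt (arcOf i) (pos i)) (N.pt (arcOf j) (pos j)) L)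

/-- Choice of the special trips. Uses `S_SpWalk`, `S_SpGeo`, `S_GeoSides`, `S_TwoPts`.
Geodesic trips for all pairs on different arcs (arbitrary data with `T = 0` for the other pairs).
For nodes `p ≠ p'` at most `n²/2` of the pairs have a geodesic trip through both (`S_GeoSides`,
`S_TwoPts` with `c i : dist (x i) p < dist (x i) p'`). The pairs on the same arc are at most
`n²/16` (including `i = j`).
Case 1: every node is on at most `(7/8) n²` geodesic trips. Then these trips do: a node has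
at most `n²/16 - n + (7/8) n² ≤ (31/32) (n² - n)` pairs; an arc of a trip has two different ends,
both visited, so at most `n²/16 - n + n²/2`.
Case 2: the node `p` is on more than `(7/8) n²` geodesic trips. By the hypothesis choose
`⌊g n²/8⌋₊` of the pairs on different arcs with a walk in `{p}ᶜ` of length `≤ ℓ'`, and for them
the trip of `S_SpWalk` (avoiding `p`). `p` is avoided by at least `g n²/8 - 1 ≥ g n²/16` pairs.
Another node is on at most `g n²/8` new trips, `n²/2` geodesic trips together with `p` and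
`n²/8` geodesic trips without `p`, so `n²/16 - n + (3/4) n²` in all; an arc at most
`n²/16 - n + n²/8 + n²/2`. -/
def S_Special : Prop := ∀ (Q : Type) [MetricSpace Q] (N : Network Q) (D g ℓ' : ℝ) (n : ℕ)
  (arcOf : Fin n → N.Arc) (pos : Fin n → ℝ), (∀ x y : Q, dist x y ≤ D) → 0 < g → g ≤ 1 →
  D ≤ ℓ' → (∀ i, pos i ∈ Ioo 0 (N.len (arcOf i))) →
  ∑ i, ∑ j, ind (arcOf i = arcOf j) ≤ (n : ℝ) ^ 2 / 16 → 32 ≤ n → 16 ≤ g * n →
  (∀ p ∈ N.nodes, g * (n : ℝ) ^ 2 / 8 ≤ ∑ i, ∑ j, ind (arcOf i ≠ arcOf j ∧ ∃ L ≤ ℓ',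
      WalkIn N {p}ᶜ (N.pt (arcOf i) (pos i)) (N.pt (arcOf j) (pos j)) L)) →
    ∃ (o o' : Fin n → Fin n → Bool) (l : Fin n → Fin n → List (N.Arc × Bool))
      (T : Fin n → Fin n → ℝ), SpData N arcOf pos ℓ' (g / 32) o o' l T

/-! ### Good moves and the strategy -/

open Classical in
/-- Good moves with a bonus. Uses `S_PairSp`, `S_HubG`. Adapt `net_moves`: for `i ≠ j` on
different arcs `S_PairSp`, on the same arc `move_one` (coefficients `1`: there
`χ = ind (arcOf i = arcOf j ∨ ..) = 1`), for `i = j` the constant path. `S_HubG` with `V = Q`,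
`Vs = nf N`, `uv v = timeIn {v}` (their sum is `timeIn nodes`, `timeIn_total`), `D` replaced by
`3 * D`, `Rt = 2 √(μ D) + 2 Tm`. -/
def S_NetMovesG : Prop := ∀ (Q : Type) [MetricSpace Q] (N : Network Q) (D h β Γ κ Tm : ℝ)
  (n B : ℕ) (arcOf : Fin n → N.Arc) (pos : Fin n → ℝ) (o o' : Fin n → Fin n → Bool)
  (l : Fin n → Fin n → List (N.Arc × Bool)) (T : Fin n → Fin n → ℝ),
  (∀ x y : Q, dist x y ≤ D) → 0 < h → (∀ i, pos i ∈ Ioo 0 (N.len (arcOf i))) →
  (∀ i j, i ≠ j → h ≤ dist (N.pt (arcOf i) (pos i)) (N.pt (arcOf j) (pos j))) →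
  (∀ i z, dist z (N.pt (arcOf i) (pos i)) < h / 2 → z ∈ N.openArc (arcOf i)) →
  (∀ e, ((Finset.univ.filter fun i => arcOf i = e).card : ℝ) * h ≤ N.len e) →
  SpData N arcOf pos Tm κ o o' l T → 0 ≤ κ → κ ≤ 1 → 0 ≤ Tm → Tm ≤ Γ → 0 < β →
  Real.sqrt (N.length * D) + 2 * D < Γ → 2 ≤ n → 1 ≤ B → Γ < h * (B - 1) →
    GoodMovesG Q n B (h * (B - 1))
      (errN n (h * (B - 1)) h β Γ (3 * D) (2 * Real.sqrt (N.length * D) + 2 * Tm)) (κ / 8)

/-- The hider plays the block game with a bonus. Adapt `hider_strategy`: `S : GoodMovesG` gives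
for every block `L k`, `z k`, `G k`; with `f k = facG B (L k) (G k) (π (y k)) (π (y (k+1))) (b k)`
and `s k = 1 - P{caught}` one has, as there, `f k - s k ≤ hsErr` (for a star with
`y k = y (k+1)`: `f k = 1` as `G p p = 1`). The average over `π` of the payoffs is at least
`V` for the mixture by the definition of `HiderValG` (no relabelling needed). -/
def S_HStrG : Prop := ∀ (Q : Type) [MetricSpace Q] (n B M K : ℕ) (T0 err γ V : ℝ), 0 < T0 →
  0 < B → 2 ≤ n → 0 ≤ err → GoodMovesG Q n B T0 err γ → HiderValG n B M K γ V →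
  ∀ (w : ℝ≥0), 1 ≤ w → ∀ O : Q,
    HiderGuarantees w O (ENNReal.ofReal (T0 * (V - 1 - M * K * (err + 2 * B / n))))

/-- Monotonicity of the error. -/
def S_ErrMono : Prop := ∀ (n : ℕ) (T0 h β Γ D D' Rt Rt' : ℝ), 0 < n → 0 < h → 0 < β → 0 < Γ →
  Γ < T0 → D ≤ D' → Rt ≤ Rt' → errN n T0 h β Γ D Rt ≤ errN n T0 h β Γ D' Rt'

/-- Small spacing. See the proof of `two_sided_aux` (`samples_count`); `h0` is the minimum of
finitely many positive numbers: the minimal length of an arc, `μ/(n2 + c)` for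
`n2 = (n1 + 3) * (R + 1)`, `μ / (2 (c + 2R))`, `μ / (n1 + 1)`, `c` the number of arcs. -/
def S_HSmall : Prop := ∀ (Q : Type) [MetricSpace Q] (N : Network Q), 0 < N.length →
  ∀ R n1 : ℕ, 3 ≤ R → ∃ h0 : ℝ, 0 < h0 ∧ ∀ h : ℝ, 0 < h → h ≤ h0 → ∀ n B : ℕ,
    n = ∑ e, ⌊N.len e / h⌋₊ → B = n / R →
      (∀ e, h ≤ N.len e) ∧ n1 ≤ n ∧ n1 ≤ B ∧ B * R ≤ n ∧ n ≤ (B + 1) * R ∧
      (n : ℝ) * h ≤ N.length ∧ N.length ≤ ((n : ℝ) + Fintype.card N.Arc) * h ∧
      N.length ≤ 2 * (n * h) ∧ N.length / (2 * R) ≤ h * (B - 1) ∧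
      h * (B - 1) ≤ N.length / R ∧ (n1 : ℝ) * h ≤ N.length

/-- Good moves in a network without a centre. Uses `S_SamplesX`, `S_CountD`, `S_Special`,
`S_NetMovesG`, `S_ErrMono`, `S_HSmall`. `μ` the length, `D = δ μ`, `ℓ = δ μ`, `ℓ' = Tm = 2 δ μ`
(`2 h ≤ δ μ` for small `h`), `β = γ`, `Γ = γ μ`, `κ = g/32`; `S_HSmall` with
`n1 ≥ 32, 16/g, 3/γ, 2/δ, 3`. `S_CountD` applies as `D = δ μ ≤ g μ / 32`, and
`∑∑ ind (arcOf i = arcOf j) ≤ g n²/8 ≤ n²/16` as `g ≤ 1/2`. Then `3 D ≤ γ⁴ μ`,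
`2 √(μ D) + 2 Tm = 2 √δ μ + 4 δ μ ≤ γ² μ` as `δ ≤ γ⁴/36`, so by `S_ErrMono` and `err_arith`
the error is at most `87 R γ`; `GoodMovesG` is monotone in the error. -/
def S_NetG : Prop := ∀ g : ℝ, 0 < g → g ≤ 1 / 2 → ∀ R : ℕ, 3 ≤ R → ∀ γ δ : ℝ, 0 < γ →
  γ ≤ 1 / (4 * (R : ℝ)) → 0 < δ → δ ≤ γ ^ 4 / 36 → δ ≤ g / 32 →
  ∀ (Q : Type) [MetricSpace Q] (N : Network Q), (∀ x y : Q, dist x y ≤ δ * N.length) →
  NoCentre N (δ * N.length) g → 0 < N.length →
    ∃ h0 : ℝ, 0 < h0 ∧ ∀ h : ℝ, 0 < h → h ≤ h0 → ∀ n B : ℕ, n = ∑ e, ⌊N.len e / h⌋₊ →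
      B = n / R → GoodMovesG Q n B (h * (B - 1)) (87 * R * γ) (g / 256)

/-! ### Assembly -/

/-- `v_w(C_n) ≤ x n` for all clovers with `n` leaves and all `w ≥ 1` (this is `Upper`). -/
def Up (n : ℕ) (x : ℝ) : Prop :=
  ∀ (Q : Type) [MetricSpace Q] (N : Network Q) (O : Q), IsClover N O n → ∀ w : ℝ≥0, 1 ≤ w →
    SearcherGuarantees w O (ENNReal.ofReal (x * n))

/-- `v_w(C_n) ~ c n` for every `w ≥ 1`. -/
def CloverC (c : ℝ) : Prop :=
  ∀ ε : ℝ, 0 < ε → ∃ n₀ : ℕ, ∀ n : ℕ, n₀ ≤ n →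
    ∀ (Q : Type) [MetricSpace Q] (N : Network Q) (O : Q), IsClover N O n →
    ∀ w : ℝ≥0, 1 ≤ w →
      HiderGuarantees w O (ENNReal.ofReal ((c - ε) * n)) ∧
      SearcherGuarantees w O (ENNReal.ofReal ((c + ε) * n))

/-- The searcher part. This is the part `upper bound` of the proof of `two_sided_aux`
(`clover_upper`, `upper_arith`), where `K` depends on `ε` and `L` only. -/
def S_UpPart : Prop := ∀ ε : ℝ, 0 < ε → ε ≤ 1 → ∀ L : ℕ, 30 / ε ≤ (L : ℝ) → ∃ K : ℕ, 1 ≤ K ∧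
  ∀ R n B : ℕ, 3 ≤ R → B = n / R → 2 * (R : ℝ) * (3 + 12 / ε) ≤ n → ∀ V : ℝ,
    SearcherVal n B (L * R) K V → (n : ℝ) / (2 * B) ≤ V → V ≤ 2 * n / B →
      Up n ((B : ℝ) / n * V + ε)

/-- Lower bound of the clovers. `weak_duality` for `w = 1` on a clover with `n` leaves
(`exists_clover`, `clover_length`). -/
def S_CloverLow : Prop := ∀ c : ℝ, CloverC c → ∀ ε : ℝ, 0 < ε → ∃ n0 : ℕ, ∀ n : ℕ, n0 ≤ n →
  ∀ y : ℝ, 0 ≤ y → Up n y → c - ε ≤ y

/-- The theorem. Uses `S_Key`, `S_Upper`, `S_NetG`, `S_HStrG`, `S_HSmall`, `S_UpPart`,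
`S_CloverLow`. Replace `g` by `min g (1/2)` (`NoCentre` is monotone). `S_Key (g/256)` gives
`η4 ≤ 1`, `L0`, `B0`; `ε = η4/4`; `L ≥ 30/ε`, `L ≥ L0`; `K` from `S_UpPart`; `R` at least the two
`R0` of `S_Key`, `S_Upper` for `K`, `3`, and `3 (1 + 2 (L+1)(K+1)) / ε`; `M = L * R`;
`γ = min (1/(4R)) (ε / (261 R (L+1)(K+1)))`; `δ = min (γ⁴/36) (g/32)`; `η = ε`.
For the network: `h` at most the `h0` of `S_NetG` and of `S_HSmall` with `n1` large (at least
`2 R (3 + 12/ε)`, the `n0` of `S_CloverLow c ε`, `B0`, `R0`, `2`, `3 (2c' + 4R)/ε` with `c'` the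
number of arcs). `block_game` gives `V` with `SearcherVal`, `HiderVal` (`M` rounds, `K` stars),
`stationary`: `n/(2B) ≤ V`; `x = B/n * V`. `S_UpPart`, `S_CloverLow`: `c - ε ≤ x + ε`.
`S_Upper`: `V ≤ (1 - 1/40) n/B`; `S_Key`: `HiderValG n B (M + R) (K + 1) (g/256) V'`,
`V' = V + η4 n/B`, `x' = B/n * V' = x + η4 ≤ 2`. `S_HStrG` and `lower_arith` (with `L + 1`,
`K + 1`, `V'`, `x'`, `err = 87 R γ`): the guarantee is at least
`(x' - ε) μ ≥ (c - 2 ε + η4 - ε) μ = (c + ε) μ`. -/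
def S_Final : Prop := ∀ c : ℝ, CloverC c → ∀ g : ℝ, 0 < g → ∃ δ : ℝ, 0 < δ ∧ ∃ η : ℝ, 0 < η ∧
  ∀ (Q : Type) [MetricSpace Q] (N : Network Q) (O : Q),
    (∀ x y : Q, dist x y ≤ δ * N.length) → NoCentre N (δ * N.length) g →
    ∀ w : ℝ≥0, 1 ≤ w → HiderGuarantees w O (ENNReal.ofReal ((c + η) * N.length))

end MPacf82c.St
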