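import Pool.Agent.Lib.MP_acf82c_lc.S.SpecC
import Pool.Agent.Lib.MP_acf82c_lc.CloverModel
import Pool.Agent.Lib.MP_acf82c_lc.WeakDuality

/-!
MP_acf82c_lc, Theorem S, module CloverLow: lower bound of the clovers.
-/

open scoped NNReal ENNReal

namespace MPacf82c.St

theorem sCloverLow : S_CloverLow := by
  intro c hc ε hε
  obtain ⟨n₀, hn₀⟩ := hc ε hε
  refine ⟨max n₀ 1, fun n hn y hy hup => ?_⟩
  have hn1 : 1 ≤ n := (le_max_right _ _).trans hn
  have hn2 : n₀ ≤ n := (le_max_left _ _).trans hn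
  obtain ⟨Q, i, N, O, hC⟩ := exists_clover n hn1
  have h1 := (hn₀ n hn2 Q N O hC 1 le_rfl).1
  have h2 := hup Q N O hC 1 le_rfl
  have h3 := weak_duality N h1 h2
  have hnpos : (0 : ℝ) < n := by exact_mod_cast hn1
  rw [ENNReal.ofReal_le_ofReal_iff (by positivity)] at h3
  exact le_of_mul_le_mul_right h3 hnpos

end MPacf82c.St
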