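import Pool.Agent.Lib.MP_acf82c_lc.S.SpecA

set_option autoImplicit false

namespace MPacf82c.St

open Finset
open scoped Nat

private theorem PermCount_fix {n : ℕ} (Λ : Finset (Fin n)) :
    (univ.filter fun σ : Equiv.Perm (Fin n) => ∀ z ∈ Λ, σ z = z).card ≤ (n - Λ.card)! := by
  classical
  have h1 : (univ.filter fun σ : Equiv.Perm (Fin n) => ∀ z ∈ Λ, σ z = z).card
      = Fintype.card {f : Equiv.Perm (Fin n) // ∀ a, ¬ (a ∉ Λ) → f a = a} := by
    rw [Fintype.card_subtype]
    congr 1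
    ext σ
    simp only [mem_filter, mem_univ, true_and, not_not]
  have h2 : Fintype.card {f : Equiv.Perm (Fin n) // ∀ a, ¬ (a ∉ Λ) → f a = a}
      = Fintype.card (Equiv.Perm {a : Fin n // a ∉ Λ}) :=
    Fintype.card_congr (Equiv.Perm.subtypeEquivSubtypePerm fun a : Fin n => a ∉ Λ).symm
  have h3 : Fintype.card {a : Fin n // a ∉ Λ} = n - Λ.card := by
    rw [Fintype.card_subtype]
    have : (univ.filter fun a : Fin n => a ∉ Λ) = Λᶜ := by
      ext a; simp
    rw [this, card_compl, Fintype.card_fin]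
  rw [h1, h2, Fintype.card_perm, h3]

theorem sPermCount : S_PermCount := by
  classical
  intro n Λ A
  have hmap : ∀ σ ∈ (univ.filter fun σ : Equiv.Perm (Fin n) => ∀ z ∈ Λ, σ z ∈ A z),
      (fun z (_ : z ∈ Λ) => σ z) ∈ Λ.pi A := by
    intro σ hσ
    rw [mem_filter] at hσ
    rw [Finset.mem_pi]
    exact hσ.2
  have hfib : ∀ f ∈ Λ.pi A, ((univ.filter fun σ : Equiv.Perm (Fin n) => ∀ z ∈ Λ, σ z ∈ A z).filter
      fun σ => (fun z (_ : z ∈ Λ) => σ z) = f).card ≤ (n - Λ.card)! := by
    intro f _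
    rcases ((univ.filter fun σ : Equiv.Perm (Fin n) => ∀ z ∈ Λ, σ z ∈ A z).filter
      fun σ => (fun z (_ : z ∈ Λ) => σ z) = f).eq_empty_or_nonempty with h | ⟨τ, hτ⟩
    · rw [h]; simp
    · rw [mem_filter] at hτ
      refine le_trans (Finset.card_le_card_of_injOn (fun σ => τ⁻¹ * σ) ?_ ?_) (PermCount_fix Λ)
      · intro σ hσ
        rw [Finset.mem_coe, mem_filter] at hσ
        rw [Finset.mem_coe, mem_filter]
        refine ⟨mem_univ _, fun z hz => ?_⟩
        have h1 : σ z = τ z := by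
          have := congrFun (congrFun (hσ.2.trans hτ.2.symm) z) hz
          exact this
        show (τ⁻¹ : Equiv.Perm (Fin n)) (σ z) = z
        rw [h1]
        exact Equiv.symm_apply_apply τ z
      · intro σ _ σ' _ h
        exact mul_left_cancel h
  have h := Finset.card_le_mul_card_image_of_maps_to hmap (n - Λ.card)! hfib
  rw [Finset.card_pi] at h
  rw [mul_comm]
  exact h

end MPacf82c.St
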