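import Pool.Agent.Lib.MP_acf82c_lc.S.SpecC
import Pool.Agent.Lib.MP_acf82c_lc.CloverUpper
import Pool.Agent.Lib.MP_acf82c_lc.Arith

/-!
# Stability: the searcher part
-/

namespace MPacf82c.St

open Set MeasureTheory
open scoped NNReal ENNReal

theorem sUpPart : S_UpPart := by
  intro ε hε hε1 L hL
  obtain ⟨η, hη⟩ : ∃ η : ℝ, η = ε / 12 := ⟨_, rfl⟩
  have hη0 : 0 < η := by rw [hη]; positivity
  have hηinv : 1 / η = 12 / ε := by
    rw [hη]
    field_simp
  have hL30 : (30 : ℝ) ≤ L := by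
    refine le_trans ?_ hL
    rw [le_div_iff₀ hε]; nlinarith
  have hL0 : (0 : ℝ) < L := by linarith
  obtain ⟨K, hK1, hK⟩ : ∃ K : ℕ, 1 ≤ K ∧ (1 / (1 + η)) ^ K ≤ η / L := by
    have h1 : 1 / (1 + η) < 1 := by rw [div_lt_one (by linarith)]; linarith
    obtain ⟨k, hk⟩ := exists_pow_lt_of_lt_one (show (0 : ℝ) < η / L by positivity) h1
    refine ⟨k + 1, by omega, ?_⟩
    rw [pow_succ]
    have h2 : (0 : ℝ) ≤ (1 / (1 + η)) ^ k := by positivity
    have h3 : (1 / (1 + η)) ^ k * (1 / (1 + η)) ≤ (1 / (1 + η)) ^ k * 1 :=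
      mul_le_mul_of_nonneg_left h1.le h2
    linarith
  refine ⟨K, hK1, ?_⟩
  intro R n B hR3n hB hnbig0 V hSV hstat hVn
  have hR3 : (3 : ℝ) ≤ R := by exact_mod_cast hR3n
  have hR0 : (0 : ℝ) < R := by linarith
  have hnbig : 2 * (R : ℝ) * (3 + 1 / η) ≤ n := by rw [hηinv]; exact hnbig0
  have hn0 : (0 : ℝ) < n := lt_of_lt_of_le (by positivity) hnbig
  have hn6 : 6 * (R : ℝ) ≤ n := by
    have : 0 ≤ 2 * (R : ℝ) * (1 / η) := by positivity
    nlinarith
  have hRn : 0 < R := by exact_mod_cast hR0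
  have hBR : B * R ≤ n := by rw [hB]; exact Nat.div_mul_le_self _ _
  have hBR' : n < (B + 1) * R := by
    rw [hB]; have := Nat.lt_div_mul_add (a := n) hRn; nlinarith
  have hBRr : (B : ℝ) * R ≤ n := by exact_mod_cast hBR
  have hBRr' : (n : ℝ) < (B + 1) * R := by exact_mod_cast hBR'
  have hB5 : (5 : ℝ) < B + 0 := by nlinarith
  have hBη : 1 / η ≤ B := by
    have : 2 * (3 + 1 / η) < (B + 1 : ℝ) := by
      by_contra hcon
      push Not at hcon
      nlinarith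
    have : 0 < 1 / η := by positivity
    linarith
  have hB2 : 2 ≤ B := by
    have : (2 : ℝ) ≤ B := by linarith
    exact_mod_cast this
  have hB0 : (0 : ℝ) < B := by linarith
  have hnB2 : (n : ℝ) ≤ 2 * R * B := by nlinarith
  have hBn1 : (B : ℝ) / n ≤ 1 / R := by
    rw [div_le_div_iff₀ hn0 hR0]; linarith
  obtain ⟨M, hM⟩ : ∃ M : ℕ, M = L * R := ⟨_, rfl⟩
  have hMr : (M : ℝ) = L * R := by rw [hM]; push_cast; ring
  have hM0 : 0 < M := by
    have : (0 : ℝ) < M := by rw [hMr]; positivity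
    exact_mod_cast this
  rw [← hM] at hSV
  obtain ⟨x, hx⟩ : ∃ x : ℝ, x = B / n * V := ⟨_, rfl⟩
  rw [← hx]
  have hx2 : x ≤ 2 := by
    rw [hx]
    calc (B : ℝ) / n * V ≤ B / n * (2 * n / B) := by gcongr
      _ = 2 := by field_simp
  have hV1 : 1 ≤ V := by
    refine le_trans ?_ hstat
    rw [le_div_iff₀ (by positivity)]
    nlinarith
  have hV4 : V ≤ 4 * R := by
    refine hVn.trans ?_
    rw [div_le_iff₀ hB0]; nlinarith
  intro Q' _ N' O' hC w hw
  obtain ⟨B', hB'⟩ : ∃ B' : ℕ, B' = B + ⌈η * B⌉₊ := ⟨_, rfl⟩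
  have hceil : (⌈η * B⌉₊ : ℝ) < η * B + 1 := Nat.ceil_lt_add_one (by positivity)
  have hceil' : η * B ≤ (⌈η * B⌉₊ : ℝ) := Nat.le_ceil _
  have hB'r : (B' : ℝ) = B + ⌈η * B⌉₊ := by rw [hB']; push_cast; ring
  have hBB' : (B' : ℝ) ≤ (1 + 2 * η) * B := by
    rw [div_le_iff₀ hη0] at hBη
    rw [hB'r]; linarith
  have hBB'' : (1 + η) * B ≤ (B' : ℝ) := by rw [hB'r]; linarith
  have hB'0 : (0 : ℝ) < B' := lt_of_lt_of_le (by positivity) hBB''
  have hκ : (B : ℝ) / B' ≤ 1 / (1 + η) := by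
    rw [div_le_div_iff₀ hB'0 (by linarith)]; linarith
  have hq : ((B : ℝ) / B') ^ K ≤ η / L := (pow_le_pow_left₀ (by positivity) hκ K).trans hK
  have hq0 : 0 ≤ ((B : ℝ) / B') ^ K := by positivity
  have hη1 : η ≤ 1 / 12 := by rw [hη]; linarith
  have hMr0 : (0 : ℝ) < M := by exact_mod_cast hM0
  have hVM : (V + M * ((B : ℝ) / B') ^ K) / M ≤ 5 / L := by
    rw [div_le_iff₀ hMr0]
    have : (M : ℝ) * ((B : ℝ) / B') ^ K ≤ M * (1 / L) := by
      have : η / L ≤ 1 / L := by gcongr; linarith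
      gcongr; exact hq.trans this
    have h5 : 5 / (L : ℝ) * M = 5 * R := by rw [hMr]; field_simp
    have h6 : (M : ℝ) * (1 / L) = R := by rw [hMr]; field_simp
    rw [h5]; linarith
  have hlt : V + M * ((B : ℝ) / B') ^ K < M := by
    have hVM' := hVM
    rw [div_le_iff₀ hMr0] at hVM'
    have h5 : 5 / (L : ℝ) * M = 5 * R := by rw [hMr]; field_simp
    rw [h5] at hVM'
    have h6 : 5 * (R : ℝ) < M := by rw [hMr]; nlinarith
    linarith
  have hup := clover_upper hC (B' := B') (by omega) (by omega) hM0 hSV (by linarith) hlt w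
  have harith := upper_arith (L := L) (q := ((B : ℝ) / B') ^ K) hε hε1 hη hL hn0 hB0
    hB'0.le hBB' (by linarith : (0 : ℝ) ≤ V) hx hx2 hq0 ?_ (by exact_mod_cast hM0) hVM
  · obtain ⟨Ω, m1, P, S, hP, hS0, hS1, hS2, hS3⟩ := hup
    exact ⟨Ω, m1, P, S, hP, hS0, hS1, hS2, fun H hH =>
      (hS3 H hH).trans (ENNReal.ofReal_le_ofReal harith)⟩
  · calc (B : ℝ) / n * (M * ((B : ℝ) / B') ^ K) ≤ 1 / R * (L * R * (η / L)) := by
          rw [hMr]; gcongr
      _ = η := by field_simp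

end MPacf82c.St
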