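import Pool.Agent.Lib.MP_acf82c_lc.S.SpecA
import Pool.Agent.Lib.MP_acf82c_lc.PermAvg

/-!
# One plan in the game with bonus (helper26)
-/

namespace MPacf82c.St

open Finset

namespace BonusPlan

theorem pavg_mono {n : ℕ} {f g : Equiv.Perm (Fin n) → ℝ} (h : ∀ π, f π ≤ g π) :
    pavg f ≤ pavg g := by
  unfold pavg
  apply div_le_div_of_nonneg_right _ (by positivity)
  exact sum_le_sum fun π _ => h π

theorem pavg_add {n : ℕ} (f g : Equiv.Perm (Fin n) → ℝ) :
    pavg (fun π => f π + g π) = pavg f + pavg g := by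
  unfold pavg
  rw [sum_add_distrib, add_div]

theorem pavg_sub {n : ℕ} (f g : Equiv.Perm (Fin n) → ℝ) :
    pavg (fun π => f π - g π) = pavg f - pavg g := by
  unfold pavg
  rw [sum_sub_distrib, sub_div]

theorem pavg_mul {n : ℕ} (c : ℝ) (f : Equiv.Perm (Fin n) → ℝ) :
    pavg (fun π => c * f π) = c * pavg f := by
  unfold pavg
  rw [← mul_sum, mul_div_assoc]

theorem pavg_sum {n : ℕ} {ι : Type} (s : Finset ι) (f : ι → Equiv.Perm (Fin n) → ℝ) :
    pavg (fun π => ∑ i ∈ s, f i π) = ∑ i ∈ s, pavg (f i) := by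
  unfold pavg
  rw [sum_comm, sum_div]

theorem pavg_const {n : ℕ} (c : ℝ) : pavg (fun _ : Equiv.Perm (Fin n) => c) = c := by
  unfold pavg
  rw [sum_const, card_univ, Fintype.card_perm, Fintype.card_fin, nsmul_eq_mul]
  have : (n.factorial : ℝ) ≠ 0 := by positivity
  field_simp

theorem stay_range {n : ℕ} (L : ℕ → Finset (Fin n)) (y : ℕ → Fin n) (b : ℕ → Bool) (m : ℕ)
    (π : Equiv.Perm (Fin n)) : 0 ≤ stay L y b m π ∧ stay L y b m π ≤ 1 ∧
      1 - stay L y b m π ≤ ∑ k ∈ range m, (if π (y k) ∈ L k then (1 : ℝ) else 0) := by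
  unfold stay
  induction m with
  | zero => simp
  | succ m ih =>
    obtain ⟨h1, h2, h3⟩ := ih
    rw [prod_range_succ, sum_range_succ]
    by_cases hb : b m = true
    · simp only [hb, if_true, mul_one]
      refine ⟨h1, h2, ?_⟩
      have : (0 : ℝ) ≤ if π (y m) ∈ L m then 1 else 0 := by split_ifs <;> norm_num
      linarith
    · simp only [hb, if_false, Bool.false_eq_true]
      by_cases hm : π (y m) ∈ L m
      · simp only [hm, if_true, mul_zero]
        refine ⟨le_refl _, by norm_num, ?_⟩
        have : (0 : ℝ) ≤ ∑ k ∈ range m, (if π (y k) ∈ L k then (1 : ℝ) else 0) :=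
          sum_nonneg fun k _ => by split_ifs <;> norm_num
        linarith
      · simp only [hm, if_false, mul_one]
        exact ⟨h1, h2, by linarith⟩

theorem avg_hit {n : ℕ} (hn : 0 < n) (i : Fin n) (Λ : Finset (Fin n)) :
    pavg (fun π : Equiv.Perm (Fin n) => if π i ∈ Λ then (1 : ℝ) else 0) = (Λ.card : ℝ) / n := by
  unfold pavg
  rw [avg_single (fun a => if a ∈ Λ then (1 : ℝ) else 0) i]
  have h1 : ∑ a : Fin n, (if a ∈ Λ then (1 : ℝ) else 0) = Λ.card := by
    simp
  rw [h1]
  have h2 : (n.factorial : ℝ) ≠ 0 := by positivity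
  have h3 : (n : ℝ) ≠ 0 := by positivity
  field_simp

theorem avg_bonus {n : ℕ} (hn : 2 ≤ n) {γ : ℝ} (hγ : γ ≤ 1) {G : Fin n → Fin n → ℝ}
    (hG : IsBonus γ G) (i j : Fin n) :
    γ ≤ pavg (fun π : Equiv.Perm (Fin n) => G (π i) (π j)) := by
  by_cases hij : i = j
  · subst hij
    have : (fun π : Equiv.Perm (Fin n) => G (π i) (π i)) = fun _ => (1 : ℝ) := by
      funext π
      exact hG.diag _
    rw [this, pavg_const]
    exact hγ
  · unfold pavg
    rw [avg_pair G hij]
    have h2 : (0 : ℝ) < n.factorial := by positivity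
    have h3 : (0 : ℝ) < n := by
      have : 0 < n := by omega
      exact_mod_cast this
    have h4 : (0 : ℝ) < (n : ℝ) - 1 := by
      have : (2 : ℝ) ≤ n := by exact_mod_cast hn
      linarith
    have h5 := hG.sum
    have h6 : (n.factorial : ℝ) / (n * (n - 1)) *
        (∑ a, ∑ c ∈ univ.filter (fun c => c ≠ a), G a c) / n.factorial =
        (∑ a, ∑ c ∈ univ.filter (fun c => c ≠ a), G a c) / (n * (n - 1)) := by
      field_simp
    rw [h6, le_div_iff₀ (by positivity)]
    exact h5

end BonusPlan

open BonusPlan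

theorem sBonusPlan (hSL : S_StarLow) : S_BonusPlan := by
  classical
  intro n B m0 m γ L G y b hn hB hγ hL hG
  have hBr : (0 : ℝ) < B := by exact_mod_cast hB
  have hnr : (0 : ℝ) < n := by
    have : 0 < n := by omega
    exact_mod_cast this
  have hx0 : ∀ k, (0 : ℝ) ≤ ((L k).card : ℝ) / B := fun k => by positivity
  have hx1 : ∀ k, ((L k).card : ℝ) / B ≤ 1 := fun k => by
    rw [div_le_one hBr]
    exact_mod_cast hL k
  have ha0 : ∀ k, 0 ≤ am B L k := fun k => by
    unfold am
    linarith [hx1 k]
  have hxsj0 : ∀ j, 0 ≤ xsj B L b m j := fun j => by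
    unfold xsj
    apply prod_nonneg
    intro k _
    split_ifs
    · exact hx0 k
    · norm_num
  -- pointwise
  have hpt : ∀ π : Equiv.Perm (Fin n), xs B L b m * stay L y b m π +
      ∑ j ∈ est b m0 m, am B L j * xsj B L b m j *
        (G j (π (y j)) (π (y (j + 1))) * stay L y b m π) ≤
      ∏ k ∈ range m, facG B (L k) (G k) (π (y k)) (π (y (k + 1))) (b k) := by
    intro π
    have hG0 : ∀ k, 0 ≤ G k (π (y k)) (π (y (k + 1))) := fun k => (hG k).nonneg _ _
    obtain ⟨E, hE⟩ : ∃ E, E = (range m).filter (fun k => b k = true) := ⟨_, rfl⟩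
    have e1 : ∏ k ∈ range m, facG B (L k) (G k) (π (y k)) (π (y (k + 1))) (b k) =
        stay L y b m π * ∏ k ∈ E, (((L k).card : ℝ) / B +
          am B L k * G k (π (y k)) (π (y (k + 1)))) := by
      rw [hE, prod_filter]
      unfold stay
      rw [← prod_mul_distrib]
      apply prod_congr rfl
      intro k _
      unfold facG am
      by_cases hb : b k = true
      · simp [hb]
      · simp [hb]
    have e2 : xs B L b m = ∏ k ∈ E, ((L k).card : ℝ) / B := by
      rw [hE, prod_filter]
      rfl
    have e3 : ∀ j, xsj B L b m j = ∏ k ∈ E.erase j, ((L k).card : ℝ) / B := by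
      intro j
      rw [hE, ← filter_erase, prod_filter]
      rfl
    have h1 := hSL E (fun k => ((L k).card : ℝ) / B)
      (fun k => if k < m0 then am B L k * G k (π (y k)) (π (y (k + 1))) else 0)
      (fun k _ => hx0 k) (fun k _ => by
        show (0 : ℝ) ≤ if k < m0 then _ else _
        split_ifs
        · exact mul_nonneg (ha0 k) (hG0 k)
        · exact le_refl _)
    have h2 : ∏ k ∈ E, (((L k).card : ℝ) / B +
        (if k < m0 then am B L k * G k (π (y k)) (π (y (k + 1))) else 0)) ≤
        ∏ k ∈ E, (((L k).card : ℝ) / B + am B L k * G k (π (y k)) (π (y (k + 1)))) := by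
      apply prod_le_prod
      · intro k _
        apply add_nonneg (hx0 k)
        split_ifs
        · exact mul_nonneg (ha0 k) (hG0 k)
        · exact le_refl _
      · intro k _
        have := mul_nonneg (ha0 k) (hG0 k)
        split_ifs
        · exact le_refl _
        · linarith
    have h3 : est b m0 m = E.filter (fun j => j < m0) := by
      rw [hE]
      unfold est
      ext j
      simp only [mem_filter, mem_range, lt_min_iff]
      tauto
    have h4 : ∑ j ∈ est b m0 m, am B L j * xsj B L b m j * G j (π (y j)) (π (y (j + 1))) =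
        ∑ j ∈ E, (if j < m0 then am B L j * G j (π (y j)) (π (y (j + 1))) else 0) *
          ∏ k ∈ E.erase j, ((L k).card : ℝ) / B := by
      rw [h3, sum_filter]
      apply sum_congr rfl
      intro j _
      rw [e3]
      split_ifs
      · ring
      · ring
    have h5 := (stay_range L y b m π).1
    have h6 : xs B L b m + ∑ j ∈ est b m0 m, am B L j * xsj B L b m j *
        G j (π (y j)) (π (y (j + 1))) ≤
        ∏ k ∈ E, (((L k).card : ℝ) / B + am B L k * G k (π (y k)) (π (y (k + 1)))) := by
      rw [h4, e2]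
      exact le_trans h1 h2
    rw [e1]
    calc xs B L b m * stay L y b m π + ∑ j ∈ est b m0 m, am B L j * xsj B L b m j *
        (G j (π (y j)) (π (y (j + 1))) * stay L y b m π)
        = stay L y b m π * (xs B L b m + ∑ j ∈ est b m0 m, am B L j * xsj B L b m j *
        G j (π (y j)) (π (y (j + 1)))) := by
          rw [mul_add, mul_sum]
          congr 1
          · ring
          · apply sum_congr rfl
            intro j _
            ring
      _ ≤ _ := mul_le_mul_of_nonneg_left h6 h5
  -- average
  have havg : ∀ j, γ - (m : ℝ) * B / n ≤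
      pavg (fun π => G j (π (y j)) (π (y (j + 1))) * stay L y b m π) := by
    intro j
    have h1 : pavg (fun π : Equiv.Perm (Fin n) => G j (π (y j)) (π (y (j + 1))) -
        ∑ k ∈ range m, (if π (y k) ∈ L k then (1 : ℝ) else 0)) ≤
        pavg (fun π => G j (π (y j)) (π (y (j + 1))) * stay L y b m π) := by
      apply pavg_mono
      intro π
      obtain ⟨h1, h2, h3⟩ := stay_range L y b m π
      have h4 := (hG j).nonneg (π (y j)) (π (y (j + 1)))
      have h5 := (hG j).le_one (π (y j)) (π (y (j + 1)))
      nlinarith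
    rw [pavg_sub, pavg_sum] at h1
    have h2 : ∑ k ∈ range m, pavg (fun π : Equiv.Perm (Fin n) =>
        if π (y k) ∈ L k then (1 : ℝ) else 0) ≤ (m : ℝ) * B / n := by
      calc ∑ k ∈ range m, pavg (fun π : Equiv.Perm (Fin n) =>
          if π (y k) ∈ L k then (1 : ℝ) else 0) ≤ ∑ k ∈ range m, (B : ℝ) / n := by
            apply sum_le_sum
            intro k _
            rw [avg_hit (by omega)]
            apply div_le_div_of_nonneg_right _ hnr.le
            exact_mod_cast hL k
        _ = (m : ℝ) * B / n := by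
            rw [sum_const, card_range, nsmul_eq_mul]
            ring
    have h3 := avg_bonus hn hγ (hG j) (y j) (y (j + 1))
    linarith
  have hfin : pavg (fun π : Equiv.Perm (Fin n) => xs B L b m * stay L y b m π +
      ∑ j ∈ est b m0 m, am B L j * xsj B L b m j *
        (G j (π (y j)) (π (y (j + 1))) * stay L y b m π)) ≤
      pavg (fun π => ∏ k ∈ range m, facG B (L k) (G k) (π (y k)) (π (y (k + 1))) (b k)) :=
    pavg_mono hpt
  rw [pavg_add, pavg_mul, pavg_sum] at hfin
  refine le_trans (add_le_add (le_of_eq rfl) ?_) hfin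
  unfold gs
  apply sum_le_sum
  intro j _
  rw [pavg_mul]
  have h1 := havg j
  have h2 : 0 ≤ am B L j * xsj B L b m j := mul_nonneg (ha0 j) (hxsj0 j)
  have h3 := mul_le_mul_of_nonneg_left h1 h2
  linarith

end MPacf82c.St
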