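import Pool.Agent.Lib.MP_acf82c_lc.S.SpecA
import Pool.Agent.Lib.MP_acf82c_lc.PermAvg

/-!
# The case of little early ambush
-/

namespace MPacf82c.St

open Finset
open scoped Nat

/-- The number of labels which are not hit in the first `m` rounds. -/
private theorem ca_count {n B : ℕ} {L : ℕ → Finset (Fin n)} (hL : ∀ k, (L k).card ≤ B)
    (π : Equiv.Perm (Fin n)) (m : ℕ) :
    (n : ℝ) - m * B ≤ ∑ u : Fin n, if ∀ k < m, π u ∉ L k then (1 : ℝ) else 0 := by
  rw [Equiv.sum_comp π (fun v : Fin n => if ∀ k < m, v ∉ L k then (1 : ℝ) else 0)]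
  rw [Finset.sum_boole]
  have h1 : (univ : Finset (Fin n)) ⊆
      (univ.filter fun v : Fin n => ∀ k < m, v ∉ L k) ∪ (range m).biUnion L := by
    intro v _
    rw [Finset.mem_union]
    by_cases h : ∀ k < m, v ∉ L k
    · exact Or.inl (Finset.mem_filter.2 ⟨Finset.mem_univ _, h⟩)
    · push Not at h
      obtain ⟨k, hk, hv⟩ := h
      exact Or.inr (Finset.mem_biUnion.2 ⟨k, Finset.mem_range.2 hk, hv⟩)
  have h2 := Finset.card_le_card h1
  have h3 := h2.trans (Finset.card_union_le _ _)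
  have h4 : ((range m).biUnion L).card ≤ m * B := by
    refine Finset.card_biUnion_le.trans ?_
    refine (Finset.sum_le_sum fun k _ => hL k).trans ?_
    simp
  rw [Finset.card_univ, Fintype.card_fin] at h3
  have h5 : n ≤ (univ.filter fun v : Fin n => ∀ k < m, v ∉ L k).card + m * B :=
    h3.trans (Nat.add_le_add_left h4 _)
  have h6 : (n : ℝ) ≤ ((univ.filter fun v : Fin n => ∀ k < m, v ∉ L k).card : ℝ) + m * B := by
    exact_mod_cast h5
  linarith

/-- The inequality for fixed `π` and `s`. -/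
private theorem ca_fixed (hCat : S_CatPay) {n B M M' K : ℕ} {V : ℝ} {ι : Type} [Fintype ι]
    {q : ι → ℝ} {y : ι → ℕ → Fin n} {b : ι → ℕ → Bool} {L : ℕ → Finset (Fin n)} (hB : 0 < B)
    (hV : 0 ≤ V) (hmix : IsMix n B M K q y b V) (hL : ∀ k, (L k).card ≤ B)
    (π : Equiv.Perm (Fin n)) (s : ℕ) (hs : s + 1 + M ≤ M') (hsn : (0 : ℝ) ≤ (n : ℝ) - s * B) :
    (∑ m ∈ range (s + 1), ((n : ℝ) - m * B)) +
        ((n : ℝ) - s * B) * (((L s).card : ℝ) / B) * V ≤
      ∑ i, q i * ∑ u : Fin n,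
        payoff B M' L (fun k => π (catY M s u (y i) k)) (catB M s (b i)) := by
  obtain ⟨I, hI⟩ : ∃ I : Fin n → ℕ → ℝ,
    I = fun u m => if ∀ k < m, π u ∉ L k then (1 : ℝ) else 0 := ⟨_, rfl⟩
  obtain ⟨p, hp⟩ : ∃ p : ι → ℝ, p = fun i =>
    payoff B M (fun k => L (k + s + 1)) (fun k => π (y i k)) (b i) := ⟨_, rfl⟩
  have hx0 : (0 : ℝ) ≤ ((L s).card : ℝ) / B := by positivity
  have h1 : ∀ i u, ∑ m ∈ range (s + 1), I u m + I u s * (((L s).card : ℝ) / B) * p i ≤
      payoff B M' L (fun k => π (catY M s u (y i) k)) (catB M s (b i)) := by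
    intro i u
    rw [hI, hp]
    exact hCat n B M M' s u L (y i) (b i) π hB hL hs
  have h2 : V ≤ ∑ i, q i * p i := by
    have h3 := hmix.val (fun k => (L (k + s + 1)).map π.symm.toEmbedding) (fun k => by
      rw [Finset.card_map]; exact hL _)
    refine h3.trans (le_of_eq ?_)
    refine Finset.sum_congr rfl fun i _ => ?_
    rw [hp]
    dsimp only
    rw [payoff_perm]
  have hcnt : ∀ m, (n : ℝ) - m * B ≤ ∑ u, I u m := by
    intro m
    rw [hI]
    exact ca_count hL π m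
  have hstep : ∑ i, q i * (∑ u, (∑ m ∈ range (s + 1), I u m +
      I u s * (((L s).card : ℝ) / B) * p i)) ≤
      ∑ i, q i * ∑ u : Fin n,
        payoff B M' L (fun k => π (catY M s u (y i) k)) (catB M s (b i)) :=
    Finset.sum_le_sum fun i _ => mul_le_mul_of_nonneg_left
      (Finset.sum_le_sum fun u _ => h1 i u) (hmix.nonneg i)
  refine le_trans ?_ hstep
  have heq : ∑ i, q i * (∑ u, (∑ m ∈ range (s + 1), I u m +
      I u s * (((L s).card : ℝ) / B) * p i)) =
      (∑ m ∈ range (s + 1), ∑ u, I u m) +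
        (∑ u, I u s) * (((L s).card : ℝ) / B) * ∑ i, q i * p i := by
    have h4 : ∀ i, q i * (∑ u, (∑ m ∈ range (s + 1), I u m +
        I u s * (((L s).card : ℝ) / B) * p i)) =
        q i * (∑ m ∈ range (s + 1), ∑ u, I u m) +
          (∑ u, I u s) * (((L s).card : ℝ) / B) * (q i * p i) := by
      intro i
      rw [Finset.sum_add_distrib, Finset.sum_comm, ← Finset.sum_mul, ← Finset.sum_mul]
      ring
    rw [Finset.sum_congr rfl fun i _ => h4 i, Finset.sum_add_distrib, ← Finset.sum_mul,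
      hmix.sum_one, one_mul, ← Finset.mul_sum]
  rw [heq]
  refine add_le_add (Finset.sum_le_sum fun m _ => hcnt m) ?_
  have h5 : ((n : ℝ) - s * B) * (((L s).card : ℝ) / B) ≤
      (∑ u, I u s) * (((L s).card : ℝ) / B) := mul_le_mul_of_nonneg_right (hcnt s) hx0
  exact mul_le_mul h5 h2 hV (le_trans (mul_nonneg hsn hx0) h5)

private theorem ca_sum1 (n B : ℝ) (m0 : ℕ) :
    ∑ s ∈ range m0, ∑ m ∈ range (s + 1), (n - m * B) =
      n * (m0 * (m0 + 1) / 2) - B * (((m0 : ℝ) - 1) * m0 * (m0 + 1) / 6) := by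
  have h1 : ∀ s : ℕ, ∑ m ∈ range (s + 1), (n - m * B) =
      n * (s + 1) - B * (s * (s + 1) / 2) := by
    intro s
    induction s with
    | zero => simp
    | succ s ih => rw [Finset.sum_range_succ, ih]; push_cast; ring
  induction m0 with
  | zero => simp
  | succ m ih => rw [Finset.sum_range_succ, ih, h1]; push_cast; ring

private theorem ca_sum2 (n B : ℝ) (m0 : ℕ) :
    ∑ s ∈ range m0, (n - s * B) = n * m0 - B * (m0 * ((m0 : ℝ) - 1) / 2) := by
  induction m0 with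
  | zero => simp
  | succ m ih => rw [Finset.sum_range_succ, ih]; push_cast; ring

theorem sCaseA (hCat : S_CatPay) : S_CaseA := by
  intro n B M M' K m0 α V ι _ q y b L hB hBn hm0 hm0B hV hmix hM' hL hα
  have hBp : (0 : ℝ) < B := by exact_mod_cast hB
  have hnp : (0 : ℝ) < n := by
    have : 0 < n := by omega
    exact_mod_cast this
  have hmp : (0 : ℝ) < m0 := by exact_mod_cast hm0
  have hmB : (m0 : ℝ) * B ≤ n := by exact_mod_cast hm0B
  obtain ⟨P, hP⟩ : ∃ P : ι → Fin n → ℕ → Equiv.Perm (Fin n) → ℝ, P = fun i u s π =>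
    payoff B M' L (fun k => π (catY M s u (y i) k)) (catB M s (b i)) := ⟨_, rfl⟩
  obtain ⟨x, hx⟩ : ∃ x : ℕ → ℝ, x = fun s => ((L s).card : ℝ) / B := ⟨_, rfl⟩
  have hx1 : ∀ s, x s ≤ 1 := fun s => by
    rw [hx]
    dsimp only
    rw [div_le_one hBp]
    exact_mod_cast hL s
  obtain ⟨W, hW⟩ : ∃ W : ℕ → ℝ, W = fun s =>
    (∑ m ∈ range (s + 1), ((n : ℝ) - m * B)) + ((n : ℝ) - s * B) * x s * V := ⟨_, rfl⟩
  have hsB : ∀ s < m0, (s : ℝ) * B ≤ n := fun s hs => by
    have h1 : (s : ℝ) ≤ m0 := by exact_mod_cast hs.le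
    exact (mul_le_mul_of_nonneg_right h1 hBp.le).trans hmB
  have hfix : ∀ π : Equiv.Perm (Fin n), ∀ s < m0, W s ≤ ∑ i, q i * ∑ u : Fin n, P i u s π := by
    intro π s hs
    rw [hW, hP, hx]
    exact ca_fixed hCat hB hV hmix hL π s (by omega) (by linarith [hsB s hs])
  -- the right side
  have hcard : (∑ _π : Equiv.Perm (Fin n), (1 : ℝ)) = (n.factorial : ℝ) := by
    simp [Fintype.card_perm]
  have hfac : (0 : ℝ) < (n.factorial : ℝ) := by exact_mod_cast Nat.factorial_pos n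
  have hR : ∑ i, q i * ((∑ u : Fin n, ∑ s ∈ range m0, pavg fun π => P i u s π) /
      ((n : ℝ) * m0)) =
      (∑ π : Equiv.Perm (Fin n), ∑ s ∈ range m0, ∑ i, q i * ∑ u : Fin n, P i u s π) /
        ((n.factorial : ℝ) * ((n : ℝ) * m0)) := by
    have h1 : ∀ i, (∑ u : Fin n, ∑ s ∈ range m0, pavg fun π => P i u s π) =
        (∑ π : Equiv.Perm (Fin n), ∑ s ∈ range m0, ∑ u : Fin n, P i u s π) /
          (n.factorial : ℝ) := by
      intro i
      unfold pavg
      simp only [← Finset.sum_div]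
      congr 1
      rw [Finset.sum_comm]
      rw [Finset.sum_comm (s := (univ : Finset (Equiv.Perm (Fin n))))]
      refine Finset.sum_congr rfl fun s _ => ?_
      rw [Finset.sum_comm]
    have h2 : ∀ i, q i * ((∑ u : Fin n, ∑ s ∈ range m0, pavg fun π => P i u s π) /
        ((n : ℝ) * m0)) =
        (∑ π : Equiv.Perm (Fin n), ∑ s ∈ range m0, q i * ∑ u : Fin n, P i u s π) /
          ((n.factorial : ℝ) * ((n : ℝ) * m0)) := by
      intro i
      rw [h1]
      simp only [← Finset.mul_sum]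
      rw [div_div, mul_div_assoc]
    rw [Finset.sum_congr rfl fun i _ => h2 i, ← Finset.sum_div]
    congr 1
    rw [Finset.sum_comm]
    refine Finset.sum_congr rfl fun π _ => ?_
    rw [Finset.sum_comm]
  have hRr : ∑ i, q i * ((∑ u : Fin n, ∑ s ∈ range m0, pavg fun π =>
      payoff B M' L (fun k => π (catY M s u (y i) k)) (catB M s (b i))) / ((n : ℝ) * m0)) =
      ∑ i, q i * ((∑ u : Fin n, ∑ s ∈ range m0, pavg fun π => P i u s π) /
      ((n : ℝ) * m0)) := by rw [hP]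
  rw [hRr, hR, le_div_iff₀ (by positivity)]
  have hlow : (n.factorial : ℝ) * ∑ s ∈ range m0, W s ≤
      ∑ π : Equiv.Perm (Fin n), ∑ s ∈ range m0, ∑ i, q i * ∑ u : Fin n, P i u s π := by
    rw [← hcard, Finset.sum_mul]
    refine Finset.sum_le_sum fun π _ => ?_
    rw [one_mul]
    exact Finset.sum_le_sum fun s hs => hfix π s (Finset.mem_range.1 hs)
  refine le_trans ?_ hlow
  -- arithmetic
  have hWs : (∑ s ∈ range m0, ∑ m ∈ range (s + 1), ((n : ℝ) - m * B)) +
      V * (∑ s ∈ range m0, ((n : ℝ) - s * B)) - n * V * (∑ s ∈ range m0, (1 - x s)) ≤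
      ∑ s ∈ range m0, W s := by
    rw [Finset.mul_sum, Finset.mul_sum, ← Finset.sum_add_distrib, ← Finset.sum_sub_distrib]
    refine Finset.sum_le_sum fun s hs => ?_
    have h1 := hsB s (Finset.mem_range.1 hs)
    have h2 : 0 ≤ (s : ℝ) * B * ((1 - x s) * V) :=
      mul_nonneg (by positivity) (mul_nonneg (by linarith [hx1 s]) hV)
    rw [hW]
    dsimp only
    have h3 : ((n : ℝ) - s * B) * x s * V - (V * ((n : ℝ) - s * B) - n * V * (1 - x s)) =
        (s : ℝ) * B * ((1 - x s) * V) := by ring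
    linarith
  have hxs : B * ∑ s ∈ range m0, (1 - x s) ≤ α * n := by
    refine le_trans (le_of_eq ?_) hα
    rw [Finset.mul_sum]
    refine Finset.sum_congr rfl fun s _ => ?_
    rw [hx]
    dsimp only
    field_simp
  rw [ca_sum1, ca_sum2] at hWs
  obtain ⟨X, hX⟩ : ∃ X : ℝ, X = ∑ s ∈ range m0, (1 - x s) := ⟨_, rfl⟩
  rw [← hX] at hWs hxs
  have hfin : (((m0 : ℝ) + 1) / 2 - ((m0 : ℝ) ^ 2 - 1) * B / (6 * n) + V -
      ((m0 : ℝ) - 1) * B * V / (2 * n) - V * (α * n) / (B * m0)) * ((n : ℝ) * m0) ≤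
      ∑ s ∈ range m0, W s := by
    have h1 : (((m0 : ℝ) + 1) / 2 - ((m0 : ℝ) ^ 2 - 1) * B / (6 * n) + V -
        ((m0 : ℝ) - 1) * B * V / (2 * n) - V * (α * n) / (B * m0)) * ((n : ℝ) * m0) =
        (n : ℝ) * (m0 * (m0 + 1) / 2) - B * (((m0 : ℝ) - 1) * m0 * (m0 + 1) / 6) +
          V * (n * m0 - B * (m0 * ((m0 : ℝ) - 1) / 2)) - n * V * (α * n / B) := by
      field_simp
      ring
    rw [h1]
    have h2 : X ≤ α * n / B := by
      rw [le_div_iff₀ hBp]
      linarith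
    have h3 : (n : ℝ) * V * X ≤ n * V * (α * n / B) :=
      mul_le_mul_of_nonneg_left h2 (by positivity)
    linarith
  calc _ = (n.factorial : ℝ) * ((((m0 : ℝ) + 1) / 2 - ((m0 : ℝ) ^ 2 - 1) * B / (6 * n) + V -
      ((m0 : ℝ) - 1) * B * V / (2 * n) - V * (α * n) / (B * m0)) * ((n : ℝ) * m0)) := by ring
    _ ≤ (n.factorial : ℝ) * ∑ s ∈ range m0, W s := mul_le_mul_of_nonneg_left hfin hfac.le

end MPacf82c.St
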