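import Pool.Agent.Lib.MP_acf82c_lc.S.SpecA

/-!
# The case of early ambush
-/

namespace MPacf82c.St

open Finset
open scoped Nat

private theorem cb_pavg_mono {n : ℕ} {f g : Equiv.Perm (Fin n) → ℝ} (h : ∀ π, f π ≤ g π) :
    pavg f ≤ pavg g := by
  unfold pavg
  exact div_le_div_of_nonneg_right (Finset.sum_le_sum fun π _ => h π) (by positivity)

private theorem cb_pavg_sum {n : ℕ} (s : Finset ℕ) (f : ℕ → Equiv.Perm (Fin n) → ℝ) :
    pavg (fun π => ∑ m ∈ s, f m π) = ∑ m ∈ s, pavg (f m) := by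
  unfold pavg
  rw [Finset.sum_comm, Finset.sum_div]

private theorem cb_base_eq {n : ℕ} (B : ℕ) (L : ℕ → Finset (Fin n)) (y : ℕ → Fin n)
    (b : ℕ → Bool) (m : ℕ) :
    base B L y b m = pavg fun π => surv B L (fun k => π (y k)) b m := by
  unfold base sv pavg stay xs surv
  rw [← mul_div_assoc, Finset.mul_sum]
  congr 1
  refine Finset.sum_congr rfl fun π _ => ?_
  rw [← Finset.prod_mul_distrib]
  refine Finset.prod_congr rfl fun k _ => ?_
  unfold fac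
  split_ifs <;> simp

private theorem cb_base_sum {n : ℕ} (B M : ℕ) (L : ℕ → Finset (Fin n)) (y : ℕ → Fin n)
    (b : ℕ → Bool) :
    ∑ m ∈ range M, base B L y b m = pavg fun π => payoff B M L (fun k => π (y k)) b := by
  unfold payoff
  rw [cb_pavg_sum]
  exact Finset.sum_congr rfl fun m _ => cb_base_eq B L y b m

private theorem cb_emu_card {n : ℕ} [NeZero n] {B : ℕ} (hBn : B ≤ n) {θ : ℝ} (h0 : 0 ≤ θ)
    (h1 : θ ≤ 1) (m0 m1 : ℕ) {L : ℕ → Finset (Fin n)} (hL : ∀ k, (L k).card ≤ B) (k : ℕ)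
    (j : Fin n) : (emu B θ m0 m1 L k j).card ≤ B := by
  unfold emu
  split_ifs with h h'
  · have hLr : ((L k).card : ℝ) ≤ B := by exact_mod_cast hL k
    have hnn : 0 ≤ θ * ((B : ℝ) - (L k).card) := mul_nonneg h0 (by linarith)
    have hfl : (⌊θ * ((B : ℝ) - (L k).card)⌋₊ : ℝ) ≤ (B : ℝ) - (L k).card :=
      (Nat.floor_le hnn).trans (by nlinarith)
    have hfl' : ⌊θ * ((B : ℝ) - (L k).card)⌋₊ + (L k).card ≤ B := by
      have : ((⌊θ * ((B : ℝ) - (L k).card)⌋₊ + (L k).card : ℕ) : ℝ) ≤ B := by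
        push_cast
        linarith
      exact_mod_cast this
    refine (Finset.card_union_le _ _).trans ?_
    rw [crudeShift_card (by omega)]
    omega
  · exact hL k
  · rw [crudeShift_card hBn]

private theorem cb_final {R η2 α θ T S N1 J P SE V W : ℝ} (hR : 0 < R) (hη : 0 < η2)
    (hα : 0 < α) (hηα : η2 ≤ α / 240) (hT2 : 2 ≤ T) (hTP : T ≤ P) (hθT : θ * T = η2)
    (hJ : 1920 ≤ J * (η2 * α)) (hN0 : 0 ≤ N1) (hN1 : N1 * (J * T) ≤ 8) (hS : R / 5 ≤ S)
    (hθ : 0 < θ) (hgain : V + θ * α / 4 * S ≤ SE + 3 * R * N1 + θ ^ 2 * (3 * (T * R)))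
    (hW : W ≤ 2 * R) : V + η2 * α / (80 * P) * W ≤ SE := by
  have hTp : 0 < T := by linarith
  have hPp : 0 < P := by linarith
  have hηα' : 0 < η2 * α := mul_pos hη hα
  have h3 : θ * α / 4 * (R / 5) ≤ θ * α / 4 * S := mul_le_mul_of_nonneg_left hS (by positivity)
  have h4 : T * (θ * α / 4 * (R / 5)) ≤
      T * ((SE - V) + 3 * R * N1 + θ ^ 2 * (3 * (T * R))) :=
    mul_le_mul_of_nonneg_left (by linarith) hTp.le
  have h5 : T * (θ * α / 4 * (R / 5)) = R * (η2 * α) / 20 := by rw [← hθT]; ring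
  have h6 : T * (θ ^ 2 * (3 * (T * R))) = 3 * η2 ^ 2 * R := by rw [← hθT]; ring
  have h7 : 3 * η2 ^ 2 * R ≤ R * (η2 * α) / 80 := by
    have h71 : η2 * η2 ≤ η2 * (α / 240) := mul_le_mul_of_nonneg_left hηα hη.le
    have h72 : η2 * η2 * R ≤ η2 * (α / 240) * R := mul_le_mul_of_nonneg_right h71 hR.le
    calc 3 * η2 ^ 2 * R = 3 * (η2 * η2 * R) := by ring
      _ ≤ 3 * (η2 * (α / 240) * R) := by linarith
      _ = R * (η2 * α) / 80 := by ring
  have h8 : T * (3 * R * N1) ≤ R * (η2 * α) / 80 := by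
    have h11 : 0 ≤ N1 * T := mul_nonneg hN0 hTp.le
    have h12 : N1 * T * 1920 ≤ N1 * T * (J * (η2 * α)) := mul_le_mul_of_nonneg_left hJ h11
    have h13 : N1 * T * (J * (η2 * α)) = (N1 * (J * T)) * (η2 * α) := by ring
    have h14 : (N1 * (J * T)) * (η2 * α) ≤ 8 * (η2 * α) :=
      mul_le_mul_of_nonneg_right hN1 hηα'.le
    have h15 : N1 * T ≤ η2 * α / 240 := by linarith
    have h16 : R * (N1 * T) ≤ R * (η2 * α / 240) := mul_le_mul_of_nonneg_left h15 hR.le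
    calc T * (3 * R * N1) = 3 * (R * (N1 * T)) := by ring
      _ ≤ 3 * (R * (η2 * α / 240)) := by linarith
      _ = R * (η2 * α) / 80 := by ring
  have h9 : T * ((SE - V) + 3 * R * N1 + θ ^ 2 * (3 * (T * R))) =
      (SE - V) * T + T * (3 * R * N1) + T * (θ ^ 2 * (3 * (T * R))) := by ring
  have hfin : R * (η2 * α) / 40 ≤ (SE - V) * T := by linarith
  have hSEV : 0 ≤ SE - V := by
    have h1 : 0 ≤ (SE - V) * T := le_trans (by positivity) hfin
    exact nonneg_of_mul_nonneg_left h1 hTp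
  have hfin2 : R * (η2 * α) / 40 ≤ (SE - V) * P :=
    hfin.trans (mul_le_mul_of_nonneg_left hTP hSEV)
  have hlast : η2 * α / (80 * P) * W ≤ SE - V := by
    rw [div_mul_eq_mul_div, div_le_iff₀ (by positivity)]
    have h10 : η2 * α * W ≤ η2 * α * (2 * R) := mul_le_mul_of_nonneg_left hW hηα'.le
    calc η2 * α * W ≤ η2 * α * (2 * R) := h10
      _ = 80 * (R * (η2 * α) / 40) := by ring
      _ ≤ 80 * ((SE - V) * P) := by linarith
      _ = (SE - V) * (80 * P) := by ring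
  linarith

private theorem cb_dom {R γ η2 θ T K W mt m0 : ℝ} (hR : 0 < R) (hγ : 0 < γ) (hγ1 : γ ≤ 1)
    (hη2γ : η2 ≤ γ ^ 2 / 40) (hθ : 0 < θ) (hθT : θ * T = η2) (hθη : θ ≤ η2 / 2)
    (hKW : K + W ≤ 3 * R) (hmt : 0 ≤ mt) (hgap : γ * R / 8 ≤ mt - m0) :
    θ * ((T * R - mt) + (K + W)) ≤ (3 / 4 * γ - θ) * (mt - m0) := by
  have hγγ : γ ^ 2 ≤ γ := by nlinarith
  have h1 : θ * ((T * R - mt) + (K + W)) ≤ θ * ((T + 3) * R) :=
    mul_le_mul_of_nonneg_left (by linarith) hθ.le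
  have h3 : θ * (T + 3) ≤ γ ^ 2 / 16 := by
    calc θ * (T + 3) = η2 + 3 * θ := by rw [← hθT]; ring
      _ ≤ γ ^ 2 / 16 := by linarith
  have h2 : θ * ((T + 3) * R) ≤ γ ^ 2 * R / 16 := by
    calc θ * ((T + 3) * R) = θ * (T + 3) * R := by ring
      _ ≤ γ ^ 2 / 16 * R := mul_le_mul_of_nonneg_right h3 hR.le
      _ = γ ^ 2 * R / 16 := by ring
  have h4 : γ ^ 2 * R / 16 ≤ (3 / 4 * γ - θ) * (mt - m0) := by
    calc γ ^ 2 * R / 16 = γ / 2 * (γ * R / 8) := by ring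
      _ ≤ (3 / 4 * γ - θ) * (mt - m0) :=
        mul_le_mul (by linarith) hgap (by positivity) (by linarith)
  linarith

private theorem cb_m0 {R B n θ α η2 T P m0 : ℝ} (hR : 0 < R) (hθ : 0 < θ) (hα : 0 < α)
    (hT : 0 < T) (hTP : T ≤ P) (hθT : θ * T = η2) (hB : 4 * P ≤ B * (η2 * α))
    (hBR : B * R ≤ n) (hm0 : m0 ≤ R) : m0 ≤ θ * α * n / 4 := by
  have h3 : 4 ≤ θ * α * B := by
    have h4 : 4 * T ≤ B * (η2 * α) := by linarith
    have h5 : θ * α * B * T = B * (η2 * α) := by rw [← hθT]; ring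
    have h6 : 4 * T ≤ θ * α * B * T := by rw [h5]; exact h4
    exact le_of_mul_le_mul_right h6 hT
  have h7 : θ * α * (B * R) ≤ θ * α * n := mul_le_mul_of_nonneg_left hBR (by positivity)
  have h8 : 4 * R ≤ θ * α * B * R := mul_le_mul_of_nonneg_right h3 hR.le
  have h9 : θ * α * (B * R) = θ * α * B * R := by ring
  linarith

private theorem cb_K {R B n α K : ℝ} (hα : 0 < α) (hB : 0 < B) (hK : 4 * K ≤ R * α)
    (hBR : B * R ≤ n) : K * B ≤ α * n / 4 := by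
  have h7 : α * (B * R) ≤ α * n := mul_le_mul_of_nonneg_left hBR hα.le
  have h8 : 4 * K * B ≤ R * α * B := mul_le_mul_of_nonneg_right hK hB.le
  have h9 : α * (B * R) = R * α * B := by ring
  linarith

private theorem cb_Slow {R J T N1 KW W V S X m0 : ℝ} (hR : 0 < R) (hJ : 64 ≤ J) (hT : 2 ≤ T)
    (hN0 : 0 ≤ N1) (hN1 : N1 * (J * T) ≤ 8) (hKW : KW ≤ 3 * R) (hWR : R ≤ W)
    (hV : W / 2 ≤ V) (hlow : V ≤ X + KW * N1) (hsplit : X ≤ m0 + S) (hm0 : m0 ≤ R / 16) :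
    R / 5 ≤ S := by
  have hJT : 128 ≤ J * T := by nlinarith
  have h1 : N1 * 128 ≤ N1 * (J * T) := mul_le_mul_of_nonneg_left hJT hN0
  have h2 : KW * N1 ≤ 3 * R * N1 := mul_le_mul_of_nonneg_right hKW hN0
  have h3 : 3 * R * N1 ≤ 3 * R * (1 / 16) := mul_le_mul_of_nonneg_left (by linarith)
    (by positivity)
  linarith

theorem sCaseB (hMP : S_MixP) (hEP : S_EmuPlan) (hGP : S_GainPlan) (hGe : S_GePay)
    (hMo : S_Mono) (hPg : S_Pig) : S_CaseB := by
  intro γ α hγ hγ1 hα hα1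
  -- constants
  obtain ⟨η2, hη2⟩ : ∃ η2 : ℝ, η2 = min (γ ^ 2 / 40) (α / 240) := ⟨_, rfl⟩
  have hη2p : 0 < η2 := by rw [hη2]; positivity
  have hη2γ : η2 ≤ γ ^ 2 / 40 := by rw [hη2]; exact min_le_left _ _
  have hη2α : η2 ≤ α / 240 := by rw [hη2]; exact min_le_right _ _
  have hη21 : η2 ≤ 1 / 240 := by linarith
  obtain ⟨J, hJ⟩ := exists_nat_ge (max 64 (1920 / (η2 * α)))
  have hJ64 : (64 : ℝ) ≤ J := (le_max_left _ _).trans hJ
  have hJ0 : (0 : ℝ) < J := by linarith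
  have hJ2 : 1920 / (η2 * α) ≤ J := (le_max_right _ _).trans hJ
  have hηα : 0 < η2 * α := mul_pos hη2p hα
  have hJ3 : 1920 ≤ J * (η2 * α) := by rwa [div_le_iff₀ hηα] at hJ2
  have hJn : 0 < J := by exact_mod_cast hJ0
  have h2J : (1 : ℝ) ≤ 2 ^ J := one_le_pow₀ (by norm_num)
  have h2J0 : (0 : ℝ) < 2 ^ J := by positivity
  obtain ⟨B0, hB0⟩ := exists_nat_ge (4 * 2 ^ J / (η2 * α))
  refine ⟨η2 * α / (80 * 2 ^ J), by positivity, ?_, 2 ^ J + 1, B0 + 1, ?_⟩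
  · rw [div_le_one (by positivity)]
    have h1 : η2 * α ≤ 1 * 1 := mul_le_mul (by linarith) hα1 hα.le zero_le_one
    linarith
  intro K
  obtain ⟨R0, hR0⟩ := exists_nat_ge (4 * (K : ℝ) / α + 16 / γ + K + 4)
  refine ⟨R0, ?_⟩
  intro R n B M m0 V ι _ q y b hR hB hBR hnR hM hm0 hV hmix L G hL hG hamb
  -- reals
  have hKα : 0 ≤ 4 * (K : ℝ) / α := by positivity
  have hγ16 : 0 < 16 / γ := by positivity
  have hKr : (0 : ℝ) ≤ K := by positivity
  have hRr : (R0 : ℝ) ≤ R := by exact_mod_cast hR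
  have hR4 : (4 : ℝ) ≤ R := by linarith
  have hRK : (K : ℝ) ≤ R := by linarith
  have hRγ : 16 ≤ R * γ := by
    have : 16 / γ ≤ R := by linarith
    rwa [div_le_iff₀ hγ] at this
  have hRα : 4 * (K : ℝ) ≤ R * α := by
    have : 4 * (K : ℝ) / α ≤ R := by linarith
    rwa [div_le_iff₀ hα] at this
  have hRp : (0 : ℝ) < R := by linarith
  have hRn : 0 < R := by exact_mod_cast hRp
  have hBr : (B0 : ℝ) + 1 ≤ B := by exact_mod_cast hB
  have hB1 : (1 : ℝ) ≤ B := by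
    have : (0 : ℝ) ≤ B0 := by positivity
    linarith
  have hBp : (0 : ℝ) < B := by linarith
  have hBn : 0 < B := by exact_mod_cast hBp
  have hBη : 4 * 2 ^ J ≤ B * (η2 * α) := by
    have : 4 * 2 ^ J / (η2 * α) ≤ B := by linarith
    rwa [div_le_iff₀ hηα] at this
  have hBRr : (B : ℝ) * R ≤ n := by exact_mod_cast hBR
  have hnRr : (n : ℝ) ≤ (B + 1) * R := by exact_mod_cast hnR
  have hnp : (0 : ℝ) < n := lt_of_lt_of_le (by positivity) hBRr
  have hn0 : 0 < n := by exact_mod_cast hnp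
  haveI : NeZero n := ⟨by omega⟩
  have hBlen : B ≤ n := (Nat.le_mul_of_pos_right B hRn).trans hBR
  have hn2 : 2 ≤ n := by
    have h1 : (1 : ℝ) * R ≤ B * R := mul_le_mul_of_nonneg_right hB1 hRp.le
    have : (2 : ℝ) ≤ n := by linarith
    exact_mod_cast this
  -- N = n / B
  obtain ⟨W, hW⟩ : ∃ W : ℝ, W = (n : ℝ) / B := ⟨_, rfl⟩
  have hWR : (R : ℝ) ≤ W := by rw [hW, le_div_iff₀ hBp]; linarith
  have hW2 : W ≤ 2 * R := by
    have h1 : (1 : ℝ) * R ≤ B * R := mul_le_mul_of_nonneg_right hB1 hRp.le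
    rw [hW, div_le_iff₀ hBp]
    linarith
  have hV2 : W / 2 ≤ V := by
    refine le_trans (le_of_eq ?_) hV
    rw [hW]
    field_simp
  rw [← hW]
  -- payoffs
  obtain ⟨SE, hSE⟩ : ∃ SE : ℝ, SE = ∑ i, q i * pavg fun π =>
    payoffG B M L G (fun k => π (y i k)) (b i) := ⟨_, rfl⟩
  rw [← hSE]
  by_cases hbig : 2 * W ≤ SE
  · exact (min_le_left _ _).trans hbig
  push Not at hbig
  refine (min_le_right _ _).trans ?_
  obtain ⟨N, hN⟩ : ∃ N : ℕ → ℝ, N = fun m => ∑ i, q i * base B L (y i) (b i) m := ⟨_, rfl⟩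
  have hNm : ∀ m, N m = ∑ i, q i * base B L (y i) (b i) m := fun m => by rw [hN]
  have hbase := fun i => hMo n B L (y i) (b i) hn0 hBn hL
  have hN0 : ∀ m, 0 ≤ N m := fun m => by
    rw [hNm]
    exact Finset.sum_nonneg fun i _ => mul_nonneg (hmix.nonneg i) ((hbase i).2.1 m).1
  have hN1 : ∀ m, N m ≤ 1 := fun m => by
    rw [hNm, ← hmix.sum_one]
    exact Finset.sum_le_sum fun i _ => mul_le_of_le_one_right (hmix.nonneg i)
      ((hbase i).2.1 m).2
  have hNanti : ∀ m m', m ≤ m' → N m' ≤ N m := fun m m' h => by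
    rw [hNm, hNm]
    exact Finset.sum_le_sum fun i _ => mul_le_mul_of_nonneg_left ((hbase i).1 m m' h)
      (hmix.nonneg i)
  have hNsum : ∑ m ∈ range M, N m ≤ 4 * R := by
    have h1 : ∑ m ∈ range M, N m ≤ SE := by
      simp only [hNm]
      rw [Finset.sum_comm, hSE]
      refine Finset.sum_le_sum fun i _ => ?_
      rw [← Finset.mul_sum, cb_base_sum]
      refine mul_le_mul_of_nonneg_left (cb_pavg_mono fun π => ?_) (hmix.nonneg i)
      exact (hGe n B M γ L G (fun k => π (y i k)) (b i) hBn hL hG).1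
    linarith
  have hMbig : 2 ^ J * R < M := by
    have : (2 ^ J + 1) * R ≤ M := hM
    rw [add_mul, one_mul] at this
    omega
  obtain ⟨r, hr1, hrJ, hr⟩ := hPg R J M N (4 * R) hRn hJn hMbig hN0 hNanti hNsum
  -- the scale
  obtain ⟨T, hT⟩ : ∃ T : ℝ, T = (2 : ℝ) ^ r := ⟨_, rfl⟩
  have hTp : 0 < T := by rw [hT]; positivity
  have hT2 : 2 ≤ T := by
    rw [hT]
    calc (2 : ℝ) = 2 ^ 1 := by norm_num
      _ ≤ 2 ^ r := pow_le_pow_right₀ (by norm_num) hr1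
  have hTJ : T ≤ 2 ^ J := by
    rw [hT]
    exact pow_le_pow_right₀ (by norm_num) hrJ
  obtain ⟨m1, hm1⟩ : ∃ m1 : ℕ, m1 = 2 ^ r * R := ⟨_, rfl⟩
  rw [← hm1] at hr
  have hm1r : (m1 : ℝ) = T * R := by rw [hm1, hT]; push_cast; ring
  have hm1M : m1 < M := by
    rw [hm1]
    refine lt_of_le_of_lt ?_ hMbig
    exact Nat.mul_le_mul_right R (Nat.pow_le_pow_right (by norm_num) hrJ)
  have hNm1 : N m1 * (J * T) ≤ 8 := by
    have h1 : (2 : ℝ) ^ (r - 1) * 2 = T := by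
      rw [hT, ← pow_succ]
      congr 1
      omega
    have h2 : (2 : ℝ) ^ (r - 1) * R * N m1 * J ≤ 4 * R := by
      rwa [le_div_iff₀ hJ0] at hr
    have h3 : R * (N m1 * (J * T)) ≤ R * 8 := by
      calc R * (N m1 * (J * T)) = 2 * ((2 : ℝ) ^ (r - 1) * R * N m1 * J) := by
            rw [← h1]; ring
        _ ≤ 2 * (4 * R) := by linarith
        _ = R * 8 := by ring
    exact le_of_mul_le_mul_left h3 hRp
  obtain ⟨θ, hθ⟩ : ∃ θ : ℝ, θ = η2 / T := ⟨_, rfl⟩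
  have hθp : 0 < θ := by rw [hθ]; positivity
  have hθT : θ * T = η2 := by rw [hθ]; field_simp
  have hθη : θ ≤ η2 / 2 := by
    rw [hθ]
    exact div_le_div_of_nonneg_left hη2p.le (by norm_num) hT2
  have hθ1 : θ ≤ 1 := by linarith
  have hγγ : γ ^ 2 ≤ γ := by
    rw [pow_two]
    exact mul_le_of_le_one_left hγ.le hγ1
  have hθγ : θ ≤ γ / 4 := by linarith
  obtain ⟨mt, hmt⟩ : ∃ mt : ℕ, mt = ⌊γ * R / 4⌋₊ := ⟨_, rfl⟩
  have hmt1 : (mt : ℝ) ≤ γ * R / 4 := by rw [hmt]; exact Nat.floor_le (by positivity)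
  have hmt2 : γ * R / 4 < (mt : ℝ) + 1 := by rw [hmt]; exact Nat.lt_floor_add_one _
  have hRγ' : γ * R = R * γ := mul_comm _ _
  have hγR : γ * R ≤ R := mul_le_of_le_one_left hRp.le hγ1
  have hgap : γ * R / 8 ≤ (mt : ℝ) - m0 := by linarith
  have hm0mt : m0 ≤ mt := by
    have : (m0 : ℝ) ≤ mt := by linarith
    exact_mod_cast this
  have hTR : 2 * (R : ℝ) ≤ T * R := mul_le_mul_of_nonneg_right hT2 hRp.le
  have hmtm1 : mt ≤ m1 := by
    have : (mt : ℝ) ≤ m1 := by rw [hm1r]; linarith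
    exact_mod_cast this
  have hm0m1 : m0 ≤ m1 := hm0mt.trans hmtm1
  have hKW : (K : ℝ) + W ≤ 3 * R := by linarith
  have hm0R : (m0 : ℝ) ≤ R / 16 := by linarith
  have hmtB : (mt : ℝ) * B ≤ γ / 4 * n := by
    calc (mt : ℝ) * B ≤ γ * R / 4 * B := by gcongr
      _ = γ / 4 * (B * R) := by ring
      _ ≤ γ / 4 * n := by gcongr
  have hdomcond : θ * (((m1 : ℝ) - mt) + (K + (n : ℝ) / B)) ≤
      (3 / 4 * γ - θ) * ((mt : ℝ) - m0) := by
    rw [← hW, hm1r]
    exact cb_dom hRp hγ hγ1 hη2γ hθp hθT hθη hKW (by positivity) hgap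
  have hm0small : (m0 : ℝ) ≤ θ * α * n / 4 :=
    cb_m0 hRp hθp hα hTp hTJ hθT hBη hBRr (by linarith)
  have hKsmall : (K : ℝ) * B ≤ α * n / 4 := cb_K hα hBp hRα hBRr
  -- gain
  have hgain : V + θ * α / 4 * ∑ m ∈ Icc m0 m1, N m ≤
      SE + ((K : ℝ) + W) * N m1 + θ ^ 2 * ((m1 : ℝ) + 1 + (K + W)) := by
    have h1 := hMP n B M K ι _ q y b V (emu B θ m0 m1 L) hn0 hmix
      (fun k j => cb_emu_card hBlen hθp.le hθ1 m0 m1 hL k j)
    have h2 : ∀ i, q i * (pavg (fun π => rnd B M (emu B θ m0 m1 L) (fun k => π (y i k)) (b i))) +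
        q i * (θ * α / 4 * ∑ m ∈ Icc m0 m1, base B L (y i) (b i) m) ≤
        q i * (pavg (fun π => payoffG B M L G (fun k => π (y i k)) (b i))) +
        q i * (((K : ℝ) + (n : ℝ) / B) * base B L (y i) (b i) m1) +
        q i * (θ ^ 2 * ((m1 : ℝ) + 1 + (K + (n : ℝ) / B))) := by
      intro i
      rw [← mul_add, ← mul_add, ← mul_add]
      exact mul_le_mul_of_nonneg_left (hGP n B M K m0 mt m1 γ α θ L G (y i) (b i) hn2 hBn hBlen
        hγ1 hθp.le hθ1 hα hα1 (by linarith) hm0mt hmtm1 hm1M (hmix.adm i) hL hG hmtB hdomcond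
        hamb hm0small hKsmall) (hmix.nonneg i)
    have h3 := Finset.sum_le_sum fun i (_ : i ∈ (Finset.univ : Finset ι)) => h2 i
    rw [Finset.sum_add_distrib, Finset.sum_add_distrib, Finset.sum_add_distrib, ← hSE,
      ← Finset.sum_mul, hmix.sum_one, one_mul, ← hW] at h3
    have h4 : ∑ i, q i * (θ * α / 4 * ∑ m ∈ Icc m0 m1, base B L (y i) (b i) m) =
        θ * α / 4 * ∑ m ∈ Icc m0 m1, N m := by
      simp only [hNm]
      rw [Finset.sum_comm, Finset.mul_sum]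
      refine Finset.sum_congr rfl fun i _ => ?_
      rw [← Finset.mul_sum]
      ring
    have h5 : ∑ i, q i * (((K : ℝ) + W) * base B L (y i) (b i) m1) = ((K : ℝ) + W) * N m1 := by
      rw [hNm, Finset.mul_sum]
      refine Finset.sum_congr rfl fun i _ => ?_
      ring
    rw [h4, h5] at h3
    linarith
  -- lower bound for the sum of the `N m`
  have hlow : V ≤ ∑ m ∈ range (m1 + 1), N m + ((K : ℝ) + W) * N m1 := by
    have h1 := hMP n B M K ι _ q y b V (emu B 0 0 m1 L) hn0 hmix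
      (fun k j => cb_emu_card hBlen le_rfl zero_le_one 0 m1 hL k j)
    refine h1.trans ?_
    have h2 : ∀ i, q i * (pavg (fun π => rnd B M (emu B 0 0 m1 L) (fun k => π (y i k)) (b i))) ≤
        q i * (∑ m ∈ range (m1 + 1), base B L (y i) (b i) m) +
        q i * (((K : ℝ) + W) * base B L (y i) (b i) m1) := by
      intro i
      rw [← mul_add]
      refine mul_le_mul_of_nonneg_left ?_ (hmix.nonneg i)
      have h3 := hEP n B M K 0 m1 0 L (y i) (b i) hBn hBlen le_rfl zero_le_one (Nat.zero_le _)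
        hm1M (hmix.adm i) hL
      refine h3.trans (le_of_eq ?_)
      rw [← hW]
      simp [dm]
    refine (Finset.sum_le_sum fun i _ => h2 i).trans (le_of_eq ?_)
    rw [Finset.sum_add_distrib]
    congr 1
    · simp only [hNm]
      rw [Finset.sum_comm]
      refine Finset.sum_congr rfl fun i _ => ?_
      rw [Finset.mul_sum]
    · rw [hNm, Finset.mul_sum]
      refine Finset.sum_congr rfl fun i _ => ?_
      ring
  have hsplit : ∑ m ∈ range (m1 + 1), N m ≤ m0 + ∑ m ∈ Icc m0 m1, N m := by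
    have h1 : range (m1 + 1) = range m0 ∪ Icc m0 m1 := by
      ext x
      simp only [Finset.mem_range, Finset.mem_union, Finset.mem_Icc]
      omega
    have h2 : Disjoint (range m0) (Icc m0 m1) := by
      rw [Finset.disjoint_left]
      intro x hx hx'
      rw [Finset.mem_range] at hx
      rw [Finset.mem_Icc] at hx'
      omega
    rw [h1, Finset.sum_union h2]
    have h3 : ∑ m ∈ range m0, N m ≤ m0 := by
      calc ∑ m ∈ range m0, N m ≤ ∑ m ∈ range m0, (1 : ℝ) := Finset.sum_le_sum fun m _ => hN1 m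
        _ = m0 := by simp
    linarith
  -- arithmetic
  obtain ⟨S, hS⟩ : ∃ S : ℝ, S = ∑ m ∈ Icc m0 m1, N m := ⟨_, rfl⟩
  rw [← hS] at hgain hsplit
  have hSlow : (R : ℝ) / 5 ≤ S :=
    cb_Slow hRp hJ64 hT2 (hN0 m1) hNm1 hKW hWR hV2 hlow hsplit hm0R
  refine cb_final hRp hη2p hα hη2α hT2 hTJ hθT hJ3 (hN0 m1) hNm1 hSlow hθp ?_ hW2
  have h1 : ((K : ℝ) + W) * N m1 ≤ 3 * R * N m1 := mul_le_mul_of_nonneg_right hKW (hN0 m1)
  have h2 : θ ^ 2 * ((m1 : ℝ) + 1 + (K + W)) ≤ θ ^ 2 * (3 * (T * R)) := by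
    refine mul_le_mul_of_nonneg_left ?_ (by positivity)
    rw [hm1r]
    linarith
  linarith

end MPacf82c.St
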