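import Pool.Agent.Lib.MP_acf82c_lc.S.SpecA

/-!
# Stability: part CatAdm
-/

namespace MPacf82c.St

open Finset

private theorem catAdm_min_step {n M : ℕ} {y : ℕ → Fin n} {b : ℕ → Bool}
    (h : ∀ k, k < M → b k = false → y k = y (k + 1)) (j : ℕ)
    (hj : (b j && decide (j < M)) = false) : y (min j M) = y (min (j + 1) M) := by
  by_cases hjM : j < M
  · have hb : b j = false := by
      simpa [hjM] using hj
    rw [min_eq_left hjM.le, min_eq_left (Nat.succ_le_of_lt hjM)]
    exact h j hjM hb
  · have h1 : M ≤ j := not_lt.mp hjM
    rw [min_eq_right h1, min_eq_right (h1.trans (Nat.le_succ j))]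

theorem sCatAdm : S_CatAdm := by
  intro n M M' K s u y b hA
  obtain ⟨h1, h2⟩ := hA
  refine ⟨⟨?_, ?_⟩, ⟨?_, ?_⟩⟩
  · intro k _ hb
    unfold catY
    unfold catB at hb
    rcases lt_trichotomy k s with hk | hk | hk
    · rw [if_pos hk.le, if_pos (Nat.succ_le_of_lt hk)]
    · subst hk
      simp at hb
    · rw [if_neg (not_lt.mpr hk.le), if_neg (ne_of_gt hk)] at hb
      rw [if_neg (not_le.mpr hk), if_neg (by omega : ¬ k + 1 ≤ s)]
      have h3 := catAdm_min_step h1 (k - s - 1) hb
      have h4 : k + 1 - s - 1 = k - s - 1 + 1 := by omega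
      rw [h4]
      exact h3
  · have hsub : ((range M').filter fun k => catB M s b k = true) ⊆
        insert s (((range M).filter fun k => b k = true).image fun k => k + (s + 1)) := by
      intro k hk
      rw [mem_filter] at hk
      have hb := hk.2
      unfold catB at hb
      rcases lt_trichotomy k s with hk' | hk' | hk'
      · rw [if_pos hk'] at hb
        exact absurd hb (by simp)
      · rw [hk']
        exact mem_insert_self _ _
      · rw [if_neg (not_lt.mpr hk'.le), if_neg (ne_of_gt hk'), Bool.and_eq_true,
          decide_eq_true_eq] at hb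
        refine mem_insert_of_mem (mem_image.mpr ⟨k - s - 1, ?_, by omega⟩)
        rw [mem_filter, mem_range]
        exact ⟨hb.2, hb.1⟩
    refine (card_le_card hsub).trans ((card_insert_le _ _).trans ?_)
    exact Nat.succ_le_succ (card_image_le.trans h2)
  · intro k _ hb
    exact catAdm_min_step h1 k hb
  · have hsub : ((range M').filter fun k => extB M b k = true) ⊆
        ((range M).filter fun k => b k = true) := by
      intro k hk
      rw [mem_filter] at hk
      have hb := hk.2
      unfold extB at hb
      rw [Bool.and_eq_true, decide_eq_true_eq] at hb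
      rw [mem_filter, mem_range]
      exact ⟨hb.2, hb.1⟩
    exact ((card_le_card hsub).trans h2).trans (Nat.le_succ K)

end MPacf82c.St
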