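import Pool.Agent.Lib.MP_acf82c_lc.S.SpecA

/-!
# Stability: the payoff of the plan with an early star
-/

namespace MPacf82c.St

open Finset

private theorem catPay_ind {n : ℕ} (B : ℕ) (L : ℕ → Finset (Fin n)) (v : Fin n) (m : ℕ) :
    ∏ k ∈ range m, fac B (L k) v false = if ∀ k < m, v ∉ L k then (1 : ℝ) else 0 := by
  by_cases h : ∀ k < m, v ∉ L k
  · rw [if_pos h]
    apply Finset.prod_eq_one
    intro k hk
    have h1 := h k (Finset.mem_range.1 hk)
    simp [fac, h1]
  · rw [if_neg h]
    push Not at h
    obtain ⟨k, hk, hv⟩ := h
    exact Finset.prod_eq_zero (Finset.mem_range.2 hk) (by simp [fac, hv])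

theorem sCatPay : S_CatPay := by
  intro n B M M' s u L y b π _ _ hM
  have h1 : payoff B (s + 1 + M) L (fun k => π (catY M s u y k)) (catB M s b) ≤
      payoff B M' L (fun k => π (catY M s u y k)) (catB M s b) := by
    unfold payoff
    apply Finset.sum_le_sum_of_subset_of_nonneg
    · intro k hk
      rw [Finset.mem_range] at hk ⊢
      omega
    · intro k _ _
      exact surv_nonneg' _ _ _ _ _
  refine le_trans (le_of_eq ?_) h1
  have h2 : ∀ m ≤ s, surv B L (fun k => π (catY M s u y k)) (catB M s b) m =
      if ∀ k < m, π u ∉ L k then (1 : ℝ) else 0 := by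
    intro m hm
    rw [← catPay_ind B L (π u) m]
    unfold surv
    apply Finset.prod_congr rfl
    intro k hk
    rw [Finset.mem_range] at hk
    have e1 : catY M s u y k = u := by
      unfold catY
      rw [if_pos (by omega)]
    have e2 : catB M s b k = false := by
      unfold catB
      rw [if_pos (by omega)]
    show fac B (L k) (π (catY M s u y k)) (catB M s b k) = fac B (L k) (π u) false
    rw [e1, e2]
  have h3 : ∀ m < M, surv B L (fun k => π (catY M s u y k)) (catB M s b) (s + 1 + m) =
      (if ∀ k < s, π u ∉ L k then (1 : ℝ) else 0) * (((L s).card : ℝ) / B) *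
        surv B (fun k => L (k + s + 1)) (fun k => π (y k)) b m := by
    intro m hm
    have e1 : surv B L (fun k => π (catY M s u y k)) (catB M s b) (s + 1 + m) =
        surv B L (fun k => π (catY M s u y k)) (catB M s b) (s + 1) *
          ∏ k ∈ range m, fac B (L (s + 1 + k)) (π (catY M s u y (s + 1 + k)))
            (catB M s b (s + 1 + k)) := by
      unfold surv
      rw [Finset.prod_range_add]
    rw [e1, surv_succ', h2 s le_rfl]
    have e2 : fac B (L s) (π (catY M s u y s)) (catB M s b s) = ((L s).card : ℝ) / B := by
      have : catB M s b s = true := by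
        unfold catB
        rw [if_neg (by omega), if_pos rfl]
      rw [this]
      simp [fac]
    rw [e2]
    congr 1
    unfold surv
    apply Finset.prod_congr rfl
    intro k hk
    rw [Finset.mem_range] at hk
    have e3 : catY M s u y (s + 1 + k) = y k := by
      unfold catY
      rw [if_neg (by omega)]
      congr 1
      omega
    have e4 : catB M s b (s + 1 + k) = b k := by
      unfold catB
      rw [if_neg (by omega), if_neg (by omega)]
      have e5 : s + 1 + k - s - 1 = k := by omega
      rw [e5]
      have e6 : k < M := by omega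
      simp [e6]
    rw [e3, e4]
    congr 2
    omega
  unfold payoff
  rw [Finset.sum_range_add _ (s + 1) M, Finset.mul_sum]
  congr 1
  · apply Finset.sum_congr rfl
    intro m hm
    rw [Finset.mem_range] at hm
    rw [h2 m (by omega)]
  · apply Finset.sum_congr rfl
    intro m hm
    rw [Finset.mem_range] at hm
    rw [h3 m hm]

end MPacf82c.St
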