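import Pool.Agent.Lib.MP_acf82c_lc.S.SpecB

/-!
# Travelling along a node-simple chain at unit speed

Induction on the chain, adapted from `RouteReal`.
-/

namespace MPacf82c.St

open Set MeasureTheory
open scoped NNReal ENNReal

namespace ChainCurve

variable {Q : Type} [MetricSpace Q] (N : Network Q)

/-- The statement proved by induction. -/
def Good (a b : Q) (l : List (N.Arc × Bool)) : Prop :=
  ∃ (r : ℝ → Q) (u : Q → ℝ) (cc dd : N.Arc → ℝ), LipschitzWith 1 r ∧ (∀ σ ≤ 0, r σ = a) ∧
    (∀ σ, clen N l ≤ σ → r σ = b) ∧ (∀ c, dd c = 1 ∨ dd c = -1) ∧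
    ∀ σ ∈ Icc 0 (clen N l), (r σ ∈ vis N a l ∧ σ = u (r σ)) ∨
      (∃ c ∈ l.map Prod.fst, ∃ x ∈ Ioo 0 (N.len c), r σ = N.pt c x ∧ σ = cc c + dd c * x)

theorem vis_cons (a : Q) (e : N.Arc) (o : Bool) (l : List (N.Arc × Bool)) :
    vis N a ((e, o) :: l) = a :: vis N (en N e o) l := by
  simp [vis]

/-- The inductive step, for an abstract first piece `g` of the route. -/
theorem step (a a' b : Q) (l : List (N.Arc × Bool)) (e : N.Arc) (o : Bool)
    (ha' : en N e o = a') (hav : a ∉ vis N a' l)
    (hG : Good N a' b l) (hnot : e ∉ l.map Prod.fst)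
    (g : ℝ → Q) (hg : LipschitzWith 1 g) (hg0 : ∀ s ≤ 0, g s = a) (hg1 : g (N.len e) = a')
    (ce de : ℝ) (hde : de = 1 ∨ de = -1)
    (hin : ∀ s, 0 < s → s < N.len e → ∃ x ∈ Ioo 0 (N.len e), g s = N.pt e x ∧
      s = ce + de * x) :
    Good N a b ((e, o) :: l) := by
  classical
  obtain ⟨r', u', c', d', hr', h0', h1', hd', hs'⟩ := hG
  have hpos := N.len_pos e
  have hsum : clen N ((e, o) :: l) = N.len e + clen N l := by
    unfold clen
    rw [List.map_cons, List.sum_cons]
  have hnn : 0 ≤ clen N l := by
    unfold clen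
    apply List.sum_nonneg
    intro x hx
    rw [List.mem_map] at hx
    obtain ⟨p, -, rfl⟩ := hx
    exact (N.len_pos _).le
  have hr'' : LipschitzWith 1 (fun s => r' (s - N.len e)) := by
    refine LipschitzWith.of_dist_le_mul ?_
    intro s t
    have := hr'.dist_le_mul (s - N.len e) (t - N.len e)
    refine this.trans ?_
    rw [Real.dist_eq, Real.dist_eq, show s - N.len e - (t - N.len e) = s - t by ring]
  refine ⟨fun s => if s ≤ N.len e then g s else r' (s - N.len e),
    fun z => if z = a then 0 else u' z + N.len e,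
    fun e' => if e' = e then ce else c' e' + N.len e,
    fun e' => if e' = e then de else d' e', ?_, ?_, ?_, ?_, ?_⟩
  · apply RouteReal.glue hg hr'' (N.len e)
    show g (N.len e) = r' (N.len e - N.len e)
    rw [hg1, sub_self, h0' 0 le_rfl]
  · intro s hs
    show (if s ≤ N.len e then g s else r' (s - N.len e)) = a
    rw [if_pos (hs.trans hpos.le), hg0 s hs]
  · intro s hs
    show (if s ≤ N.len e then g s else r' (s - N.len e)) = b
    rw [hsum] at hs
    by_cases h : s ≤ N.len e
    · rw [if_pos h]
      have h2 : s = N.len e := by linarith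
      have h3 : clen N l ≤ 0 := by linarith
      rw [h2, hg1, ← h0' 0 le_rfl]
      exact h1' 0 h3
    · rw [if_neg h]
      exact h1' _ (by linarith)
  · intro c
    show (if c = e then de else d' c) = 1 ∨ (if c = e then de else d' c) = -1
    by_cases hc : c = e
    · rw [if_pos hc]
      exact hde
    · rw [if_neg hc]
      exact hd' c
  · intro s hs
    rw [hsum] at hs
    show ((if s ≤ N.len e then g s else r' (s - N.len e)) ∈ vis N a ((e, o) :: l) ∧
        s = (if (if s ≤ N.len e then g s else r' (s - N.len e)) = a then 0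
          else u' (if s ≤ N.len e then g s else r' (s - N.len e)) + N.len e)) ∨
      ∃ e' ∈ ((e, o) :: l).map Prod.fst, ∃ x ∈ Ioo 0 (N.len e'),
        (if s ≤ N.len e then g s else r' (s - N.len e)) = N.pt e' x ∧
        s = (if e' = e then ce else c' e' + N.len e) + (if e' = e then de else d' e') * x
    rw [vis_cons, ha']
    by_cases h : s < N.len e
    · rw [if_pos h.le]
      rcases hs.1.eq_or_lt with h0 | h0
      · left
        rw [← h0, hg0 0 le_rfl, if_pos rfl]
        exact ⟨List.mem_cons_self, rfl⟩
      · right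
        obtain ⟨x, hx, hx1, hx2⟩ := hin s h0 h
        refine ⟨e, ?_, x, hx, hx1, ?_⟩
        · rw [List.map_cons]
          exact List.mem_cons_self
        · rw [if_pos rfl, if_pos rfl]
          exact hx2
    · push Not at h
      have hval : (if s ≤ N.len e then g s else r' (s - N.len e)) = r' (s - N.len e) := by
        by_cases h2 : s ≤ N.len e
        · rw [if_pos h2]
          have h3 : s = N.len e := le_antisymm h2 h
          rw [h3, hg1, sub_self, h0' 0 le_rfl]
        · rw [if_neg h2]
      rw [hval]
      rcases hs' (s - N.len e) ⟨by linarith, by linarith [hs.2]⟩ with h3 | h3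
      · left
        obtain ⟨h4, h5⟩ := h3
        have hne : r' (s - N.len e) ≠ a := by
          intro h7
          rw [h7] at h4
          exact hav h4
        refine ⟨List.mem_cons_of_mem _ h4, ?_⟩
        rw [if_neg hne, ← h5]
        ring
      · right
        obtain ⟨e', he', x, hx, hx1, hx2⟩ := h3
        refine ⟨e', ?_, x, hx, hx1, ?_⟩
        · rw [List.map_cons]
          exact List.mem_cons_of_mem _ he'
        · have hne : e' ≠ e := by
            rintro rfl
            exact hnot he'
          rw [if_neg hne, if_neg hne]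
          linarith

theorem good (hN : S_ChainNodup) {a b : Q} {l : List (N.Arc × Bool)}
    (hl : Chain (tl N) (hd N) a b l) (hv : (vis N a l).Nodup) : Good N a b l := by
  induction hl with
  | nil v =>
    refine ⟨fun _ => v, fun _ => 0, fun _ => 0, fun _ => 1,
      (LipschitzWith.const v).weaken zero_le_one, fun _ _ => rfl, fun _ _ => rfl,
      fun _ => Or.inl rfl, ?_⟩
    intro s hs
    left
    have h0 : clen N ([] : List (N.Arc × Bool)) = 0 := by simp [clen]
    rw [h0] at hs
    exact ⟨by simp [vis], le_antisymm hs.2 hs.1⟩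
  | fwd e b l hl ih =>
    have hlen := N.len_pos e
    have hv2 := hv
    rw [vis_cons] at hv2
    have hen : en N e true = hd N e := by simp [en]
    rw [hen] at hv2
    have hnd := List.nodup_cons.1 hv2
    have hnot : e ∉ l.map Prod.fst := by
      have h1 := (hN Q N (tl N e) b ((e, true) :: l) (Chain.fwd e b l hl) hv).1
      rw [List.map_cons] at h1
      exact (List.nodup_cons.1 h1).1
    refine step N (tl N e) (hd N e) b l e true hen hnd.1 (ih hnd.2) hnot (RouteReal.gam N e)
      (RouteReal.gam_lip N e) (fun s hs => RouteReal.gam_of_nonpos N e hs)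
      (RouteReal.gam_of_ge N e le_rfl) 0 1 (Or.inl rfl) ?_
    intro s h0 h1
    exact ⟨s, ⟨h0, h1⟩, RouteReal.gam_of_mem N e h0.le h1.le, by ring⟩
  | bwd e b l hl ih =>
    have hlen := N.len_pos e
    have hv2 := hv
    rw [vis_cons] at hv2
    have hen : en N e false = tl N e := by simp [en]
    rw [hen] at hv2
    have hnd := List.nodup_cons.1 hv2
    have hnot : e ∉ l.map Prod.fst := by
      have h1 := (hN Q N (hd N e) b ((e, false) :: l) (Chain.bwd e b l hl) hv).1
      rw [List.map_cons] at h1
      exact (List.nodup_cons.1 h1).1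
    refine step N (hd N e) (tl N e) b l e false hen hnd.1 (ih hnd.2) hnot
      (fun s => RouteReal.gam N e (N.len e - s)) (RouteReal.gam_rev_lip N e)
      (fun s hs => RouteReal.gam_of_ge N e (by linarith)) ?_ (N.len e) (-1) (Or.inr rfl) ?_
    · show RouteReal.gam N e (N.len e - N.len e) = N.pt e 0
      exact RouteReal.gam_of_nonpos N e (by linarith)
    · intro s h0 h1
      exact ⟨N.len e - s, ⟨by linarith, by linarith⟩,
        RouteReal.gam_of_mem N e (by linarith) (by linarith), by ring⟩

end ChainCurve

/-- Travelling along a node-simple chain at unit speed. -/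
theorem sChainCurve (hN : S_ChainNodup) : S_ChainCurve := by
  intro Q _ N a b l hl hv
  exact ChainCurve.good N hN hl hv

end MPacf82c.St
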