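import Pool.Agent.Lib.MP_acf82c_lc.S.SpecC

/-!
# The length of a chain is at least the distance of its ends
-/

namespace MPacf82c.St

open Set

theorem sChainDist : S_ChainDist := by
  intro Q _ N a b l h
  have harc : ∀ e : N.Arc, dist (tl N e) (hd N e) ≤ N.len e := by
    intro e
    have hp := N.len_pos e
    have h1 := N.dist_le e 0 ⟨le_refl _, hp.le⟩ (N.len e) ⟨hp.le, le_refl _⟩
    have h2 : |(0 : ℝ) - N.len e| = N.len e := by
      rw [zero_sub, abs_neg, abs_of_pos hp]
    rw [h2] at h1
    exact h1
  induction h with
  | nil v => simp [clen]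
  | fwd e b l _ ih =>
    have h1 := dist_triangle (tl N e) (hd N e) b
    have h2 := harc e
    have h3 : clen N ((e, true) :: l) = N.len e + clen N l := by simp [clen]
    rw [h3]
    linarith
  | bwd e b l _ ih =>
    have h1 := dist_triangle (hd N e) (tl N e) b
    have h2 := harc e
    rw [dist_comm] at h2
    have h3 : clen N ((e, false) :: l) = N.len e + clen N l := by simp [clen]
    rw [h3]
    linarith

end MPacf82c.St
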