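import Pool.Agent.Lib.MP_acf82c_lc.S.SpecB

/-!
# MP_acf82c_lc, Theorem S: arcs of a node-simple chain
-/

namespace MPacf82c.St

open Set MeasureTheory
open scoped NNReal ENNReal

theorem ChainNodup.fwd_eq {Q : Type} [MetricSpace Q] (N : Network Q) (e : N.Arc)
    (l : List (N.Arc × Bool)) : vis N (tl N e) ((e, true) :: l) = tl N e :: vis N (hd N e) l := rfl

theorem ChainNodup.bwd_eq {Q : Type} [MetricSpace Q] (N : Network Q) (e : N.Arc)
    (l : List (N.Arc × Bool)) : vis N (hd N e) ((e, false) :: l) = hd N e :: vis N (tl N e) l := rfl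

theorem ChainNodup.head_mem {Q : Type} [MetricSpace Q] (N : Network Q) (a : Q)
    (l : List (N.Arc × Bool)) : a ∈ vis N a l := List.mem_cons_self

theorem sChainNodup : S_ChainNodup := by
  intro Q _ N a b l hl
  induction hl with
  | nil v => exact fun _ => ⟨List.nodup_nil, fun c hc => absurd hc List.not_mem_nil⟩
  | fwd e b l _ ih =>
    intro hnd
    rw [ChainNodup.fwd_eq] at hnd ⊢
    obtain ⟨h1, h2⟩ := List.nodup_cons.1 hnd
    obtain ⟨h3, h4⟩ := ih h2
    have h5 := ChainNodup.head_mem N (hd N e) l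
    refine ⟨List.nodup_cons.2 ⟨fun hmem => h1 (h4 e hmem).2.1, h3⟩, fun c hc => ?_⟩
    rcases List.mem_cons.1 hc with hc | hc
    · have hc' : c = e := hc
      subst hc'
      exact ⟨fun h => h1 (by rw [h]; exact h5), List.mem_cons_self,
        List.mem_cons_of_mem _ h5⟩
    · obtain ⟨h6, h7, h8⟩ := h4 c hc
      exact ⟨h6, List.mem_cons_of_mem _ h7, List.mem_cons_of_mem _ h8⟩
  | bwd e b l _ ih =>
    intro hnd
    rw [ChainNodup.bwd_eq] at hnd ⊢
    obtain ⟨h1, h2⟩ := List.nodup_cons.1 hnd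
    obtain ⟨h3, h4⟩ := ih h2
    have h5 := ChainNodup.head_mem N (tl N e) l
    refine ⟨List.nodup_cons.2 ⟨fun hmem => h1 (h4 e hmem).2.2, h3⟩, fun c hc => ?_⟩
    rcases List.mem_cons.1 hc with hc | hc
    · have hc' : c = e := hc
      subst hc'
      exact ⟨fun h => h1 (by rw [← h]; exact h5), List.mem_cons_of_mem _ h5,
        List.mem_cons_self⟩
    · obtain ⟨h6, h7, h8⟩ := h4 c hc
      exact ⟨h6, List.mem_cons_of_mem _ h7, List.mem_cons_of_mem _ h8⟩

end MPacf82c.St
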