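import Pool.Agent.Lib.MP_acf82c_lc.S.SpecC

/-!
# Stability (MP_acf82c_lc, Theorem S): splitting a chain at a visited node
-/

namespace MPacf82c.St

private theorem split_aux {Q : Type} [MetricSpace Q] (N : Network Q) {a b : Q}
    {l : List (N.Arc × Bool)} (h : Chain (tl N) (hd N) a b l) :
    ∀ v : Q, v ∈ vis N a l → ∃ l₁ l₂ : List (N.Arc × Bool), l = l₁ ++ l₂ ∧
      Chain (tl N) (hd N) a v l₁ ∧ Chain (tl N) (hd N) v b l₂ ∧
      (∀ w, w ∈ vis N a l ↔ w ∈ vis N a l₁ ∨ w ∈ vis N v l₂) ∧
      (vis N v l₂).Sublist (vis N a l) := by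
  induction h with
  | nil v0 =>
    intro v hv
    have hv' : v = v0 := by simpa [vis] using hv
    subst hv'
    exact ⟨[], [], rfl, Chain.nil _, Chain.nil _, fun w => by simp [vis], List.Sublist.refl _⟩
  | fwd e b l hl ih =>
    intro v hv
    have hvis : vis N (tl N e) ((e, true) :: l) = tl N e :: vis N (hd N e) l := rfl
    rw [hvis, List.mem_cons] at hv
    rcases hv with rfl | hv
    · refine ⟨[], (e, true) :: l, rfl, Chain.nil _, Chain.fwd e b l hl, fun w => ?_,
        List.Sublist.refl _⟩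
      rw [hvis]
      simp [vis]
    · obtain ⟨l₁, l₂, h1, h2, h3, h4, h5⟩ := ih v hv
      refine ⟨(e, true) :: l₁, l₂, by rw [h1]; rfl, Chain.fwd e v l₁ h2, h3, fun w => ?_, ?_⟩
      · have hvis1 : vis N (tl N e) ((e, true) :: l₁) = tl N e :: vis N (hd N e) l₁ := rfl
        rw [hvis, hvis1, List.mem_cons, List.mem_cons, h4 w, or_assoc]
      · rw [hvis]
        exact h5.cons _
  | bwd e b l hl ih =>
    intro v hv
    have hvis : vis N (hd N e) ((e, false) :: l) = hd N e :: vis N (tl N e) l := rfl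
    rw [hvis, List.mem_cons] at hv
    rcases hv with rfl | hv
    · refine ⟨[], (e, false) :: l, rfl, Chain.nil _, Chain.bwd e b l hl, fun w => ?_,
        List.Sublist.refl _⟩
      rw [hvis]
      simp [vis]
    · obtain ⟨l₁, l₂, h1, h2, h3, h4, h5⟩ := ih v hv
      refine ⟨(e, false) :: l₁, l₂, by rw [h1]; rfl, Chain.bwd e v l₁ h2, h3, fun w => ?_, ?_⟩
      · have hvis1 : vis N (hd N e) ((e, false) :: l₁) = hd N e :: vis N (tl N e) l₁ := rfl
        rw [hvis, hvis1, List.mem_cons, List.mem_cons, h4 w, or_assoc]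
      · rw [hvis]
        exact h5.cons _

theorem sChainSplit : S_ChainSplit := by
  intro Q _ N a b v l h hv
  exact split_aux N h v hv

end MPacf82c.St
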