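import Pool.Agent.Lib.MP_acf82c_lc.S.SpecB

/-! # Stability (MP_acf82c_lc, Theorem S): clamping to disjoint intervals -/

set_option autoImplicit false

namespace MPacf82c.St

open Set MeasureTheory
open scoped NNReal ENNReal

/-- The increment of the clamped value is the length of the common part of two intervals. -/
private theorem clamp_inc (a b x y : ℝ) (hab : a ≤ b) (hxy : y ≤ x) :
    volume (Ioo a b ∩ Ioo y x) = ENNReal.ofReal |cl a b x - cl a b y| := by
  rw [Ioo_inter_Ioo, Real.volume_Ioo]
  unfold cl
  have h1 : max a (min b y) ≤ max a (min b x) := max_le_max le_rfl (min_le_min le_rfl hxy)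
  rw [abs_of_nonneg (sub_nonneg.mpr h1)]
  rcases le_total (b ⊓ x) (a ⊔ y) with h | h
  · rw [ENNReal.ofReal_eq_zero.mpr (sub_nonpos.mpr h), eq_comm, ENNReal.ofReal_eq_zero]
    rcases le_total b x with hb | hb <;> rcases le_total a y with ha | ha <;>
    rcases le_total b y with hc | hc <;> rcases le_total a x with hd | hd <;>
      simp only [min_eq_left, min_eq_right, max_eq_left, max_eq_right, hab, hb, ha, hc, hd,
        sub_nonpos] at h ⊢ <;> linarith
  · apply congrArg
    rcases le_total b x with hb | hb <;> rcases le_total a y with ha | ha <;>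
    rcases le_total b y with hc | hc <;> rcases le_total a x with hd | hd <;>
      simp only [min_eq_left, min_eq_right, max_eq_left, max_eq_right, hab, hb, ha, hc, hd]
        at h ⊢ <;> linarith

private theorem clamp_le (ι : Type) (s : Finset ι) (a b : ι → ℝ) (hab : ∀ i ∈ s, a i ≤ b i)
    (hd : ∀ i ∈ s, ∀ j ∈ s, i ≠ j → b i ≤ a j ∨ b j ≤ a i) (x y : ℝ) (hxy : y ≤ x) :
    ∑ i ∈ s, |cl (a i) (b i) x - cl (a i) (b i) y| ≤ |x - y| := by
  rw [abs_of_nonneg (sub_nonneg.mpr hxy), ← ENNReal.ofReal_le_ofReal_iff (sub_nonneg.mpr hxy),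
    ENNReal.ofReal_sum_of_nonneg (fun i _ => abs_nonneg _), ← Real.volume_Ioo,
    Finset.sum_congr rfl (fun i hi => (clamp_inc (a i) (b i) x y (hab i hi) hxy).symm),
    ← measure_biUnion_finset]
  · exact measure_mono (Set.iUnion₂_subset fun i _ => Set.inter_subset_right)
  · intro i hi j hj hij
    refine Set.disjoint_left.mpr fun z hz hz' => ?_
    rcases hd i hi j hj hij with h | h
    · exact absurd (hz.1.2.trans_le h) (not_lt.mpr hz'.1.1.le)
    · exact absurd (hz'.1.2.trans_le h) (not_lt.mpr hz.1.1.le)
  · exact fun i _ => measurableSet_Ioo.inter measurableSet_Ioo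

/-- **Clamping to disjoint intervals.** -/
theorem sClamp : S_Clamp := by
  intro ι s a b hab hd x y
  rcases le_total y x with h | h
  · exact clamp_le ι s a b hab hd x y h
  · have := clamp_le ι s a b hab hd y x h
    rw [abs_sub_comm x y]
    refine le_of_eq_of_le (Finset.sum_congr rfl fun i _ => abs_sub_comm _ _) this

end MPacf82c.St
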