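import Pool.Agent.Lib.MP_acf82c_lc.S.SpecB

/-!
# MP_acf82c_lc, Theorem S: domination of increments passes to derivatives
-/

set_option autoImplicit false

open Finset Filter
open scoped Topology

namespace MPacf82c.St

theorem sClampD : S_ClampD := by
  intro ι s f g h t hg hf
  have h1 : Tendsto (fun y => ∑ i ∈ s, |slope (g i) t y|) (𝓝[≠] t)
      (𝓝 (∑ i ∈ s, |deriv (g i) t|)) :=
    tendsto_finsetSum s fun i hi =>
      (hasDerivAt_iff_tendsto_slope.1 (hg i hi).hasDerivAt).abs
  have h2 : Tendsto (fun y => |slope f t y|) (𝓝[≠] t) (𝓝 |deriv f t|) :=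
    (hasDerivAt_iff_tendsto_slope.1 hf.hasDerivAt).abs
  refine le_of_tendsto_of_tendsto' h1 h2 fun y => ?_
  have h3 : ∀ F : ℝ → ℝ, |slope F t y| = |y - t|⁻¹ * |F y - F t| := by
    intro F
    rw [slope_def_field, abs_div, div_eq_inv_mul]
  rw [h3, Finset.sum_congr rfl fun i _ => h3 (g i), ← Finset.mul_sum]
  exact mul_le_mul_of_nonneg_left (h y t) (inv_nonneg.2 (abs_nonneg _))

end MPacf82c.St
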