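import Pool.Agent.Lib.MP_acf82c_lc.S.SpecC

/-!
# Pairs of sample points on different arcs
-/

set_option autoImplicit false

namespace MPacf82c.St

open Set MeasureTheory

open Classical in
theorem sCountD (hJ : S_CountJ) : S_CountD := by
  intro Q _ N D ℓ g h n arcOf pos p hD hp hℓ hg hh hpos hcard hcov hNC hn1 hn2 hD1
  have h1 := hJ Q N ℓ g h n arcOf pos p hp hℓ hg.le hh hpos hcov hNC
  have h2 : ∀ i, ∑ j, ind (arcOf i = arcOf j) ≤ 2 * D / h := by
    intro i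
    have h3 : ∑ j, ind (arcOf i = arcOf j) =
        ((Finset.univ.filter fun j => arcOf j = arcOf i).card : ℝ) := by
      rw [Finset.card_filter]
      push_cast
      refine Finset.sum_congr rfl fun j _ => ?_
      unfold ind
      by_cases h4 : arcOf i = arcOf j
      · rw [if_pos h4, if_pos h4.symm]
      · rw [if_neg h4, if_neg fun h5 => h4 h5.symm]
    rw [h3, le_div_iff₀ hh]
    exact (hcard (arcOf i)).trans (len_le_two_diam N hD (arcOf i))
  have hA : ∑ i, ∑ j, ind (arcOf i = arcOf j) ≤ g * (n : ℝ) ^ 2 / 8 := by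
    have h3 : ∑ i, ∑ j, ind (arcOf i = arcOf j) ≤ n * (2 * D / h) := by
      refine (Finset.sum_le_sum fun i _ => h2 i).trans ?_
      rw [Finset.sum_const, Finset.card_univ, Fintype.card_fin, nsmul_eq_mul]
    refine h3.trans ?_
    have hn0 : (0 : ℝ) ≤ n := Nat.cast_nonneg n
    have h4 : 2 * D / h ≤ g * n / 8 := by
      rw [div_le_iff₀ hh]
      nlinarith
    calc (n : ℝ) * (2 * D / h) ≤ n * (g * n / 8) := mul_le_mul_of_nonneg_left h4 hn0
      _ = g * (n : ℝ) ^ 2 / 8 := by ring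
  refine ⟨hA, ?_⟩
  have h5 : ∑ i, ∑ j, ind (∃ L ≤ ℓ + 2 * h,
      WalkIn N {p}ᶜ (N.pt (arcOf i) (pos i)) (N.pt (arcOf j) (pos j)) L) ≤
      ∑ i, ∑ j, ind (arcOf i ≠ arcOf j ∧ ∃ L ≤ ℓ + 2 * h,
      WalkIn N {p}ᶜ (N.pt (arcOf i) (pos i)) (N.pt (arcOf j) (pos j)) L) +
      ∑ i, ∑ j, ind (arcOf i = arcOf j) := by
    rw [← Finset.sum_add_distrib]
    refine Finset.sum_le_sum fun i _ => ?_
    rw [← Finset.sum_add_distrib]
    refine Finset.sum_le_sum fun j _ => ?_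
    generalize (∃ L ≤ ℓ + 2 * h,
      WalkIn N {p}ᶜ (N.pt (arcOf i) (pos i)) (N.pt (arcOf j) (pos j)) L) = W
    unfold ind
    by_cases hW : W <;> by_cases he : arcOf i = arcOf j <;> simp [hW, he]
  have h6 : g * (n : ℝ) ^ 2 / 4 ≤ ∑ i, ∑ j, ind (∃ L ≤ ℓ + 2 * h,
      WalkIn N {p}ᶜ (N.pt (arcOf i) (pos i)) (N.pt (arcOf j) (pos j)) L) := by
    have h7 : (n : ℝ) ^ 2 * h ^ 2 ≤ N.length ^ 2 := by
      rw [← mul_pow]
      exact pow_le_pow_left₀ (mul_nonneg (Nat.cast_nonneg n) hh.le) hn1 2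
    have h8 : g * ((n : ℝ) ^ 2 * h ^ 2) ≤ g * N.length ^ 2 := mul_le_mul_of_nonneg_left h7 hg.le
    have h9 : 0 < h ^ 2 := pow_pos hh 2
    rw [div_le_iff₀ (by norm_num : (0 : ℝ) < 4)]
    refine le_of_mul_le_mul_right ?_ h9
    linarith
  linarith

end MPacf82c.St
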