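import Pool.Agent.Lib.MP_acf82c_lc.S.SpecC

/-!
# Sample pairs joined off a node
-/

set_option autoImplicit false

namespace MPacf82c.St

open Set MeasureTheory
open scoped NNReal ENNReal

namespace CountJ

variable {Q : Type} [MetricSpace Q] {N : Network Q} {A : Set Q}

/-- Concatenation of walks inside a set. -/
theorem trans {x y z : Q} {L L' : ℝ} (h : WalkIn N A x y L) (h' : WalkIn N A y z L') :
    WalkIn N A x z (L + L') := by
  induction h with
  | nil x hx => rwa [zero_add]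
  | cons e s t hs ht hA y L h ih =>
    rw [add_assoc]
    exact WalkIn.cons e s t hs ht hA z (L + L') (ih h')

/-- The segment from an interior point to a point which is not the node avoids the node. -/
theorem seg {p : Q} (hp : p ∈ N.nodes) {e : N.Arc} {s t : ℝ} (hs : s ∈ Ioo 0 (N.len e))
    (ht : t ∈ Icc 0 (N.len e)) (hpt : N.pt e t ≠ p) :
    ∀ u ∈ uIcc s t, N.pt e u ∈ ({p}ᶜ : Set Q) := by
  intro u hu
  by_cases h : u = t
  · rw [h]
    exact hpt
  · have h1 : u ∈ Ioo 0 (N.len e) := by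
      rw [mem_uIcc] at hu
      rcases hu with ⟨h1, h2⟩ | ⟨h1, h2⟩
      · exact ⟨lt_of_lt_of_le hs.1 h1, lt_of_lt_of_le (lt_of_le_of_ne h2 h) ht.2⟩
      · exact ⟨lt_of_le_of_lt ht.1 (lt_of_le_of_ne h1 (Ne.symm h)), lt_of_le_of_lt h2 hs.2⟩
    intro h2
    rw [mem_singleton_iff] at h2
    exact notMem_nodes_of_mem_openArc N ⟨u, h1, h2⟩ hp

/-- The walk between the sample points. -/
theorem walk (hC : S_CurveWalk) {p : Q} (hp : p ∈ N.nodes) {ℓ h : ℝ} (hℓ : 0 ≤ ℓ)
    {e e' : N.Arc} {s s' t t' : ℝ} (hs : s ∈ Ioo 0 (N.len e)) (hs' : s' ∈ Ioo 0 (N.len e'))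
    (ht : t ∈ Icc 0 (N.len e)) (ht' : t' ∈ Icc 0 (N.len e')) (h1 : |t - s| ≤ h)
    (h2 : |t' - s'| ≤ h) (hJ : JoinedOff p ℓ (N.pt e t) (N.pt e' t')) :
    ∃ L ≤ ℓ + 2 * h, WalkIn N {p}ᶜ (N.pt e s) (N.pt e' s') L := by
  obtain ⟨L, hL, hw⟩ := hC Q N p ℓ _ _ hℓ hJ
  obtain ⟨γ, -, g0, g1, g2⟩ := hJ
  have hx : N.pt e t ≠ p := by
    rw [← g0]
    exact g2 0 (left_mem_Icc.2 hℓ)
  have hy : N.pt e' t' ≠ p := by
    rw [← g1]
    exact g2 ℓ (right_mem_Icc.2 hℓ)
  have hb : WalkIn N {p}ᶜ (N.pt e' t') (N.pt e' s') (|t' - s'| + 0) := by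
    refine WalkIn.cons e' t' s' ht' (Ioo_subset_Icc_self hs') ?_ (N.pt e' s') 0
      (WalkIn.nil _ (seg hp hs' ht' hy s' left_mem_uIcc))
    rw [uIcc_comm]
    exact seg hp hs' ht' hy
  refine ⟨|s - t| + (L + (|t' - s'| + 0)), ?_, WalkIn.cons e s t (Ioo_subset_Icc_self hs) ht
    (seg hp hs ht hx) _ _ (trans hw hb)⟩
  rw [abs_sub_comm s t]
  linarith

end CountJ

open CountJ in
open Classical in
theorem sCountJ (hC : S_CurveWalk) : S_CountJ := by
  intro Q _ N ℓ g h n arcOf pos p hp hℓ hg hh hpos hcov hNC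
  obtain ⟨W, hW⟩ : ∃ W : Fin n × Fin n → Prop, W = fun q => ∃ L ≤ ℓ + 2 * h,
      WalkIn N {p}ᶜ (N.pt (arcOf q.1) (pos q.1)) (N.pt (arcOf q.2) (pos q.2)) L := ⟨_, rfl⟩
  have hvol : ∀ e e' : N.Arc, volume {x : ℝ × ℝ | x.1 ∈ Icc 0 (N.len e) ∧
      x.2 ∈ Icc 0 (N.len e') ∧ JoinedOff p ℓ (N.pt e x.1) (N.pt e' x.2)} ≤
      ∑ q : Fin n × Fin n, (if arcOf q.1 = e then (if arcOf q.2 = e' then
        (if W q then ENNReal.ofReal (4 * h ^ 2) else 0) else 0) else 0) := by
    intro e e'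
    have hsub : {x : ℝ × ℝ | x.1 ∈ Icc 0 (N.len e) ∧
        x.2 ∈ Icc 0 (N.len e') ∧ JoinedOff p ℓ (N.pt e x.1) (N.pt e' x.2)} ⊆
        ⋃ q : Fin n × Fin n, {x : ℝ × ℝ | (arcOf q.1 = e ∧ arcOf q.2 = e' ∧ W q) ∧
          x ∈ Icc (pos q.1 - h) (pos q.1 + h) ×ˢ Icc (pos q.2 - h) (pos q.2 + h)} := by
      rintro ⟨t, t'⟩ ⟨ht, ht', hJ⟩
      obtain ⟨i, hi, hi'⟩ := hcov e t ht
      obtain ⟨j, hj, hj'⟩ := hcov e' t' ht'
      refine mem_iUnion.2 ⟨(i, j), ⟨hi, hj, ?_⟩, ?_⟩
      · rw [hW]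
        have h1 := hpos i
        have h2 := hpos j
        have h3 : arcOf i = e := hi
        have h4 : arcOf j = e' := hj
        subst h3
        subst h4
        exact walk hC hp hℓ h1 h2 ht ht' hi' hj' hJ
      · rw [abs_le] at hi' hj'
        exact ⟨⟨by linarith [hi'.1], by linarith [hi'.2]⟩,
          ⟨by linarith [hj'.1], by linarith [hj'.2]⟩⟩
    refine (measure_mono hsub).trans ((measure_iUnion_fintype_le _ _).trans ?_)
    refine Finset.sum_le_sum fun q _ => ?_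
    by_cases h1 : arcOf q.1 = e
    · by_cases h2 : arcOf q.2 = e'
      · by_cases h3 : W q
        · rw [if_pos h1, if_pos h2, if_pos h3]
          have h4 : volume (Icc (pos q.1 - h) (pos q.1 + h) ×ˢ
              Icc (pos q.2 - h) (pos q.2 + h) : Set (ℝ × ℝ)) = ENNReal.ofReal (4 * h ^ 2) := by
            rw [Measure.volume_eq_prod, Measure.prod_prod, Real.volume_Icc, Real.volume_Icc,
              ← ENNReal.ofReal_mul (by linarith)]
            congr 1
            ring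
          rw [← h4]
          exact measure_mono fun x hx => hx.2
        · have h4 : {x : ℝ × ℝ | (arcOf q.1 = e ∧ arcOf q.2 = e' ∧ W q) ∧
              x ∈ Icc (pos q.1 - h) (pos q.1 + h) ×ˢ Icc (pos q.2 - h) (pos q.2 + h)} = ∅ :=
            eq_empty_of_forall_notMem fun x hx => h3 hx.1.2.2
          rw [h4, measure_empty]
          exact bot_le
      · have h4 : {x : ℝ × ℝ | (arcOf q.1 = e ∧ arcOf q.2 = e' ∧ W q) ∧
            x ∈ Icc (pos q.1 - h) (pos q.1 + h) ×ˢ Icc (pos q.2 - h) (pos q.2 + h)} = ∅ :=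
          eq_empty_of_forall_notMem fun x hx => h2 hx.1.2.1
        rw [h4, measure_empty]
        exact bot_le
    · have h4 : {x : ℝ × ℝ | (arcOf q.1 = e ∧ arcOf q.2 = e' ∧ W q) ∧
          x ∈ Icc (pos q.1 - h) (pos q.1 + h) ×ˢ Icc (pos q.2 - h) (pos q.2 + h)} = ∅ :=
        eq_empty_of_forall_notMem fun x hx => h1 hx.1.1
      rw [h4, measure_empty]
      exact bot_le
  have hsum : ENNReal.ofReal (g * N.length ^ 2) ≤
      ∑ q : Fin n × Fin n, (if W q then ENNReal.ofReal (4 * h ^ 2) else 0) := by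
    refine (hNC p).trans ((Finset.sum_le_sum fun e _ => Finset.sum_le_sum fun e' _ =>
      hvol e e').trans (le_of_eq ?_))
    calc ∑ e : N.Arc, ∑ e' : N.Arc, ∑ q : Fin n × Fin n, (if arcOf q.1 = e then
          (if arcOf q.2 = e' then (if W q then ENNReal.ofReal (4 * h ^ 2) else 0) else 0)
            else 0)
        = ∑ q : Fin n × Fin n, ∑ e : N.Arc, ∑ e' : N.Arc, (if arcOf q.1 = e then
          (if arcOf q.2 = e' then (if W q then ENNReal.ofReal (4 * h ^ 2) else 0) else 0)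
            else 0) := by
          exact (Finset.sum_congr rfl fun e _ => Finset.sum_comm).trans Finset.sum_comm
      _ = _ := by
          refine Finset.sum_congr rfl fun q _ => ?_
          rw [Finset.sum_eq_single (arcOf q.1)]
          · rw [Finset.sum_eq_single (arcOf q.2)]
            · rw [if_pos rfl, if_pos rfl]
            · intro e' _ he'
              rw [if_pos rfl, if_neg (Ne.symm he')]
            · intro h1
              exact absurd (Finset.mem_univ _) h1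
          · intro e _ he
            refine Finset.sum_eq_zero fun e' _ => ?_
            rw [if_neg (Ne.symm he)]
          · intro h1
            exact absurd (Finset.mem_univ _) h1
  have hval : ∑ q : Fin n × Fin n, (if W q then ENNReal.ofReal (4 * h ^ 2) else 0) =
      ENNReal.ofReal (4 * h ^ 2 * ∑ i, ∑ j, ind (∃ L ≤ ℓ + 2 * h,
        WalkIn N {p}ᶜ (N.pt (arcOf i) (pos i)) (N.pt (arcOf j) (pos j)) L)) := by
    have h1 : ∀ q : Fin n × Fin n, (if W q then ENNReal.ofReal (4 * h ^ 2) else 0) =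
        ENNReal.ofReal (4 * h ^ 2 * ind (W q)) := by
      intro q
      unfold ind
      by_cases h2 : W q
      · rw [if_pos h2, if_pos h2, mul_one]
      · rw [if_neg h2, if_neg h2, mul_zero, ENNReal.ofReal_zero]
    rw [Finset.sum_congr rfl fun q _ => h1 q, ← ENNReal.ofReal_sum_of_nonneg, ← Finset.mul_sum,
      Fintype.sum_prod_type, hW]
    intro q _
    refine mul_nonneg (by positivity) ?_
    unfold ind
    split_ifs <;> norm_num
  rw [hval] at hsum
  refine (ENNReal.ofReal_le_ofReal_iff ?_).1 hsum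
  refine mul_nonneg (by positivity) (Finset.sum_nonneg fun i _ => Finset.sum_nonneg fun j _ => ?_)
  unfold ind
  split_ifs <;> norm_num

end MPacf82c.St
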