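import Pool.Agent.Lib.MP_acf82c_lc.S.SpecC

/-!
# From a curve to a walk
-/

namespace MPacf82c.St

open Set MeasureTheory
open scoped NNReal ENNReal

namespace CurveWalk

variable {Q : Type} [MetricSpace Q] {N : Network Q} {A : Set Q}

/-- Concatenation of walks inside a set. -/
theorem trans {x y z : Q} {L L' : ℝ} (h : WalkIn N A x y L) (h' : WalkIn N A y z L') :
    WalkIn N A x z (L + L') := by
  induction h with
  | nil x hx => rwa [zero_add]
  | cons e s t hs ht hA y L h ih =>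
    rw [add_assoc]
    exact WalkIn.cons e s t hs ht hA z (L + L') (ih h')

end CurveWalk

theorem sCurveWalk (hN : S_WalkNear) : S_CurveWalk := by
  intro Q _ N p ℓ x y hℓ hj
  obtain ⟨γ, hγ, h0, h1, hp⟩ := hj
  obtain ⟨t0, ht0, hmin⟩ := (isCompact_Icc (a := (0 : ℝ)) (b := ℓ)).exists_isMinOn
    ⟨0, left_mem_Icc.mpr hℓ⟩ ((hγ.continuous.dist (continuous_const (y := p))).continuousOn)
  have hρ : 0 < dist (γ t0) p := dist_pos.mpr (hp t0 ht0)
  obtain ⟨n, hn⟩ := exists_nat_gt (ℓ / dist (γ t0) p)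
  have hn0 : (0 : ℝ) < n := lt_of_le_of_lt (div_nonneg hℓ hρ.le) hn
  have hstep : ℓ / n < dist (γ t0) p := by
    rw [div_lt_iff₀ hρ] at hn
    rw [div_lt_iff₀ hn0, mul_comm]
    exact hn
  have key : ∀ k : ℕ, k ≤ n → ∃ L ≤ k * (ℓ / n), WalkIn N {p}ᶜ x (γ (k * (ℓ / n))) L := by
    intro k
    induction k with
    | zero =>
      intro _
      refine ⟨0, by simp, ?_⟩
      have hx : x ∈ ({p}ᶜ : Set Q) := by
        rw [← h0]
        exact hp 0 (left_mem_Icc.mpr hℓ)
      simpa [h0] using WalkIn.nil (N := N) x hx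
    | succ k ih =>
      intro hk
      obtain ⟨L, hL, hw⟩ := ih (by omega)
      have hq : 0 ≤ ℓ / n := div_nonneg hℓ hn0.le
      have hd : dist (γ (k * (ℓ / n))) (γ ((k + 1 : ℕ) * (ℓ / n))) ≤ ℓ / n := by
        have := hγ.dist_le_mul (k * (ℓ / n)) ((k + 1 : ℕ) * (ℓ / n))
        rw [NNReal.coe_one, one_mul, Real.dist_eq] at this
        refine this.trans (le_of_eq ?_)
        push_cast
        rw [show (k : ℝ) * (ℓ / n) - (k + 1) * (ℓ / n) = -(ℓ / n) by ring, abs_neg,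
          abs_of_nonneg hq]
      have hmem : (k : ℝ) * (ℓ / n) ∈ Icc 0 ℓ := by
        refine ⟨by positivity, ?_⟩
        have hkn : (k : ℝ) ≤ n := by exact_mod_cast (by omega : k ≤ n)
        calc (k : ℝ) * (ℓ / n) ≤ n * (ℓ / n) := mul_le_mul_of_nonneg_right hkn hq
          _ = ℓ := by field_simp
      refine ⟨L + dist (γ (k * (ℓ / n))) (γ ((k + 1 : ℕ) * (ℓ / n))), ?_, ?_⟩
      · push_cast at hd ⊢
        linarith
      · refine CurveWalk.trans hw (hN Q N {p}ᶜ _ _ _ (N.walk _ _) ?_)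
        intro z hz
        rw [mem_compl_iff, mem_singleton_iff]
        rintro rfl
        have h2 : dist (γ t0) z ≤ dist (γ (k * (ℓ / n))) z := hmin hmem
        linarith
  obtain ⟨L, hL, hw⟩ := key n le_rfl
  have hne : (n : ℝ) * (ℓ / n) = ℓ := by field_simp
  rw [hne] at hL hw
  rw [h1] at hw
  exact ⟨L, hL, hw⟩

end MPacf82c.St
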