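import Pool.Agent.Lib.MP_acf82c_lc.Crude

/-!
# Stability (MP_acf82c_lc, Theorem S): definitions

Everything here is about the notions of `Notions.lean` and `Defs.lean`. Block game with a bonus,
emulation of the searcher, walks inside a set, chains of arcs, special trips.
-/

namespace MPacf82c.St

open Set MeasureTheory
open scoped NNReal ENNReal

/-! ## Block game -/

/-- Average over all permutations of `Fin n`. -/
noncomputable def pavg {n : ℕ} (f : Equiv.Perm (Fin n) → ℝ) : ℝ :=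
  (∑ π : Equiv.Perm (Fin n), f π) / (n.factorial : ℝ)

/-- Bonus matrices with average at least `γ`. -/
structure IsBonus {n : ℕ} (γ : ℝ) (G : Fin n → Fin n → ℝ) : Prop where
  nonneg : ∀ p q, 0 ≤ G p q
  le_one : ∀ p q, G p q ≤ 1
  diag : ∀ p, G p p = 1
  sum : γ * ((n : ℝ) * ((n : ℝ) - 1)) ≤
    ∑ p, ∑ q ∈ Finset.univ.filter (fun q => q ≠ p), G p q

/-- One factor of the survival probability in the game with bonus: `L` the searched labels, `y`
the label of the hider at the beginning and `y'` his label at the end of the round. -/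
noncomputable def facG {n : ℕ} (B : ℕ) (L : Finset (Fin n)) (G : Fin n → Fin n → ℝ)
    (y y' : Fin n) (b : Bool) : ℝ :=
  if b then (L.card : ℝ) / B + (1 - (L.card : ℝ) / B) * G y y' else if y ∈ L then 0 else 1

/-- Payoff of the game with bonus with `M` rounds. -/
noncomputable def payoffG {n : ℕ} (B M : ℕ) (L : ℕ → Finset (Fin n))
    (G : ℕ → Fin n → Fin n → ℝ) (y : ℕ → Fin n) (b : ℕ → Bool) : ℝ :=
  ∑ m ∈ Finset.range M, ∏ k ∈ Finset.range m, facG B (L k) (G k) (y k) (y (k + 1)) (b k)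

/-- A hider mixture (`K` stars, `M` rounds) of value at least `V` in the block game. -/
structure IsMix {ι : Type} [Fintype ι] (n B M K : ℕ) (q : ι → ℝ) (y : ι → ℕ → Fin n)
    (b : ι → ℕ → Bool) (V : ℝ) : Prop where
  nonneg : ∀ i, 0 ≤ q i
  sum_one : ∑ i, q i = 1
  adm : ∀ i, Adm M K (y i) (b i)
  val : ∀ L : ℕ → Finset (Fin n), (∀ k, (L k).card ≤ B) →
    V ≤ ∑ i, q i * payoff B M L (y i) (b i)

/-- The hider has a mixture of plans with value at least `V` in the game with bonus matrices of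
average at least `γ`, his labels being permuted by a random permutation. -/
def HiderValG (n B M K : ℕ) (γ V : ℝ) : Prop :=
  ∃ (ι : Type) (_ : Fintype ι) (q : ι → ℝ) (y : ι → ℕ → Fin n) (b : ι → ℕ → Bool),
    (∀ i, 0 ≤ q i) ∧ ∑ i, q i = 1 ∧ (∀ i, Adm M K (y i) (b i)) ∧
    ∀ (L : ℕ → Finset (Fin n)) (G : ℕ → Fin n → Fin n → ℝ), (∀ k, (L k).card ≤ B) →
      (∀ k, IsBonus γ (G k)) →
      V ≤ ∑ i, q i * pavg fun π => payoffG B M L G (fun k => π (y i k)) (b i)

/-- Payoff against a searcher who in round `k` searches `Λ k j`, `j` uniform in `Fin n`,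
independently in the different rounds. -/
noncomputable def rnd {n : ℕ} (B M : ℕ) (Λ : ℕ → Fin n → Finset (Fin n)) (y : ℕ → Fin n)
    (b : ℕ → Bool) : ℝ :=
  ∑ m ∈ Finset.range M, ∏ k ∈ Finset.range m, ((∑ j, fac B (Λ k j) (y k) (b k)) / (n : ℝ))

/-- The emulation: before round `m0` a random cyclic interval of `⌊θ (B - |L k|)⌋` labels is
searched in addition to `L k`; from round `m1` on random cyclic intervals of `B` labels. -/
noncomputable def emu {n : ℕ} [NeZero n] (B : ℕ) (θ : ℝ) (m0 m1 : ℕ) (L : ℕ → Finset (Fin n))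
    (k : ℕ) (j : Fin n) : Finset (Fin n) :=
  if k < m0 then L k ∪ crudeShift n ⌊θ * ((B : ℝ) - (L k).card)⌋₊ j
  else if k < m1 then L k else crudeShift n B j

/-- `1` if no stay of the rounds `< m` is hit (labels permuted by `π`), `0` otherwise. -/
noncomputable def stay {n : ℕ} (L : ℕ → Finset (Fin n)) (y : ℕ → Fin n) (b : ℕ → Bool) (m : ℕ)
    (π : Equiv.Perm (Fin n)) : ℝ :=
  ∏ k ∈ Finset.range m, (if b k then (1 : ℝ) else if π (y k) ∈ L k then 0 else 1)

/-- Probability that no stay of the rounds `< m` is hit. -/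
noncomputable def sv {n : ℕ} (L : ℕ → Finset (Fin n)) (y : ℕ → Fin n) (b : ℕ → Bool)
    (m : ℕ) : ℝ := pavg fun π => stay L y b m π

/-- The product of `|L k| / B` over the stars `k < m`. -/
noncomputable def xs {n : ℕ} (B : ℕ) (L : ℕ → Finset (Fin n)) (b : ℕ → Bool) (m : ℕ) : ℝ :=
  ∏ k ∈ Finset.range m, (if b k then ((L k).card : ℝ) / B else 1)

/-- The product of `|L k| / B` over the stars `k < m`, `k ≠ j`. -/
noncomputable def xsj {n : ℕ} (B : ℕ) (L : ℕ → Finset (Fin n)) (b : ℕ → Bool) (m j : ℕ) : ℝ :=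
  ∏ k ∈ (Finset.range m).erase j, (if b k then ((L k).card : ℝ) / B else 1)

/-- Base survival probability. -/
noncomputable def base {n : ℕ} (B : ℕ) (L : ℕ → Finset (Fin n)) (y : ℕ → Fin n) (b : ℕ → Bool)
    (m : ℕ) : ℝ := xs B L b m * sv L y b m

/-- The stars `j < m`, `j < m0`. -/
def est (b : ℕ → Bool) (m0 m : ℕ) : Finset ℕ :=
  (Finset.range (min m m0)).filter fun j => b j = true

/-- The ambush part of round `k`. -/
noncomputable def am {n : ℕ} (B : ℕ) (L : ℕ → Finset (Fin n)) (k : ℕ) : ℝ :=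
  1 - ((L k).card : ℝ) / B

/-- First order term of the star `j`. -/
noncomputable def cj {n : ℕ} (B : ℕ) (L : ℕ → Finset (Fin n)) (y : ℕ → Fin n) (b : ℕ → Bool)
    (m j : ℕ) : ℝ := am B L j * xsj B L b m j * sv L y b m

/-- Sum of the first order terms. -/
noncomputable def cs {n : ℕ} (B : ℕ) (L : ℕ → Finset (Fin n)) (y : ℕ → Fin n) (b : ℕ → Bool)
    (m0 m : ℕ) : ℝ := ∑ j ∈ est b m0 m, cj B L y b m j

/-- Sum of the first order terms in the game with bonus. -/
noncomputable def gs {n : ℕ} (γ : ℝ) (B : ℕ) (L : ℕ → Finset (Fin n)) (b : ℕ → Bool)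
    (m0 m : ℕ) : ℝ :=
  ∑ j ∈ est b m0 m, am B L j * (γ - (m : ℝ) * B / n) * xsj B L b m j

/-- Damping factor by the additional random search. -/
noncomputable def dm {n : ℕ} (B : ℕ) (θ : ℝ) (m0 : ℕ) (L : ℕ → Finset (Fin n)) (b : ℕ → Bool)
    (m : ℕ) : ℝ :=
  ∏ k ∈ Finset.range (min m m0),
    (if b k then (1 : ℝ) else 1 - (⌊θ * ((B : ℝ) - (L k).card)⌋₊ : ℝ) / n)

/-- The slots of the `k`-th group of `B` slots. -/
def blk {n : ℕ} (B k : ℕ) : Finset (Fin n) :=
  Finset.univ.filter fun i => k * B ≤ i.val ∧ i.val < (k + 1) * B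

/-- The plan with the label `u` up to round `s`, a star in round `s`, and then the plan
`(y, b)` (of `M` rounds, constant afterwards). -/
def catY {n : ℕ} (M s : ℕ) (u : Fin n) (y : ℕ → Fin n) (k : ℕ) : Fin n :=
  if k ≤ s then u else y (min (k - s - 1) M)

/-- The star bits of the plan `catY`. -/
def catB (M s : ℕ) (b : ℕ → Bool) (k : ℕ) : Bool :=
  if k < s then false else if k = s then true else (b (k - s - 1) && decide (k - s - 1 < M))

/-- The plan `(y, b)` of `M` rounds, continued without moving. -/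
def extY {n : ℕ} (M : ℕ) (y : ℕ → Fin n) (k : ℕ) : Fin n := y (min k M)

/-- The star bits of the plan `extY`. -/
def extB (M : ℕ) (b : ℕ → Bool) (k : ℕ) : Bool := b k && decide (k < M)

/-! ## Networks -/

variable {Q : Type} [MetricSpace Q]

/-- `x` and `y` can be joined by a path of length at most `ℓ` which avoids the point `p`. -/
def JoinedOff (p : Q) (ℓ : ℝ) (x y : Q) : Prop :=
  ∃ γ : ℝ → Q, LipschitzWith 1 γ ∧ γ 0 = x ∧ γ ℓ = y ∧ ∀ t ∈ Icc (0 : ℝ) ℓ, γ t ≠ p

/-- Walks all of whose points are in the set `A`. -/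
inductive WalkIn (N : Network Q) (A : Set Q) : Q → Q → ℝ → Prop
  | nil (x : Q) (hx : x ∈ A) : WalkIn N A x x 0
  | cons (e : N.Arc) (s t : ℝ) (hs : s ∈ Icc 0 (N.len e)) (ht : t ∈ Icc 0 (N.len e))
      (hA : ∀ u ∈ uIcc s t, N.pt e u ∈ A) (y : Q) (L : ℝ) (h : WalkIn N A (N.pt e t) y L) :
      WalkIn N A (N.pt e s) y (|s - t| + L)

/-- Chains of arcs; `(e, true)` means that `e` is traversed from `t e` to `h e`. -/
inductive Chain {V E : Type} (t h : E → V) : V → V → List (E × Bool) → Prop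
  | nil (v : V) : Chain t h v v []
  | fwd (e : E) (b : V) (l : List (E × Bool)) (hl : Chain t h (h e) b l) :
      Chain t h (t e) b ((e, true) :: l)
  | bwd (e : E) (b : V) (l : List (E × Bool)) (hl : Chain t h (t e) b l) :
      Chain t h (h e) b ((e, false) :: l)

/-- The left end of an arc. -/
def tl (N : Network Q) (e : N.Arc) : Q := N.pt e 0

/-- The right end of an arc. -/
def hd (N : Network Q) (e : N.Arc) : Q := N.pt e (N.len e)

/-- The end of the arc `e`: right end if `o`, left end otherwise. -/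
def en (N : Network Q) (e : N.Arc) (o : Bool) : Q := if o then hd N e else tl N e

/-- The distance inside the arc `e` from the position `s` to the end `en N e o`. -/
def cost (N : Network Q) (e : N.Arc) (s : ℝ) (o : Bool) : ℝ := if o then N.len e - s else s

/-- Nodes visited by the chain `l` which starts in `a`. -/
def vis (N : Network Q) (a : Q) (l : List (N.Arc × Bool)) : List Q :=
  a :: l.map fun p => en N p.1 p.2

/-- The length of a chain. -/
def clen (N : Network Q) (l : List (N.Arc × Bool)) : ℝ := (l.map fun p => N.len p.1).sum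

/-- Special trip of duration `T` from `pt e s` to `pt e' s'`: to the end `o` of `e`, along the
chain `l` (which visits each of its nodes once) to the end `o'` of `e'`, to `pt e' s'`. -/
structure IsSp (N : Network Q) (e : N.Arc) (s : ℝ) (e' : N.Arc) (s' : ℝ) (o o' : Bool)
    (l : List (N.Arc × Bool)) (T : ℝ) : Prop where
  chain : Chain (tl N) (hd N) (en N e o) (en N e' o') l
  nodup : (vis N (en N e o) l).Nodup
  dur : cost N e s o + clen N l + cost N e' s' o' = T

/-- The data of an electrical current between two nodes (conclusion of `net_flow`). -/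
structure IsCur (N : Network Q) (D : ℝ) (a b : Q) (φ : Q → ℝ) (F : N.Arc → ℝ) {m : ℕ}
    (lam : Fin m → ℝ) (P : Fin m → List (N.Arc × Bool)) : Prop where
  pot : ∀ e, φ (N.pt e 0) - φ (N.pt e (N.len e)) = N.len e * F e
  abs_le : ∀ e, |F e| ≤ 1
  lam_nonneg : ∀ i, 0 ≤ lam i
  lam_sum : ∑ i, lam i = 1
  path : ∀ i, DirPath (fun e => N.pt e 0) (fun e => N.pt e (N.len e)) φ a b (P i)
  ne_zero : ∀ i, ∀ e ∈ (P i).map Prod.fst, F e ≠ 0
  flow : ∀ e, (∑ i, open Classical in (if e ∈ (P i).map Prod.fst then lam i else 0)) = |F e|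
  energy : ∑ e, N.len e * |F e| ≤ Real.sqrt (N.length * D)

/-- Good moves with a bonus. -/
def GoodMovesG (Q : Type) [MetricSpace Q] (n B : ℕ) (T0 err γ : ℝ) : Prop :=
  ∃ (x : Fin n → Q) (P : Fin n → Fin n → Measure (ℕ × ℝ))
    (mv : Fin n → Fin n → ℕ × ℝ → ℝ → Q),
    (∀ i j, IsProbabilityMeasure (P i j)) ∧ (∀ i j ω, LipschitzWith 1 (mv i j ω)) ∧
    (∀ i j ω, ∀ t ≤ 0, mv i j ω t = x i) ∧ (∀ i j ω t, T0 ≤ t → mv i j ω t = x j) ∧
    (∀ i j t, @Measurable (ℕ × ℝ) Q _ (borel Q) fun ω => mv i j ω t) ∧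
    (∀ i ω t, mv i i ω t = x i) ∧
    ∀ S : ℝ → Q, LipschitzWith 1 S → ∀ t0 : ℝ, ∃ L : Finset (Fin n), L.card ≤ B ∧
      (∀ i, i ∈ L ↔ ∃ t ∈ Icc t0 (t0 + T0), S t = x i) ∧
      ∃ z G : Fin n → Fin n → ℝ, (∀ i j, 0 ≤ z i j) ∧
        ∑ i, ∑ j ∈ Finset.univ.filter (fun j => j ≠ i), z i j ≤ (n * (n - 1) : ℝ) * err ∧
        IsBonus γ G ∧
        ∀ i j, i ≠ j →
          (P i j {ω | ∃ t ∈ Icc t0 (t0 + T0), S t = mv i j ω (t - t0)}).toReal ≤
            (1 - G i j) * (1 - (L.card : ℝ) / B) + z i j + (if i ∈ L then 1 else 0) +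
              (if j ∈ L then 1 else 0)

/-- For every point `p` the pairs of points which can be joined by a path of length at most `ℓ`
avoiding `p` have measure at least `g` times the square of the length. -/
def NoCentre (N : Network Q) (ℓ g : ℝ) : Prop :=
  ∀ p : Q, ENNReal.ofReal (g * N.length ^ 2) ≤ ∑ e : N.Arc, ∑ e' : N.Arc,
    volume {x : ℝ × ℝ | x.1 ∈ Icc 0 (N.len e) ∧ x.2 ∈ Icc 0 (N.len e') ∧
      JoinedOff p ℓ (N.pt e x.1) (N.pt e' x.2)}

end MPacf82c.St
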