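import Pool.Agent.Lib.MP_acf82c_lc.S.SpecA

/-!
# Stability (MP_acf82c_lc, Theorem S): damping
-/

namespace MPacf82c.St

open Finset

namespace Dm

theorem prod_mul_le (u : ℕ → ℝ) (m : ℕ) (h0 : ∀ k, k < m → 0 ≤ u k) (h1 : ∀ k, k < m → u k ≤ 1) :
    0 ≤ ∏ k ∈ range m, (1 - u k) ∧ ∏ k ∈ range m, (1 - u k) ≤ 1 ∧
      (∏ k ∈ range m, (1 - u k)) * (1 + ∑ k ∈ range m, u k) ≤ 1 := by
  induction m with
  | zero => simp
  | succ m ih =>
    obtain ⟨ih0, ih1, ih2⟩ := ih (fun k hk => h0 k (by omega)) fun k hk => h1 k (by omega)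
    have a0 := h0 m (by omega)
    have a1 := h1 m (by omega)
    rw [prod_range_succ, sum_range_succ]
    set P := ∏ k ∈ range m, (1 - u k)
    set s := ∑ k ∈ range m, u k with hs
    have hs0 : 0 ≤ s := sum_nonneg fun k hk => h0 k (by have := mem_range.1 hk; omega)
    refine ⟨mul_nonneg ih0 (by linarith), ?_, ?_⟩
    · calc P * (1 - u m) ≤ 1 * 1 := mul_le_mul ih1 (by linarith) (by linarith) zero_le_one
        _ = 1 := one_mul 1
    · have h2 : (1 - u m) * (1 + (s + u m)) ≤ 1 + s := by nlinarith [mul_nonneg a0 hs0, mul_nonneg a0 a0]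
      calc P * (1 - u m) * (1 + (s + u m)) = P * ((1 - u m) * (1 + (s + u m))) := by ring
        _ ≤ P * (1 + s) := mul_le_mul_of_nonneg_left h2 ih0
        _ ≤ 1 := ih2

end Dm

open Dm in
theorem sDm : S_Dm := by
  intro n B M K m0 α θ L y b hn hBn hadm hm0 hL hθ0 hθ1 hα0 hα1 hsum hm0' hK
  have hn' : (0 : ℝ) < n := by exact_mod_cast hn
  have hBn' : (B : ℝ) ≤ n := by exact_mod_cast hBn
  have hLk : ∀ k, 0 ≤ (B : ℝ) - (L k).card := fun k => by
    have : ((L k).card : ℝ) ≤ B := by exact_mod_cast hL k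
    linarith
  set u : ℕ → ℝ := fun k => if b k then 0 else (⌊θ * ((B : ℝ) - (L k).card)⌋₊ : ℝ) / n with hu
  have hfl : ∀ k, (⌊θ * ((B : ℝ) - (L k).card)⌋₊ : ℝ) ≤ θ * ((B : ℝ) - (L k).card) := fun k =>
    Nat.floor_le (mul_nonneg hθ0 (hLk k))
  have hu0 : ∀ k, 0 ≤ u k := fun k => by
    simp only [hu]
    split_ifs
    · exact le_rfl
    · positivity
  have hu1 : ∀ k, u k ≤ 1 := fun k => by
    simp only [hu]
    split_ifs
    · exact zero_le_one
    · rw [div_le_one hn']
      calc (⌊θ * ((B : ℝ) - (L k).card)⌋₊ : ℝ) ≤ θ * ((B : ℝ) - (L k).card) := hfl k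
        _ ≤ 1 * ((B : ℝ) - (L k).card) := mul_le_mul_of_nonneg_right hθ1 (hLk k)
        _ ≤ n := by
          have : (0 : ℝ) ≤ (L k).card := by positivity
          linarith
  have hdm : ∀ m, dm B θ m0 L b m = ∏ k ∈ range (min m m0), (1 - u k) := fun m => by
    unfold dm
    refine prod_congr rfl fun k _ => ?_
    simp only [hu]
    split_ifs
    · rw [sub_zero]
    · rfl
  have hmain : θ * α / 2 ≤ ∑ k ∈ range m0, u k := by
    have h1 : ∀ k, θ * ((B : ℝ) - (L k).card) - (if b k = true then θ * (B : ℝ) else 0) - 1 ≤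
        n * u k := by
      intro k
      simp only [hu]
      by_cases hb : b k = true
      · rw [if_pos hb, if_pos hb, mul_zero]
        have : (0 : ℝ) ≤ θ * (L k).card := by positivity
        nlinarith
      · rw [if_neg hb, if_neg hb, mul_div_cancel₀ _ hn'.ne', sub_zero]
        have := Nat.lt_floor_add_one (θ * ((B : ℝ) - (L k).card))
        linarith
    have h2 : ∑ k ∈ range m0, (θ * ((B : ℝ) - (L k).card) -
        (if b k = true then θ * (B : ℝ) else 0) - 1) ≤ ∑ k ∈ range m0, n * u k :=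
      sum_le_sum fun k _ => h1 k
    rw [sum_sub_distrib, sum_sub_distrib, ← mul_sum, ← mul_sum, sum_const, card_range,
      nsmul_eq_mul, mul_one, ← sum_filter, sum_const, nsmul_eq_mul] at h2
    have h3 : (((range m0).filter fun k => b k = true).card : ℝ) ≤ K := by
      have h4 : ((range m0).filter fun k => b k = true).card ≤
          ((range M).filter fun k => b k = true).card :=
        card_le_card (filter_subset_filter _ (range_subset_range.2 hm0))
      exact_mod_cast h4.trans hadm.2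
    have h5 : (((range m0).filter fun k => b k = true).card : ℝ) * (θ * B) ≤ θ * (α * n / 4) := by
      calc (((range m0).filter fun k => b k = true).card : ℝ) * (θ * B) ≤ K * (θ * B) :=
            mul_le_mul_of_nonneg_right h3 (by positivity)
        _ = θ * (K * B) := by ring
        _ ≤ θ * (α * n / 4) := mul_le_mul_of_nonneg_left hK hθ0
    have h6 : θ * (α * n) ≤ θ * ∑ k ∈ range m0, ((B : ℝ) - (L k).card) :=
      mul_le_mul_of_nonneg_left hsum hθ0
    have h7 : n * (θ * α / 2) ≤ n * ∑ k ∈ range m0, u k := by nlinarith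
    exact le_of_mul_le_mul_left h7 hn'
  refine ⟨fun m hm => ?_, fun m => ?_⟩
  · rw [hdm, min_eq_right hm]
    obtain ⟨p0, p1, p2⟩ := prod_mul_le u m0 (fun k _ => hu0 k) fun k _ => hu1 k
    set P := ∏ k ∈ range m0, (1 - u k)
    set x := θ * α / 2 with hx
    have hx0 : 0 ≤ x := by positivity
    have hx1 : x ≤ 1 := by
      have : θ * α ≤ 1 * 1 := mul_le_mul hθ1 hα1 hα0.le zero_le_one
      rw [hx]
      linarith
    have h8 : P * (1 + x) ≤ 1 := by
      refine le_trans (mul_le_mul_of_nonneg_left ?_ p0) p2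
      linarith
    have h9 : P ≤ 1 - x / 2 := by
      by_contra hlt
      push Not at hlt
      nlinarith [mul_lt_mul_of_pos_right hlt (show (0 : ℝ) < 1 + x by linarith),
        mul_nonneg hx0 (sub_nonneg.2 hx1)]
    calc P ≤ 1 - x / 2 := h9
      _ = 1 - θ * α / 4 := by rw [hx]; ring
  · rw [hdm]
    obtain ⟨p0, p1, -⟩ := prod_mul_le u (min m m0) (fun k _ => hu0 k) fun k _ => hu1 k
    exact ⟨p0, p1⟩

end MPacf82c.St
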