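import Pool.Agent.Lib.MP_acf82c_lc.S.SpecA

/-!
# Domination of the first order terms (`S_Dom`)
-/

namespace MPacf82c.St

open Finset
open scoped Nat

namespace Dom

/-- The stars before `m0`. -/
private def stars (b : ℕ → Bool) (m0 : ℕ) : Finset ℕ := (range m0).filter fun j => b j = true

private theorem sum_est (b : ℕ → Bool) (m0 m : ℕ) (F : ℕ → ℝ) :
    ∑ j ∈ est b m0 m, F j = ∑ j ∈ stars b m0, if j < m then F j else 0 := by
  rw [← Finset.sum_filter]
  refine Finset.sum_congr ?_ fun _ _ => rfl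
  ext j
  simp only [est, stars, mem_filter, mem_range, lt_min_iff]
  tauto

private theorem one_star {n B m0 mt m1 : ℕ} {γ θ T : ℝ} {L : ℕ → Finset (Fin n)}
    {y : ℕ → Fin n} {b : ℕ → Bool} (hM : S_Mono) (hn : 0 < n) (hB : 0 < B)
    (hL : ∀ k, (L k).card ≤ B) (hθ : 0 ≤ θ) (hT : 0 ≤ T) (hθγ : θ ≤ 3 / 4 * γ)
    (h0 : m0 ≤ mt) (h1 : mt ≤ m1) (hmt : (mt : ℝ) * B ≤ γ / 4 * n)
    (hc : θ * (((m1 : ℝ) - mt) + T) ≤ (3 / 4 * γ - θ) * ((mt : ℝ) - m0))
    (j : ℕ) (hj : j < m0) :
    (∑ m ∈ range (m1 + 1), θ * (if j < m then cj B L y b m j else 0)) +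
        T * (θ * (if j < m1 then cj B L y b m1 j else 0)) ≤
      ∑ m ∈ range (mt + 1), (if j < m then am B L j * (γ - (m : ℝ) * B / n) * xsj B L b m j
        else 0) := by
  obtain ⟨_, _, hsv, hx, hcj, hcj0⟩ := hM n B L y b hn hB hL
  have hjt : j < mt := lt_of_lt_of_le hj h0
  have hj1 : j < m1 := lt_of_lt_of_le hjt h1
  have hn' : (0 : ℝ) < n := by exact_mod_cast hn
  have hB' : (0 : ℝ) < B := by exact_mod_cast hB
  have ham : 0 ≤ am B L j := by
    unfold am
    rw [sub_nonneg, div_le_one hB']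
    exact_mod_cast hL j
  obtain ⟨c, hcdef⟩ : ∃ c : ℝ, c = cj B L y b mt j := ⟨_, rfl⟩
  have hc0 : 0 ≤ c := by rw [hcdef]; exact hcj0 j mt
  obtain ⟨A, hA⟩ : ∃ A : ℝ, A = ∑ m ∈ range (mt + 1), (if j < m then cj B L y b m j else 0) :=
    ⟨_, rfl⟩
  -- the right side
  have hR : 3 / 4 * γ * A ≤ ∑ m ∈ range (mt + 1),
      (if j < m then am B L j * (γ - (m : ℝ) * B / n) * xsj B L b m j else 0) := by
    rw [hA, Finset.mul_sum]
    refine Finset.sum_le_sum fun m hm => ?_
    by_cases hjm : j < m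
    · rw [if_pos hjm, if_pos hjm]
      have hm' : (m : ℝ) ≤ mt := by
        exact_mod_cast Nat.lt_succ_iff.mp (mem_range.mp hm)
      have h2 : (m : ℝ) * B / n ≤ γ / 4 := by
        rw [div_le_iff₀ hn']
        exact le_trans (mul_le_mul_of_nonneg_right hm' hB'.le) hmt
      have h3 : 3 / 4 * γ ≤ γ - (m : ℝ) * B / n := by linarith
      have h4 : cj B L y b m j ≤ am B L j * xsj B L b m j := by
        unfold cj
        exact mul_le_of_le_one_right (mul_nonneg ham (hx j m).1) (hsv m).2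
      have h5 : 0 ≤ am B L j * xsj B L b m j := mul_nonneg ham (hx j m).1
      have hγ : 0 ≤ 3 / 4 * γ := le_trans hθ hθγ
      calc 3 / 4 * γ * cj B L y b m j ≤ 3 / 4 * γ * (am B L j * xsj B L b m j) :=
            mul_le_mul_of_nonneg_left h4 hγ
        _ ≤ (γ - (m : ℝ) * B / n) * (am B L j * xsj B L b m j) :=
            mul_le_mul_of_nonneg_right h3 h5
        _ = am B L j * (γ - (m : ℝ) * B / n) * xsj B L b m j := by ring
    · rw [if_neg hjm, if_neg hjm, mul_zero]
  -- lower bound for `A`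
  have hAl : ((mt : ℝ) - m0) * c ≤ A := by
    have h3 : ∑ _m ∈ Ico (m0 + 1) (mt + 1), c ≤
        ∑ m ∈ Ico (m0 + 1) (mt + 1), (if j < m then cj B L y b m j else 0) := by
      refine Finset.sum_le_sum fun m hm => ?_
      have hm2 := mem_Ico.mp hm
      have hjm : j < m := lt_of_lt_of_le hj (le_trans (Nat.le_succ m0) hm2.1)
      rw [if_pos hjm, hcdef]
      exact hcj j m mt hjm (Nat.lt_succ_iff.mp hm2.2)
    have h4 : ∑ m ∈ Ico (m0 + 1) (mt + 1), (if j < m then cj B L y b m j else 0) ≤ A := by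
      rw [hA]
      refine Finset.sum_le_sum_of_subset_of_nonneg ?_ ?_
      · intro m hm
        exact mem_range.mpr (mem_Ico.mp hm).2
      · intro m _ _
        split_ifs
        · exact hcj0 j m
        · exact le_refl _
    have h5 : ∑ _m ∈ Ico (m0 + 1) (mt + 1), c = ((mt : ℝ) - m0) * c := by
      rw [Finset.sum_const, Nat.card_Ico, nsmul_eq_mul]
      congr 1
      rw [Nat.add_sub_add_right, Nat.cast_sub h0]
    linarith
  -- the sum on the left side
  have hS : ∑ m ∈ range (m1 + 1), (if j < m then cj B L y b m j else 0) ≤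
      A + ((m1 : ℝ) - mt) * c := by
    rw [← Finset.sum_range_add_sum_Ico _ (Nat.succ_le_succ h1), hA]
    have h2 : ∑ m ∈ Ico (mt + 1) (m1 + 1), (if j < m then cj B L y b m j else 0) ≤
        ∑ _m ∈ Ico (mt + 1) (m1 + 1), c := by
      refine Finset.sum_le_sum fun m hm => ?_
      have hm2 := mem_Ico.mp hm
      have hmm : mt ≤ m := le_trans (Nat.le_succ mt) hm2.1
      rw [if_pos (lt_of_lt_of_le hjt hmm), hcdef]
      exact hcj j mt m hjt hmm
    have h3 : ∑ _m ∈ Ico (mt + 1) (m1 + 1), c = ((m1 : ℝ) - mt) * c := by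
      rw [Finset.sum_const, Nat.card_Ico, nsmul_eq_mul]
      congr 1
      rw [Nat.add_sub_add_right, Nat.cast_sub h1]
    have h4 := le_trans h2 h3.le
    exact add_le_add_right h4 _
  have hT1 : (if j < m1 then cj B L y b m1 j else 0) ≤ c := by
    rw [if_pos hj1, hcdef]
    exact hcj j mt m1 hjt h1
  have hTT : T * (θ * (if j < m1 then cj B L y b m1 j else 0)) ≤ T * (θ * c) :=
    mul_le_mul_of_nonneg_left (mul_le_mul_of_nonneg_left hT1 hθ) hT
  rw [← Finset.mul_sum]
  have hS' := mul_le_mul_of_nonneg_left hS hθ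
  have hc' := mul_le_mul_of_nonneg_right hc hc0
  have hA' : (3 / 4 * γ - θ) * (((mt : ℝ) - m0) * c) ≤ (3 / 4 * γ - θ) * A :=
    mul_le_mul_of_nonneg_left hAl (by linarith)
  nlinarith

end Dom

theorem sDom (hM : S_Mono) : S_Dom := by
  intro n B m0 mt m1 γ θ T L y b hn hB hL hθ hT hθγ h0 h1 hmt hc
  have hl : (∑ m ∈ range (m1 + 1), θ * cs B L y b m0 m) + T * (θ * cs B L y b m0 m1) =
      ∑ j ∈ Dom.stars b m0, ((∑ m ∈ range (m1 + 1), θ * (if j < m then cj B L y b m j else 0)) +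
        T * (θ * (if j < m1 then cj B L y b m1 j else 0))) := by
    rw [Finset.sum_add_distrib, Finset.sum_comm]
    congr 1
    · refine Finset.sum_congr rfl fun m _ => ?_
      rw [← Finset.mul_sum]
      unfold cs
      rw [Dom.sum_est]
    · rw [← Finset.mul_sum, ← Finset.mul_sum]
      unfold cs
      rw [Dom.sum_est]
  have hr : ∑ m ∈ range (mt + 1), gs γ B L b m0 m =
      ∑ j ∈ Dom.stars b m0, ∑ m ∈ range (mt + 1),
        (if j < m then am B L j * (γ - (m : ℝ) * B / n) * xsj B L b m j else 0) := by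
    rw [Finset.sum_comm]
    refine Finset.sum_congr rfl fun m _ => ?_
    unfold gs
    rw [Dom.sum_est]
  rw [hl, hr]
  refine Finset.sum_le_sum fun j hj => ?_
  have hj' : j < m0 := by
    have := (Finset.mem_filter.mp hj).1
    exact mem_range.mp this
  exact Dom.one_star hM hn hB hL hθ hT hθγ h0 h1 hmt hc j hj'

end MPacf82c.St
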