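import Pool.Agent.Lib.MP_acf82c_lc.S.SpecB
import Pool.Agent.Lib.MP_acf82c_lc.TripRoutes

/-!
# Electrical trips with the current data

Copy of the proofs of `flow_routes` and `trip_routes` with the data of the current in the
conclusion.
-/

set_option autoImplicit false

namespace MPacf82c.St

open Set MeasureTheory

namespace ElTrip

variable {Q : Type} [MetricSpace Q] (N : Network Q)

theorem flow_cur {D : ℝ} (hD : ∀ x y : Q, dist x y ≤ D) {a b : Q} (ha : a ∈ N.nodes)
    {φ : Q → ℝ} {F : N.Arc → ℝ} {m : ℕ} {lam : Fin m → ℝ} {P : Fin m → List (N.Arc × Bool)}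
    (hcur : IsCur N D a b φ F lam P) :
    ∃ (T : Fin m → ℝ) (r : Fin m → ℝ → Q),
      (∀ i, 0 ≤ T i) ∧ (∀ i, LipschitzWith 1 (r i)) ∧
      (∀ i, ∀ s ≤ 0, r i s = a) ∧ (∀ i s, T i ≤ s → r i s = b) ∧
      ∑ i, lam i * T i ≤ Real.sqrt (N.length * D) ∧
      ∀ S : ℝ → Q, LipschitzWith 1 S → ∀ t0 t1 : ℝ, t0 ≤ t1 →
        ∑ i, lam i * (volume {θ : ℝ | ∃ t ∈ Icc t0 t1, θ ≤ t ∧ t ≤ θ + T i ∧
          S t = r i (t - θ)}).toReal ≤
        timeIn S t0 t1 N.nodes + ∑ e, |F e| * timeIn S t0 t1 (N.openArc e) + D := by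
  classical
  obtain ⟨hφ, hF1, hlam0, hlam1, hP, hPF, hPsum', hE⟩ := hcur
  have hPsum : ∀ e, ∑ i, (if e ∈ (P i).map Prod.fst then lam i else 0) = |F e| := by
    intro e
    rw [← hPsum' e]
  obtain ⟨ψ, hψL, hψ⟩ := psi_ext N φ F hF1 hφ
  choose r hrL hr0 hrT c u hr using fun i => route_real N hφ ha (hP i)
  have hsumP : ∀ (i : Fin m) (g : N.Arc → ℝ), ((P i).map fun p => g p.1).sum =
      ∑ e ∈ ((P i).map Prod.fst).toFinset, g e := by
    intro i g
    rw [List.sum_toFinset _ (DirPath.nodup (hP i)), List.map_map]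
    rfl
  have hsumF : ∀ g : N.Arc → ℝ, ∑ i, lam i * ∑ e ∈ ((P i).map Prod.fst).toFinset, g e =
      ∑ e, |F e| * g e := by
    intro g
    have e1 : ∀ i, lam i * ∑ e ∈ ((P i).map Prod.fst).toFinset, g e =
        ∑ e, (if e ∈ (P i).map Prod.fst then lam i else 0) * g e := by
      intro i
      rw [Finset.mul_sum, ← Finset.sum_filter_add_sum_filter_not Finset.univ
        (fun e => e ∈ (P i).map Prod.fst)]
      rw [Finset.sum_eq_zero (s := Finset.univ.filter fun e => ¬ e ∈ (P i).map Prod.fst),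
        add_zero]
      · refine Finset.sum_congr ?_ ?_
        · ext e
          simp
        · intro e he
          have : e ∈ (P i).map Prod.fst := by simpa using he
          rw [if_pos this]
      · intro e he
        rw [if_neg (Finset.mem_filter.1 he).2, zero_mul]
    rw [Finset.sum_congr rfl fun i _ => e1 i, Finset.sum_comm]
    refine Finset.sum_congr rfl fun e _ => ?_
    rw [← Finset.sum_mul, hPsum]
  refine ⟨fun i => ((P i).map fun p => N.len p.1).sum, r, ?_, hrL, hr0, hrT, ?_, ?_⟩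
  · intro i
    refine List.sum_nonneg ?_
    intro x hx
    obtain ⟨p, _, rfl⟩ := List.mem_map.1 hx
    exact (N.len_pos _).le
  · have h1 : ∑ i, lam i * ((P i).map fun p => N.len p.1).sum = ∑ e, N.len e * |F e| := by
      rw [Finset.sum_congr rfl fun i _ => by rw [hsumP i N.len], hsumF]
      exact Finset.sum_congr rfl fun e _ => mul_comm _ _
    rw [h1]
    exact hE
  · intro S hS t0 t1 h01
    set J : N.Arc → ℝ := fun e => ∫ t in meetSet S t0 t1 (N.openArc e),
          (1 + deriv (fun t => ψ (S t)) t / |F e|) with hJ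
    have h1 : ∀ i, lam i * (volume {θ : ℝ | ∃ t ∈ Icc t0 t1, θ ≤ t ∧
        t ≤ θ + ((P i).map fun p => N.len p.1).sum ∧ S t = r i (t - θ)}).toReal ≤
        lam i * timeIn S t0 t1 N.nodes +
          lam i * ∑ e ∈ ((P i).map Prod.fst).toFinset, J e := by
      intro i
      rw [← mul_add]
      refine mul_le_mul_of_nonneg_left ?_ (hlam0 i)
      refine meeting_one N hψL hψ hS (c := c i) (u := u i) ?_ ?_
      · intro e he
        exact hPF i e (List.mem_toFinset.1 he)
      · intro s hs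
        rcases hr i s hs with h | ⟨e, he, h⟩
        · exact Or.inl h
        · exact Or.inr ⟨e, List.mem_toFinset.2 he, h⟩
    refine (Finset.sum_le_sum fun i _ => h1 i).trans ?_
    rw [Finset.sum_add_distrib, ← Finset.sum_mul, hlam1, one_mul, hsumF]
    have h2 := meeting_total N hD hψL hψ hS h01
    rw [add_assoc]
    exact add_le_add le_rfl h2


end ElTrip

open TripRoutes ElTrip in
theorem sElTrip : S_ElTrip := by
  intro Q _ N D hD e e' s s' hs hs'
  obtain ⟨a, q, ha, hq, hq0, hq1, hq2⟩ := inner N e hs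
  obtain ⟨b, q', hb, hq', hq0', hq1', hq2'⟩ := inner N e' hs'
  classical
  obtain ⟨φ, F, m, lam, P, hφ, hF1, hlam0, hlam1, hP, hPF, hPsum, hE⟩ := net_flow N hD ha hb
  have hcur : IsCur N D a b φ F lam P := by
    exact ⟨hφ, hF1, hlam0, hlam1, hP, hPF, hPsum, hE⟩
  obtain ⟨T, r, hT, hr, hr0, hr1, hTl, hmeet⟩ := flow_cur N hD ha hcur
  have hlam := hlam0
  have hsum := hlam1
  have hlen := len_le_two_diam N hD e
  have hlen' := len_le_two_diam N hD e'
  obtain ⟨hs0, hs1⟩ := hs
  obtain ⟨hs0', hs1'⟩ := hs'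
  set σ₁ : ℝ := min s (N.len e - s) with hσ₁
  set σ₂ : ℝ := min s' (N.len e' - s') with hσ₂
  have h1pos : 0 < σ₁ := lt_min hs0 (by linarith)
  have h2pos : 0 < σ₂ := lt_min hs0' (by linarith)
  have h1D : σ₁ ≤ D := by
    have h3 : σ₁ ≤ s := min_le_left _ _
    have h4 : σ₁ ≤ N.len e - s := min_le_right _ _
    linarith
  have h2D : σ₂ ≤ D := by
    have h3 : σ₂ ≤ s' := min_le_left _ _
    have h4 : σ₂ ≤ N.len e' - s' := min_le_right _ _
    linarith
  refine ⟨a, b, φ, F, m, lam, P, fun i => σ₁ + T i + σ₂, fun i σ => if σ ≤ σ₁ then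
    q (σ₁ - σ) else if σ ≤ σ₁ + T i then r i (σ - σ₁) else q' (σ - (σ₁ + T i)), hcur,
    ?_, ?_, ?_, ?_, ?_, ?_⟩
  · intro i
    have := hT i
    positivity
  · intro i
    have hTi := hT i
    apply concat (f := fun σ => q (σ₁ - σ))
      (g := fun σ => if σ ≤ σ₁ + T i then r i (σ - σ₁) else q' (σ - (σ₁ + T i)))
    · refine LipschitzWith.mk_one fun x y => ?_
      have h3 := hq.dist_le_mul (σ₁ - x) (σ₁ - y)
      rw [NNReal.coe_one, one_mul] at h3
      refine h3.trans (le_of_eq ?_)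
      rw [Real.dist_eq, Real.dist_eq, sub_sub_sub_cancel_left, abs_sub_comm]
    · apply concat (f := fun σ => r i (σ - σ₁)) (g := fun σ => q' (σ - (σ₁ + T i)))
      · refine LipschitzWith.mk_one fun x y => ?_
        have h3 := (hr i).dist_le_mul (x - σ₁) (y - σ₁)
        rw [NNReal.coe_one, one_mul] at h3
        refine h3.trans (le_of_eq ?_)
        rw [Real.dist_eq, Real.dist_eq, sub_sub_sub_cancel_right]
      · refine LipschitzWith.mk_one fun x y => ?_
        have h3 := hq'.dist_le_mul (x - (σ₁ + T i)) (y - (σ₁ + T i))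
        rw [NNReal.coe_one, one_mul] at h3
        refine h3.trans (le_of_eq ?_)
        rw [Real.dist_eq, Real.dist_eq, sub_sub_sub_cancel_right]
      · rw [add_sub_cancel_left, sub_self, hr1 i _ le_rfl, hq0' _ le_rfl]
    · rw [if_pos (by linarith), sub_self, hq0 _ le_rfl, hr0 i _ le_rfl]
  · intro i σ hσ
    simp only
    rw [if_pos (by linarith)]
    exact hq1 _ (by linarith)
  · intro i σ hσ
    have hTi := hT i
    simp only at hσ ⊢
    rw [if_neg (by linarith), if_neg (by linarith)]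
    exact hq1' _ (by linarith)
  · have h3 : ∑ i, lam i * (σ₁ + T i + σ₂) = (σ₁ + σ₂) * ∑ i, lam i + ∑ i, lam i * T i := by
      rw [Finset.mul_sum, ← Finset.sum_add_distrib]
      exact Finset.sum_congr rfl fun i _ => by ring
    simp only
    rw [h3, hsum]
    linarith
  · intro S hS t0 t1 ht
    have hmain := hmeet S hS t0 t1 ht
    -- the sets of times
    set U : Set ℝ := {t : ℝ | t ∈ Icc t0 t1 ∧ S t ∈ N.openArc e} with hU
    set U' : Set ℝ := {t : ℝ | t ∈ Icc t0 t1 ∧ S t ∈ N.openArc e'} with hU'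
    have hUf : volume U ≠ ⊤ :=
      ((measure_mono (fun t ht => ht.1)).trans_lt (measure_Icc_lt_top (a := t0) (b := t1))).ne
    have hUf' : volume U' ≠ ⊤ :=
      ((measure_mono (fun t ht => ht.1)).trans_lt (measure_Icc_lt_top (a := t0) (b := t1))).ne
    let g₁ : ℝ → ℝ := fun t => t - σ₁ + Metric.infDist (S t) (N.openArc e)ᶜ
    let g₃ : Fin m → ℝ → ℝ := fun i t => t - (σ₁ + T i) - Metric.infDist (S t) (N.openArc e')ᶜ
    have hg₁ : volume (g₁ '' U) ≤ 2 * volume U := by
      apply image_le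
      intro x y
      have h3 := tent_lip hS (N.openArc e)ᶜ x y
      have h4 : g₁ x - g₁ y = (x - y) + (Metric.infDist (S x) (N.openArc e)ᶜ -
        Metric.infDist (S y) (N.openArc e)ᶜ) := by simp only [g₁]; ring
      rw [h4]
      exact (abs_add_le _ _).trans (by linarith)
    have hg₃ : ∀ i, volume (g₃ i '' U') ≤ 2 * volume U' := by
      intro i
      apply image_le
      intro x y
      have h3 := tent_lip hS (N.openArc e')ᶜ x y
      have h4 : g₃ i x - g₃ i y = (x - y) - (Metric.infDist (S x) (N.openArc e')ᶜ -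
        Metric.infDist (S y) (N.openArc e')ᶜ) := by simp only [g₃]; ring
      rw [h4]
      exact (abs_sub _ _).trans (by linarith)
    -- the bad sets
    have key : ∀ i, (volume {θ : ℝ | ∃ t ∈ Icc t0 t1, θ ≤ t ∧ t ≤ θ + (σ₁ + T i + σ₂) ∧
        S t = (if t - θ ≤ σ₁ then q (σ₁ - (t - θ)) else
          if t - θ ≤ σ₁ + T i then r i (t - θ - σ₁) else q' (t - θ - (σ₁ + T i)))}).toReal ≤
        2 * timeIn S t0 t1 (N.openArc e) + (volume {θ : ℝ | ∃ t ∈ Icc t0 t1, θ ≤ t ∧
          t ≤ θ + T i ∧ S t = r i (t - θ)}).toReal + 2 * timeIn S t0 t1 (N.openArc e') := by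
      intro i
      set B : Set ℝ := {θ : ℝ | ∃ t ∈ Icc t0 t1, θ ≤ t ∧ t ≤ θ + T i ∧ S t = r i (t - θ)} with hB
      have hTi := hT i
      have hBf : volume B ≠ ⊤ := by
        have h3 : B ⊆ Icc (t0 - T i) t1 := by
          rintro θ ⟨t, ht, h4, h5, -⟩
          exact ⟨by linarith [ht.1], by linarith [ht.2]⟩
        exact ((measure_mono h3).trans_lt measure_Icc_lt_top).ne
      have hsub : {θ : ℝ | ∃ t ∈ Icc t0 t1, θ ≤ t ∧ t ≤ θ + (σ₁ + T i + σ₂) ∧
          S t = (if t - θ ≤ σ₁ then q (σ₁ - (t - θ)) else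
            if t - θ ≤ σ₁ + T i then r i (t - θ - σ₁) else q' (t - θ - (σ₁ + T i)))} ⊆
          g₁ '' U ∪ (fun θ => θ + σ₁) ⁻¹' B ∪ g₃ i '' U' := by
        rintro θ ⟨t, ht, h3, h4, h5⟩
        rcases lt_trichotomy (t - θ) σ₁ with h6 | h6 | h6
        · rw [if_pos h6.le] at h5
          left; left
          obtain ⟨h7, h8⟩ := hq2 (σ₁ - (t - θ)) (by linarith) (by linarith)
          rw [← h5] at h7 h8
          refine ⟨t, ⟨ht, h7⟩, ?_⟩
          simp only [g₁]
          rw [h8]
          ring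
        · rw [if_pos h6.le, h6, sub_self, hq0 _ le_rfl] at h5
          left; right
          refine ⟨t, ht, by linarith, by linarith, ?_⟩
          have h7 : t - (θ + σ₁) = 0 := by linarith
          rw [h7, hr0 i _ le_rfl]
          exact h5
        · rw [if_neg (not_le.mpr h6)] at h5
          by_cases h7 : t - θ ≤ σ₁ + T i
          · rw [if_pos h7] at h5
            left; right
            refine ⟨t, ht, by linarith, by linarith, ?_⟩
            have h8 : t - (θ + σ₁) = t - θ - σ₁ := by ring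
            rw [h8]
            exact h5
          · rw [if_neg h7] at h5
            right
            obtain ⟨h8, h9⟩ := hq2' (t - θ - (σ₁ + T i)) (by linarith) (by linarith)
            rw [← h5] at h8 h9
            refine ⟨t, ⟨ht, h8⟩, ?_⟩
            simp only [g₃]
            rw [h9]
            ring
      have h3 : volume {θ : ℝ | ∃ t ∈ Icc t0 t1, θ ≤ t ∧ t ≤ θ + (σ₁ + T i + σ₂) ∧
          S t = (if t - θ ≤ σ₁ then q (σ₁ - (t - θ)) else
            if t - θ ≤ σ₁ + T i then r i (t - θ - σ₁) else q' (t - θ - (σ₁ + T i)))} ≤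
          2 * volume U + volume B + 2 * volume U' := by
        refine (measure_mono hsub).trans ?_
        refine (measure_union_le _ _).trans ?_
        refine add_le_add ((measure_union_le _ _).trans ?_) (hg₃ i)
        rw [measure_preimage_add_right]
        exact add_le_add hg₁ le_rfl
      have h2U : 2 * volume U ≠ ⊤ := ENNReal.mul_ne_top (by simp) hUf
      have h2U' : 2 * volume U' ≠ ⊤ := ENNReal.mul_ne_top (by simp) hUf'
      have h4 := ENNReal.toReal_mono
        (ENNReal.add_ne_top.2 ⟨ENNReal.add_ne_top.2 ⟨h2U, hBf⟩, h2U'⟩) h3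
      rw [ENNReal.toReal_add (ENNReal.add_ne_top.2 ⟨h2U, hBf⟩) h2U', ENNReal.toReal_add h2U hBf,
        ENNReal.toReal_mul, ENNReal.toReal_mul, ENNReal.toReal_ofNat] at h4
      exact h4
    calc _ ≤ ∑ i, lam i * (2 * timeIn S t0 t1 (N.openArc e) +
          (volume {θ : ℝ | ∃ t ∈ Icc t0 t1, θ ≤ t ∧ t ≤ θ + T i ∧
            S t = r i (t - θ)}).toReal + 2 * timeIn S t0 t1 (N.openArc e')) :=
          Finset.sum_le_sum fun i _ => mul_le_mul_of_nonneg_left (key i) (hlam i)
      _ = (2 * timeIn S t0 t1 (N.openArc e) + 2 * timeIn S t0 t1 (N.openArc e')) * ∑ i, lam i +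
          ∑ i, lam i * (volume {θ : ℝ | ∃ t ∈ Icc t0 t1, θ ≤ t ∧ t ≤ θ + T i ∧
            S t = r i (t - θ)}).toReal := by
          rw [Finset.mul_sum, ← Finset.sum_add_distrib]
          exact Finset.sum_congr rfl fun i _ => by ring
      _ ≤ _ := by
          rw [hsum]
          linarith


end MPacf82c.St
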