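import Pool.Agent.Lib.MP_acf82c_lc.S.SpecA

/-!
# The emulation against one plan (helper26)
-/

namespace MPacf82c.St

open Finset

namespace EmuPlan

theorem pavg_mono {n : ℕ} {f g : Equiv.Perm (Fin n) → ℝ} (h : ∀ π, f π ≤ g π) :
    pavg f ≤ pavg g := by
  unfold pavg
  apply div_le_div_of_nonneg_right _ (by positivity)
  exact sum_le_sum fun π _ => h π

theorem pavg_add {n : ℕ} (f g : Equiv.Perm (Fin n) → ℝ) :
    pavg (fun π => f π + g π) = pavg f + pavg g := by
  unfold pavg
  rw [sum_add_distrib, add_div]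

theorem pavg_mul {n : ℕ} (c : ℝ) (f : Equiv.Perm (Fin n) → ℝ) :
    pavg (fun π => c * f π) = c * pavg f := by
  unfold pavg
  rw [← mul_sum, mul_div_assoc]

theorem pavg_sum {n : ℕ} {ι : Type} (s : Finset ι) (f : ι → Equiv.Perm (Fin n) → ℝ) :
    pavg (fun π => ∑ i ∈ s, f i π) = ∑ i ∈ s, pavg (f i) := by
  unfold pavg
  rw [sum_comm, sum_div]

theorem pavg_const {n : ℕ} (c : ℝ) : pavg (fun _ : Equiv.Perm (Fin n) => c) = c := by
  unfold pavg
  rw [sum_const, card_univ, Fintype.card_perm, Fintype.card_fin, nsmul_eq_mul]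
  have : (n.factorial : ℝ) ≠ 0 := by positivity
  field_simp

theorem stay_range {n : ℕ} (L : ℕ → Finset (Fin n)) (y : ℕ → Fin n) (b : ℕ → Bool) (m : ℕ)
    (π : Equiv.Perm (Fin n)) : 0 ≤ stay L y b m π ∧ stay L y b m π ≤ 1 := by
  unfold stay
  constructor
  · apply prod_nonneg
    intro k _
    split_ifs <;> norm_num
  · apply prod_le_one
    · intro k _
      split_ifs <;> norm_num
    · intro k _
      split_ifs <;> norm_num

/-- the averaged factor of the emulation -/
noncomputable def A {n : ℕ} [NeZero n] (B : ℕ) (θ : ℝ) (m0 m1 : ℕ) (L : ℕ → Finset (Fin n))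
    (k : ℕ) (z : Fin n) (c : Bool) : ℝ :=
  (∑ j, fac B (emu B θ m0 m1 L k j) z c) / (n : ℝ)

theorem A_nonneg {n : ℕ} [NeZero n] (B : ℕ) (θ : ℝ) (m0 m1 : ℕ) (L : ℕ → Finset (Fin n))
    (k : ℕ) (z : Fin n) (c : Bool) : 0 ≤ A B θ m0 m1 L k z c := by
  unfold A
  apply div_nonneg _ (by positivity)
  exact sum_nonneg fun j _ => fac_nonneg' _ _ _ _

theorem floor_le' {n B : ℕ} {θ : ℝ} (h0 : 0 ≤ θ) (h1 : θ ≤ 1) (hBn : B ≤ n) (Λ : Finset (Fin n))
    (hΛ : Λ.card ≤ B) : (⌊θ * ((B : ℝ) - Λ.card)⌋₊ : ℝ) ≤ θ * ((B : ℝ) - Λ.card) ∧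
      ⌊θ * ((B : ℝ) - Λ.card)⌋₊ ≤ n := by
  have h2 : (Λ.card : ℝ) ≤ B := by exact_mod_cast hΛ
  have h3 : 0 ≤ θ * ((B : ℝ) - Λ.card) := mul_nonneg h0 (by linarith)
  refine ⟨Nat.floor_le h3, ?_⟩
  have h4 : θ * ((B : ℝ) - Λ.card) ≤ B := by
    have : (0 : ℝ) ≤ Λ.card := by positivity
    nlinarith
  calc ⌊θ * ((B : ℝ) - Λ.card)⌋₊ ≤ ⌊(B : ℝ)⌋₊ := Nat.floor_mono h4
    _ = B := Nat.floor_natCast B
    _ ≤ n := hBn

/-- a star in a round `< m0` -/
theorem A_star_lt {n : ℕ} [NeZero n] {B : ℕ} {θ : ℝ} {m0 m1 : ℕ} {L : ℕ → Finset (Fin n)}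
    (hB : 0 < B) (hBn : B ≤ n) (h0 : 0 ≤ θ) (h1 : θ ≤ 1) {k : ℕ} (hk : k < m0)
    (hL : (L k).card ≤ B) (z : Fin n) :
    A B θ m0 m1 L k z true ≤ ((L k).card : ℝ) / B + θ * am B L k := by
  have hBr : (0 : ℝ) < B := by exact_mod_cast hB
  have hnr : (0 : ℝ) < n := by
    have : 0 < n := by omega
    exact_mod_cast this
  obtain ⟨hf1, hf2⟩ := floor_le' h0 h1 hBn (L k) hL
  have h2 : ∀ j, fac B (emu B θ m0 m1 L k j) z true ≤ ((L k).card : ℝ) / B + θ * am B L k := by
    intro j
    unfold fac emu am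
    simp only [hk, if_true]
    have h3 : ((L k ∪ crudeShift n ⌊θ * ((B : ℝ) - (L k).card)⌋₊ j).card : ℝ) ≤
        (L k).card + θ * ((B : ℝ) - (L k).card) := by
      calc ((L k ∪ crudeShift n ⌊θ * ((B : ℝ) - (L k).card)⌋₊ j).card : ℝ) ≤
          (((L k).card + (crudeShift n ⌊θ * ((B : ℝ) - (L k).card)⌋₊ j).card : ℕ) : ℝ) := by
            exact_mod_cast card_union_le _ _
        _ = (L k).card + (⌊θ * ((B : ℝ) - (L k).card)⌋₊ : ℝ) := by
            rw [crudeShift_card hf2]
            push_cast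
            rfl
        _ ≤ _ := by linarith
    calc ((L k ∪ crudeShift n ⌊θ * ((B : ℝ) - (L k).card)⌋₊ j).card : ℝ) / B ≤
        ((L k).card + θ * ((B : ℝ) - (L k).card)) / B := div_le_div_of_nonneg_right h3 hBr.le
      _ = _ := by field_simp
  unfold A
  rw [div_le_iff₀ hnr]
  calc ∑ j, fac B (emu B θ m0 m1 L k j) z true ≤
      ∑ _j : Fin n, (((L k).card : ℝ) / B + θ * am B L k) := sum_le_sum fun j _ => h2 j
    _ = _ := by
      rw [sum_const, card_univ, Fintype.card_fin, nsmul_eq_mul]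
      ring

/-- a stay in a round `< m0` -/
theorem A_stay_lt {n : ℕ} [NeZero n] {B : ℕ} {θ : ℝ} {m0 m1 : ℕ} {L : ℕ → Finset (Fin n)}
    (hBn : B ≤ n) (h0 : 0 ≤ θ) (h1 : θ ≤ 1) {k : ℕ} (hk : k < m0)
    (hL : (L k).card ≤ B) (z : Fin n) (hn : 0 < n) :
    A B θ m0 m1 L k z false = (if z ∈ L k then 0 else 1) *
      (1 - (⌊θ * ((B : ℝ) - (L k).card)⌋₊ : ℝ) / n) := by
  have hnr : (0 : ℝ) < n := by exact_mod_cast hn
  obtain ⟨hf1, hf2⟩ := floor_le' h0 h1 hBn (L k) hL
  unfold A fac emu
  simp only [hk, if_true, Bool.false_eq_true, if_false, mem_union]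
  by_cases hz : z ∈ L k
  · simp [hz]
  · simp only [hz, false_or, if_false, one_mul]
    have h3 : ∑ j : Fin n, (if z ∈ crudeShift n ⌊θ * ((B : ℝ) - (L k).card)⌋₊ j then (0 : ℝ)
        else 1) = (n : ℝ) - (⌊θ * ((B : ℝ) - (L k).card)⌋₊ : ℝ) := by
      have h4 : ∀ j : Fin n, (if z ∈ crudeShift n ⌊θ * ((B : ℝ) - (L k).card)⌋₊ j then (0 : ℝ)
          else 1) = 1 - (if z ∈ crudeShift n ⌊θ * ((B : ℝ) - (L k).card)⌋₊ j then (1 : ℝ)
          else 0) := by
        intro j
        split_ifs <;> ring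
      simp only [h4]
      rw [sum_sub_distrib, sum_const, card_univ, Fintype.card_fin, nsmul_eq_mul, mul_one,
        sum_boole, crude_count hf2]
    rw [h3]
    field_simp

theorem A_mid {n : ℕ} [NeZero n] {B : ℕ} {θ : ℝ} {m0 m1 : ℕ} {L : ℕ → Finset (Fin n)}
    {k : ℕ} (hk : m0 ≤ k) (hk1 : k < m1) (z : Fin n) (c : Bool) (hn : 0 < n) :
    A B θ m0 m1 L k z c = fac B (L k) z c := by
  have hnr : (0 : ℝ) < n := by exact_mod_cast hn
  unfold A emu
  simp only [show ¬ k < m0 by omega, if_false, hk1, if_true]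
  rw [sum_const, card_univ, Fintype.card_fin, nsmul_eq_mul]
  field_simp

theorem A_late {n : ℕ} [NeZero n] {B : ℕ} {θ : ℝ} {m0 m1 : ℕ} {L : ℕ → Finset (Fin n)}
    {k : ℕ} (hB : 0 < B) (hBn : B ≤ n) (hm : m0 ≤ m1) (hk1 : m1 ≤ k) (z : Fin n) (c : Bool) :
    A B θ m0 m1 L k z c = if c then (1 : ℝ) else 1 - (B : ℝ) / n := by
  have hBr : (0 : ℝ) < B := by exact_mod_cast hB
  have hnr : (0 : ℝ) < n := by
    have : 0 < n := by omega
    exact_mod_cast this
  unfold A emu fac
  simp only [show ¬ k < m0 by omega, show ¬ k < m1 by omega, if_false]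
  cases c with
  | true =>
    simp only [if_true, crudeShift_card hBn]
    rw [sum_const, card_univ, Fintype.card_fin, nsmul_eq_mul]
    field_simp
  | false =>
    simp only [Bool.false_eq_true, if_false]
    have h4 : ∀ j : Fin n, (if z ∈ crudeShift n B j then (0 : ℝ)
        else 1) = 1 - (if z ∈ crudeShift n B j then (1 : ℝ) else 0) := by
      intro j
      split_ifs <;> ring
    simp only [h4]
    rw [sum_sub_distrib, sum_const, card_univ, Fintype.card_fin, nsmul_eq_mul, mul_one,
      sum_boole, crude_count hBn]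
    field_simp

end EmuPlan

open EmuPlan

theorem sEmuPlan (hGeo : S_Geo) (hSU : S_StarUp) : S_EmuPlan := by
  classical
  intro n B M K m0 m1 _ θ L y b hB hBn hθ0 hθ1 hm hmM hAdm hL
  have hn : 0 < n := by omega
  have hBr : (0 : ℝ) < B := by exact_mod_cast hB
  have hnr : (0 : ℝ) < n := by exact_mod_cast hn
  have hx0 : ∀ k, (0 : ℝ) ≤ ((L k).card : ℝ) / B := fun k => by positivity
  have hx1 : ∀ k, ((L k).card : ℝ) / B ≤ 1 := fun k => by
    rw [div_le_one hBr]
    exact_mod_cast hL k
  have ha0 : ∀ k, 0 ≤ am B L k := fun k => by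
    unfold am
    linarith [hx1 k]
  have hxsj0 : ∀ m j, 0 ≤ xsj B L b m j := fun m j => by
    unfold xsj
    apply prod_nonneg
    intro k _
    split_ifs
    · exact hx0 k
    · norm_num
  have hxs0 : ∀ m, 0 ≤ xs B L b m := fun m => by
    unfold xs
    apply prod_nonneg
    intro k _
    split_ifs
    · exact hx0 k
    · norm_num
  have hfl : ∀ k, 0 ≤ 1 - (⌊θ * ((B : ℝ) - (L k).card)⌋₊ : ℝ) / n ∧
      1 - (⌊θ * ((B : ℝ) - (L k).card)⌋₊ : ℝ) / n ≤ 1 := fun k => by
    have h1 := (floor_le' hθ0 hθ1 hBn (L k) (hL k)).2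
    have h2 : (⌊θ * ((B : ℝ) - (L k).card)⌋₊ : ℝ) ≤ n := by exact_mod_cast h1
    have h3 : (⌊θ * ((B : ℝ) - (L k).card)⌋₊ : ℝ) / n ≤ 1 := by rwa [div_le_one hnr]
    have h4 : (0 : ℝ) ≤ (⌊θ * ((B : ℝ) - (L k).card)⌋₊ : ℝ) / n := by positivity
    constructor <;> linarith
  have hdm : ∀ m, 0 ≤ dm B θ m0 L b m ∧ dm B θ m0 L b m ≤ 1 := fun m => by
    unfold dm
    constructor
    · apply prod_nonneg
      intro k _
      split_ifs
      · norm_num
      · exact (hfl k).1
    · apply prod_le_one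
      · intro k _
        split_ifs
        · norm_num
        · exact (hfl k).1
      · intro k _
        split_ifs
        · exact le_refl _
        · exact (hfl k).2
  -- the sum of the first order terms for fixed `π`
  obtain ⟨Cf, hCf⟩ : ∃ Cf : ℕ → Equiv.Perm (Fin n) → ℝ, ∀ m π, Cf m π =
      ∑ j ∈ est b m0 m, am B L j * xsj B L b m j * stay L y b m π := ⟨_, fun _ _ => rfl⟩
  -- star part
  have hstar : ∀ m, m ≤ m1 → ∏ k ∈ range m,
      (if b k then (((L k).card : ℝ) / B + (if k < m0 then θ * am B L k else 0)) else 1) ≤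
      xs B L b m + θ * (∑ j ∈ est b m0 m, am B L j * xsj B L b m j) + θ ^ 2 := by
    intro m _
    obtain ⟨Z, hZ⟩ : ∃ Z : Finset ℕ, Z = (range m).filter (fun k => b k = true ∧ ¬ k < m0) :=
      ⟨_, rfl⟩
    obtain ⟨P2, hP2⟩ : ∃ P2 : ℝ, P2 = ∏ k ∈ Z, ((L k).card : ℝ) / B := ⟨_, rfl⟩
    have hP20 : 0 ≤ P2 := by
      rw [hP2]
      exact prod_nonneg fun k _ => hx0 k
    have hP21 : P2 ≤ 1 := by
      rw [hP2]
      exact prod_le_one (fun k _ => hx0 k) fun k _ => hx1 k
    have hest : est b m0 m = ((range m).filter (fun k => b k = true)).filter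
        (fun k => k < m0) := by
      unfold est
      ext j
      simp only [mem_filter, mem_range, lt_min_iff]
      tauto
    have hZ' : Z = ((range m).filter (fun k => b k = true)).filter (fun k => ¬ k < m0) := by
      rw [hZ, filter_filter]
    have e1 : ∏ k ∈ range m,
        (if b k then (((L k).card : ℝ) / B + (if k < m0 then θ * am B L k else 0)) else 1) =
        (∏ k ∈ est b m0 m, (((L k).card : ℝ) / B + θ * (1 - ((L k).card : ℝ) / B))) * P2 := by
      rw [← prod_filter, ← prod_filter_mul_prod_filter_not ((range m).filter (fun k => b k = true))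
        (fun k => k < m0), hP2, hZ', hest]
      congr 1
      · apply prod_congr rfl
        intro k hk
        have : k < m0 := (mem_filter.mp hk).2
        simp only [this, if_true]
        rfl
      · apply prod_congr rfl
        intro k hk
        have : ¬ k < m0 := (mem_filter.mp hk).2
        simp only [this, if_false, add_zero]
    have e2 : xs B L b m = (∏ k ∈ est b m0 m, ((L k).card : ℝ) / B) * P2 := by
      unfold xs
      rw [← prod_filter, ← prod_filter_mul_prod_filter_not ((range m).filter (fun k => b k = true))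
        (fun k => k < m0), hP2, hZ', hest]
    have e3 : ∀ j ∈ est b m0 m, xsj B L b m j =
        (∏ k ∈ (est b m0 m).erase j, ((L k).card : ℝ) / B) * P2 := by
      intro j hj
      unfold xsj
      rw [← prod_filter, ← prod_filter_mul_prod_filter_not
        (((range m).erase j).filter (fun k => b k = true)) (fun k => k < m0), hP2]
      congr 1
      · apply prod_congr _ fun _ _ => rfl
        rw [hest]
        ext k
        simp only [mem_filter, mem_erase, mem_range]
        tauto
      · apply prod_congr _ fun _ _ => rfl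
        rw [hZ']
        have hjm : j < m0 := by
          rw [hest] at hj
          exact (mem_filter.mp hj).2
        ext k
        simp only [mem_filter, mem_erase, mem_range]
        constructor
        · rintro ⟨⟨⟨_, h1⟩, h2⟩, h3⟩
          exact ⟨⟨h1, h2⟩, h3⟩
        · rintro ⟨⟨h1, h2⟩, h3⟩
          refine ⟨⟨⟨?_, h1⟩, h2⟩, h3⟩
          rintro rfl
          exact h3 hjm
    have h1 := hSU (est b m0 m) (fun k => ((L k).card : ℝ) / B) θ (fun k _ => hx0 k)
      (fun k _ => hx1 k) hθ0 hθ1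
    have h2 := mul_le_mul_of_nonneg_right h1 hP20
    rw [e1]
    refine le_trans h2 ?_
    have e4 : (∑ j ∈ est b m0 m, am B L j * xsj B L b m j) =
        (∑ j ∈ est b m0 m, (1 - ((L j).card : ℝ) / B) *
          ∏ k ∈ (est b m0 m).erase j, ((L k).card : ℝ) / B) * P2 := by
      rw [sum_mul]
      apply sum_congr rfl
      intro j hj
      rw [e3 j hj]
      unfold am
      ring
    rw [e2, e4]
    have h3 : θ ^ 2 * P2 ≤ θ ^ 2 := by
      have : 0 ≤ θ ^ 2 := by positivity
      nlinarith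
    linarith
  -- pointwise estimate for `m ≤ m1`
  have hpt : ∀ (π : Equiv.Perm (Fin n)) (m : ℕ), m ≤ m1 →
      ∏ k ∈ range m, A B θ m0 m1 L k (π (y k)) (b k) ≤
      dm B θ m0 L b m * (xs B L b m * stay L y b m π) + θ * Cf m π + θ ^ 2 := by
    intro π m hmm
    have h1 : ∏ k ∈ range m, A B θ m0 m1 L k (π (y k)) (b k) ≤
        ∏ k ∈ range m, ((if b k then (1 : ℝ) else if π (y k) ∈ L k then 0 else 1) *
          (if k < m0 then (if b k then (1 : ℝ) else
            1 - (⌊θ * ((B : ℝ) - (L k).card)⌋₊ : ℝ) / n) else 1) *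
          (if b k then (((L k).card : ℝ) / B + (if k < m0 then θ * am B L k else 0)) else 1)) := by
      apply prod_le_prod
      · intro k _
        exact A_nonneg _ _ _ _ _ _ _ _
      · intro k hk
        rw [mem_range] at hk
        by_cases hb : b k = true
        · simp only [hb, if_true, ite_self, one_mul]
          by_cases hk0 : k < m0
          · simp only [hk0, if_true]
            exact A_star_lt hB hBn hθ0 hθ1 hk0 (hL k) _
          · simp only [hk0, if_false, add_zero]
            rw [A_mid (by omega) (by omega) _ _ hn]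
            simp [fac]
        · have hb' : b k = false := by simpa using hb
          simp only [hb', Bool.false_eq_true, if_false, mul_one]
          by_cases hk0 : k < m0
          · simp only [hk0, if_true]
            rw [A_stay_lt hBn hθ0 hθ1 hk0 (hL k) _ hn]
          · simp only [hk0, if_false, mul_one]
            rw [A_mid (by omega) (by omega) _ _ hn]
            simp [fac]
    rw [prod_mul_distrib, prod_mul_distrib] at h1
    have h2 : ∏ k ∈ range m, (if k < m0 then (if b k then (1 : ℝ) else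
        1 - (⌊θ * ((B : ℝ) - (L k).card)⌋₊ : ℝ) / n) else 1) = dm B θ m0 L b m := by
      unfold dm
      rw [← prod_filter]
      apply prod_congr _ fun _ _ => rfl
      ext k
      simp only [mem_filter, mem_range, lt_min_iff]
    have h3 : ∏ k ∈ range m, (if b k then (1 : ℝ) else if π (y k) ∈ L k then 0 else 1) =
        stay L y b m π := rfl
    rw [h2, h3] at h1
    have h4 := hstar m hmm
    obtain ⟨hs0, hs1⟩ := stay_range L y b m π
    obtain ⟨hd0, hd1⟩ := hdm m
    have hsd : 0 ≤ stay L y b m π * dm B θ m0 L b m := mul_nonneg hs0 hd0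
    have hsd1 : stay L y b m π * dm B θ m0 L b m ≤ 1 := mul_le_one₀ hs1 hd0 hd1
    have h5 := mul_le_mul_of_nonneg_left h4 hsd
    refine le_trans h1 (le_trans h5 ?_)
    have hC0 : 0 ≤ ∑ j ∈ est b m0 m, am B L j * xsj B L b m j :=
      sum_nonneg fun j _ => mul_nonneg (ha0 j) (hxsj0 m j)
    have h6 : Cf m π = (∑ j ∈ est b m0 m, am B L j * xsj B L b m j) * stay L y b m π := by
      rw [hCf, sum_mul]
    rw [h6]
    have h7 : stay L y b m π * dm B θ m0 L b m * θ ^ 2 ≤ θ ^ 2 := by
      have : 0 ≤ θ ^ 2 := by positivity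
      nlinarith
    have h8 : stay L y b m π * dm B θ m0 L b m *
        (θ * ∑ j ∈ est b m0 m, am B L j * xsj B L b m j) ≤
        θ * ((∑ j ∈ est b m0 m, am B L j * xsj B L b m j) * stay L y b m π) := by
      have h9 : 0 ≤ θ * (∑ j ∈ est b m0 m, am B L j * xsj B L b m j) * stay L y b m π :=
        mul_nonneg (mul_nonneg hθ0 hC0) hs0
      nlinarith
    linarith
  -- the whole payoff
  have htot : ∀ π : Equiv.Perm (Fin n), rnd B M (emu B θ m0 m1 L) (fun k => π (y k)) b ≤
      (∑ m ∈ range (m1 + 1), (dm B θ m0 L b m * (xs B L b m * stay L y b m π) +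
        θ * Cf m π + θ ^ 2)) +
      ((K : ℝ) + (n : ℝ) / B) * (xs B L b m1 * stay L y b m1 π + θ * Cf m1 π + θ ^ 2) := by
    intro π
    have e1 : rnd B M (emu B θ m0 m1 L) (fun k => π (y k)) b =
        ∑ m ∈ range M, ∏ k ∈ range m, A B θ m0 m1 L k (π (y k)) (b k) := rfl
    have e2 : M = (m1 + 1) + (M - (m1 + 1)) := by omega
    rw [e1, e2, sum_range_add]
    apply add_le_add
    · apply sum_le_sum
      intro m hm'
      rw [mem_range] at hm'
      exact hpt π m (by omega)
    · have e3 : ∀ m', ∏ k ∈ range (m1 + 1 + m'), A B θ m0 m1 L k (π (y k)) (b k) =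
          (∏ k ∈ range m1, A B θ m0 m1 L k (π (y k)) (b k)) *
          ∏ k ∈ range (m' + 1), (if b (m1 + k) then (1 : ℝ) else 1 - (B : ℝ) / n) := by
        intro m'
        rw [show m1 + 1 + m' = m1 + (m' + 1) by omega, prod_range_add]
        congr 1
        apply prod_congr rfl
        intro k _
        exact A_late hB hBn hm (by omega) _ _
      simp only [e3]
      rw [← mul_sum]
      have h1 : (∏ k ∈ range m1, A B θ m0 m1 L k (π (y k)) (b k)) ≤
          xs B L b m1 * stay L y b m1 π + θ * Cf m1 π + θ ^ 2 := by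
        refine le_trans (hpt π m1 le_rfl) ?_
        obtain ⟨hs0, hs1⟩ := stay_range L y b m1 π
        obtain ⟨hd0, hd1⟩ := hdm m1
        have h2 : 0 ≤ xs B L b m1 * stay L y b m1 π := mul_nonneg (hxs0 m1) hs0
        nlinarith
      have h0 : 0 ≤ ∏ k ∈ range m1, A B θ m0 m1 L k (π (y k)) (b k) :=
        prod_nonneg fun k _ => A_nonneg _ _ _ _ _ _ _ _
      have h2 : ∑ m' ∈ range (M - (m1 + 1)), ∏ k ∈ range (m' + 1),
          (if b (m1 + k) then (1 : ℝ) else 1 - (B : ℝ) / n) ≤ (K : ℝ) + (n : ℝ) / B := by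
        have h3 := hGeo (M - m1) K (fun k => b (m1 + k)) ((B : ℝ) / n) (by positivity)
          (by rw [div_le_one hnr]; exact_mod_cast hBn) (by
            calc ((range (M - m1)).filter fun k => b (m1 + k) = true).card
                = (((range (M - m1)).filter fun k => b (m1 + k) = true).image
                  (fun k => m1 + k)).card := by
                  rw [card_image_of_injective _ (add_right_injective m1)]
              _ ≤ ((range M).filter fun k => b k = true).card := by
                  apply card_le_card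
                  intro k hk
                  rw [mem_image] at hk
                  obtain ⟨a, ha, rfl⟩ := hk
                  rw [mem_filter, mem_range] at ha ⊢
                  exact ⟨by omega, ha.2⟩
              _ ≤ K := hAdm.2)
        rw [show M - m1 = (M - (m1 + 1)) + 1 by omega, sum_range_succ'] at h3
        rw [one_div_div] at h3
        have h4 : (0 : ℝ) ≤ ∏ k ∈ range 0, (if b (m1 + k) then (1 : ℝ) else 1 - (B : ℝ) / n) := by
          simp
        linarith
      have hU0 : 0 ≤ (K : ℝ) + (n : ℝ) / B := by positivity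
      calc (∏ k ∈ range m1, A B θ m0 m1 L k (π (y k)) (b k)) *
          ∑ m' ∈ range (M - (m1 + 1)), ∏ k ∈ range (m' + 1),
            (if b (m1 + k) then (1 : ℝ) else 1 - (B : ℝ) / n)
          ≤ (∏ k ∈ range m1, A B θ m0 m1 L k (π (y k)) (b k)) * ((K : ℝ) + (n : ℝ) / B) :=
            mul_le_mul_of_nonneg_left h2 h0
        _ ≤ (xs B L b m1 * stay L y b m1 π + θ * Cf m1 π + θ ^ 2) * ((K : ℝ) + (n : ℝ) / B) :=
            mul_le_mul_of_nonneg_right h1 hU0
        _ = _ := by ring
  have hfin := pavg_mono htot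
  have hCavg : ∀ m, pavg (Cf m) = cs B L y b m0 m := by
    intro m
    have : Cf m = fun π => ∑ j ∈ est b m0 m, am B L j * xsj B L b m j * stay L y b m π := by
      funext π
      exact hCf m π
    rw [this, pavg_sum]
    unfold cs cj sv
    apply sum_congr rfl
    intro j _
    rw [pavg_mul]
  have hterm : ∀ m, pavg (fun π : Equiv.Perm (Fin n) =>
      dm B θ m0 L b m * (xs B L b m * stay L y b m π) + θ * Cf m π + θ ^ 2) =
      dm B θ m0 L b m * base B L y b m + θ * cs B L y b m0 m + θ ^ 2 := by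
    intro m
    rw [pavg_add, pavg_add, pavg_mul, pavg_mul, pavg_mul, pavg_const, hCavg]
    rfl
  have hterm' : pavg (fun π : Equiv.Perm (Fin n) =>
      xs B L b m1 * stay L y b m1 π + θ * Cf m1 π + θ ^ 2) =
      base B L y b m1 + θ * cs B L y b m0 m1 + θ ^ 2 := by
    rw [pavg_add, pavg_add, pavg_mul, pavg_mul, pavg_const, hCavg]
    rfl
  rw [pavg_add, pavg_sum, pavg_mul, hterm'] at hfin
  simp only [hterm] at hfin
  exact hfin

end MPacf82c.St
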