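import Pool.Agent.Lib.MP_acf82c_lc.S.SpecC

/-!
# Stability: loop erasure

MP_acf82c_lc, Theorem S, `S_Erase` (helper34).
-/

namespace MPacf82c.St

namespace Erase

variable {Q : Type} [MetricSpace Q] (N : Network Q)

lemma vis_cons (a : Q) (e : N.Arc) (o : Bool) (l : List (N.Arc × Bool)) :
    vis N a ((e, o) :: l) = a :: vis N (en N e o) l := by
  simp [vis]

lemma clen_cons (e : N.Arc) (o : Bool) (l : List (N.Arc × Bool)) :
    clen N ((e, o) :: l) = N.len e + clen N l := by
  simp [clen]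

lemma clen_append (l₁ l₂ : List (N.Arc × Bool)) :
    clen N (l₁ ++ l₂) = clen N l₁ + clen N l₂ := by
  simp [clen]

lemma clen_nonneg (l : List (N.Arc × Bool)) : 0 ≤ clen N l := by
  unfold clen
  apply List.sum_nonneg
  intro x hx
  obtain ⟨p, _, rfl⟩ := List.mem_map.1 hx
  exact (N.len_pos p.1).le

/-- the inductive step -/
lemma step (hS : S_ChainSplit) (a b : Q) (e : N.Arc) (o : Bool) (l l' : List (N.Arc × Bool))
    (hcons : ∀ m, Chain (tl N) (hd N) (en N e o) b m → Chain (tl N) (hd N) a b ((e, o) :: m))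
    (hc : Chain (tl N) (hd N) (en N e o) b l') (hn : (vis N (en N e o) l').Nodup)
    (hv : ∀ v ∈ vis N (en N e o) l', v ∈ vis N (en N e o) l) (hle : clen N l' ≤ clen N l) :
    ∃ m : List (N.Arc × Bool), Chain (tl N) (hd N) a b m ∧ (vis N a m).Nodup ∧
      (∀ v ∈ vis N a m, v ∈ vis N a ((e, o) :: l)) ∧ clen N m ≤ clen N ((e, o) :: l) := by
  by_cases hmem : a ∈ vis N (en N e o) l'
  · obtain ⟨l₁, l₂, rfl, h1, h2, h3, h4⟩ := hS Q N (en N e o) b a l' hc hmem
    refine ⟨l₂, h2, h4.nodup hn, ?_, ?_⟩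
    · intro v hv'
      rw [vis_cons]
      exact List.mem_cons_of_mem _ (hv v ((h3 v).2 (Or.inr hv')))
    · rw [clen_cons]
      rw [clen_append] at hle
      have := clen_nonneg N l₁
      have := (N.len_pos e).le
      linarith
  · refine ⟨(e, o) :: l', hcons l' hc, ?_, ?_, ?_⟩
    · rw [vis_cons]
      exact List.nodup_cons.2 ⟨hmem, hn⟩
    · intro v hv'
      rw [vis_cons] at hv' ⊢
      rcases List.mem_cons.1 hv' with h | h
      · exact h ▸ List.mem_cons_self
      · exact List.mem_cons_of_mem _ (hv v h)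
    · rw [clen_cons, clen_cons]
      linarith

end Erase

theorem sErase (hS : S_ChainSplit) : S_Erase := by
  intro Q _ N a b l h
  induction h with
  | nil v => exact ⟨[], .nil v, by simp [vis], fun _ hv => hv, le_rfl⟩
  | fwd e b l hl ih =>
    obtain ⟨l', hc, hn, hv, hle⟩ := ih
    exact Erase.step N hS (tl N e) b e true l l' (fun m hm => .fwd e b m hm) hc hn hv hle
  | bwd e b l hl ih =>
    obtain ⟨l', hc, hn, hv, hle⟩ := ih
    exact Erase.step N hS (hd N e) b e false l l' (fun m hm => .bwd e b m hm) hc hn hv hle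

end MPacf82c.St
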