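import Pool.Agent.Lib.MP_acf82c_lc.S.SpecA

/-!
# Stability: part ExtPay
-/

namespace MPacf82c.St

open Finset

private theorem extPay_facG_nonneg {n B : ℕ} {γ : ℝ} (hB : 0 < B) {L : Finset (Fin n)}
    (hL : L.card ≤ B) {G : Fin n → Fin n → ℝ} (hG : IsBonus γ G) (y y' : Fin n) (b : Bool) :
    0 ≤ facG B L G y y' b := by
  unfold facG
  have hB' : (0 : ℝ) < B := by exact_mod_cast hB
  have h1 : (L.card : ℝ) / B ≤ 1 := by
    rw [div_le_one hB']
    exact_mod_cast hL
  have h0 : (0 : ℝ) ≤ (L.card : ℝ) / B := by positivity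
  split_ifs
  · have h2 := mul_nonneg (sub_nonneg.mpr h1) (hG.nonneg y y')
    linarith
  · exact le_rfl
  · exact zero_le_one

theorem sExtPay : S_ExtPay := by
  intro n B M M' γ L G y b π hB hL hG hM
  unfold payoffG
  have h1 : ∑ m ∈ range M, ∏ k ∈ range m, facG B (L k) (G k) (π (y k)) (π (y (k + 1))) (b k) =
      ∑ m ∈ range M, ∏ k ∈ range m,
        facG B (L k) (G k) (π (extY M y k)) (π (extY M y (k + 1))) (extB M b k) := by
    refine sum_congr rfl fun m hm => prod_congr rfl fun k hk => ?_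
    rw [mem_range] at hm hk
    have hkM : k < M := hk.trans hm
    unfold extY extB
    rw [min_eq_left hkM.le, min_eq_left (Nat.succ_le_of_lt hkM), decide_eq_true hkM,
      Bool.and_true]
  change ∑ m ∈ range M, ∏ k ∈ range m, facG B (L k) (G k) (π (y k)) (π (y (k + 1))) (b k) ≤
    ∑ m ∈ range M', ∏ k ∈ range m,
        facG B (L k) (G k) (π (extY M y k)) (π (extY M y (k + 1))) (extB M b k)
  rw [h1]
  refine sum_le_sum_of_subset_of_nonneg (range_mono hM) fun m _ _ => ?_
  exact prod_nonneg fun k _ => extPay_facG_nonneg hB (hL k) (hG k) _ _ _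

end MPacf82c.St
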