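import Pool.Agent.Lib.MP_acf82c_lc.S.SpecC
import Pool.Agent.Lib.MP_acf82c_lc.TwoSided

/-!
# Stability: the assembly
-/

namespace MPacf82c.St

open Set MeasureTheory
open scoped NNReal ENNReal

namespace Final

/-- `NoCentre` is monotone. -/
theorem noCentre_mono {Q : Type} [MetricSpace Q] {N : Network Q} {ℓ g g' : ℝ}
    (h : NoCentre N ℓ g) (hg : g' ≤ g) : NoCentre N ℓ g' := by
  intro p
  refine le_trans (ENNReal.ofReal_le_ofReal ?_) (h p)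
  have : 0 ≤ N.length ^ 2 := sq_nonneg _
  nlinarith

/-- `HiderGuarantees` is monotone. -/
theorem hg_mono {Q : Type} [MetricSpace Q] {w : ℝ≥0} {O : Q} {v v' : ℝ}
    (h : HiderGuarantees w O (ENNReal.ofReal v)) (hv : v' ≤ v) :
    HiderGuarantees w O (ENNReal.ofReal v') := by
  obtain ⟨Ω, m1, P, H, hP, hH1, hH2, hH3⟩ := h
  exact ⟨Ω, m1, P, H, hP, hH1, hH2, fun S hS0 hS =>
    (ENNReal.ofReal_le_ofReal hv).trans (hH3 S hS0 hS)⟩

end Final

open Final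

theorem sFinal (hK : S_Key) (hU : S_Upper) (hN : S_NetG) (hS : S_HStrG) (hh : S_HSmall)
    (hP : S_UpPart) (hC : S_CloverLow) : S_Final := by
  intro c hc g0 hg0
  obtain ⟨g, hg⟩ : ∃ g : ℝ, g = min g0 (1 / 2) := ⟨_, rfl⟩
  have hgpos : 0 < g := by rw [hg]; exact lt_min hg0 (by norm_num)
  have hgle : g ≤ 1 / 2 := by rw [hg]; exact min_le_right _ _
  have hgg0 : g ≤ g0 := by rw [hg]; exact min_le_left _ _
  obtain ⟨η, hη0, hη1, L0, B0, hKey⟩ := hK (g / 256) (by positivity) (by linarith)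
  obtain ⟨ε, hε⟩ : ∃ ε : ℝ, ε = η / 4 := ⟨_, rfl⟩
  have hε0 : 0 < ε := by rw [hε]; positivity
  have hε1 : ε ≤ 1 := by rw [hε]; linarith
  obtain ⟨L1, hL1⟩ := exists_nat_ge (30 / ε)
  obtain ⟨L, hL⟩ : ∃ L : ℕ, L = max L1 L0 := ⟨_, rfl⟩
  have hLL0 : L0 ≤ L := by rw [hL]; exact le_max_right _ _
  have hL30' : 30 / ε ≤ (L : ℝ) := by
    refine hL1.trans ?_
    rw [hL]; exact_mod_cast le_max_left _ _
  have hL30 : (30 : ℝ) ≤ L := by
    refine le_trans ?_ hL30'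
    rw [le_div_iff₀ hε0]; linarith
  have hLpos : (0 : ℝ) < L := by linarith
  obtain ⟨K, hK1, hKup⟩ := hP ε hε0 hε1 L hL30'
  obtain ⟨R1, hR1⟩ := hKey K
  obtain ⟨R2, hR2⟩ := hU K
  obtain ⟨R3, hR3⟩ := exists_nat_ge (3 * (1 + 2 * (((L : ℝ) + 1) * ((K : ℝ) + 1))) / ε)
  obtain ⟨R, hR⟩ : ∃ R : ℕ, R = max (max R1 R2) (max R3 3) := ⟨_, rfl⟩
  have hRR1 : R1 ≤ R := by rw [hR]; exact (le_max_left _ _).trans (le_max_left _ _)
  have hRR2 : R2 ≤ R := by rw [hR]; exact (le_max_right _ _).trans (le_max_left _ _)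
  have hRR3 : R3 ≤ R := by rw [hR]; exact (le_max_left _ _).trans (le_max_right _ _)
  have hR3n : 3 ≤ R := by rw [hR]; exact (le_max_right _ _).trans (le_max_right _ _)
  have hR3r : (3 : ℝ) ≤ R := by exact_mod_cast hR3n
  have hR0 : (0 : ℝ) < R := by linarith
  have hRε : 3 * (1 + 2 * (((L : ℝ) + 1) * ((K : ℝ) + 1))) / ε ≤ R :=
    hR3.trans (by exact_mod_cast hRR3)
  have hLK : (0 : ℝ) < ((L : ℝ) + 1) * ((K : ℝ) + 1) := by positivity
  obtain ⟨γ, hγ⟩ : ∃ γ : ℝ, γ = min (1 / (4 * (R : ℝ)))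
    (ε / (261 * R * (((L : ℝ) + 1) * ((K : ℝ) + 1)))) := ⟨_, rfl⟩
  have hγ0 : 0 < γ := by rw [hγ]; exact lt_min (by positivity) (by positivity)
  have hγR : γ ≤ 1 / (4 * (R : ℝ)) := by rw [hγ]; exact min_le_left _ _
  have hγ2 : γ ≤ ε / (261 * R * (((L : ℝ) + 1) * ((K : ℝ) + 1))) := by
    rw [hγ]; exact min_le_right _ _
  obtain ⟨δ, hδ⟩ : ∃ δ : ℝ, δ = min (γ ^ 4 / 36) (g / 32) := ⟨_, rfl⟩
  have hδ0 : 0 < δ := by rw [hδ]; exact lt_min (by positivity) (by positivity)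
  have hδ1 : δ ≤ γ ^ 4 / 36 := by rw [hδ]; exact min_le_left _ _
  have hδ2 : δ ≤ g / 32 := by rw [hδ]; exact min_le_right _ _
  refine ⟨δ, hδ0, ε, hε0, ?_⟩
  intro Q _ N O hD hNC w hw
  have hμ : 0 < N.length := length_pos N O
  obtain ⟨ha, hha0, hGM⟩ := hN g hgpos hgle R hR3n γ δ hγ0 hγR hδ0 hδ1 hδ2 Q N hD
    (noCentre_mono hNC hgg0) hμ
  obtain ⟨n2, hn2⟩ := hC c hc ε hε0
  obtain ⟨n3, hn3⟩ := exists_nat_ge (2 * (R : ℝ) * (3 + 12 / ε))
  obtain ⟨n4, hn4⟩ := exists_nat_ge (3 * (2 * (Fintype.card N.Arc : ℝ) + 4 * R) / ε)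
  obtain ⟨n1, hn1⟩ : ∃ n1 : ℕ, n1 = max (max n2 n3) (max (max n4 B0) (max R2 2)) := ⟨_, rfl⟩
  have h12 : n2 ≤ n1 := by omega
  have h13 : n3 ≤ n1 := by omega
  have h14 : n4 ≤ n1 := by omega
  have h1B : B0 ≤ n1 := by omega
  have h1R : R2 ≤ n1 := by omega
  have h1t : 2 ≤ n1 := by omega
  obtain ⟨hb, hhb0, hHS⟩ := hh Q N hμ R n1 hR3n
  obtain ⟨h, hhdef⟩ : ∃ h : ℝ, h = min ha hb := ⟨_, rfl⟩
  have hhpos : 0 < h := by rw [hhdef]; exact lt_min hha0 hhb0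
  have hha : h ≤ ha := by rw [hhdef]; exact min_le_left _ _
  have hhb : h ≤ hb := by rw [hhdef]; exact min_le_right _ _
  obtain ⟨n, hn⟩ : ∃ n : ℕ, n = ∑ e, ⌊N.len e / h⌋₊ := ⟨_, rfl⟩
  obtain ⟨B, hB⟩ : ∃ B : ℕ, B = n / R := ⟨_, rfl⟩
  have hgood := hGM h hhpos hha n B hn hB
  obtain ⟨-, hnn1, hBn1, hBR, hBR', hnh, hnh', hnh2, hT1, hT2, hn1h⟩ :=
    hHS h hhpos hhb n B hn hB
  have hB2 : 2 ≤ B := h1t.trans hBn1
  have hB2r : (2 : ℝ) ≤ B := by exact_mod_cast hB2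
  have hB0 : (0 : ℝ) < B := by linarith
  have h2Bn : 2 * B ≤ n := by
    have : B * 3 ≤ B * R := Nat.mul_le_mul_left _ hR3n
    omega
  have hnpos : (0 : ℝ) < n := by
    have : 0 < n := by omega
    exact_mod_cast this
  have hBRr : (B : ℝ) * R ≤ n := by exact_mod_cast hBR
  have hBRr' : (n : ℝ) ≤ (B + 1) * R := by exact_mod_cast hBR'
  have hnB2 : (n : ℝ) ≤ 2 * R * B := by
    have e1 : (1 : ℝ) * R ≤ B * R := mul_le_mul_of_nonneg_right (by linarith) hR0.le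
    linarith
  obtain ⟨M, hM⟩ : ∃ M : ℕ, M = L * R := ⟨_, rfl⟩
  have hMr : (M : ℝ) = L * R := by rw [hM]; push_cast; ring
  have hM0 : 0 < M := by
    have : (0 : ℝ) < M := by rw [hMr]; positivity
    exact_mod_cast this
  have hnMB : n ≤ M * B := by
    have : (n : ℝ) ≤ M * B := by
      rw [hMr]
      have e1 : (2 : ℝ) * (R * B) ≤ L * (R * B) :=
        mul_le_mul_of_nonneg_right (by linarith) (by positivity)
      linarith
    exact_mod_cast this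
  obtain ⟨V, hV1, hVn, hSV, hHV⟩ := block_game n B M K hB2 h2Bn hM0
  have hstat : (n : ℝ) / (2 * B) ≤ V := stationary (by omega) (by omega) hnMB hSV
  have hnbig : 2 * (R : ℝ) * (3 + 12 / ε) ≤ n :=
    hn3.trans (by exact_mod_cast h13.trans hnn1)
  have hup := hKup R n B hR3n hB hnbig V (by rw [← hM]; exact hSV) hstat hVn
  have hBn0 : (0 : ℝ) < (B : ℝ) / n := by positivity
  obtain ⟨x, hx⟩ : ∃ x : ℝ, x = B / n * V := ⟨_, rfl⟩
  rw [← hx] at hup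
  have hx0 : 0 ≤ x := by rw [hx]; positivity
  have hlow : c - ε ≤ x + ε := hn2 n (h12.trans hnn1) (x + ε) (by linarith) hup
  have hVup : V ≤ (1 - 1 / 40) * ((n : ℝ) / B) :=
    hR2 R n B M V hRR2 (h1R.trans hBn1) hBR hBR' hHV
  have hHVG := hR1 R n B M V hRR1 (h1B.trans hBn1) hBR hBR'
    (by rw [hM]; exact Nat.mul_le_mul_right _ hLL0) hstat hVup hHV
  obtain ⟨V', hV'⟩ : ∃ V' : ℝ, V' = V + η * ((n : ℝ) / B) := ⟨_, rfl⟩
  rw [← hV'] at hHVG
  obtain ⟨x', hx'⟩ : ∃ x' : ℝ, x' = B / n * V' := ⟨_, rfl⟩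
  have hx'x : x' = x + η := by
    rw [hx', hV', hx]; field_simp
  have hxle : x ≤ 1 - 1 / 40 := by
    rw [hx]
    calc (B : ℝ) / n * V ≤ B / n * ((1 - 1 / 40) * ((n : ℝ) / B)) := by gcongr
      _ = 1 - 1 / 40 := by field_simp
  have hx'2 : x' ≤ 2 := by rw [hx'x]; linarith
  have hV'1 : 1 ≤ V' := by
    rw [hV']
    have : 0 ≤ η * ((n : ℝ) / B) := by positivity
    linarith
  have hnB : (n : ℝ) / B ≤ 2 * R := by
    rw [div_le_iff₀ hB0]; exact hnB2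
  have hV'4 : V' ≤ 4 * R := by
    have e1 : V' = x' * ((n : ℝ) / B) := by rw [hx']; field_simp
    rw [e1]
    have e2 : 0 ≤ (n : ℝ) / B := by positivity
    calc x' * ((n : ℝ) / B) ≤ 2 * ((n : ℝ) / B) := by gcongr
      _ ≤ 2 * (2 * R) := by gcongr
      _ = 4 * R := by ring
  have herr0 : (0 : ℝ) ≤ 87 * R * γ := by positivity
  have hT0 : 0 < h * ((B : ℝ) - 1) := by
    have : (0 : ℝ) < B - 1 := by linarith
    positivity
  have hst := hS Q n B (M + R) (K + 1) (h * (B - 1)) (87 * R * γ) (g / 256) V' hT0 (by omega)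
    (by omega) herr0 hgood hHVG w hw O
  have hBn : (B : ℝ) / n ≤ 1 / R := by
    rw [div_le_div_iff₀ hnpos hR0]; linarith
  have harith := lower_arith (ε := ε) (μ := N.length) (h := h) (R := R) (L := (L : ℝ) + 1)
    (K := (K : ℝ) + 1) (c := (Fintype.card N.Arc : ℝ)) (n := n) (B := B) (V := V') (x := x')
    (err := 87 * R * γ) hε0 hμ hhpos (by linarith) (by linarith) (by linarith [Nat.cast_nonneg (α := ℝ) K])
    (Nat.cast_nonneg _) hnpos (by linarith) hBn hnh hnh' hx' hx'2 hV'1 hV'4 herr0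
    (by
      rw [div_le_iff₀ hR0]
      rw [div_le_iff₀ hε0] at hRε
      linarith)
    (by
      calc ((L : ℝ) + 1) * ((K : ℝ) + 1) * (87 * R * γ)
          ≤ ((L : ℝ) + 1) * ((K : ℝ) + 1) *
            (87 * R * (ε / (261 * R * (((L : ℝ) + 1) * ((K : ℝ) + 1))))) := by gcongr
        _ = ε / 3 := by field_simp; norm_num)
    (by
      have e1 : 3 * (2 * (Fintype.card N.Arc : ℝ) + 4 * R) / ε ≤ n1 :=
        hn4.trans (by exact_mod_cast h14)
      rw [div_le_iff₀ hε0] at e1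
      have e2 : 3 * (2 * (Fintype.card N.Arc : ℝ) + 4 * R) * h ≤ n1 * ε * h := by gcongr
      have e3 : n1 * ε * h ≤ ε * N.length := by
        calc (n1 : ℝ) * ε * h = ε * (n1 * h) := by ring
          _ ≤ ε * N.length := by gcongr
      linarith)
  refine hg_mono hst ?_
  have e1 : (c + ε) * N.length ≤ (x' - ε) * N.length := by
    have : c + ε ≤ x' - ε := by rw [hx'x]; linarith
    gcongr
  refine e1.trans (harith.trans (le_of_eq ?_))
  push_cast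
  rw [hMr]
  ring

end MPacf82c.St
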