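import Pool.Agent.Lib.MP_acf82c_lc.S.SpecA

/-!
# MP_acf82c_lc, Theorem S: the gain for one plan
-/

set_option autoImplicit false

open Finset

namespace MPacf82c.St

private theorem pavg_sum {n : ℕ} (s : Finset ℕ) (f : ℕ → Equiv.Perm (Fin n) → ℝ) :
    pavg (fun π => ∑ m ∈ s, f m π) = ∑ m ∈ s, pavg (f m) := by
  unfold pavg
  rw [Finset.sum_comm, Finset.sum_div]

private theorem gs_zero {n : ℕ} (γ : ℝ) (B : ℕ) (L : ℕ → Finset (Fin n)) (b : ℕ → Bool)
    (m : ℕ) : gs γ B L b 0 m = 0 := by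
  unfold gs est
  simp

theorem sGainPlan (hE : S_EmuPlan) (hB : S_BonusPlan) (_hP : S_GePay) (hM : S_Mono)
    (hD : S_Dom) (hd : S_Dm) : S_GainPlan := by
  intro n B M K m0 mt m1 _ γ α θ L G y b hn hB0 hBn hγ hθ0 hθ1 hα0 hα1 hθγ h01 h12 h1M hAdm hL
    hG hmt hdom hαn hm0 hKB
  have hn0 : 0 < n := by omega
  have hT : 0 ≤ (K : ℝ) + (n : ℝ) / B := by positivity
  obtain ⟨-, hbase, -, -, -, -⟩ := hM n B L y b hn0 hB0 hL
  have hemu := hE n B M K m0 m1 θ L y b hB0 hBn hθ0 hθ1 (h01.trans h12) h1M hAdm hL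
  have hdm := hd n B M K m0 α θ L y b hn0 hBn hAdm (by omega) hL hθ0 hθ1 hα0 hα1 hαn hm0 hKB
  have hdom' := hD n B m0 mt m1 γ θ ((K : ℝ) + (n : ℝ) / B) L y b hn0 hB0 hL hθ0 hT hθγ h01 h12
    hmt hdom
  -- the payoff with bonus
  have hpay : ∑ m ∈ range (m1 + 1), base B L y b m + ∑ m ∈ range (mt + 1), gs γ B L b m0 m ≤
      pavg (fun π => payoffG B M L G (fun k => π (y k)) b) := by
    have h1 : pavg (fun π => payoffG B M L G (fun k => π (y k)) b) = ∑ m ∈ range M,
        pavg fun π => ∏ k ∈ range m, facG B (L k) (G k) (π (y k)) (π (y (k + 1))) (b k) :=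
      pavg_sum (range M) _
    rw [h1]
    have h2 : ∑ m ∈ range M, (base B L y b m +
        if m ∈ range (mt + 1) then gs γ B L b m0 m else 0) ≤ ∑ m ∈ range M,
        pavg fun π => ∏ k ∈ range m, facG B (L k) (G k) (π (y k)) (π (y (k + 1))) (b k) := by
      refine Finset.sum_le_sum fun m _ => ?_
      split_ifs with h
      · exact hB n B m0 m γ L G y b hn hB0 hγ hL hG
      · have h3 := hB n B 0 m γ L G y b hn hB0 hγ hL hG
        rw [gs_zero] at h3
        exact h3
    refine le_trans ?_ h2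
    rw [Finset.sum_add_distrib, Finset.sum_ite_mem, Finset.inter_eq_right.2 (by
      intro x hx
      rw [Finset.mem_range] at hx ⊢
      omega)]
    refine add_le_add_left ?_ _
    refine Finset.sum_le_sum_of_subset_of_nonneg ?_ fun m _ _ => (hbase m).1
    intro x hx
    rw [Finset.mem_range] at hx ⊢
    omega
  -- the damped sum
  have hdamp : ∑ m ∈ range (m1 + 1), dm B θ m0 L b m * base B L y b m +
      θ * α / 4 * ∑ m ∈ Icc m0 m1, base B L y b m ≤ ∑ m ∈ range (m1 + 1), base B L y b m := by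
    have h1 : ∑ m ∈ Icc m0 m1, base B L y b m = ∑ m ∈ range (m1 + 1),
        (if m ∈ Icc m0 m1 then base B L y b m else 0) := by
      rw [Finset.sum_ite_mem, Finset.inter_eq_right.2 (by
        intro x hx
        rw [Finset.mem_Icc] at hx
        rw [Finset.mem_range]
        omega)]
    rw [h1, Finset.mul_sum, ← Finset.sum_add_distrib]
    refine Finset.sum_le_sum fun m _ => ?_
    have hb0 := (hbase m).1
    split_ifs with h
    · rw [Finset.mem_Icc] at h
      have h2 := mul_le_mul_of_nonneg_right (hdm.1 m h.1) hb0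
      linarith
    · have h2 := mul_le_mul_of_nonneg_right (hdm.2 m).2 hb0
      linarith
  have hsplit : ∑ m ∈ range (m1 + 1),
      (dm B θ m0 L b m * base B L y b m + θ * cs B L y b m0 m + θ ^ 2) =
      ∑ m ∈ range (m1 + 1), dm B θ m0 L b m * base B L y b m +
        ∑ m ∈ range (m1 + 1), θ * cs B L y b m0 m + θ ^ 2 * ((m1 : ℝ) + 1) := by
    rw [Finset.sum_add_distrib, Finset.sum_add_distrib, Finset.sum_const, Finset.card_range,
      nsmul_eq_mul]
    push_cast
    ring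
  rw [hsplit] at hemu
  have e1 : ((K : ℝ) + (n : ℝ) / B) * (base B L y b m1 + θ * cs B L y b m0 m1 + θ ^ 2) =
      ((K : ℝ) + (n : ℝ) / B) * base B L y b m1 +
        ((K : ℝ) + (n : ℝ) / B) * (θ * cs B L y b m0 m1) +
        θ ^ 2 * ((K : ℝ) + (n : ℝ) / B) := by ring
  rw [e1] at hemu
  have e2 : θ ^ 2 * ((m1 : ℝ) + 1 + (K + (n : ℝ) / B)) =
      θ ^ 2 * ((m1 : ℝ) + 1) + θ ^ 2 * ((K : ℝ) + (n : ℝ) / B) := by ring
  rw [e2]
  linarith

end MPacf82c.St
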