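import Pool.Agent.Lib.MP_acf82c_lc.S.SpecA

/-!
# Stability: monotonicity of the payoffs
-/

namespace MPacf82c.St

open Finset

namespace GePay

/-- The base factor is nonnegative. -/
theorem fac_nn {n : ℕ} (B : ℕ) (L : Finset (Fin n)) (y : Fin n) (b : Bool) :
    0 ≤ fac B L y b := by
  unfold fac
  split_ifs <;> positivity

/-- The base factor is at most the factor with bonus. -/
theorem fac_le {n B : ℕ} {γ : ℝ} {L : Finset (Fin n)} {G : Fin n → Fin n → ℝ} (hB : 0 < B)
    (hL : L.card ≤ B) (hG : IsBonus γ G) (y y' : Fin n) (b : Bool) :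
    fac B L y b ≤ facG B L G y y' b := by
  have hB' : (0 : ℝ) < B := by exact_mod_cast hB
  have h1 : (L.card : ℝ) / B ≤ 1 := by
    rw [div_le_one hB']
    exact_mod_cast hL
  have h2 : 0 ≤ (1 - (L.card : ℝ) / B) * G y y' :=
    mul_nonneg (sub_nonneg.2 h1) (hG.nonneg y y')
  unfold fac facG
  split_ifs
  · linarith
  · exact le_refl _
  · exact le_refl _

end GePay

open GePay in
theorem sGePay : S_GePay := by
  intro n B M γ L G y b hB hL hG
  have h0 : ∀ k, 0 ≤ fac B (L k) (y k) (b k) := fun k => fac_nn _ _ _ _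
  have h1 : ∀ k, fac B (L k) (y k) (b k) ≤ facG B (L k) (G k) (y k) (y (k + 1)) (b k) :=
    fun k => fac_le hB (hL k) (hG k) _ _ _
  have h2 : ∀ k, 0 ≤ facG B (L k) (G k) (y k) (y (k + 1)) (b k) :=
    fun k => (h0 k).trans (h1 k)
  refine ⟨?_, ?_, fun M' hM => ?_⟩
  · unfold payoff payoffG surv
    exact Finset.sum_le_sum fun m _ => Finset.prod_le_prod (fun k _ => h0 k) fun k _ => h1 k
  · unfold payoff surv
    exact Finset.sum_nonneg fun m _ => Finset.prod_nonneg fun k _ => h0 k
  · unfold payoffG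
    exact Finset.sum_le_sum_of_subset_of_nonneg (Finset.range_subset_range.2 hM)
      fun m _ _ => Finset.prod_nonneg fun k _ => h2 k

end MPacf82c.St
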