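import Pool.Agent.Lib.MP_acf82c_lc.S.SpecA

/-!
# MP_acf82c_lc, Theorem S: geometric sum with `K` free rounds
-/

set_option autoImplicit false

open Finset

namespace MPacf82c.St

private theorem card_shift (M : ℕ) (b : ℕ → Bool) :
    ((range (M + 1)).filter fun k => b k = true).card =
      ((range M).filter fun k => b (k + 1) = true).card + if b 0 = true then 1 else 0 := by
  rw [Finset.card_filter, Finset.card_filter, Finset.sum_range_succ']

theorem sGeo : S_Geo := by
  intro M
  induction M with
  | zero =>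
    intro K b ρ hρ _ _
    simp only [Finset.range_zero, Finset.sum_empty]
    positivity
  | succ M ih =>
    intro K b ρ hρ hρ1 hK
    rw [card_shift] at hK
    rw [Finset.sum_range_succ', Finset.prod_range_zero]
    have h1 : ∀ m, ∏ k ∈ range (m + 1), (if b k then (1 : ℝ) else 1 - ρ) =
        (∏ k ∈ range m, (if b (k + 1) then (1 : ℝ) else 1 - ρ)) *
          (if b 0 then (1 : ℝ) else 1 - ρ) := fun m => Finset.prod_range_succ' _ _
    rw [Finset.sum_congr rfl fun m _ => h1 m, ← Finset.sum_mul]
    by_cases hb : b 0 = true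
    · rw [if_pos hb] at hK ⊢
      obtain ⟨K, rfl⟩ : ∃ K', K = K' + 1 := ⟨K - 1, by omega⟩
      have h2 := ih K (fun k => b (k + 1)) ρ hρ hρ1 (by omega)
      push_cast
      linarith
    · rw [if_neg hb] at hK ⊢
      have h2 := ih K (fun k => b (k + 1)) ρ hρ hρ1 (by omega)
      have h3 : (∑ m ∈ range M, ∏ k ∈ range m, (if b (k + 1) then (1 : ℝ) else 1 - ρ)) *
          (1 - ρ) ≤ (K + 1 / ρ) * (1 - ρ) := mul_le_mul_of_nonneg_right h2 (by linarith)
      have h4 : ((K : ℝ) + 1 / ρ) * (1 - ρ) = K + 1 / ρ - K * ρ - 1 := by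
        field_simp
        ring
      have h5 : 0 ≤ (K : ℝ) * ρ := by positivity
      linarith

end MPacf82c.St
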