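import Pool.Agent.Lib.MP_acf82c_lc.S.SpecC

/-!
# MP_acf82c_lc, stability, module GeoSides: two nodes on a geodesic trip
-/

set_option autoImplicit false

namespace MPacf82c.St

open Set MeasureTheory
open scoped NNReal ENNReal

private theorem GeoSides_cost {Q : Type} [MetricSpace Q] (N : Network Q) (e : N.Arc) (s : ℝ)
    (o : Bool) (hs : s ∈ Ioo 0 (N.len e)) : dist (N.pt e s) (en N e o) ≤ cost N e s o := by
  have hs' : s ∈ Icc 0 (N.len e) := ⟨hs.1.le, hs.2.le⟩
  cases o with
  | true =>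
    have h := N.dist_le e s hs' (N.len e) ⟨(N.len_pos e).le, le_rfl⟩
    simp only [en, hd, cost, if_true]
    rw [abs_sub_comm, abs_of_pos (by linarith [hs.2])] at h
    exact h
  | false =>
    have h := N.dist_le e s hs' 0 ⟨le_rfl, (N.len_pos e).le⟩
    simp only [en, tl, cost, Bool.false_eq_true, if_false]
    rw [sub_zero, abs_of_pos hs.1] at h
    exact h

private theorem GeoSides_append {Q : Type} [MetricSpace Q] (N : Network Q)
    (l₁ l₂ : List (N.Arc × Bool)) : clen N (l₁ ++ l₂) = clen N l₁ + clen N l₂ := by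
  simp [clen]

private theorem GeoSides_core (hD : S_ChainDist) {Q : Type} [MetricSpace Q] (N : Network Q)
    (x x' a b u v : Q) (l₁ l₂ l₃ : List (N.Arc × Bool)) (c c' : ℝ)
    (h1 : Chain (tl N) (hd N) a u l₁) (h2 : Chain (tl N) (hd N) u v l₂)
    (h3 : Chain (tl N) (hd N) v b l₃) (hc : dist x a ≤ c) (hc' : dist x' b ≤ c')
    (hs : c + (clen N l₁ + (clen N l₂ + clen N l₃)) + c' = dist x x') (huv : u ≠ v) :
    dist x u < dist x v ∧ dist x' v < dist x' u := by
  have e1 := hD Q N a u l₁ h1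
  have e2 := hD Q N u v l₂ h2
  have e3 := hD Q N v b l₃ h3
  have p2 : 0 < dist u v := dist_pos.2 huv
  have t1 : dist x u ≤ dist x a + dist a u := dist_triangle _ _ _
  have t2 : dist x' v ≤ dist x' b + dist b v := dist_triangle _ _ _
  have t3 : dist x x' ≤ dist x v + dist v x' := dist_triangle _ _ _
  have t4 : dist x x' ≤ dist x u + dist u x' := dist_triangle _ _ _
  rw [dist_comm b v] at t2
  rw [dist_comm v x'] at t3
  rw [dist_comm u x'] at t4
  constructor <;> linarith

theorem sGeoSides (hS : S_ChainSplit) (hD : S_ChainDist) : S_GeoSides := by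
  intro Q _ N e e' s s' o o' l hs hs' hsp p hp p' hp' hne
  have c1 := GeoSides_cost N e s o hs
  have c2 := GeoSides_cost N e' s' o' hs'
  obtain ⟨l₁, l₂, hl, k1, k2, hmem, -⟩ := hS Q N _ _ p l hsp.chain hp
  rcases (hmem p').1 hp' with h | h
  · obtain ⟨m₁, m₂, hm, j1, j2, -, -⟩ := hS Q N _ _ p' l₁ k1 h
    right
    have hd := hsp.dur
    rw [hl, hm, GeoSides_append, GeoSides_append] at hd
    exact GeoSides_core hD N _ _ _ _ p' p m₁ m₂ l₂ _ _ j1 j2 k2 c1 c2 (by linarith) hne.symm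
  · obtain ⟨m₁, m₂, hm, j1, j2, -, -⟩ := hS Q N _ _ p' l₂ k2 h
    left
    have hd := hsp.dur
    rw [hl, hm, GeoSides_append, GeoSides_append] at hd
    exact GeoSides_core hD N _ _ _ _ p p' l₁ m₁ m₂ _ _ k1 j1 j2 c1 c2 (by linarith) hne

end MPacf82c.St
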