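import Pool.Agent.Lib.MP_acf82c_lc.S.SpecC
import Pool.Agent.Lib.MP_acf82c_lc.Arith

/-!
# Stability: small spacing
-/

namespace MPacf82c.St

open Set MeasureTheory

theorem sHSmall : S_HSmall := by
  intro Q _ N hμ R n1 hR
  have hne : Nonempty N.Arc := by
    by_contra h
    rw [not_nonempty_iff] at h
    have : N.length = 0 := by
      unfold Network.length
      simp
    linarith
  obtain ⟨e0, -, he0⟩ := Finset.exists_min_image (Finset.univ : Finset N.Arc) N.len
    ⟨hne.some, Finset.mem_univ _⟩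
  have hc0 : 0 < Fintype.card N.Arc := Fintype.card_pos
  obtain ⟨c, hc⟩ : ∃ c : ℝ, c = (Fintype.card N.Arc : ℝ) := ⟨_, rfl⟩
  have hcpos : 0 < c := by rw [hc]; exact_mod_cast hc0
  have hRr : (3 : ℝ) ≤ R := by exact_mod_cast hR
  have hn1r : (0 : ℝ) ≤ n1 := Nat.cast_nonneg _
  obtain ⟨n2, hn2⟩ : ∃ n2 : ℕ, n2 = (n1 + 3) * (R + 1) := ⟨_, rfl⟩
  have hn2r : (n2 : ℝ) = (n1 + 3) * (R + 1) := by rw [hn2]; push_cast; ring
  have hn2pos : (0 : ℝ) < n2 := by rw [hn2r]; positivity
  refine ⟨min (N.len e0) (min (N.length / (n2 + c)) (min (N.length / (2 * (c + 2 * R)))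
    (N.length / (n1 + 1)))), ?_, ?_⟩
  · refine lt_min (N.len_pos e0) (lt_min (by positivity) (lt_min (by positivity) (by positivity)))
  intro h hh hle n B hn hB
  have hl1 : h ≤ N.len e0 := hle.trans (min_le_left _ _)
  have hl2 : h ≤ N.length / (n2 + c) := hle.trans ((min_le_right _ _).trans (min_le_left _ _))
  have hl3 : h ≤ N.length / (2 * (c + 2 * R)) :=
    hle.trans ((min_le_right _ _).trans ((min_le_right _ _).trans (min_le_left _ _)))
  have hl4 : h ≤ N.length / (n1 + 1) :=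
    hle.trans ((min_le_right _ _).trans ((min_le_right _ _).trans (min_le_right _ _)))
  rw [le_div_iff₀ (by positivity)] at hl2 hl3 hl4
  obtain ⟨hc1, hc2⟩ := samples_count N hh
  rw [← hn] at hc1 hc2
  rw [← hc] at hc2
  have hR0 : 0 < R := by omega
  have hnn2r : (n2 : ℝ) ≤ n := by
    by_contra hcon
    push Not at hcon
    nlinarith
  have hnn2 : n2 ≤ n := by exact_mod_cast hnn2r
  have hBR : B * R ≤ n := by rw [hB]; exact Nat.div_mul_le_self _ _
  have hBR' : n ≤ (B + 1) * R := by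
    rw [hB]; have := Nat.lt_div_mul_add (a := n) hR0; nlinarith
  have hBRr : (B : ℝ) * R ≤ n := by exact_mod_cast hBR
  have hBRr' : (n : ℝ) ≤ (B + 1) * R := by exact_mod_cast hBR'
  have hBn1 : n1 ≤ B := by
    rw [hB, Nat.le_div_iff_mul_le hR0]
    calc n1 * R ≤ (n1 + 3) * (R + 1) := Nat.mul_le_mul (by omega) (by omega)
      _ = n2 := hn2.symm
      _ ≤ n := hnn2
  have hn1n : n1 ≤ n := by
    calc n1 ≤ B := hBn1
      _ ≤ n := by rw [hB]; exact Nat.div_le_self _ _
  refine ⟨fun e => hl1.trans (he0 e (Finset.mem_univ _)), hn1n, hBn1, hBR, hBR', hc1, ?_, ?_, ?_,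
    ?_, ?_⟩
  · rw [← hc]; exact hc2
  · nlinarith
  · rw [div_le_iff₀ (by positivity)]
    have h1 : h * (n : ℝ) ≤ h * ((B + 1) * R) := mul_le_mul_of_nonneg_left hBRr' hh.le
    nlinarith
  · rw [le_div_iff₀ (by positivity)]
    have h1 : h * ((B : ℝ) * R) ≤ h * n := mul_le_mul_of_nonneg_left hBRr hh.le
    nlinarith
  · nlinarith

end MPacf82c.St
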