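import Pool.Agent.Lib.MP_acf82c_lc.S.SpecC
import Pool.Agent.Lib.MP_acf82c_lc.GoodMoves
import Pool.Agent.Lib.MP_acf82c_lc.BlocksLower
import Pool.Agent.Lib.MP_acf82c_lc.HiderMix
import Pool.Agent.Lib.MP_acf82c_lc.PermAvg
import Pool.Agent.Lib.MP_acf82c_lc.ProdIneq

/-!
# The hider plays the block game with a bonus (S_HStrG)

Adapted from `hider_strategy`: mixture over `(i, π) ∈ ι × Perm (Fin n)` with weights `q i / n!`,
labels `π (y_i k)`, blocks from `blocks_lower`. With
`f k = facG B (L k) (G k) (π (y k)) (π (y (k + 1))) (b k)` and `s k = 1 - P{caught in block k}`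
one has `f k - s k ≤ hgErr`; then `prod_sub_le` and the average over `π` as there.
-/

namespace MPacf82c.St

open Set MeasureTheory
open scoped NNReal ENNReal

variable {Q : Type} [MetricSpace Q]

/-- `facG` is nonnegative. -/
private theorem hg_fac_nonneg {n : ℕ} {B : ℕ} (hB : 0 < B) {L : Finset (Fin n)}
    (hL : L.card ≤ B) {G : Fin n → Fin n → ℝ} (hG0 : ∀ p q, 0 ≤ G p q) (y y' : Fin n)
    (b : Bool) : 0 ≤ facG B L G y y' b := by
  have hB' : (0 : ℝ) < B := by exact_mod_cast hB
  have hc1 : (L.card : ℝ) / B ≤ 1 := by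
    rw [div_le_one hB']
    exact_mod_cast hL
  have hc0 : 0 ≤ (L.card : ℝ) / B := by positivity
  have hg := mul_nonneg (sub_nonneg.mpr hc1) (hG0 y y')
  unfold facG
  split_ifs
  · linarith
  · norm_num
  · norm_num

/-- `facG` is at most one. -/
private theorem hg_fac_le_one {n : ℕ} {B : ℕ} (hB : 0 < B) {L : Finset (Fin n)}
    (hL : L.card ≤ B) {G : Fin n → Fin n → ℝ} (hG1 : ∀ p q, G p q ≤ 1) (y y' : Fin n)
    (b : Bool) : facG B L G y y' b ≤ 1 := by
  have hB' : (0 : ℝ) < B := by exact_mod_cast hB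
  have hc1 : (L.card : ℝ) / B ≤ 1 := by
    rw [div_le_one hB']
    exact_mod_cast hL
  have hg := mul_le_mul_of_nonneg_left (hG1 y y') (sub_nonneg.mpr hc1)
  unfold facG
  split_ifs
  · linarith
  · norm_num
  · norm_num

/-- The error in block `k`. -/
private noncomputable def hgErr {n : ℕ} (L : Finset (Fin n)) (z : Fin n → Fin n → ℝ)
    (y y' : Fin n) (b : Bool) : ℝ :=
  if b then
    (if y = y' then (if y ∈ L then 1 else 0) else
      z y y' + (if y ∈ L then 1 else 0) + (if y' ∈ L then 1 else 0))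
  else 0

private theorem hgErr_nonneg {n : ℕ} (L : Finset (Fin n)) (z : Fin n → Fin n → ℝ)
    (hz : ∀ i j, 0 ≤ z i j) (y y' : Fin n) (b : Bool) : 0 ≤ hgErr L z y y' b := by
  unfold hgErr
  have := hz y y'
  split_ifs <;> linarith

/-- Lower bound of the payoff with shifted survival probabilities. -/
private theorem hg_payoff {n : ℕ} {B M : ℕ} (hB : 0 < B) (L : ℕ → Finset (Fin n))
    (hL : ∀ k, (L k).card ≤ B) (G : ℕ → Fin n → Fin n → ℝ) (hG0 : ∀ k p q, 0 ≤ G k p q)
    (hG1 : ∀ k p q, G k p q ≤ 1) (y : ℕ → Fin n) (b : ℕ → Bool) (s e : ℕ → ℝ)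
    (hs : ∀ k < M, 0 ≤ s k) (he : ∀ k, 0 ≤ e k)
    (hfs : ∀ k < M, facG B (L k) (G k) (y k) (y (k + 1)) (b k) - s k ≤ e k) :
    payoffG B M L G y b - 1 - M * ∑ k ∈ Finset.range M, e k ≤
      ∑ m ∈ Finset.range M, ∏ k ∈ Finset.range (m + 1), s k := by
  have hf0 : ∀ k, 0 ≤ facG B (L k) (G k) (y k) (y (k + 1)) (b k) :=
    fun k => hg_fac_nonneg hB (hL k) (hG0 k) _ _ _
  have h1 : ∀ m ∈ Finset.range M,
      ∏ k ∈ Finset.range (m + 1), facG B (L k) (G k) (y k) (y (k + 1)) (b k) -
        ∑ k ∈ Finset.range M, e k ≤ ∏ k ∈ Finset.range (m + 1), s k := by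
    intro m hm
    rw [Finset.mem_range] at hm
    have h2 := prod_sub_le (m + 1) (fun k => facG B (L k) (G k) (y k) (y (k + 1)) (b k)) s e
      (fun k _ => hf0 k) (fun k _ => hg_fac_le_one hB (hL k) (hG1 k) _ _ _)
      (fun k hk => hs k (by omega)) (fun k _ => he k) (fun k hk => hfs k (by omega))
    have h3 : ∑ k ∈ Finset.range (m + 1), e k ≤ ∑ k ∈ Finset.range M, e k :=
      Finset.sum_le_sum_of_subset_of_nonneg (Finset.range_subset_range.mpr (by omega))
        (fun k _ _ => he k)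
    linarith
  have h4 := Finset.sum_le_sum h1
  rw [Finset.sum_sub_distrib, Finset.sum_const, Finset.card_range, nsmul_eq_mul] at h4
  have h5 : payoffG B M L G y b - 1 ≤ ∑ m ∈ Finset.range M,
      ∏ k ∈ Finset.range (m + 1), facG B (L k) (G k) (y k) (y (k + 1)) (b k) := by
    have h6 := Finset.sum_range_succ' (fun m =>
      ∏ k ∈ Finset.range m, facG B (L k) (G k) (y k) (y (k + 1)) (b k)) M
    have h7 := Finset.sum_range_succ (fun m =>
      ∏ k ∈ Finset.range m, facG B (L k) (G k) (y k) (y (k + 1)) (b k)) M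
    have h9 : 0 ≤ ∏ k ∈ Finset.range M, facG B (L k) (G k) (y k) (y (k + 1)) (b k) :=
      Finset.prod_nonneg (fun k _ => hf0 k)
    rw [Finset.prod_range_zero] at h6
    unfold payoffG
    linarith
  linarith

/-- Average of the error of one block over all relabellings. -/
private theorem hg_avg_err {n B : ℕ} {err : ℝ} (hB : 0 < B) (hn : 2 ≤ n) (herr : 0 ≤ err)
    (L : Finset (Fin n)) (hL : L.card ≤ B) (z : Fin n → Fin n → ℝ)
    (hz : ∑ i, ∑ j ∈ Finset.univ.filter (fun j => j ≠ i), z i j ≤ (n * (n - 1) : ℝ) * err)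
    (y y' : Fin n) (b : Bool) :
    ∑ π : Equiv.Perm (Fin n), hgErr L z (π y) (π y') b ≤
      (n.factorial : ℝ) * (if b then (err + 2 * B / n) else 0) := by
  have hn0 : (0 : ℝ) < n := by
    have : 0 < n := by omega
    exact_mod_cast this
  have hn1 : (0 : ℝ) < (n : ℝ) - 1 := by
    have : (2 : ℝ) ≤ n := by exact_mod_cast hn
    linarith
  have hf0 : (0 : ℝ) < n.factorial := by exact_mod_cast Nat.factorial_pos n
  have hB0 : (0 : ℝ) < B := by exact_mod_cast hB
  have hLB : (L.card : ℝ) ≤ B := by exact_mod_cast hL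
  have hcard : ∀ i : Fin n, ∑ π : Equiv.Perm (Fin n), (if π i ∈ L then (1 : ℝ) else 0) ≤
      (n.factorial : ℝ) * (B / n) := by
    intro i
    rw [avg_single (fun a => if a ∈ L then (1 : ℝ) else 0) i, Finset.sum_ite_mem,
      Finset.univ_inter, Finset.sum_const, nsmul_eq_mul, mul_one, div_mul_eq_mul_div,
      mul_div_assoc]
    exact mul_le_mul_of_nonneg_left (div_le_div_of_nonneg_right hLB hn0.le) hf0.le
  cases b with
  | false => simp [hgErr]
  | true =>
    simp only [if_true]
    by_cases hyy : y = y'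
    · have h1 : ∀ π : Equiv.Perm (Fin n), hgErr L z (π y) (π y') true =
          if π y ∈ L then (1 : ℝ) else 0 := by
        intro π
        simp [hgErr, hyy]
      rw [Finset.sum_congr rfl (fun π _ => h1 π)]
      refine (hcard y).trans (mul_le_mul_of_nonneg_left ?_ hf0.le)
      have h2 : (B : ℝ) / n ≤ 2 * B / n := by
        apply div_le_div_of_nonneg_right _ hn0.le
        linarith
      linarith
    · have h1 : ∀ π : Equiv.Perm (Fin n), hgErr L z (π y) (π y') true =
          z (π y) (π y') + (if π y ∈ L then (1 : ℝ) else 0) +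
            (if π y' ∈ L then (1 : ℝ) else 0) := by
        intro π
        have h2 : π y ≠ π y' := fun h => hyy (π.injective h)
        simp [hgErr, h2]
      rw [Finset.sum_congr rfl (fun π _ => h1 π), Finset.sum_add_distrib,
        Finset.sum_add_distrib, avg_pair z hyy]
      have h3 : (n.factorial : ℝ) / (n * (n - 1)) *
          ∑ a, ∑ c ∈ Finset.univ.filter (fun c => c ≠ a), z a c ≤ (n.factorial : ℝ) * err := by
        have h4 : (0 : ℝ) < n * (n - 1) := mul_pos hn0 hn1
        calc (n.factorial : ℝ) / (n * (n - 1)) *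
              ∑ a, ∑ c ∈ Finset.univ.filter (fun c => c ≠ a), z a c
            ≤ (n.factorial : ℝ) / (n * (n - 1)) * ((n * (n - 1) : ℝ) * err) :=
              mul_le_mul_of_nonneg_left hz (div_nonneg hf0.le h4.le)
          _ = (n.factorial : ℝ) * err := by
              field_simp
      have h5 := hcard y
      have h6 := hcard y'
      have h7 : (n.factorial : ℝ) * (err + 2 * B / n) =
          (n.factorial : ℝ) * err + (n.factorial : ℝ) * (B / n) +
            (n.factorial : ℝ) * (B / n) := by ring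
      rw [h7]
      linarith

theorem sHStrG : S_HStrG := by
  intro Q _ n B M K T0 err γ V hT0 hB hn herr hG hV w hw O
  classical
  obtain ⟨x, P, mv, hP, hlip, h0, h1, hmeas, hstay, hgood⟩ := hG
  obtain ⟨ι, _, q, y, b, hq, hq1, hadm, hval⟩ := hV
  have hf0 : (0 : ℝ) < n.factorial := by exact_mod_cast Nat.factorial_pos n
  have hcardperm : (Fintype.card (Equiv.Perm (Fin n)) : ℝ) = n.factorial := by
    rw [Fintype.card_perm, Fintype.card_fin]
  -- the blocks
  have hblocks : ∀ j : ι × Equiv.Perm (Fin n), ∃ H : (Fin M → ℕ × ℝ) → ℝ≥0 → Q,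
      (∀ ω, LipschitzWith 1 (H ω)) ∧
      (∀ t, @Measurable (Fin M → ℕ × ℝ) Q _ (borel Q) fun ω => H ω t) ∧
      ∀ S : ℝ≥0 → Q, LipschitzWith 1 S →
        ENNReal.ofReal (T0 * ∑ m ∈ Finset.range M, ∏ k ∈ Finset.range (m + 1),
          (1 - (P (j.2 (y j.1 k)) (j.2 (y j.1 (k + 1))) {ω | ∃ t ∈ Icc (k * T0) (k * T0 + T0),
            S (Real.toNNReal t) =
              mv (j.2 (y j.1 k)) (j.2 (y j.1 (k + 1))) ω (t - k * T0)}).toReal)) ≤
        ∫⁻ ω, captureTime S (H ω)
          ∂(Measure.pi fun k : Fin M => P (j.2 (y j.1 k)) (j.2 (y j.1 (k + 1)))) := by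
    intro j
    exact blocks_lower hT0 M (fun k => x (j.2 (y j.1 k)))
      (fun k => P (j.2 (y j.1 k)) (j.2 (y j.1 (k + 1)))) (fun k => hP _ _)
      (fun k => mv (j.2 (y j.1 k)) (j.2 (y j.1 (k + 1)))) (fun k ω => hlip _ _ ω)
      (fun k ω t ht => h0 _ _ ω t ht) (fun k ω t ht => h1 _ _ ω t ht)
      (fun k t => hmeas _ _ t)
  choose H hHlip hHmeas hHcap using hblocks
  have hwt1 : ∑ j : ι × Equiv.Perm (Fin n), q j.1 / n.factorial = 1 := by
    rw [Fintype.sum_prod_type]
    simp only [Finset.sum_const, Finset.card_univ, nsmul_eq_mul]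
    rw [← Finset.mul_sum, ← Finset.sum_div, hq1, hcardperm]
    field_simp
  have hwt0 : ∀ j : ι × Equiv.Perm (Fin n), 0 ≤ q j.1 / n.factorial :=
    fun j => div_nonneg (hq j.1) hf0.le
  refine mix_guarantee (q := fun j : ι × Equiv.Perm (Fin n) => q j.1 / n.factorial) hwt0 hwt1
    (fun j => Measure.pi fun k : Fin M => P (j.2 (y j.1 k)) (j.2 (y j.1 (k + 1))))
    (fun j => by
      have : ∀ k : Fin M, IsProbabilityMeasure (P (j.2 (y j.1 k)) (j.2 (y j.1 (k + 1)))) :=
        fun k => hP _ _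
      infer_instance) H (fun j ω => (hHlip j ω).weaken hw) hHmeas ?_
  intro S _ hS
  -- the searcher
  set S' : ℝ → Q := fun t => S (Real.toNNReal t) with hS'
  have hS'lip : LipschitzWith 1 S' := by
    have h2 : LipschitzWith 1 Real.toNNReal := lipschitzWith_posPart
    have h3 := hS.comp h2
    rwa [one_mul] at h3
  have hsearch : ∀ k : ℕ, ∃ L : Finset (Fin n), L.card ≤ B ∧
      (∀ i, i ∈ L ↔ ∃ t ∈ Icc (k * T0) (k * T0 + T0), S' t = x i) ∧
      ∃ z G : Fin n → Fin n → ℝ, (∀ i j, 0 ≤ z i j) ∧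
        ∑ i, ∑ j ∈ Finset.univ.filter (fun j => j ≠ i), z i j ≤ (n * (n - 1) : ℝ) * err ∧
        IsBonus γ G ∧
        ∀ i j, i ≠ j →
          (P i j {ω | ∃ t ∈ Icc (k * T0) (k * T0 + T0), S' t = mv i j ω (t - k * T0)}).toReal ≤
            (1 - G i j) * (1 - (L.card : ℝ) / B) + z i j + (if i ∈ L then 1 else 0) +
              (if j ∈ L then 1 else 0) := fun k => hgood S' hS'lip (k * T0)
  choose L hLcard hLmem z G hz0 hzsum hGb hzP using hsearch
  set s : ι × Equiv.Perm (Fin n) → ℕ → ℝ := fun j k =>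
    1 - (P (j.2 (y j.1 k)) (j.2 (y j.1 (k + 1))) {ω | ∃ t ∈ Icc (k * T0) (k * T0 + T0),
      S (Real.toNNReal t) =
        mv (j.2 (y j.1 k)) (j.2 (y j.1 (k + 1))) ω (t - k * T0)}).toReal with hs
  have hs0 : ∀ j k, 0 ≤ s j k := by
    intro j k
    have := hP (j.2 (y j.1 k)) (j.2 (y j.1 (k + 1)))
    have h2 : (P (j.2 (y j.1 k)) (j.2 (y j.1 (k + 1))) {ω | ∃ t ∈ Icc (k * T0) (k * T0 + T0),
      S (Real.toNNReal t) =
        mv (j.2 (y j.1 k)) (j.2 (y j.1 (k + 1))) ω (t - k * T0)}).toReal ≤ 1 := by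
      have h3 := @measureReal_le_one _ _ (P (j.2 (y j.1 k)) (j.2 (y j.1 (k + 1)))) _
        {ω | ∃ t ∈ Icc (k * T0) (k * T0 + T0), S (Real.toNNReal t) =
          mv (j.2 (y j.1 k)) (j.2 (y j.1 (k + 1))) ω (t - k * T0)}
      exact h3
    simp only [hs]
    linarith
  have hstep : ∀ (j : ι × Equiv.Perm (Fin n)) (k : ℕ), k < M →
      facG B (L k) (G k) (j.2 (y j.1 k)) (j.2 (y j.1 (k + 1))) (b j.1 k) - s j k ≤
        hgErr (L k) (z k) (j.2 (y j.1 k)) (j.2 (y j.1 (k + 1))) (b j.1 k) := by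
    intro j k hk
    have := hP (j.2 (y j.1 k)) (j.2 (y j.1 (k + 1)))
    -- the hider stays
    have hstayP : y j.1 k = y j.1 (k + 1) →
        (j.2 (y j.1 k) ∉ L k → s j k = 1) := by
      intro hyy hnot
      have h3 : {ω : ℕ × ℝ | ∃ t ∈ Icc (k * T0) (k * T0 + T0), S (Real.toNNReal t) =
          mv (j.2 (y j.1 k)) (j.2 (y j.1 (k + 1))) ω (t - k * T0)} = ∅ := by
        ext ω
        simp only [Set.mem_ofPred_eq, Set.mem_empty_iff_false, iff_false]
        rintro ⟨t, ht, hSt⟩
        rw [← hyy, hstay] at hSt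
        exact hnot ((hLmem k _).mpr ⟨t, ht, hSt⟩)
      simp only [hs]
      rw [h3]
      simp
    cases hb : b j.1 k with
    | false =>
      have hyy := (hadm j.1).1 k hk hb
      by_cases hmem : j.2 (y j.1 k) ∈ L k
      · have h4 : facG B (L k) (G k) (j.2 (y j.1 k)) (j.2 (y j.1 (k + 1))) false = 0 := by
          simp [facG, hmem]
        have h5 : hgErr (L k) (z k) (j.2 (y j.1 k)) (j.2 (y j.1 (k + 1))) false = 0 := by
          simp [hgErr]
        rw [h4, h5]
        linarith [hs0 j k]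
      · have h4 : facG B (L k) (G k) (j.2 (y j.1 k)) (j.2 (y j.1 (k + 1))) false = 1 := by
          simp [facG, hmem]
        have h5 : hgErr (L k) (z k) (j.2 (y j.1 k)) (j.2 (y j.1 (k + 1))) false = 0 := by
          simp [hgErr]
        rw [h4, h5, hstayP hyy hmem]
        norm_num
    | true =>
      have hfac1 : facG B (L k) (G k) (j.2 (y j.1 k)) (j.2 (y j.1 (k + 1))) true ≤ 1 :=
        hg_fac_le_one hB (hLcard k) (hGb k).le_one _ _ _
      by_cases hyy : y j.1 k = y j.1 (k + 1)
      · by_cases hmem : j.2 (y j.1 k) ∈ L k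
        · have h5 : hgErr (L k) (z k) (j.2 (y j.1 k)) (j.2 (y j.1 (k + 1))) true = 1 := by
            simp [hgErr, ← hyy, hmem]
          rw [h5]
          linarith [hs0 j k]
        · have h5 : hgErr (L k) (z k) (j.2 (y j.1 k)) (j.2 (y j.1 (k + 1))) true = 0 := by
            simp [hgErr, ← hyy, hmem]
          rw [h5, hstayP hyy hmem]
          linarith
      · have hne : j.2 (y j.1 k) ≠ j.2 (y j.1 (k + 1)) := fun h => hyy (j.2.injective h)
        have h5 : hgErr (L k) (z k) (j.2 (y j.1 k)) (j.2 (y j.1 (k + 1))) true =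
            z k (j.2 (y j.1 k)) (j.2 (y j.1 (k + 1))) +
              (if j.2 (y j.1 k) ∈ L k then 1 else 0) +
              (if j.2 (y j.1 (k + 1)) ∈ L k then 1 else 0) := by
          simp [hgErr, hne]
        have h6 : facG B (L k) (G k) (j.2 (y j.1 k)) (j.2 (y j.1 (k + 1))) true =
            ((L k).card : ℝ) / B + (1 - ((L k).card : ℝ) / B) *
              G k (j.2 (y j.1 k)) (j.2 (y j.1 (k + 1))) := by simp [facG]
        have h7 := hzP k _ _ hne
        rw [h5, h6]
        simp only [hs]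
        simp only [hS'] at h7
        linarith
  -- the lower bound for one pair
  have hpair : ∀ j : ι × Equiv.Perm (Fin n),
      payoffG B M L G (fun k => j.2 (y j.1 k)) (b j.1) - 1 - M * ∑ k ∈ Finset.range M,
        hgErr (L k) (z k) (j.2 (y j.1 k)) (j.2 (y j.1 (k + 1))) (b j.1 k) ≤
      ∑ m ∈ Finset.range M, ∏ k ∈ Finset.range (m + 1), s j k := by
    intro j
    exact hg_payoff hB L hLcard G (fun k => (hGb k).nonneg) (fun k => (hGb k).le_one)
      (fun k => j.2 (y j.1 k)) (b j.1) (s j)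
      (fun k => hgErr (L k) (z k) (j.2 (y j.1 k)) (j.2 (y j.1 (k + 1))) (b j.1 k))
      (fun k _ => hs0 j k) (fun k => hgErr_nonneg _ _ (hz0 k) _ _ _) (fun k hk => hstep j k hk)
  -- average of the payoffs
  have havg1 : V ≤ ∑ j : ι × Equiv.Perm (Fin n),
      q j.1 / n.factorial * payoffG B M L G (fun k => j.2 (y j.1 k)) (b j.1) := by
    rw [Fintype.sum_prod_type]
    refine (hval L G hLcard hGb).trans (le_of_eq (Finset.sum_congr rfl fun i _ => ?_))
    change q i * ((∑ π : Equiv.Perm (Fin n), payoffG B M L G (fun k => π (y i k)) (b i)) /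
        (n.factorial : ℝ)) = ∑ π : Equiv.Perm (Fin n),
          q i / (n.factorial : ℝ) * payoffG B M L G (fun k => π (y i k)) (b i)
    rw [← Finset.mul_sum]
    ring
  -- average of the errors
  have havg2 : ∑ j : ι × Equiv.Perm (Fin n), q j.1 / n.factorial * ∑ k ∈ Finset.range M,
      hgErr (L k) (z k) (j.2 (y j.1 k)) (j.2 (y j.1 (k + 1))) (b j.1 k) ≤
      K * (err + 2 * B / n) := by
    have hc0 : 0 ≤ err + 2 * (B : ℝ) / n := by positivity
    rw [Fintype.sum_prod_type]
    have h2 : ∀ i : ι, ∑ π : Equiv.Perm (Fin n), q i / n.factorial * ∑ k ∈ Finset.range M,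
        hgErr (L k) (z k) (π (y i k)) (π (y i (k + 1))) (b i k) ≤
        q i * (K * (err + 2 * B / n)) := by
      intro i
      rw [← Finset.mul_sum, Finset.sum_comm]
      have h3 : ∑ k ∈ Finset.range M, ∑ π : Equiv.Perm (Fin n),
          hgErr (L k) (z k) (π (y i k)) (π (y i (k + 1))) (b i k) ≤
          (n.factorial : ℝ) * (K * (err + 2 * B / n)) := by
        calc ∑ k ∈ Finset.range M, ∑ π : Equiv.Perm (Fin n),
              hgErr (L k) (z k) (π (y i k)) (π (y i (k + 1))) (b i k)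
            ≤ ∑ k ∈ Finset.range M,
              (n.factorial : ℝ) * (if b i k = true then (err + 2 * B / n) else 0) :=
              Finset.sum_le_sum fun k _ => hg_avg_err hB hn herr (L k) (hLcard k) (z k)
                (hzsum k) _ _ _
          _ = (n.factorial : ℝ) *
              ((((Finset.range M).filter fun k => b i k = true).card : ℝ) *
                (err + 2 * B / n)) := by
              rw [← Finset.mul_sum, ← Finset.sum_filter, Finset.sum_const, nsmul_eq_mul]
          _ ≤ (n.factorial : ℝ) * (K * (err + 2 * B / n)) := by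
              have h4 : (((Finset.range M).filter fun k => b i k = true).card : ℝ) ≤ K := by
                exact_mod_cast (hadm i).2
              exact mul_le_mul_of_nonneg_left (mul_le_mul_of_nonneg_right h4 hc0) hf0.le
      calc q i / n.factorial * ∑ k ∈ Finset.range M, ∑ π : Equiv.Perm (Fin n),
            hgErr (L k) (z k) (π (y i k)) (π (y i (k + 1))) (b i k)
          ≤ q i / n.factorial * ((n.factorial : ℝ) * (K * (err + 2 * B / n))) :=
            mul_le_mul_of_nonneg_left h3 (div_nonneg (hq i) hf0.le)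
        _ = q i * (K * (err + 2 * B / n)) := by
            field_simp
    calc ∑ i : ι, ∑ π : Equiv.Perm (Fin n), q i / n.factorial * ∑ k ∈ Finset.range M,
          hgErr (L k) (z k) (π (y i k)) (π (y i (k + 1))) (b i k)
        ≤ ∑ i : ι, q i * (K * (err + 2 * B / n)) := Finset.sum_le_sum fun i _ => h2 i
      _ = K * (err + 2 * B / n) := by rw [← Finset.sum_mul, hq1, one_mul]
  -- total
  have htotal : V - 1 - M * K * (err + 2 * B / n) ≤ ∑ j : ι × Equiv.Perm (Fin n),
      q j.1 / n.factorial * ∑ m ∈ Finset.range M, ∏ k ∈ Finset.range (m + 1), s j k := by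
    have h2 : ∑ j : ι × Equiv.Perm (Fin n), q j.1 / n.factorial *
        (payoffG B M L G (fun k => j.2 (y j.1 k)) (b j.1) - 1 - M * ∑ k ∈ Finset.range M,
          hgErr (L k) (z k) (j.2 (y j.1 k)) (j.2 (y j.1 (k + 1))) (b j.1 k)) ≤
        ∑ j : ι × Equiv.Perm (Fin n),
          q j.1 / n.factorial * ∑ m ∈ Finset.range M, ∏ k ∈ Finset.range (m + 1), s j k :=
      Finset.sum_le_sum fun j _ => mul_le_mul_of_nonneg_left (hpair j) (hwt0 j)
    have h3 : ∑ j : ι × Equiv.Perm (Fin n), q j.1 / n.factorial *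
        (payoffG B M L G (fun k => j.2 (y j.1 k)) (b j.1) - 1 - M * ∑ k ∈ Finset.range M,
          hgErr (L k) (z k) (j.2 (y j.1 k)) (j.2 (y j.1 (k + 1))) (b j.1 k)) =
        (∑ j : ι × Equiv.Perm (Fin n),
          q j.1 / n.factorial * payoffG B M L G (fun k => j.2 (y j.1 k)) (b j.1)) - 1 -
        M * ∑ j : ι × Equiv.Perm (Fin n), q j.1 / n.factorial * ∑ k ∈ Finset.range M,
          hgErr (L k) (z k) (j.2 (y j.1 k)) (j.2 (y j.1 (k + 1))) (b j.1 k) := by
      have h4 : ∀ j : ι × Equiv.Perm (Fin n), q j.1 / n.factorial *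
          (payoffG B M L G (fun k => j.2 (y j.1 k)) (b j.1) - 1 - M * ∑ k ∈ Finset.range M,
            hgErr (L k) (z k) (j.2 (y j.1 k)) (j.2 (y j.1 (k + 1))) (b j.1 k)) =
          q j.1 / n.factorial * payoffG B M L G (fun k => j.2 (y j.1 k)) (b j.1) -
          q j.1 / n.factorial -
          M * (q j.1 / n.factorial * ∑ k ∈ Finset.range M,
            hgErr (L k) (z k) (j.2 (y j.1 k)) (j.2 (y j.1 (k + 1))) (b j.1 k)) := by
        intro j
        ring
      rw [Finset.sum_congr rfl (fun j _ => h4 j), Finset.sum_sub_distrib,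
        Finset.sum_sub_distrib, hwt1, ← Finset.mul_sum]
    have h5 : (M : ℝ) * ∑ j : ι × Equiv.Perm (Fin n), q j.1 / n.factorial *
        ∑ k ∈ Finset.range M,
          hgErr (L k) (z k) (j.2 (y j.1 k)) (j.2 (y j.1 (k + 1))) (b j.1 k) ≤
        M * (K * (err + 2 * B / n)) :=
      mul_le_mul_of_nonneg_left havg2 (Nat.cast_nonneg M)
    rw [h3] at h2
    have h6 : (M : ℝ) * K * (err + 2 * B / n) = M * (K * (err + 2 * B / n)) := by ring
    rw [h6]
    linarith
  -- back to the extended nonnegative reals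
  have hA0 : ∀ j, 0 ≤ T0 * ∑ m ∈ Finset.range M, ∏ k ∈ Finset.range (m + 1), s j k := fun j =>
    mul_nonneg hT0.le (Finset.sum_nonneg fun m _ => Finset.prod_nonneg fun k _ => hs0 j k)
  calc ENNReal.ofReal (T0 * (V - 1 - M * K * (err + 2 * B / n)))
      ≤ ENNReal.ofReal (∑ j : ι × Equiv.Perm (Fin n), q j.1 / n.factorial *
          (T0 * ∑ m ∈ Finset.range M, ∏ k ∈ Finset.range (m + 1), s j k)) := by
        apply ENNReal.ofReal_le_ofReal
        have h2 := mul_le_mul_of_nonneg_left htotal hT0.le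
        rw [Finset.mul_sum] at h2
        refine h2.trans (le_of_eq (Finset.sum_congr rfl fun j _ => ?_))
        ring
    _ = ∑ j : ι × Equiv.Perm (Fin n), ENNReal.ofReal (q j.1 / n.factorial) *
          ENNReal.ofReal (T0 * ∑ m ∈ Finset.range M, ∏ k ∈ Finset.range (m + 1), s j k) := by
        rw [ENNReal.ofReal_sum_of_nonneg (fun j _ => mul_nonneg (hwt0 j) (hA0 j))]
        exact Finset.sum_congr rfl fun j _ => ENNReal.ofReal_mul (hwt0 j)
    _ ≤ _ := Finset.sum_le_sum fun j _ => mul_le_mul_right (hHcap j S hS) _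

end MPacf82c.St
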