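import Pool.Agent.Lib.MP_acf82c_lc.S.SpecB

/-!
# Averaging with a bonus
-/

namespace MPacf82c.St

open Finset

namespace HubG

theorem pair_const_sum {n : ℕ} (hn : 2 ≤ n) (c : ℝ) :
    ∑ i : Fin n, ∑ _j ∈ univ.filter (fun j => j ≠ i), c = (n * (n - 1) : ℝ) * c := by
  have h1 : ∀ i : Fin n, ∑ _j ∈ univ.filter (fun j => j ≠ i), c = ((n : ℝ) - 1) * c := by
    intro i
    rw [sum_const, nsmul_eq_mul]
    congr 1
    have : (univ.filter (fun j : Fin n => j ≠ i)).card = n - 1 := by
      rw [filter_ne', card_erase_of_mem (mem_univ i), card_univ, Fintype.card_fin]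
    rw [this, Nat.cast_sub (by omega)]
    simp
  rw [sum_congr rfl (fun i _ => h1 i), sum_const, nsmul_eq_mul, card_univ, Fintype.card_fin]
  ring

theorem pair_sum_left {n : ℕ} (hn : 2 ≤ n) (g : Fin n → ℝ) :
    ∑ i : Fin n, ∑ _j ∈ univ.filter (fun j => j ≠ i), g i = ((n : ℝ) - 1) * ∑ i, g i := by
  rw [mul_sum]
  refine sum_congr rfl fun i _ => ?_
  rw [sum_const, nsmul_eq_mul]
  congr 1
  have : (univ.filter (fun j : Fin n => j ≠ i)).card = n - 1 := by
    rw [filter_ne', card_erase_of_mem (mem_univ i), card_univ, Fintype.card_fin]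
  rw [this, Nat.cast_sub (by omega)]
  simp

theorem pair_sum_right {n : ℕ} (g : Fin n → ℝ) :
    ∑ i : Fin n, ∑ j ∈ univ.filter (fun j => j ≠ i), g j = ((n : ℝ) - 1) * ∑ i, g i := by
  have h1 : ∀ i : Fin n, ∑ j ∈ univ.filter (fun j => j ≠ i), g j = (∑ j, g j) - g i := by
    intro i
    rw [filter_ne', ← sum_erase_add univ g (mem_univ i)]
    ring
  rw [sum_congr rfl (fun i _ => h1 i), sum_sub_distrib, sum_const, nsmul_eq_mul, card_univ,
    Fintype.card_fin]
  ring


end HubG

open HubG in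
open Classical in
theorem sHubG : S_HubG := by
  intro E V _ Vs n len u uv D h β Γ Rt κ B T0 arcOf W χE χV L hn hT0 hh hβ hΓ hΓT hB hD hRt hκ0 hκ1
    hlen hlenD hu huv htot' hcnt hW0 hW1 hχE hχV hWl hE hV hL hcov
  obtain ⟨z0, hz0def⟩ : ∃ z0, z0 = ∑ v ∈ Vs, uv v := ⟨_, rfl⟩
  have hz0 : 0 ≤ z0 := by
    rw [hz0def]
    exact sum_nonneg huv
  have htot : z0 + ∑ e, u e = T0 := by rw [hz0def]; exact htot'
  have hTG : 0 < T0 - Γ := by linarith
  have hn' : (2 : ℝ) ≤ n := by exact_mod_cast hn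
  have hN : (0 : ℝ) < (n : ℝ) * (n - 1) := by
    apply mul_pos <;> linarith
  have hB' : (1 : ℝ) ≤ B := by exact_mod_cast hB
  have hB0 : (0 : ℝ) < B := by linarith
  have hL' : (L.card : ℝ) ≤ B := by exact_mod_cast hL
  -- sums of currents
  set S : E → ℝ := fun e => ∑ i, ∑ j ∈ univ.filter (fun j => j ≠ i), W i j e with hS
  have hSl : ∑ e, len e * S e ≤ (n * (n - 1) : ℝ) * Rt := by
    have h1 : ∑ e, len e * S e
        = ∑ i, ∑ j ∈ univ.filter (fun j => j ≠ i), ∑ e, len e * W i j e := by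
      simp only [hS, mul_sum]
      rw [sum_comm]
      refine sum_congr rfl fun i _ => ?_
      rw [sum_comm]
    rw [h1, ← pair_const_sum hn Rt]
    exact sum_le_sum fun i _ => sum_le_sum fun j _ => hWl i j
  have hS0 : ∀ e, 0 ≤ S e := fun e => sum_nonneg fun i _ => sum_nonneg fun j _ => hW0 i j e
  set hub : Finset E := univ.filter (fun e => β * (n * (n - 1)) ≤ S e) with hhub
  set non : Finset E := univ.filter (fun e => ¬ β * (n * (n - 1)) ≤ S e) with hnon
  have hsplit : ∀ f : E → ℝ, ∑ e, f e = ∑ e ∈ hub, f e + ∑ e ∈ non, f e := fun f =>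
    (sum_filter_add_sum_filter_not univ _ f).symm
  have hhublen : ∑ e ∈ hub, len e ≤ Rt / β := by
    rw [le_div_iff₀ hβ]
    have h1 : (∑ e ∈ hub, len e) * (β * (n * (n - 1))) ≤ (n * (n - 1) : ℝ) * Rt := by
      rw [sum_mul]
      refine le_trans ?_ hSl
      rw [hsplit (fun e => len e * S e)]
      have h2 : 0 ≤ ∑ e ∈ non, len e * S e :=
        sum_nonneg fun e _ => mul_nonneg (hlen e).le (hS0 e)
      have h3 : ∑ e ∈ hub, len e * (β * (n * (n - 1))) ≤ ∑ e ∈ hub, len e * S e := by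
        refine sum_le_sum fun e he => ?_
        exact mul_le_mul_of_nonneg_left (mem_filter.mp he).2 (hlen e).le
      linarith
    have h4 : ((∑ e ∈ hub, len e) * β) * ((n : ℝ) * (n - 1)) ≤ Rt * (n * (n - 1)) := by
      nlinarith [h1]
    exact le_of_mul_le_mul_right h4 hN
  -- labels on hub arcs
  have hlab : h * ((L.filter fun i => arcOf i ∈ hub).card : ℝ) ≤ Rt / β := by
    refine le_trans ?_ hhublen
    have h1 : ((L.filter fun i => arcOf i ∈ hub).card : ℝ)
        ≤ ∑ e ∈ hub, ((univ.filter fun i => arcOf i = e).card : ℝ) := by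
      have h2 : (L.filter fun i => arcOf i ∈ hub).card
          ≤ ∑ e ∈ hub, (univ.filter fun i => arcOf i = e).card := by
        calc (L.filter fun i => arcOf i ∈ hub).card
            ≤ (hub.biUnion fun e => univ.filter fun i => arcOf i = e).card := by
              apply card_le_card
              intro i hi
              simp only [mem_filter, mem_biUnion, mem_univ, true_and] at hi ⊢
              exact ⟨arcOf i, hi.2, rfl⟩
          _ ≤ _ := card_biUnion_le
      exact_mod_cast h2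
    calc h * ((L.filter fun i => arcOf i ∈ hub).card : ℝ)
        ≤ h * ∑ e ∈ hub, ((univ.filter fun i => arcOf i = e).card : ℝ) :=
          mul_le_mul_of_nonneg_left h1 hh.le
      _ = ∑ e ∈ hub, ((univ.filter fun i => arcOf i = e).card : ℝ) * h := by
          rw [mul_sum]
          exact sum_congr rfl fun e _ => mul_comm _ _
      _ ≤ ∑ e ∈ hub, len e := sum_le_sum fun e _ => hcnt e
  have hcardsplit : (L.card : ℝ) = ((L.filter fun i => arcOf i ∈ hub).card : ℝ)
      + ((L.filter fun i => arcOf i ∈ non).card : ℝ) := by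
    have h1 : (L.filter fun i => arcOf i ∈ hub).card
        + (L.filter fun i => ¬ arcOf i ∈ hub).card = L.card :=
      card_filter_add_card_filter_not _
    have h2 : (L.filter fun i => ¬ arcOf i ∈ hub) = (L.filter fun i => arcOf i ∈ non) := by
      apply filter_congr
      intro i _
      simp [hhub, hnon]
    rw [h2] at h1
    exact_mod_cast h1.symm
  have hnonu : h * (L.card : ℝ) - Rt / β - 2 * h ≤ ∑ e ∈ non, u e := by
    have h1 := hcov non
    rw [hcardsplit]
    nlinarith [h1, hlab]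
  have hutot : z0 + (∑ e ∈ hub, u e + ∑ e ∈ non, u e) = T0 := by
    rw [← hsplit u]; exact htot
  have hut : ∑ e, u e ≤ T0 := by linarith
  have hT0' : T0 = h * B - h := by rw [hT0]; ring
  have hT0pos : 0 ≤ T0 := by linarith
  obtain ⟨X, hX⟩ : ∃ X, X = z0 + ∑ e ∈ hub, u e := ⟨_, rfl⟩
  have hhubu : 0 ≤ ∑ e ∈ hub, u e := sum_nonneg fun e _ => hu e
  have hX0 : 0 ≤ X := by rw [hX]; linarith
  obtain ⟨nm, hnm⟩ : ∃ nm : Fin n → Fin n → ℝ, nm = fun i j =>
    ∑ v ∈ Vs, (1 - χV i j v) * uv v + ∑ e ∈ hub, (1 - χE i j e) * u e := ⟨_, rfl⟩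
  have hnm0 : ∀ i j, 0 ≤ nm i j := by
    intro i j
    rw [hnm]
    dsimp only
    have h1 : 0 ≤ ∑ v ∈ Vs, (1 - χV i j v) * uv v := sum_nonneg fun v hv =>
      mul_nonneg (by linarith [(hχV i j v).2]) (huv v hv)
    have h2 : 0 ≤ ∑ e ∈ hub, (1 - χE i j e) * u e := sum_nonneg fun e _ =>
      mul_nonneg (by linarith [(hχE i j e).2]) (hu e)
    linarith
  have hnmX : ∀ i j, nm i j ≤ X := by
    intro i j
    rw [hnm, hX, hz0def]
    dsimp only
    have h1 : ∑ v ∈ Vs, (1 - χV i j v) * uv v ≤ ∑ v ∈ Vs, uv v := sum_le_sum fun v hv => by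
      have := mul_nonneg (hχV i j v).1 (huv v hv)
      linarith
    have h2 : ∑ e ∈ hub, (1 - χE i j e) * u e ≤ ∑ e ∈ hub, u e := sum_le_sum fun e _ => by
      have := mul_nonneg (hχE i j e).1 (hu e)
      linarith
    linarith
  have hnmsum : κ * ((n : ℝ) * ((n : ℝ) - 1)) * X ≤
      ∑ i, ∑ j ∈ univ.filter (fun j => j ≠ i), nm i j := by
    have h1 : ∑ i, ∑ j ∈ univ.filter (fun j => j ≠ i), nm i j =
        ∑ v ∈ Vs, (∑ i, ∑ j ∈ univ.filter (fun j => j ≠ i), (1 - χV i j v)) * uv v +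
          ∑ e ∈ hub, (∑ i, ∑ j ∈ univ.filter (fun j => j ≠ i), (1 - χE i j e)) * u e := by
      rw [hnm]
      simp only [sum_add_distrib, sum_mul]
      congr 1
      · rw [sum_comm]
        refine sum_congr rfl fun i _ => ?_
        rw [sum_comm]
      · rw [sum_comm]
        refine sum_congr rfl fun i _ => ?_
        rw [sum_comm]
    have h2 : ∀ f : Fin n → Fin n → ℝ,
        ∑ i, ∑ j ∈ univ.filter (fun j => j ≠ i), f i j ≤ (1 - κ) * ((n : ℝ) * ((n : ℝ) - 1)) →
        κ * ((n : ℝ) * ((n : ℝ) - 1)) ≤ ∑ i, ∑ j ∈ univ.filter (fun j => j ≠ i), (1 - f i j) := by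
      intro f hf
      have h3 : ∑ i, ∑ j ∈ univ.filter (fun j => j ≠ i), (1 - f i j) =
          (n : ℝ) * ((n : ℝ) - 1) - ∑ i, ∑ j ∈ univ.filter (fun j => j ≠ i), f i j := by
        have h4 := pair_const_sum hn (1 : ℝ)
        simp only [sum_sub_distrib]
        rw [h4, mul_one]
      rw [h3]
      linarith
    rw [h1, hX, hz0def, mul_add, mul_sum, mul_sum]
    refine add_le_add (sum_le_sum fun v hv => ?_) (sum_le_sum fun e _ => ?_)
    · exact mul_le_mul_of_nonneg_right (h2 _ (hV v hv)) (huv v hv)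
    · exact mul_le_mul_of_nonneg_right (h2 _ (hE e)) (hu e)
  obtain ⟨mm, hmm⟩ : ∃ mm : Fin n → Fin n → ℝ, mm = fun i j => if X = 0 then 1 else nm i j / X :=
    ⟨_, rfl⟩
  have hmm0 : ∀ i j, 0 ≤ mm i j := by
    intro i j
    rw [hmm]
    dsimp only
    split_ifs
    · exact zero_le_one
    · exact div_nonneg (hnm0 i j) hX0
  have hmm1 : ∀ i j, mm i j ≤ 1 := by
    intro i j
    rw [hmm]
    dsimp only
    split_ifs with hc
    · exact le_rfl
    · rw [div_le_one (lt_of_le_of_ne hX0 (Ne.symm hc))]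
      exact hnmX i j
  have hmmX : ∀ i j, X * mm i j = nm i j := by
    intro i j
    rw [hmm]
    dsimp only
    split_ifs with hc
    · have h1 := hnm0 i j
      have h2 := hnmX i j
      rw [hc] at h2 ⊢
      linarith
    · field_simp
  have hmmsum : κ * ((n : ℝ) * ((n : ℝ) - 1)) ≤
      ∑ i, ∑ j ∈ univ.filter (fun j => j ≠ i), mm i j := by
    by_cases hc : X = 0
    · have h1 : ∑ i, ∑ j ∈ univ.filter (fun j => j ≠ i), mm i j = (n : ℝ) * ((n : ℝ) - 1) := by
        rw [hmm]
        simp only [if_pos hc]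
        rw [pair_const_sum hn (1 : ℝ), mul_one]
      rw [h1]
      nlinarith
    · have hXp : 0 < X := lt_of_le_of_ne hX0 (Ne.symm hc)
      have h1 : (∑ i, ∑ j ∈ univ.filter (fun j => j ≠ i), mm i j) * X =
          ∑ i, ∑ j ∈ univ.filter (fun j => j ≠ i), nm i j := by
        rw [sum_mul]
        refine sum_congr rfl fun i _ => ?_
        rw [sum_mul]
        refine sum_congr rfl fun j _ => ?_
        rw [mul_comm, hmmX]
      refine le_of_mul_le_mul_right ?_ hXp
      rw [h1]
      exact hnmsum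
  refine ⟨fun i j => (Γ + 3 * h + D + Rt / β) / (T0 - Γ) + (Rt + 2 * D) / Γ +
    (∑ e ∈ non, W i j e * u e + (2 * u (arcOf i) + 2 * u (arcOf j))) / (T0 - Γ),
    fun i j => if j = i then 1 else mm i j / 8, ?_, ?_, ?_, ?_⟩
  · intro i j
    have h1 : 0 ≤ ∑ e ∈ non, W i j e * u e :=
      sum_nonneg fun e _ => mul_nonneg (hW0 i j e) (hu e)
    have h2 := hu (arcOf i)
    have h3 := hu (arcOf j)
    have h4 : 0 ≤ Rt / β := div_nonneg hRt hβ.le
    have h5 : 0 ≤ (Γ + 3 * h + D + Rt / β) / (T0 - Γ) := div_nonneg (by linarith) hTG.le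
    have h6 : 0 ≤ (Rt + 2 * D) / Γ := div_nonneg (by linarith) hΓ.le
    have h7 : 0 ≤ (∑ e ∈ non, W i j e * u e + (2 * u (arcOf i) + 2 * u (arcOf j))) / (T0 - Γ) :=
      div_nonneg (by linarith) hTG.le
    linarith
  · unfold errN
    have hsum : ∑ i, ∑ j ∈ univ.filter (fun j => j ≠ i),
        (((Γ + 3 * h + D + Rt / β) / (T0 - Γ) + (Rt + 2 * D) / Γ) +
        (∑ e ∈ non, W i j e * u e + (2 * u (arcOf i) + 2 * u (arcOf j))) / (T0 - Γ))
        = (n * (n - 1) : ℝ) * ((Γ + 3 * h + D + Rt / β) / (T0 - Γ) + (Rt + 2 * D) / Γ)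
          + (∑ i, ∑ j ∈ univ.filter (fun j => j ≠ i),
            (∑ e ∈ non, W i j e * u e + (2 * u (arcOf i) + 2 * u (arcOf j)))) / (T0 - Γ) := by
      rw [← pair_const_sum hn, sum_div, ← sum_add_distrib]
      refine sum_congr rfl fun i _ => ?_
      rw [sum_div, ← sum_add_distrib]
    rw [hsum]
    -- the two contributions
    have hA : ∑ i, ∑ j ∈ univ.filter (fun j => j ≠ i), ∑ e ∈ non, W i j e * u e
        ≤ (n * (n - 1) : ℝ) * (β * T0) := by
      have h1 : ∑ i, ∑ j ∈ univ.filter (fun j => j ≠ i), ∑ e ∈ non, W i j e * u e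
          = ∑ e ∈ non, S e * u e := by
        simp only [hS, sum_mul]
        rw [sum_comm]
        have h2 : ∀ i : Fin n, ∑ j ∈ univ.filter (fun j => j ≠ i), ∑ e ∈ non, W i j e * u e
            = ∑ e ∈ non, ∑ j ∈ univ.filter (fun j => j ≠ i), W i j e * u e := by
          intro i
          exact sum_comm
        rw [sum_comm, sum_congr rfl (fun i _ => h2 i), sum_comm]
      rw [h1]
      calc ∑ e ∈ non, S e * u e ≤ ∑ e ∈ non, (β * (n * (n - 1))) * u e := by
            refine sum_le_sum fun e he => ?_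
            exact mul_le_mul_of_nonneg_right (not_le.mp (mem_filter.mp he).2).le (hu e)
        _ = (β * (n * (n - 1))) * ∑ e ∈ non, u e := by rw [mul_sum]
        _ ≤ (β * (n * (n - 1))) * T0 := by
            apply mul_le_mul_of_nonneg_left _ (mul_nonneg hβ.le hN.le)
            have : 0 ≤ ∑ e ∈ hub, u e := sum_nonneg fun e _ => hu e
            linarith
        _ = (n * (n - 1) : ℝ) * (β * T0) := by ring
    have hU : ∑ i, u (arcOf i) ≤ 2 * D / h * T0 := by
      have h1 : ∑ i, u (arcOf i)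
          = ∑ e, ((univ.filter fun i => arcOf i = e).card : ℝ) * u e := by
        rw [← sum_fiberwise_of_maps_to (s := univ) (t := univ) (g := arcOf)
          (fun i _ => mem_univ _)]
        refine sum_congr rfl fun e _ => ?_
        rw [sum_congr rfl (fun i hi => by rw [(mem_filter.mp hi).2])
          (g := fun _ => u e), sum_const, nsmul_eq_mul]
      rw [h1]
      calc ∑ e, ((univ.filter fun i => arcOf i = e).card : ℝ) * u e
          ≤ ∑ e, (2 * D / h) * u e := by
            refine sum_le_sum fun e _ => mul_le_mul_of_nonneg_right ?_ (hu e)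
            rw [le_div_iff₀ hh]
            exact le_trans (hcnt e) (hlenD e)
        _ = (2 * D / h) * ∑ e, u e := by rw [mul_sum]
        _ ≤ 2 * D / h * T0 :=
            mul_le_mul_of_nonneg_left hut (div_nonneg (by linarith) hh.le)
    have hC : ∑ i, ∑ j ∈ univ.filter (fun j => j ≠ i), (2 * u (arcOf i) + 2 * u (arcOf j))
        ≤ (n * (n - 1) : ℝ) * (8 * D * T0 / (n * h)) := by
      have h1 : ∑ i, ∑ j ∈ univ.filter (fun j => j ≠ i), (2 * u (arcOf i) + 2 * u (arcOf j))
          = 4 * (((n : ℝ) - 1) * ∑ i, u (arcOf i)) := by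
        simp only [sum_add_distrib]
        rw [pair_sum_left hn (fun i => 2 * u (arcOf i)),
          pair_sum_right (fun i => 2 * u (arcOf i)), ← mul_sum]
        ring
      rw [h1]
      have h2 : (n * (n - 1) : ℝ) * (8 * D * T0 / (n * h))
          = 4 * (((n : ℝ) - 1) * (2 * D / h * T0)) := by
        have : (n : ℝ) ≠ 0 := by linarith
        field_simp
        ring
      rw [h2]
      have h3 : (0 : ℝ) ≤ (n : ℝ) - 1 := by linarith
      have h4 := mul_le_mul_of_nonneg_left hU h3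
      linarith
    have hAC : (∑ i, ∑ j ∈ univ.filter (fun j => j ≠ i),
        (∑ e ∈ non, W i j e * u e + (2 * u (arcOf i) + 2 * u (arcOf j)))) / (T0 - Γ)
        ≤ (n * (n - 1) : ℝ) * ((β * T0 + 8 * D * T0 / (n * h)) / (T0 - Γ)) := by
      rw [← mul_div_assoc]
      apply div_le_div_of_nonneg_right _ hTG.le
      rw [mul_add]
      simp only [sum_add_distrib] at hA hC ⊢
      linarith
    calc _ ≤ (n * (n - 1) : ℝ) * ((Γ + 3 * h + D + Rt / β) / (T0 - Γ) + (Rt + 2 * D) / Γ)
          + (n * (n - 1) : ℝ) * ((β * T0 + 8 * D * T0 / (n * h)) / (T0 - Γ)) := by linarith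
      _ = _ := by ring
  · refine ⟨fun p q => ?_, fun p q => ?_, fun p => ?_, ?_⟩
    · split_ifs
      · exact zero_le_one
      · exact div_nonneg (hmm0 p q) (by norm_num)
    · split_ifs
      · exact le_rfl
      · have := hmm1 p q
        linarith
    · simp
    · have h1 : ∑ p, ∑ q ∈ univ.filter (fun q => q ≠ p), (if q = p then (1 : ℝ) else mm p q / 8) =
          (∑ i, ∑ j ∈ univ.filter (fun j => j ≠ i), mm i j) / 8 := by
        rw [sum_div]
        refine sum_congr rfl fun p _ => ?_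
        rw [sum_div]
        refine sum_congr rfl fun q hq => ?_
        rw [if_neg (mem_filter.1 hq).2]
      rw [h1]
      linarith
  · intro i j hij
    dsimp only
    have hG : (if j = i then (1 : ℝ) else mm i j / 8) = mm i j / 8 := if_neg (Ne.symm hij)
    rw [hG]
    obtain ⟨g, hg⟩ : ∃ g, g = mm i j / 8 := ⟨_, rfl⟩
    have hg0 : 0 ≤ g := by rw [hg]; exact div_nonneg (hmm0 i j) (by norm_num)
    have hg1 : g ≤ 1 := by
      rw [hg]
      have := hmm1 i j
      linarith
    have hgX : X * (1 - g) = X - nm i j / 8 := by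
      rw [hg, mul_sub, mul_one, ← hmmX i j]
      ring
    rw [← hg]
    have h1 : ∑ v ∈ Vs, (7 / 8 + χV i j v / 8) * uv v + ∑ e, W i j e * u e ≤
        X * (1 - g) + ∑ e ∈ non, W i j e * u e := by
      rw [hsplit (fun e => W i j e * u e), hgX]
      have h2 : ∑ e ∈ hub, W i j e * u e ≤ ∑ e ∈ hub, (u e - (1 - χE i j e) * u e / 8) := by
        refine sum_le_sum fun e _ => ?_
        have := mul_le_mul_of_nonneg_right (hW1 i j e) (hu e)
        linarith
      have h3 : ∑ v ∈ Vs, (7 / 8 + χV i j v / 8) * uv v =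
          ∑ v ∈ Vs, (uv v - (1 - χV i j v) * uv v / 8) := by
        refine sum_congr rfl fun v _ => ?_
        ring
      rw [h3]
      rw [sum_sub_distrib] at h2 ⊢
      rw [← sum_div] at h2 ⊢
      have h4 : nm i j = ∑ v ∈ Vs, (1 - χV i j v) * uv v + ∑ e ∈ hub, (1 - χE i j e) * u e := by
        rw [hnm]
      rw [h4, hX, hz0def]
      linarith
    have h2 : z0 + ∑ e ∈ hub, u e ≤ (T0 - Γ) * (1 - (L.card : ℝ) / B) + (Γ + 2 * h)
        + Rt / β := by
      have h3 : z0 + ∑ e ∈ hub, u e ≤ h * B - h * L.card + h + Rt / β := by linarith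
      have h4 : h * B - h * L.card = h * B * (1 - (L.card : ℝ) / B) := by
        field_simp
      have h5 : h * B * (1 - (L.card : ℝ) / B) = (T0 - Γ) * (1 - (L.card : ℝ) / B)
          + (h + Γ) * (1 - (L.card : ℝ) / B) := by
        rw [hT0']; ring
      have h6 : (h + Γ) * (1 - (L.card : ℝ) / B) ≤ (h + Γ) * 1 := by
        apply mul_le_mul_of_nonneg_left _ (add_nonneg hh.le hΓ.le)
        have : 0 ≤ (L.card : ℝ) / B := div_nonneg (Nat.cast_nonneg _) (Nat.cast_nonneg _)
        linarith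
      linarith
    have h3 : X * (1 - g) ≤ (1 - g) * ((T0 - Γ) * (1 - (L.card : ℝ) / B)) + (Γ + 2 * h)
        + Rt / β := by
      rw [← hX] at h2
      have h4 : 0 ≤ Rt / β := div_nonneg hRt hβ.le
      have h5 : X * (1 - g) ≤ ((T0 - Γ) * (1 - (L.card : ℝ) / B) + (Γ + 2 * h) + Rt / β) * (1 - g) :=
        mul_le_mul_of_nonneg_right h2 (by linarith)
      have h6 : ((Γ + 2 * h) + Rt / β) * (1 - g) ≤ ((Γ + 2 * h) + Rt / β) * 1 :=
        mul_le_mul_of_nonneg_left (by linarith) (by linarith)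
      linarith
    have h7 : (∑ v ∈ Vs, (7 / 8 + χV i j v / 8) * uv v + ∑ e, W i j e * u e + D + 2 * u (arcOf i) +
          2 * u (arcOf j)) / (T0 - Γ)
        ≤ (1 - g) * (1 - (L.card : ℝ) / B) + (Γ + 3 * h + D + Rt / β) / (T0 - Γ)
          + (∑ e ∈ non, W i j e * u e + (2 * u (arcOf i) + 2 * u (arcOf j))) / (T0 - Γ) := by
      have h8 : (1 - g) * (1 - (L.card : ℝ) / B) + (Γ + 3 * h + D + Rt / β) / (T0 - Γ)
          + (∑ e ∈ non, W i j e * u e + (2 * u (arcOf i) + 2 * u (arcOf j))) / (T0 - Γ)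
          = ((1 - g) * ((T0 - Γ) * (1 - (L.card : ℝ) / B)) + (Γ + 3 * h + D + Rt / β) +
            (∑ e ∈ non, W i j e * u e + (2 * u (arcOf i) + 2 * u (arcOf j)))) / (T0 - Γ) := by
        field_simp
      rw [h8]
      apply div_le_div_of_nonneg_right _ hTG.le
      linarith
    linarith

end MPacf82c.St
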