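import Pool.Agent.Lib.MP_acf82c_lc.S.SpecB
import Pool.Agent.Lib.MP_acf82c_lc.TripRoutes

namespace MPacf82c.St

open Set MeasureTheory
open scoped NNReal ENNReal

namespace ImgArc

private theorem lip {q d a C : ℝ} {τ : ℝ → ℝ} (hd : |d| = 1) (hτ : ∀ x y, |τ x - τ y| ≤ |x - y|)
    (hq : |q| = 1) (x y : ℝ) :
    |(x - (a + d * (C + q * τ x))) - (y - (a + d * (C + q * τ y)))| ≤ 2 * |x - y| := by
  have e : (x - (a + d * (C + q * τ x))) - (y - (a + d * (C + q * τ y))) =
      (x - y) - d * q * (τ x - τ y) := by ring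
  rw [e]
  have h1 := abs_sub (x - y) (d * q * (τ x - τ y))
  have h2 : |d * q * (τ x - τ y)| = |τ x - τ y| := by
    rw [abs_mul, abs_mul, hd, hq, one_mul, one_mul]
  rw [h2] at h1
  have h3 := hτ x y
  linarith

end ImgArc

theorem sImgArc : S_ImgArc := by
  intro Q _ N S hS t0 t1 c a d hd
  have hl := N.len_pos c
  have hd1 : |d| = 1 := by
    rcases hd with rfl | rfl <;> simp
  have hne : (N.openArc c)ᶜ.Nonempty :=
    ⟨N.pt c 0, fun h => notMem_nodes_of_mem_openArc N h ⟨c, Or.inl rfl⟩⟩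
  set τ : ℝ → ℝ := fun t => Metric.infDist (S t) (N.openArc c)ᶜ with hτ
  have hτl : ∀ x y, |τ x - τ y| ≤ |x - y| := TripRoutes.tent_lip hS _
  have hcont : ContinuousOn (N.pt c) (Icc 0 (N.len c / 2)) := by
    have h1 : LipschitzOnWith 1 (N.pt c) (Icc 0 (N.len c / 2)) := by
      refine LipschitzOnWith.of_dist_le_mul fun x hx y hy => ?_
      have := N.dist_le c x ⟨hx.1, hx.2.trans (by linarith)⟩ y ⟨hy.1, hy.2.trans (by linarith)⟩
      simpa [Real.dist_eq] using this
    exact h1.continuousOn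
  have hK : IsCompact (N.pt c '' Icc 0 (N.len c / 2)) := isCompact_Icc.image_of_continuousOn hcont
  set A : Set ℝ := {t | S t ∈ N.pt c '' Icc 0 (N.len c / 2)} with hA
  have hAm : MeasurableSet A := (hK.isClosed.preimage hS.continuous).measurableSet
  set U : Set ℝ := meetSet S t0 t1 (N.openArc c) with hU
  have hUt : volume U ≠ ⊤ := meetSet_ne_top S t0 t1 _
  set g1 : ℝ → ℝ := fun t => t - (a + d * (0 + 1 * τ t)) with hg1
  set g2 : ℝ → ℝ := fun t => t - (a + d * (N.len c + (-1) * τ t)) with hg2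
  have hsub : imgSet N S t0 t1 c a d ⊆ g1 '' (U ∩ A) ∪ g2 '' (U \ A) := by
    rintro θ ⟨t, ht, x, hx, hSt, hθ⟩
    have htU : t ∈ U := ⟨ht, by rw [hSt]; exact ⟨x, hx, rfl⟩⟩
    have hτx : τ t = min x (N.len c - x) := by
      rw [hτ]
      simp only
      rw [hSt]
      exact infDist_compl_openArc N c ⟨hx.1.le, hx.2.le⟩ hne
    rcases le_or_gt x (N.len c / 2) with h | h
    · left
      refine ⟨t, ⟨htU, ?_⟩, ?_⟩
      · rw [hA, mem_ofPred_eq, hSt]
        exact ⟨x, ⟨hx.1.le, h⟩, rfl⟩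
      · rw [hg1, hθ]
        simp only
        rw [hτx, min_eq_left (by linarith)]
        ring
    · right
      refine ⟨t, ⟨htU, ?_⟩, ?_⟩
      · rintro ⟨y, hy, hye⟩
        have := (N.simple c c x y hx ⟨hy.1, hy.2.trans (by linarith)⟩
          (by rw [← hSt]; exact hye.symm)).2
        linarith [hy.2]
      · rw [hg2, hθ]
        simp only
        rw [hτx, min_eq_right (by linarith)]
        ring
  have hle : volume (imgSet N S t0 t1 c a d) ≤ 2 * volume U := by
    calc volume (imgSet N S t0 t1 c a d) ≤ volume (g1 '' (U ∩ A) ∪ g2 '' (U \ A)) :=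
          measure_mono hsub
      _ ≤ volume (g1 '' (U ∩ A)) + volume (g2 '' (U \ A)) := measure_union_le _ _
      _ ≤ 2 * volume (U ∩ A) + 2 * volume (U \ A) :=
          add_le_add (TripRoutes.image_le (ImgArc.lip hd1 hτl (by simp)) _)
            (TripRoutes.image_le (ImgArc.lip hd1 hτl (by simp)) _)
      _ = 2 * volume U := by rw [← mul_add, measure_inter_add_sdiff U hAm]
  have ht : 2 * volume U ≠ ⊤ := ENNReal.mul_ne_top (by simp) hUt
  refine ⟨ne_top_of_le_ne_top ht hle, ?_⟩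
  have := ENNReal.toReal_mono ht hle
  rw [ENNReal.toReal_mul] at this
  simpa [timeIn, hU, meetSet] using this

end MPacf82c.St
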