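import Pool.Agent.Lib.MP_acf82c_lc.S.SpecB

/-!
# Image of the time spent in an arc with current (statement `S_ImgStr`)
-/

namespace MPacf82c.St

open Set MeasureTheory
open scoped NNReal ENNReal

theorem ImgStr.sign (d F : ℝ) (hd : d = 1 ∨ d = -1) (hF : F ≠ 0) :
    ∃ ε : ℝ, (ε = 1 ∨ ε = -1) ∧ d / F = ε / |F| := by
  rcases lt_or_gt_of_ne hF with h | h
  · refine ⟨-d, ?_, ?_⟩
    · rcases hd with rfl | rfl
      · right; rfl
      · left; norm_num
    · rw [abs_of_neg h, neg_div_neg_eq]
  · exact ⟨d, hd, by rw [abs_of_pos h]⟩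

theorem sImgStr : S_ImgStr := by
  intro Q _ N φ ψ F hψL hψ S hS t0 t1 c a d hd hF
  obtain ⟨ε, hε, hκ⟩ := ImgStr.sign d (F c) hd hF
  set f : ℝ → ℝ := fun t => ψ (S t) with hf
  have hfL : LipschitzWith 1 f := by
    have h0 := hψL.comp hS
    rw [mul_one] at h0
    exact h0
  set g : ℝ → ℝ := fun t => ε * f t with hg
  have hεa : |ε| = 1 := by
    rcases hε with rfl | rfl
    · simp
    · simp
  have hgL : LipschitzWith 1 g := by
    refine LipschitzWith.of_dist_le' (K := 1) ?_ |>.weaken ?_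
    · intro x y
      have h1 := hfL.dist_le_mul x y
      rw [Real.dist_eq] at h1
      rw [Real.dist_eq, hg]
      simp only
      rw [← mul_sub, abs_mul, hεa]
      simpa using h1
    · simp
  have hderiv : ∀ t, deriv g t = ε * deriv f t := by
    intro t
    exact deriv_const_mul_field ε
  set C : ℝ := a + d * (φ (N.pt c 0)) / F c with hC
  have hkey : ∀ t x, x ∈ Ioo 0 (N.len c) → S t = N.pt c x →
      t - (a + d * x) = t + g t / |F c| - C := by
    intro t x hx hSx
    have h1 : f t = φ (N.pt c 0) - F c * x := by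
      simp only [hf]
      rw [hSx]
      exact hψ c x (Ioo_subset_Icc_self hx)
    have h2 : g t / |F c| = d / F c * f t := by
      rw [hκ, hg]
      ring
    rw [h2, h1, hC]
    field_simp
    ring
  have hset : imgSet N S t0 t1 c a d =
      (fun t => t - C) '' ((fun t => t + g t / |F c|) '' meetSet S t0 t1 (N.openArc c)) := by
    ext θ
    constructor
    · rintro ⟨t, ht, x, hx, h1, h2⟩
      refine ⟨t + g t / |F c|, ⟨t, ⟨ht, ⟨x, hx, h1.symm⟩⟩, rfl⟩, ?_⟩
      simp only
      rw [h2, hkey t x hx h1]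
    · rintro ⟨y, ⟨t, ⟨ht, ⟨x, hx, hxt⟩⟩, rfl⟩, h2⟩
      refine ⟨t, ht, x, hx, hxt.symm, ?_⟩
      simp only at h2
      rw [hkey t x hx hxt.symm, ← h2]
  rw [hset, meeting_vol_shift]
  have h3 := image_measure_le hgL (abs_pos.2 hF)
    (meetSet_open hS.continuous t0 t1 (isOpen_openArc N c)) (meetSet_ne_top S t0 t1 _)
    (U := meetSet S t0 t1 (N.openArc c)) (by
      refine Filter.Eventually.of_forall fun t ht => ?_
      rw [hderiv, abs_mul, hεa, one_mul]
      exact meeting_deriv_le N hψ hS ht.2)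
  refine h3.trans (le_of_eq ?_)
  have h4 : ∀ t, 1 + deriv g t / |F c| = 1 + d / F c * deriv f t := by
    intro t
    rw [hderiv, hκ]
    ring
  simp only [h4]

end MPacf82c.St
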