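import Pool.Agent.Lib.MP_acf82c_lc.S.SpecA
import Pool.Agent.Lib.MP_acf82c_lc.PermAvg

/-!
# Stability: the key proposition
-/

namespace MPacf82c.St

open Finset

private theorem key_pavg_mono {n : ℕ} {f g : Equiv.Perm (Fin n) → ℝ} (h : ∀ π, f π ≤ g π) :
    pavg f ≤ pavg g := by
  unfold pavg
  exact div_le_div_of_nonneg_right (Finset.sum_le_sum fun π _ => h π) (Nat.cast_nonneg _)

private theorem key_pavg_const {n : ℕ} (c : ℝ) :
    pavg (fun _ : Equiv.Perm (Fin n) => c) = c := by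
  have h : ((n.factorial : ℕ) : ℝ) ≠ 0 := by
    exact_mod_cast n.factorial_ne_zero
  unfold pavg
  rw [Finset.sum_const, Finset.card_univ, Fintype.card_perm, Fintype.card_fin, nsmul_eq_mul]
  field_simp

private theorem key_pavg_sum {n : ℕ} {ι : Type} [Fintype ι] (q : ι → ℝ)
    (f : ι → Equiv.Perm (Fin n) → ℝ) :
    ∑ i, q i * pavg (f i) = pavg fun π => ∑ i, q i * f i π := by
  unfold pavg
  rw [Finset.sum_comm, Finset.sum_div]
  refine Finset.sum_congr rfl fun i _ => ?_
  rw [← Finset.mul_sum, mul_div_assoc]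

/-- Random relabelling of a mixture of plans. -/
private theorem key_relabel {n B M K : ℕ} {ι : Type} [Fintype ι] {q : ι → ℝ}
    {y : ι → ℕ → Fin n} {b : ι → ℕ → Bool} {V : ℝ} (h : IsMix n B M K q y b V)
    (L : ℕ → Finset (Fin n)) (hL : ∀ k, (L k).card ≤ B) :
    V ≤ ∑ i, q i * pavg fun π => payoff B M L (fun k => π (y i k)) (b i) := by
  rw [key_pavg_sum]
  calc V = pavg (fun _ : Equiv.Perm (Fin n) => V) := (key_pavg_const V).symm
    _ ≤ _ := by
      refine key_pavg_mono fun π => ?_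
      have h1 : ∀ i, payoff B M L (fun k => π (y i k)) (b i) =
          payoff B M (fun k => (L k).map π.symm.toEmbedding) (y i) (b i) :=
        fun i => payoff_perm B M π L (y i) (b i)
      simp only [h1]
      exact h.val _ fun k => by rw [Finset.card_map]; exact hL k

private theorem key_arith (t P V x R : ℝ) (ht : 0 < t) (ht1 : t ≤ 1 / 40) (hR : 0 < R)
    (h1 : R ≤ P) (h2 : P ≤ 2 * R) (hV : V ≤ (1 - 1 / 40) * P)
    (hx1 : t * R / 2 ≤ x) (hx2 : x ≤ t * R) (hx3 : 1 ≤ x) :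
    t * (1 / 40) / 24 * P ≤ (x + 1) / 2 - (x ^ 2 - 1) / (6 * P) - (x - 1) * V / (2 * P) -
      V * (t ^ 2 * (1 / 40) / 96 * P) / x := by
  have hP : 0 < P := lt_of_lt_of_le hR h1
  have hx : 0 < x := by linarith
  have a1 : (x ^ 2 - 1) / (6 * P) ≤ x * t / 6 := by
    rw [div_le_iff₀ (by positivity)]
    have e1 : x * x ≤ x * (t * R) := mul_le_mul_of_nonneg_left hx2 hx.le
    have e2 : x * t * R ≤ x * t * P := mul_le_mul_of_nonneg_left h1 (by positivity)
    nlinarith
  have a2 : (x - 1) * V / (2 * P) ≤ (x - 1) * (39 / 80) := by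
    rw [div_le_iff₀ (by positivity)]
    have e1 : (x - 1) * V ≤ (x - 1) * ((1 - 1 / 40) * P) :=
      mul_le_mul_of_nonneg_left hV (by linarith)
    nlinarith
  have a3 : V * (t ^ 2 * (1 / 40) / 96 * P) / x ≤ t * R / 480 := by
    rw [div_le_iff₀ hx]
    have e0 : V ≤ 2 * R := by nlinarith
    have e1 : V * P ≤ (2 * R) * (2 * R) := mul_le_mul e0 h2 hP.le (by positivity)
    have e2 : t * R / 480 * (t * R / 2) ≤ t * R / 480 * x :=
      mul_le_mul_of_nonneg_left hx1 (by positivity)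
    have e3 : t ^ 2 * (V * P) ≤ t ^ 2 * ((2 * R) * (2 * R)) :=
      mul_le_mul_of_nonneg_left e1 (by positivity)
    nlinarith
  have a4 : x * t ≤ x * (1 / 40) := mul_le_mul_of_nonneg_left ht1 hx.le
  have a5 : t * P ≤ t * (2 * R) := mul_le_mul_of_nonneg_left h2 ht.le
  nlinarith

theorem sKey (hB : S_CaseB) (hA : S_CaseA) (hC : S_CatAdm) (hX : S_ExtPay) (hP : S_GePay) :
    S_Key := by
  intro γ hγ0 hγ1
  obtain ⟨t, ht0, ht1, ht2⟩ : ∃ t : ℝ, 0 < t ∧ t ≤ 1 / 40 ∧ t ≤ γ / 16 :=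
    ⟨min (γ / 16) (1 / 40), lt_min (by positivity) (by norm_num), min_le_right _ _,
      min_le_left _ _⟩
  obtain ⟨η3, h30, h31, L0, B0, hB⟩ := hB γ (t ^ 2 * (1 / 40) / 96) hγ0 hγ1 (by positivity)
    (by nlinarith)
  have hη : η3 * (t * (1 / 40) / 24) ≤ η3 * 1 :=
    mul_le_mul_of_nonneg_left (by linarith) h30.le
  refine ⟨η3 * (t * (1 / 40) / 24) / 4, by positivity, by linarith, L0, max B0 1, fun K => ?_⟩
  obtain ⟨R0, hB⟩ := hB K
  refine ⟨max R0 ⌈2 / t⌉₊, ?_⟩
  intro R n B M V hR hBB hn1 hn2 hLM hV1 hV2 hHV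
  obtain ⟨ι, hι, q, y, b, hq0, hq1, hadm, hval⟩ := hHV
  have hmix : IsMix n B M K q y b V := ⟨hq0, hq1, hadm, hval⟩
  have hB1 : 0 < B := lt_of_lt_of_le Nat.one_pos (le_trans (le_max_right _ _) hBB)
  have hB0' : B0 ≤ B := le_trans (le_max_left _ _) hBB
  have hR0' : R0 ≤ R := le_trans (le_max_left _ _) hR
  have htR : 2 ≤ t * R := by
    have h1 : 2 / t ≤ (R : ℝ) :=
      le_trans (Nat.le_ceil _) (by exact_mod_cast le_trans (le_max_right _ _) hR)
    rw [div_le_iff₀ ht0] at h1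
    linarith
  have hRp : (0 : ℝ) < R := by
    by_contra h
    push Not at h
    have h1 : t * R ≤ 0 := mul_nonpos_of_nonneg_of_nonpos ht0.le h
    linarith
  have hRn : 0 < R := by exact_mod_cast hRp
  have hBp : (0 : ℝ) < B := by exact_mod_cast hB1
  have hBn : B ≤ n := le_trans (Nat.le_mul_of_pos_right B hRn) hn1
  have hnp : (0 : ℝ) < n := by exact_mod_cast lt_of_lt_of_le hB1 hBn
  obtain ⟨P, hPd⟩ : ∃ P : ℝ, P = (n : ℝ) / B := ⟨_, rfl⟩
  have hnP : (n : ℝ) = P * B := by rw [hPd]; field_simp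
  have hPp : 0 < P := by rw [hPd]; positivity
  have hP1 : (R : ℝ) ≤ P := by
    rw [hPd, le_div_iff₀ hBp]
    have : ((B * R : ℕ) : ℝ) ≤ n := by exact_mod_cast hn1
    push_cast at this
    linarith
  have hP2 : P ≤ 2 * R := by
    rw [hPd, div_le_iff₀ hBp]
    have h1 : (n : ℝ) ≤ (((B + 1) * R : ℕ) : ℝ) := by exact_mod_cast hn2
    push_cast at h1
    have h2 : (1 : ℝ) ≤ B := by exact_mod_cast hB1
    have h3 : 1 * (R : ℝ) ≤ B * R := mul_le_mul_of_nonneg_right h2 hRp.le
    linarith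
  have hVP : P / 2 ≤ V := by
    have : (n : ℝ) / (2 * B) = P / 2 := by rw [hPd]; field_simp
    rw [← this]
    exact hV1
  rw [← hPd] at hV2 ⊢
  obtain ⟨m0, hm0⟩ : ∃ m0 : ℕ, m0 = ⌊t * R⌋₊ := ⟨_, rfl⟩
  have hm1 : (m0 : ℝ) ≤ t * R := by
    rw [hm0]
    exact Nat.floor_le (by positivity)
  have hm2 : t * R / 2 ≤ (m0 : ℝ) := by
    have h1 : t * R < (⌊t * R⌋₊ : ℝ) + 1 := Nat.lt_floor_add_one _
    rw [← hm0] at h1
    linarith
  have hm3 : (1 : ℝ) ≤ m0 := by linarith
  have hm4 : 0 < m0 := by exact_mod_cast lt_of_lt_of_le one_pos hm3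
  have htR1 : t * R ≤ 1 / 40 * R := mul_le_mul_of_nonneg_right ht1 hRp.le
  have htR2 : t * R ≤ γ / 16 * R := mul_le_mul_of_nonneg_right ht2 hRp.le
  have hm5 : (m0 : ℝ) ≤ R := by linarith
  have hm6 : m0 ≤ R := by exact_mod_cast hm5
  have hm7 : m0 * B ≤ n := by
    refine le_trans ?_ hn1
    rw [mul_comm]
    exact Nat.mul_le_mul_left B hm6
  refine ⟨ι ⊕ (ι × Fin n × Fin m0), inferInstance,
    Sum.elim (fun i => (1 - η3 / 4) * q i) (fun p => η3 / 4 * q p.1 / (n * m0)),
    Sum.elim (fun i => extY M (y i)) (fun p => catY M p.2.2 p.2.1 (y p.1)),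
    Sum.elim (fun i => extB M (b i)) (fun p => catB M p.2.2 (b p.1)), ?_, ?_, ?_, ?_⟩
  · rintro (i | p)
    · exact mul_nonneg (by linarith) (hq0 i)
    · exact div_nonneg (mul_nonneg (by linarith) (hq0 _)) (by positivity)
  · rw [Fintype.sum_sum_type, Fintype.sum_prod_type]
    simp only [Sum.elim_inl, Sum.elim_inr]
    rw [← Finset.mul_sum, hq1]
    have h1 : ∀ i, ∑ _p : Fin n × Fin m0, η3 / 4 * q i / ((n : ℝ) * m0) = η3 / 4 * q i := by
      intro i
      rw [Finset.sum_const, Finset.card_univ, Fintype.card_prod, Fintype.card_fin,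
        Fintype.card_fin, nsmul_eq_mul]
      push_cast
      field_simp
    simp only [h1]
    rw [← Finset.mul_sum, hq1]
    ring
  · rintro (i | p)
    · exact (hC n M (M + R) K 0 (y i 0) (y i) (b i) (hadm i)).2
    · exact (hC n M (M + R) K p.2.2 p.2.1 (y p.1) (b p.1) (hadm p.1)).1
  · intro L G hL hG
    obtain ⟨S1, hS1⟩ : ∃ S1 : ℝ, S1 = ∑ i, q i * pavg fun π =>
        payoffG B (M + R) L G (fun k => π (extY M (y i) k)) (extB M (b i)) := ⟨_, rfl⟩
    obtain ⟨S2, hS2⟩ : ∃ S2 : ℝ, S2 = ∑ i, q i * ((∑ u : Fin n, ∑ s ∈ range m0, pavg fun π =>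
        payoffG B (M + R) L G (fun k => π (catY M s u (y i) k)) (catB M s (b i))) /
          ((n : ℝ) * m0)) := ⟨_, rfl⟩
    have hsum : (∑ i, Sum.elim (fun i => (1 - η3 / 4) * q i)
        (fun p : ι × Fin n × Fin m0 => η3 / 4 * q p.1 / ((n : ℝ) * m0)) i *
        pavg fun π => payoffG B (M + R) L G (fun k => π (Sum.elim (fun i => extY M (y i))
          (fun p : ι × Fin n × Fin m0 => catY M p.2.2 p.2.1 (y p.1)) i k))
          (Sum.elim (fun i => extB M (b i))
            (fun p : ι × Fin n × Fin m0 => catB M p.2.2 (b p.1)) i)) =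
        (1 - η3 / 4) * S1 + η3 / 4 * S2 := by
      rw [Fintype.sum_sum_type, Fintype.sum_prod_type]
      simp only [Sum.elim_inl, Sum.elim_inr]
      rw [hS1, hS2, Finset.mul_sum, Finset.mul_sum]
      congr 1
      · exact Finset.sum_congr rfl fun i _ => mul_assoc _ _ _
      · refine Finset.sum_congr rfl fun i _ => ?_
        rw [Fintype.sum_prod_type, Finset.sum_div, Finset.mul_sum, Finset.mul_sum]
        refine Finset.sum_congr rfl fun u _ => ?_
        rw [Finset.sum_range, Finset.sum_div, Finset.mul_sum, Finset.mul_sum]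
        refine Finset.sum_congr rfl fun s _ => ?_
        ring
    rw [hsum]
    have hS1a : (∑ i, q i * pavg fun π => payoffG B M L G (fun k => π (y i k)) (b i)) ≤ S1 := by
      rw [hS1]
      refine Finset.sum_le_sum fun i _ => mul_le_mul_of_nonneg_left ?_ (hq0 i)
      exact key_pavg_mono fun π =>
        hX n B M (M + R) γ L G (y i) (b i) π hB1 hL hG (Nat.le_add_right _ _)
    have hS2a : (∑ i, q i * ((∑ u : Fin n, ∑ s ∈ range m0, pavg fun π =>
        payoff B (M + R) L (fun k => π (catY M s u (y i) k)) (catB M s (b i))) /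
          ((n : ℝ) * m0))) ≤ S2 := by
      rw [hS2]
      refine Finset.sum_le_sum fun i _ => mul_le_mul_of_nonneg_left ?_ (hq0 i)
      refine div_le_div_of_nonneg_right ?_ (by positivity)
      refine Finset.sum_le_sum fun u _ => Finset.sum_le_sum fun s _ => ?_
      exact key_pavg_mono fun π => (hP n B (M + R) γ L G _ _ hB1 hL hG).1
    rcases le_total (t ^ 2 * (1 / 40) / 96 * (n : ℝ)) (∑ k ∈ range m0, ((B : ℝ) - (L k).card))
      with hcase | hcase
    · have h1 := hB R n B M m0 V ι hι q y b hR0' hB0' hn1 hn2 hLM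
        (by nlinarith) hV1 hmix L G hL hG hcase
      rw [← hPd] at h1
      have h2' : η3 * P ≤ 1 * P := mul_le_mul_of_nonneg_right h31 hPp.le
      have h2 : V + η3 * P ≤ 2 * P := by linarith
      rw [min_eq_right h2] at h1
      have h3 : V + η3 * P ≤ S1 := le_trans h1 hS1a
      have h4 : 0 ≤ S2 := by
        refine le_trans ?_ hS2a
        refine Finset.sum_nonneg fun i _ => mul_nonneg (hq0 i) (div_nonneg ?_ (by positivity))
        refine Finset.sum_nonneg fun u _ => Finset.sum_nonneg fun s _ => ?_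
        calc (0 : ℝ) = pavg (fun _ : Equiv.Perm (Fin n) => (0 : ℝ)) := (key_pavg_const 0).symm
          _ ≤ _ := key_pavg_mono fun π => (hP n B (M + R) γ L G _ _ hB1 hL hG).2.1
      have h5 : (1 - η3 / 4) * (V + η3 * P) ≤ (1 - η3 / 4) * S1 :=
        mul_le_mul_of_nonneg_left h3 (by linarith)
      have h6 : 0 ≤ η3 / 4 * S2 := mul_nonneg (by linarith) h4
      have h7 : η3 * V ≤ η3 * P := mul_le_mul_of_nonneg_left (by linarith) h30.le
      have h8 : η3 * (η3 * P) ≤ 1 * (η3 * P) :=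
        mul_le_mul_of_nonneg_right h31 (by positivity)
      have h9 : η3 * (t * (1 / 40) / 24) * P ≤ η3 * 1 * P :=
        mul_le_mul_of_nonneg_right hη hPp.le
      have h10 : 0 ≤ η3 * P := by positivity
      have h11 : (1 - η3 / 4) * (V + η3 * P) =
          V + η3 * P - η3 * V / 4 - η3 * (η3 * P) / 4 := by ring
      linarith
    · have h1 : V ≤ S1 := by
        refine le_trans (key_relabel hmix L hL) (le_trans ?_ hS1a)
        refine Finset.sum_le_sum fun i _ => mul_le_mul_of_nonneg_left ?_ (hq0 i)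
        exact key_pavg_mono fun π => (hP n B M γ L G _ _ hB1 hL hG).1
      have h2 := hA n B M (M + R) K m0 (t ^ 2 * (1 / 40) / 96) V ι hι q y b L hB1 hBn hm4 hm7
        (by linarith) hmix (by omega) hL hcase
      have h3 := key_arith t P V m0 R ht0 ht1 hRp hP1 hP2 hV2 hm2 hm1 hm3
      have e1 : ((m0 : ℝ) ^ 2 - 1) * B / (6 * n) = ((m0 : ℝ) ^ 2 - 1) / (6 * P) := by
        rw [hnP]
        field_simp
      have e2 : ((m0 : ℝ) - 1) * B * V / (2 * n) = ((m0 : ℝ) - 1) * V / (2 * P) := by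
        rw [hnP]
        field_simp
      have e3 : V * (t ^ 2 * (1 / 40) / 96 * n) / (B * m0) =
          V * (t ^ 2 * (1 / 40) / 96 * P) / m0 := by
        rw [hnP]
        field_simp
      rw [e1, e2, e3] at h2
      have h4 : V + t * (1 / 40) / 24 * P ≤ S2 := by
        refine le_trans ?_ (le_trans h2 hS2a)
        linarith
      have h5 : (1 - η3 / 4) * V ≤ (1 - η3 / 4) * S1 :=
        mul_le_mul_of_nonneg_left h1 (by linarith)
      have h6 : η3 / 4 * (V + t * (1 / 40) / 24 * P) ≤ η3 / 4 * S2 :=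
        mul_le_mul_of_nonneg_left h4 (by linarith)
      have h7 : V + η3 * (t * (1 / 40) / 24) / 4 * P =
          (1 - η3 / 4) * V + η3 / 4 * (V + t * (1 / 40) / 24 * P) := by ring
      linarith

end MPacf82c.St
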