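import Pool.Agent.Lib.MP_acf82c_lc.S.SpecB

/-!
# Stability, part B, module Lvl: levels of the potential

Two arcs whose currents have sum larger than `1` are both on some directed path of the
decomposition of the current, so their potential intervals do not overlap.
-/

namespace MPacf82c.St

open Set MeasureTheory
open scoped NNReal ENNReal

namespace Lvl

/-- Along a directed path the potential intervals of two different arcs do not overlap. -/
private theorem levels {Q : Type} [MetricSpace Q] (N : Network Q) (φ : Q → ℝ) {a b : Q}
    {l : List (N.Arc × Bool)}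
    (hl : DirPath (fun e => N.pt e 0) (fun e => N.pt e (N.len e)) φ a b l) :
    ∀ e ∈ l.map Prod.fst, ∀ e' ∈ l.map Prod.fst, e ≠ e' →
      hiP N φ e ≤ loP N φ e' ∨ hiP N φ e' ≤ loP N φ e := by
  induction hl with
  | nil v => simp
  | fwd e0 b l hφ hl ih =>
    intro e he e' he' hne
    rw [List.map_cons, List.mem_cons] at he he'
    have hlow : ∀ c ∈ l.map Prod.fst, hiP N φ c ≤ loP N φ e0 := by
      intro c hc
      have h1 := RouteReal.arcs_low hl c hc
      unfold hiP loP
      rw [min_eq_right hφ.le]
      exact max_le h1.1 h1.2
    rcases he with rfl | he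
    · rcases he' with rfl | he'
      · exact absurd rfl hne
      · exact Or.inr (hlow e' he')
    · rcases he' with rfl | he'
      · exact Or.inl (hlow e he)
      · exact ih e he e' he' hne
  | bwd e0 b l hφ hl ih =>
    intro e he e' he' hne
    rw [List.map_cons, List.mem_cons] at he he'
    have hlow : ∀ c ∈ l.map Prod.fst, hiP N φ c ≤ loP N φ e0 := by
      intro c hc
      have h1 := RouteReal.arcs_low hl c hc
      unfold hiP loP
      rw [min_eq_left hφ.le]
      exact max_le h1.1 h1.2
    rcases he with rfl | he
    · rcases he' with rfl | he'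
      · exact absurd rfl hne
      · exact Or.inr (hlow e' he')
    · rcases he' with rfl | he'
      · exact Or.inl (hlow e he)
      · exact ih e he e' he' hne

end Lvl

/-- levels of the potential -/
theorem sLvl : S_Lvl := by
  classical
  intro Q _ N D a b φ F m lam P hC e e' hne hlt
  by_contra hcon
  have hno : ∀ i, ¬ (e ∈ (P i).map Prod.fst ∧ e' ∈ (P i).map Prod.fst) := by
    intro i hi
    exact hcon (Lvl.levels N φ (hC.path i) e hi.1 e' hi.2 hne)
  have h1 : (∑ i, (if e ∈ (P i).map Prod.fst then lam i else 0)) = |F e| := by
    rw [← hC.flow e]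
  have h2 : (∑ i, (if e' ∈ (P i).map Prod.fst then lam i else 0)) = |F e'| := by
    rw [← hC.flow e']
  have h3 : |F e| + |F e'| ≤ ∑ i, lam i := by
    rw [← h1, ← h2, ← Finset.sum_add_distrib]
    refine Finset.sum_le_sum fun i _ => ?_
    have h0 := hC.lam_nonneg i
    by_cases he : e ∈ (P i).map Prod.fst
    · have he' : e' ∉ (P i).map Prod.fst := fun h => hno i ⟨he, h⟩
      rw [if_pos he, if_neg he', add_zero]
    · rw [if_neg he, zero_add]
      split_ifs
      · exact le_rfl
      · exact h0
  rw [hC.lam_sum] at h3
  linarith

end MPacf82c.St
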