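import Pool.Agent.Lib.MP_acf82c_lc.S.SpecA

/-!
# Averaging over sequences of searches (module Mix)
-/

set_option autoImplicit false

namespace MPacf82c.St

namespace Mix

private theorem prod_cut (M m : ℕ) (hm : m ≤ M) (h : ℕ → ℝ) :
    ∏ k : Fin M, (if (k : ℕ) < m then h k else 1) = ∏ k ∈ Finset.range m, h k := by
  rw [Fin.prod_univ_eq_prod_range (fun k => if k < m then h k else 1) M, Finset.prod_ite,
    Finset.prod_const_one, mul_one]
  refine Finset.prod_congr ?_ fun _ _ => rfl
  ext k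
  rw [Finset.mem_filter, Finset.mem_range, Finset.mem_range]
  omega

/-- the searches of the sequence `c` -/
private def Lc {n M : ℕ} (Λ : ℕ → Fin n → Finset (Fin n)) (c : Fin M → Fin n) (k : ℕ) :
    Finset (Fin n) := if h : k < M then Λ k (c ⟨k, h⟩) else ∅

private theorem sum_surv (n B M m : ℕ) (hn : 0 < n) (hm : m ≤ M)
    (Λ : ℕ → Fin n → Finset (Fin n)) (y : ℕ → Fin n) (b : ℕ → Bool) :
    ∑ c : Fin M → Fin n, surv B (Lc Λ c) y b m =
      (n : ℝ) ^ M * ∏ k ∈ Finset.range m, ((∑ j, fac B (Λ k j) (y k) (b k)) / (n : ℝ)) := by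
  have h1 : ∀ c : Fin M → Fin n, surv B (Lc Λ c) y b m =
      ∏ k : Fin M, (if (k : ℕ) < m then fac B (Λ k (c k)) (y k) (b k) else 1) := by
    intro c
    unfold surv
    rw [← prod_cut M m hm (fun k => fac B (Lc Λ c k) (y k) (b k))]
    refine Finset.prod_congr rfl fun k _ => ?_
    have h2 : Lc Λ c (k : ℕ) = Λ k (c k) := by
      unfold Lc
      rw [dif_pos k.2]
    rw [h2]
  simp only [h1]
  have h3 : ∑ c : Fin M → Fin n,
      ∏ k : Fin M, (if (k : ℕ) < m then fac B (Λ k (c k)) (y k) (b k) else 1) =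
      ∏ k : Fin M, ∑ j : Fin n, (if (k : ℕ) < m then fac B (Λ k j) (y k) (b k) else 1) := by
    rw [Finset.prod_univ_sum]
    rw [Fintype.piFinset_univ]
  rw [h3, ← prod_cut M m hm]
  have hn' : (n : ℝ) ≠ 0 := by exact_mod_cast hn.ne'
  have h4 : ((n : ℝ) ^ M) = ∏ _k : Fin M, (n : ℝ) := by
    rw [Finset.prod_const, Finset.card_univ, Fintype.card_fin]
  rw [h4, ← Finset.prod_mul_distrib]
  refine Finset.prod_congr rfl fun k _ => ?_
  by_cases hk : (k : ℕ) < m
  · simp only [hk, if_true]
    rw [mul_div_cancel₀ _ hn']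
  · simp only [hk, if_false, Finset.sum_const, Finset.card_univ, Fintype.card_fin, nsmul_eq_mul]

end Mix

open Mix in
theorem sMix : S_Mix := by
  intro n B M ι _ q y b V Λ hn hq hval hΛ
  have hn' : (0 : ℝ) < (n : ℝ) ^ M := by positivity
  have h1 : ∀ c : Fin M → Fin n, V ≤ ∑ i, q i * payoff B M (Lc Λ c) (y i) (b i) := by
    intro c
    refine hval _ fun k => ?_
    unfold Lc
    split_ifs
    · exact hΛ _ _
    · rw [Finset.card_empty]
      exact Nat.zero_le _
  have h2 : (n : ℝ) ^ M * V ≤ (n : ℝ) ^ M * ∑ i, q i * rnd B M Λ (y i) (b i) := by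
    calc (n : ℝ) ^ M * V = ∑ _c : Fin M → Fin n, V := by
          rw [Finset.sum_const, Finset.card_univ, Fintype.card_fun, Fintype.card_fin,
            Fintype.card_fin, nsmul_eq_mul, Nat.cast_pow]
      _ ≤ ∑ c : Fin M → Fin n, ∑ i, q i * payoff B M (Lc Λ c) (y i) (b i) :=
          Finset.sum_le_sum fun c _ => h1 c
      _ = ∑ i, q i * ∑ c : Fin M → Fin n, payoff B M (Lc Λ c) (y i) (b i) := by
          rw [Finset.sum_comm]
          exact Finset.sum_congr rfl fun i _ => (Finset.mul_sum _ _ _).symm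
      _ = ∑ i, q i * ((n : ℝ) ^ M * rnd B M Λ (y i) (b i)) := by
          refine Finset.sum_congr rfl fun i _ => ?_
          congr 1
          unfold payoff rnd
          rw [Finset.sum_comm, Finset.mul_sum]
          exact Finset.sum_congr rfl fun m hm =>
            sum_surv n B M m hn (Finset.mem_range.1 hm).le Λ (y i) (b i)
      _ = (n : ℝ) ^ M * ∑ i, q i * rnd B M Λ (y i) (b i) := by
          rw [Finset.mul_sum]
          exact Finset.sum_congr rfl fun i _ => by ring
  exact le_of_mul_le_mul_left h2 hn'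

end MPacf82c.St
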