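import Pool.Agent.Lib.MP_acf82c_lc.S.SpecA
import Pool.Agent.Lib.MP_acf82c_lc.PermAvg

/-!
# Independent random search against permuted labels
-/

set_option autoImplicit false

namespace MPacf82c.St

theorem sMixP (hM : S_Mix) : S_MixP := by
  intro n B M K ι _ q y b V Λ hn hmix hΛ
  have h1 : ∀ π : Equiv.Perm (Fin n), V ≤ ∑ i, q i * rnd B M Λ (fun k => π (y i k)) (b i) := by
    intro π
    refine hM n B M ι _ q (fun i k => π (y i k)) b V Λ hn hmix.nonneg (fun L hL => ?_) hΛ
    have h2 := hmix.val (fun k => (L k).map π.symm.toEmbedding) (fun k => by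
      rw [Finset.card_map]
      exact hL k)
    simpa only [payoff_perm B M π L] using h2
  have hf : (0 : ℝ) < (n.factorial : ℝ) := by exact_mod_cast n.factorial_pos
  have h3 : ∑ i, q i * pavg (fun π => rnd B M Λ (fun k => π (y i k)) (b i)) =
      (∑ π : Equiv.Perm (Fin n), ∑ i, q i * rnd B M Λ (fun k => π (y i k)) (b i)) /
        (n.factorial : ℝ) := by
    rw [Finset.sum_comm, Finset.sum_div]
    refine Finset.sum_congr rfl fun i _ => ?_
    rw [pavg, ← Finset.mul_sum, mul_div_assoc]
  rw [h3, le_div_iff₀ hf]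
  calc V * (n.factorial : ℝ) = ∑ _π : Equiv.Perm (Fin n), V := by
        rw [Finset.sum_const, Finset.card_univ, Fintype.card_perm, Fintype.card_fin,
          nsmul_eq_mul, mul_comm]
    _ ≤ _ := Finset.sum_le_sum fun π _ => h1 π

end MPacf82c.St
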