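import Pool.Agent.Lib.MP_acf82c_lc.S.SpecB
import Pool.Agent.Lib.MP_acf82c_lc.MoveOne

/-!
# MP_acf82c_lc, S/MoveGen: random moves from random routes (helper62)
-/

namespace MPacf82c.St

open Set MeasureTheory
open scoped NNReal ENNReal

theorem sMoveGen : S_MoveGen := by
  classical
  intro Q _ m lam T r p q T0 Γ Y hlam hsum hT hr hr0 hr1 hΓ0 hΓT hYs hY1
  have hTG : 0 < T0 - Γ := sub_pos.2 hΓT
  have hind0 : ∀ i, 0 ≤ lam i * ind (Γ < T i) := fun i =>
    mul_nonneg (hlam i) (by unfold ind; split_ifs <;> norm_num)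
  have hY0 : 0 ≤ Y := (Finset.sum_nonneg fun i _ => hind0 i).trans hYs
  obtain ⟨i₀, hi₀⟩ : ∃ i₀, T i₀ ≤ Γ := by
    by_contra hcon
    push Not at hcon
    have h1 : ∑ i, lam i * ind (Γ < T i) = 1 := by
      rw [← hsum]
      refine Finset.sum_congr rfl fun i _ => ?_
      rw [ind, if_pos (hcon i), mul_one]
    linarith
  let ρ : ℕ → Fin m := fun n => if h : n < m then (if T ⟨n, h⟩ ≤ Γ then ⟨n, h⟩ else i₀) else i₀
  have hρ : ∀ n, T (ρ n) ≤ Γ := by
    intro n
    simp only [ρ]
    split_ifs with h1 h2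
    · exact h2
    · exact hi₀
    · exact hi₀
  have hρ' : ∀ i : Fin m, T i ≤ Γ → ρ i = i := by
    intro i hi
    simp [ρ, hi]
  let cl : ℝ → ℝ := fun θ => max 0 (min θ (T0 - Γ))
  have hcl0 : ∀ θ, 0 ≤ cl θ := fun θ => le_max_left _ _
  have hcl1 : ∀ θ, cl θ ≤ T0 - Γ := fun θ => max_le hTG.le (min_le_right _ _)
  have hcl : ∀ θ ∈ Icc 0 (T0 - Γ), cl θ = θ := by
    intro θ hθ
    simp only [cl]
    rw [min_eq_left hθ.2, max_eq_right hθ.1]
  have hclc : Continuous cl := continuous_const.max (continuous_id.min continuous_const)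
  have hemb : ∀ i : Fin m, MeasurableEmbedding (Prod.mk (i : ℕ) : ℝ → ℕ × ℝ) :=
    fun i => measurableEmbedding_prodMk_left _
  let P : Measure (ℕ × ℝ) :=
    ∑ i : Fin m, ENNReal.ofReal (lam i) • (moveOneUnif (T0 - Γ)).map (Prod.mk (i : ℕ))
  have hP : ∀ A : Set (ℕ × ℝ), P A =
      ∑ i : Fin m, ENNReal.ofReal (lam i) * moveOneUnif (T0 - Γ) (Prod.mk (i : ℕ) ⁻¹' A) := by
    intro A
    simp only [P, Measure.coe_finsetSum, Finset.sum_apply, Measure.smul_apply, smul_eq_mul]
    refine Finset.sum_congr rfl fun i _ => ?_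
    rw [(hemb i).map_apply]
  have hPuniv : P univ = 1 := by
    rw [hP]
    simp only [preimage_univ, moveOneUnif_univ hTG, mul_one]
    rw [← ENNReal.ofReal_sum_of_nonneg fun i _ => hlam i, hsum, ENNReal.ofReal_one]
  refine ⟨P, fun ω t => r (ρ ω.1) (t - cl ω.2), ⟨hPuniv⟩, ?_, ?_, ?_, ?_, ?_⟩
  · intro ω
    refine LipschitzWith.of_dist_le_mul fun a b => ?_
    have := (hr (ρ ω.1)).dist_le_mul (a - cl ω.2) (b - cl ω.2)
    rwa [dist_sub_right] at this
  · intro ω t ht
    exact hr0 _ _ (by linarith [hcl0 ω.2])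
  · intro ω t ht
    exact hr1 _ _ (by linarith [hcl1 ω.2, hρ ω.1])
  · intro t
    let _ : MeasurableSpace Q := borel Q
    have : BorelSpace Q := ⟨rfl⟩
    refine measurable_from_prod_countable_right fun i => ?_
    exact ((hr (ρ i)).continuous.comp (continuous_const.sub hclc)).measurable
  · intro S hS t0
    set A : Set (ℕ × ℝ) :=
      {ω | ∃ t ∈ Icc t0 (t0 + T0), S t = r (ρ ω.1) (t - t0 - cl ω.2)} with hA
    have hXT : 0 ≤ (∑ i, lam i * (volume (badSet S t0 (t0 + T0) (r i) (T i))).toReal) /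
        (T0 - Γ) :=
      div_nonneg (Finset.sum_nonneg fun i _ => mul_nonneg (hlam i) ENNReal.toReal_nonneg) hTG.le
    have hi0 : ∀ R : Prop, 0 ≤ ind R := by
      intro R
      unfold ind
      split_ifs <;> norm_num
    have hi1 : ∀ R : Prop, R → ind R = 1 := fun R hR => if_pos hR
    by_cases hC : (∃ t ∈ Icc t0 (t0 + T0), S t = p) ∨ (∃ t ∈ Icc t0 (t0 + T0), S t = q)
    · have h1 : (P A).toReal ≤ 1 := by
        have h2 : P A ≤ 1 := (measure_mono (subset_univ A)).trans hPuniv.le
        have := ENNReal.toReal_mono ENNReal.one_ne_top h2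
        simpa using this
      have h2 : (1 : ℝ) ≤ ind (∃ t ∈ Icc t0 (t0 + T0), S t = p) +
          ind (∃ t ∈ Icc t0 (t0 + T0), S t = q) := by
        rcases hC with hC | hC
        · rw [hi1 _ hC]
          linarith [hi0 (∃ t ∈ Icc t0 (t0 + T0), S t = q)]
        · rw [hi1 _ hC]
          linarith [hi0 (∃ t ∈ Icc t0 (t0 + T0), S t = p)]
      linarith
    · push Not at hC
      obtain ⟨hC1, hC2⟩ := hC
      have hBadfin : ∀ i, volume (badSet S t0 (t0 + T0) (r i) (T i)) ≠ ⊤ := by
        intro i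
        have h1 : badSet S t0 (t0 + T0) (r i) (T i) ⊆ Icc (t0 - T i) (t0 + T0) := by
          rintro θ ⟨t, ht, h1, h2, _⟩
          exact ⟨by linarith [ht.1], by linarith [ht.2]⟩
        exact ne_top_of_le_ne_top (by rw [Real.volume_Icc]; exact ENNReal.ofReal_ne_top)
          (measure_mono h1)
      have hUA : ∀ i : Fin m, T i ≤ Γ →
          moveOneUnif (T0 - Γ) (Prod.mk (i : ℕ) ⁻¹' A) ≤
            ENNReal.ofReal (T0 - Γ)⁻¹ * volume (badSet S t0 (t0 + T0) (r i) (T i)) := by
        intro i hi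
        rw [moveOneUnif_apply]
        refine mul_le_mul_right ?_ _
        have h1 : Prod.mk (i : ℕ) ⁻¹' A ∩ Icc 0 (T0 - Γ) ⊆
            (fun θ => t0 + θ) ⁻¹' badSet S t0 (t0 + T0) (r i) (T i) := by
          rintro θ ⟨⟨t, ht, h⟩, hθ⟩
          simp only at h
          rw [hρ' i hi, hcl θ hθ] at h
          refine ⟨t, ht, ?_, ?_, ?_⟩
          · by_contra hlt
            push Not at hlt
            have h2 := hr0 i (t - t0 - θ) (by linarith)
            rw [h2] at h
            exact hC1 t ht h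
          · by_contra hlt
            push Not at hlt
            have h2 := hr1 i (t - t0 - θ) (by linarith)
            rw [h2] at h
            exact hC2 t ht h
          · rw [h]
            congr 1
            ring
        calc volume (Prod.mk (i : ℕ) ⁻¹' A ∩ Icc 0 (T0 - Γ))
            ≤ volume ((fun θ => t0 + θ) ⁻¹' badSet S t0 (t0 + T0) (r i) (T i)) := measure_mono h1
          _ = volume (badSet S t0 (t0 + T0) (r i) (T i)) := measure_preimage_add _ _ _
      have hterm : ∀ i : Fin m,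
          (moveOneUnif (T0 - Γ) (Prod.mk (i : ℕ) ⁻¹' A)).toReal ≤
            (volume (badSet S t0 (t0 + T0) (r i) (T i))).toReal / (T0 - Γ) +
              ind (Γ < T i) := by
        intro i
        by_cases hi : T i ≤ Γ
        · have h1 := ENNReal.toReal_mono (ENNReal.mul_ne_top ENNReal.ofReal_ne_top (hBadfin i))
            (hUA i hi)
          rw [ENNReal.toReal_mul, ENNReal.toReal_ofReal (inv_nonneg.2 hTG.le)] at h1
          have h2 := hi0 (Γ < T i)
          have h3 : (volume (badSet S t0 (t0 + T0) (r i) (T i))).toReal / (T0 - Γ) =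
            (T0 - Γ)⁻¹ * (volume (badSet S t0 (t0 + T0) (r i) (T i))).toReal := by
              rw [div_eq_inv_mul]
          linarith
        · have h1 := ENNReal.toReal_mono ENNReal.one_ne_top
            (moveOneUnif_le_one hTG (Prod.mk (i : ℕ) ⁻¹' A))
          rw [ENNReal.toReal_one] at h1
          have h2 : ind (Γ < T i) = 1 := hi1 _ (not_le.1 hi)
          have h3 : 0 ≤ (volume (badSet S t0 (t0 + T0) (r i) (T i))).toReal / (T0 - Γ) :=
            div_nonneg ENNReal.toReal_nonneg hTG.le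
          linarith
      have hsumR : (P A).toReal = ∑ i : Fin m, lam i *
          (moveOneUnif (T0 - Γ) (Prod.mk (i : ℕ) ⁻¹' A)).toReal := by
        rw [hP, ENNReal.toReal_sum]
        · refine Finset.sum_congr rfl fun i _ => ?_
          rw [ENNReal.toReal_mul, ENNReal.toReal_ofReal (hlam i)]
        · intro i _
          exact ENNReal.mul_ne_top ENNReal.ofReal_ne_top
            (ne_top_of_le_ne_top ENNReal.one_ne_top (moveOneUnif_le_one hTG _))
      have hfin : (P A).toReal ≤
          (∑ i, lam i * (volume (badSet S t0 (t0 + T0) (r i) (T i))).toReal) / (T0 - Γ) + Y := by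
        calc (P A).toReal = ∑ i : Fin m, lam i *
            (moveOneUnif (T0 - Γ) (Prod.mk (i : ℕ) ⁻¹' A)).toReal := hsumR
          _ ≤ ∑ i : Fin m, lam i * ((volume (badSet S t0 (t0 + T0) (r i) (T i))).toReal /
              (T0 - Γ) + ind (Γ < T i)) :=
            Finset.sum_le_sum fun i _ => mul_le_mul_of_nonneg_left (hterm i) (hlam i)
          _ = (∑ i : Fin m, lam i * (volume (badSet S t0 (t0 + T0) (r i) (T i))).toReal) /
                (T0 - Γ) + ∑ i : Fin m, lam i * ind (Γ < T i) := by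
            rw [Finset.sum_div, ← Finset.sum_add_distrib]
            refine Finset.sum_congr rfl fun i _ => ?_
            ring
          _ ≤ _ := add_le_add le_rfl hYs
      have h5 := hi0 (∃ t ∈ Icc t0 (t0 + T0), S t = p)
      have h6 := hi0 (∃ t ∈ Icc t0 (t0 + T0), S t = q)
      linarith

end MPacf82c.St
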