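import Pool.Agent.Lib.MP_acf82c_lc.S.SpecC
import Pool.Agent.Lib.MP_acf82c_lc.Arith

/-!
# Stability, part C: good moves in a network without a centre
-/

namespace MPacf82c.St

open Set MeasureTheory
open scoped NNReal ENNReal

namespace NetG

/-- `GoodMovesG` is monotone in the error. -/
theorem mono {Q : Type} [MetricSpace Q] {n B : ℕ} {T0 err err' γ : ℝ} (hn : 1 ≤ n)
    (he : err ≤ err') (h : GoodMovesG Q n B T0 err γ) : GoodMovesG Q n B T0 err' γ := by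
  obtain ⟨x, P, mv, h1, h2, h3, h4, h5, h6, h7⟩ := h
  refine ⟨x, P, mv, h1, h2, h3, h4, h5, h6, fun S hS t0 => ?_⟩
  obtain ⟨L, hL1, hL2, z, G, hz1, hz2, hG, hP⟩ := h7 S hS t0
  refine ⟨L, hL1, hL2, z, G, hz1, hz2.trans ?_, hG, hP⟩
  have h1n : (1 : ℝ) ≤ n := by exact_mod_cast hn
  have h0 : (0 : ℝ) ≤ (n : ℝ) * (n - 1) := mul_nonneg (by linarith) (by linarith)
  exact mul_le_mul_of_nonneg_left he h0

/-- Arithmetic of the parameters. -/
theorem arith {γ δ μ h n1 : ℝ} (hγ : 0 < γ) (hγ1 : γ ≤ 1) (hδ : 0 < δ) (hδγ : δ ≤ γ ^ 4 / 36)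
    (hμ : 0 < μ) (h2 : 2 / δ ≤ n1) (h3 : 3 / γ ≤ n1) (hn : n1 * h ≤ μ) (hh : 0 < h) :
    2 * h ≤ δ * μ ∧ 3 * h ≤ γ * μ ∧ 3 * (δ * μ) ≤ γ ^ 4 * μ ∧
      Real.sqrt (μ * (δ * μ)) ≤ γ ^ 2 * μ / 6 ∧
      2 * Real.sqrt (μ * (δ * μ)) + 2 * (δ * μ + 2 * h) ≤ γ ^ 2 * μ ∧
      Real.sqrt (μ * (δ * μ)) + 2 * (δ * μ) < γ * μ ∧ δ * μ + 2 * h ≤ γ * μ := by
  have a1 : 2 * h ≤ δ * μ := by
    have : 2 / δ * h ≤ μ := (mul_le_mul_of_nonneg_right h2 hh.le).trans hn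
    rw [div_mul_eq_mul_div, div_le_iff₀ hδ] at this
    linarith
  have a2 : 3 * h ≤ γ * μ := by
    have : 3 / γ * h ≤ μ := (mul_le_mul_of_nonneg_right h3 hh.le).trans hn
    rw [div_mul_eq_mul_div, div_le_iff₀ hγ] at this
    linarith
  have b1 : δ * μ ≤ γ ^ 4 / 36 * μ := mul_le_mul_of_nonneg_right hδγ hμ.le
  have b2 : 0 < γ ^ 4 * μ := by positivity
  have a4 : Real.sqrt (μ * (δ * μ)) ≤ γ ^ 2 * μ / 6 := by
    refine Real.sqrt_le_iff.2 ⟨by positivity, ?_⟩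
    calc μ * (δ * μ) ≤ μ * (γ ^ 4 / 36 * μ) := mul_le_mul_of_nonneg_left b1 hμ.le
      _ = (γ ^ 2 * μ / 6) ^ 2 := by ring
  have c1 : γ ^ 2 ≤ γ := by
    calc γ ^ 2 = γ * γ := by ring
      _ ≤ γ * 1 := mul_le_mul_of_nonneg_left hγ1 hγ.le
      _ = γ := mul_one γ
  have c2 : γ ^ 4 ≤ γ ^ 2 := by
    calc γ ^ 4 = γ ^ 2 * γ ^ 2 := by ring
      _ ≤ γ ^ 2 * 1 := mul_le_mul_of_nonneg_left (c1.trans hγ1) (by positivity)
      _ = γ ^ 2 := mul_one _
  have c3 : γ ^ 4 * μ ≤ γ ^ 2 * μ := mul_le_mul_of_nonneg_right c2 hμ.le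
  have c4 : γ ^ 2 * μ ≤ γ * μ := mul_le_mul_of_nonneg_right c1 hμ.le
  have c5 : 0 < γ ^ 2 * μ := by positivity
  have c6 : 0 < γ * μ := by positivity
  refine ⟨a1, a2, by linarith, a4, by linarith, by linarith, by linarith⟩

end NetG

open Classical in
theorem sNetG (hX : S_SamplesX) (hD : S_CountD) (hS : S_Special) (hN : S_NetMovesG)
    (hE : S_ErrMono) (hh : S_HSmall) : S_NetG := by
  intro g hg hg2 R hR3 γ δ hγ hγR hδ hδγ hδg Q _ N hdist hNC hμ
  have hR3r : (3 : ℝ) ≤ R := by exact_mod_cast hR3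
  have hR0 : (0 : ℝ) < R := by linarith
  have hγ1 : γ ≤ 1 := by
    refine hγR.trans ?_
    rw [div_le_one (by positivity)]
    linarith
  obtain ⟨n1, hn1⟩ := exists_nat_ge (32 + 16 / g + 3 / γ + 2 / δ)
  have p1 : 0 < 16 / g := by positivity
  have p2 : 0 < 3 / γ := by positivity
  have p3 : 0 < 2 / δ := by positivity
  obtain ⟨h0, hh0, hsm⟩ := hh Q N hμ R n1 hR3
  refine ⟨h0, hh0, fun h hhp hhle n B hn hB => ?_⟩
  obtain ⟨q1, q2, q3, q4, q5, q6, q7, q8, q9, q10, q11⟩ := hsm h hhp hhle n B hn hB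
  have q2r : (n1 : ℝ) ≤ n := by exact_mod_cast q2
  have hn32 : (32 : ℝ) ≤ n := by linarith
  have hn32' : 32 ≤ n := by exact_mod_cast hn32
  have hgn : 16 ≤ g * n := by
    have : 16 / g ≤ n := by linarith
    rw [div_le_iff₀ hg] at this
    linarith
  have hn0 : (0 : ℝ) < n := by linarith
  obtain ⟨r1, r2, r3, r4, r5, r6, r7⟩ := NetG.arith (n1 := (n1 : ℝ)) hγ hγ1 hδ hδγ hμ
    (by linarith) (by linarith) q11 hhp
  obtain ⟨arcOf, pos, s1, s2, s3, s4, s5⟩ := hX Q N h hhp q1 n hn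
  have hδμ : 0 < δ * N.length := by positivity
  have hDg : δ * N.length ≤ g * N.length / 32 := by
    have := mul_le_mul_of_nonneg_right hδg hμ.le
    linarith
  have hcount : ∀ p ∈ N.nodes, _ := fun p hp =>
    hD Q N (δ * N.length) (δ * N.length) g h n arcOf pos p hdist hp hδμ.le hg hhp s1 s4 s5 hNC
      q6 q8 hDg
  have hsame : ∑ i, ∑ j, ind (arcOf i = arcOf j) ≤ (n : ℝ) ^ 2 / 16 := by
    have i0 : Fin n := ⟨0, by omega⟩
    have h1 := (hcount (N.pt (arcOf i0) 0) ⟨arcOf i0, Or.inl rfl⟩).1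
    have h2 : g * (n : ℝ) ^ 2 ≤ 1 / 2 * (n : ℝ) ^ 2 :=
      mul_le_mul_of_nonneg_right hg2 (by positivity)
    linarith
  obtain ⟨o, o', l, T, hSp⟩ := hS Q N (δ * N.length) g (δ * N.length + 2 * h) n arcOf pos hdist
    hg (by linarith) (by linarith) s1 hsame hn32' hgn fun p hp => (hcount p hp).2
  have hT0 : γ * N.length < h * (B - 1) := by
    have e1 : N.length / (2 * R) = 2 * (1 / (4 * R) * N.length) := by
      field_simp
      ring
    have e2 : γ * N.length ≤ 1 / (4 * R) * N.length := mul_le_mul_of_nonneg_right hγR hμ.le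
    have e3 : 0 < 1 / (4 * R) * N.length := by positivity
    linarith
  have hB1 : 1 ≤ B := by
    by_contra hcon
    have hB0 : B = 0 := by omega
    rw [hB0] at hT0
    have : 0 < γ * N.length := by positivity
    push_cast at hT0
    linarith
  have key := hN Q N (δ * N.length) h γ (γ * N.length) (g / 32) (δ * N.length + 2 * h) n B arcOf
    pos o o' l T hdist hhp s1 s2 s3 s4 hSp (by positivity) (by linarith) (by positivity) r7 hγ r6
    (by omega) hB1 hT0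
  have hg256 : g / 32 / 8 = g / 256 := by ring
  rw [hg256] at key
  refine NetG.mono (by omega) ?_ key
  have h1 := hE n (h * (B - 1)) h γ (γ * N.length) (3 * (δ * N.length)) (γ ^ 4 * N.length)
    (2 * Real.sqrt (N.length * (δ * N.length)) + 2 * (δ * N.length + 2 * h))
    (γ ^ 2 * N.length) (by omega) hhp hγ (by positivity) hT0 r3 r5
  refine h1.trans ?_
  unfold errN
  exact err_arith hμ hhp (by linarith) hγ hγR q9 q10 r2 (by linarith) hn0

end MPacf82c.St
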