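import Pool.Agent.Lib.MP_acf82c_lc.S.SpecC
import Pool.Agent.Lib.MP_acf82c_lc.MoveOne
import Pool.Agent.Lib.MP_acf82c_lc.Coverage

/-!
# Good moves with a bonus in a network
-/

namespace MPacf82c.St

open Set MeasureTheory
open scoped NNReal ENNReal

namespace NetMovesG

variable {Q : Type} [MetricSpace Q]

lemma ind_nonneg (p : Prop) : 0 ≤ ind p := by
  unfold ind; split_ifs <;> norm_num

lemma ind_le_one (p : Prop) : ind p ≤ 1 := by
  unfold ind; split_ifs <;> norm_num

lemma ind_true {p : Prop} (hp : p) : ind p = 1 := by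
  unfold ind; rw [if_pos hp]

lemma ind_congr {p q : Prop} (h : p ↔ q) : ind p = ind q := by
  rw [propext h]

lemma timeIn_nodes (N : Network Q) {S : ℝ → Q} (hS : LipschitzWith 1 S) (t0 t1 : ℝ) :
    ∑ v ∈ nf N, timeIn S t0 t1 {v} = timeIn S t0 t1 N.nodes := by
  have e0 : ∀ A : Set Q, timeIn S t0 t1 A = volume.real (meetSet S t0 t1 A) := fun A => rfl
  rw [Finset.sum_congr rfl fun v _ => e0 {v}, e0,
    ← measureReal_biUnion_finset (h := fun v _ => meetSet_ne_top S t0 t1 _)]
  · congr 1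
    ext t
    simp only [mem_iUnion, nf, Set.Finite.mem_toFinset, exists_prop, meetSet, mem_ofPred_eq,
      mem_singleton_iff]
    constructor
    · rintro ⟨v, hv, ht, h⟩
      exact ⟨ht, h ▸ hv⟩
    · rintro ⟨ht, h⟩
      exact ⟨S t, h, ht, rfl⟩
  · intro v _ w _ hvw
    refine Set.disjoint_left.2 ?_
    intro t h3 h4
    exact hvw ((h3.2 : S t = v).symm.trans (h4.2 : S t = w))
  · intro v _
    exact meetSet_closed hS.continuous t0 t1 isClosed_singleton

/-- The move for one pair of sample points. -/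
lemma pair (hP : S_PairSp) (N : Network Q) {D Γ κ Tm T0 : ℝ} {n : ℕ} {arcOf : Fin n → N.Arc}
    {pos : Fin n → ℝ} {o o' : Fin n → Fin n → Bool} {l : Fin n → Fin n → List (N.Arc × Bool)}
    {T : Fin n → Fin n → ℝ} (hD : ∀ x y : Q, dist x y ≤ D)
    (hpos : ∀ i, pos i ∈ Ioo 0 (N.len (arcOf i))) (hsp : SpData N arcOf pos Tm κ o o' l T)
    (hTm : 0 ≤ Tm) (hTΓ : Tm ≤ Γ) (hΓ0 : 0 < Γ) (hΓ : Real.sqrt (N.length * D) + 2 * D < Γ)
    (hΓT : Γ < T0) (i j : Fin n) :
    ∃ (P : Measure (ℕ × ℝ)) (mv : ℕ × ℝ → ℝ → Q) (W : N.Arc → ℝ),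
      IsProbabilityMeasure P ∧ (∀ ω, LipschitzWith 1 (mv ω)) ∧
      (∀ ω, ∀ t ≤ 0, mv ω t = N.pt (arcOf i) (pos i)) ∧
      (∀ ω t, T0 ≤ t → mv ω t = N.pt (arcOf j) (pos j)) ∧
      (∀ t, @Measurable (ℕ × ℝ) Q _ (borel Q) fun ω => mv ω t) ∧
      (∀ c, 0 ≤ W c) ∧
      (∀ c, W c ≤ 7 / 8 + ind (arcOf i = arcOf j ∨ c ∈ (l i j).map Prod.fst) / 8) ∧
      ∑ c, N.len c * W c ≤ 2 * Real.sqrt (N.length * D) + 2 * Tm ∧
      ∀ S : ℝ → Q, LipschitzWith 1 S → ∀ t0 : ℝ,
        (P {ω | ∃ t ∈ Icc t0 (t0 + T0), S t = mv ω (t - t0)}).toReal ≤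
          (∑ v ∈ nf N, (7 / 8 + ind (arcOf i = arcOf j ∨
              v ∈ vis N (en N (arcOf i) (o i j)) (l i j)) / 8) * timeIn S t0 (t0 + T0) {v} +
            ∑ c, W c * timeIn S t0 (t0 + T0) (N.openArc c) + 3 * D +
            2 * timeIn S t0 (t0 + T0) (N.openArc (arcOf i)) +
            2 * timeIn S t0 (t0 + T0) (N.openArc (arcOf j))) / (T0 - Γ) +
          (Real.sqrt (N.length * D) + 2 * D) / Γ +
          ind (∃ t ∈ Icc t0 (t0 + T0), S t = N.pt (arcOf i) (pos i)) +
          ind (∃ t ∈ Icc t0 (t0 + T0), S t = N.pt (arcOf j) (pos j)) := by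
  have hs0 : 0 ≤ Real.sqrt (N.length * D) := Real.sqrt_nonneg _
  have hD0 : 0 ≤ D := by
    have h1 := hD (N.pt (arcOf i) (pos i)) (N.pt (arcOf i) (pos i))
    rwa [dist_self] at h1
  by_cases hij : arcOf i = arcOf j
  · obtain ⟨P, mv, F, h1, h2, h3, h4, h5, h6, h7, h8, h9⟩ :=
      move_one N hD (hpos i) (hpos j) hΓ0 hΓ hΓT
    refine ⟨P, mv, F, h1, h2, h3, h4, h5, h6, fun c => ?_, by linarith, fun S hS t0 => ?_⟩
    · rw [ind_true (Or.inl hij)]
      linarith [h7 c]
    · have e1 : ∑ v ∈ nf N, (7 / 8 + ind (arcOf i = arcOf j ∨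
          v ∈ vis N (en N (arcOf i) (o i j)) (l i j)) / 8) * timeIn S t0 (t0 + T0) {v} =
          timeIn S t0 (t0 + T0) N.nodes := by
        rw [← timeIn_nodes N hS]
        refine Finset.sum_congr rfl fun v _ => ?_
        rw [ind_true (Or.inl hij)]
        ring
      rw [e1]
      refine (h9 S hS t0).trans ?_
      have hTG : 0 < T0 - Γ := sub_pos.2 hΓT
      have e2 : (timeIn S t0 (t0 + T0) N.nodes +
            ∑ c, F c * timeIn S t0 (t0 + T0) (N.openArc c) + D +
            2 * timeIn S t0 (t0 + T0) (N.openArc (arcOf i)) +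
            2 * timeIn S t0 (t0 + T0) (N.openArc (arcOf j))) / (T0 - Γ) ≤
          (timeIn S t0 (t0 + T0) N.nodes +
            ∑ c, F c * timeIn S t0 (t0 + T0) (N.openArc c) + 3 * D +
            2 * timeIn S t0 (t0 + T0) (N.openArc (arcOf i)) +
            2 * timeIn S t0 (t0 + T0) (N.openArc (arcOf j))) / (T0 - Γ) :=
        div_le_div_of_nonneg_right (by linarith) hTG.le
      unfold ind
      linarith
  · obtain ⟨P, mv, W, h1, h2, h3, h4, h5, h6, h7, h8, h9⟩ :=
      hP Q N D hD (arcOf i) (arcOf j) (pos i) (pos j) (hpos i) (hpos j) (o i j) (o' i j) (l i j)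
        (T i j) (hsp.sp i j hij) T0 Γ hΓ0 hΓ ((hsp.le i j).trans hTΓ) hΓT
    have e1 : ∀ p : Prop, ind (arcOf i = arcOf j ∨ p) = ind p := fun p =>
      ind_congr ⟨fun h => h.resolve_left hij, Or.inr⟩
    refine ⟨P, mv, W, h1, h2, h3, h4, h5, h6, fun c => ?_, ?_, fun S hS t0 => ?_⟩
    · rw [e1]
      exact h7 c
    · have := hsp.le i j
      linarith
    · simp only [e1]
      exact h9 S hS t0

end NetMovesG

open NetMovesG in
theorem sNetMovesG (hP : S_PairSp) (hH : S_HubG) : S_NetMovesG := by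
  intro Q _ N D h β Γ κ Tm n B arcOf pos o o' l T hD hh hpos hsep hball hcnt hsp hκ0 hκ1 hTm hTΓ
    hβ hΓ hn2 hB hΓT
  classical
  set T0 : ℝ := h * (B - 1) with hT0
  set x : Fin n → Q := fun i => N.pt (arcOf i) (pos i) with hx
  have hD0 : 0 ≤ D := by
    have h1 := hD (x ⟨0, by omega⟩) (x ⟨0, by omega⟩)
    rwa [dist_self] at h1
  have hs0 : 0 ≤ Real.sqrt (N.length * D) := Real.sqrt_nonneg _
  have hΓ0 : 0 < Γ := by linarith
  have hT00 : 0 < T0 := by linarith
  have hmove := fun i j : Fin n => pair hP N hD hpos hsp hTm hTΓ hΓ0 hΓ hΓT i j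
  choose P' mv' W hP' hmvL hmv0 hmvT hmvm hW0 hW1 hWl hcatch using hmove
  refine ⟨x, fun i j => if i = j then Measure.dirac (0, 0) else P' i j,
    fun i j => if i = j then fun _ _ => x i else mv' i j, ?_, ?_, ?_, ?_, ?_, ?_, ?_⟩
  · intro i j
    by_cases hij : i = j
    · simp only [hij, if_true]
      infer_instance
    · simp only [hij, if_false]
      exact hP' i j
  · intro i j ω
    by_cases hij : i = j
    · simp only [hij, if_true]
      exact LipschitzWith.const' _
    · simp only [hij, if_false]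
      exact hmvL i j ω
  · intro i j ω t ht
    by_cases hij : i = j
    · simp only [hij, if_true]
    · simp only [hij, if_false]
      exact hmv0 i j ω t ht
  · intro i j ω t ht
    by_cases hij : i = j
    · simp only [hij, if_true]
    · simp only [hij, if_false]
      exact hmvT i j ω t ht
  · intro i j t
    by_cases hij : i = j
    · simp only [hij, if_true]
      exact @measurable_const _ _ (borel Q) _ _
    · simp only [hij, if_false]
      exact hmvm i j t
  · intro i ω t
    simp only [if_true]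
  · intro S hS t0
    set L : Finset (Fin n) := Finset.univ.filter fun i => ∃ t ∈ Icc t0 (t0 + T0), S t = x i
      with hL
    have hLcard : L.card ≤ B := by
      have := visited_card hh hsep hS hB t0
      convert this using 2
    refine ⟨L, hLcard, fun i => by simp [hL], ?_⟩
    have ht01 : t0 ≤ t0 + T0 := by linarith
    have hcov : ∀ A : Finset N.Arc, h * (((L.filter fun i => arcOf i ∈ A).card : ℝ) - 2) ≤
        ∑ e ∈ A, timeIn S t0 (t0 + T0) (N.openArc e) := by
      intro A
      have h1 := coverage_time N hh hsep hball hS ht01 A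
      have h2 : (L.filter fun i => arcOf i ∈ A) =
          (Finset.univ.filter fun i => arcOf i ∈ A ∧ ∃ t ∈ Icc t0 (t0 + T0), S t = x i) := by
        ext i
        simp only [hL, Finset.mem_filter, Finset.mem_univ, true_and]
        exact and_comm
      rw [h2]
      convert h1 using 5
    have htot : ∑ v ∈ nf N, timeIn S t0 (t0 + T0) {v} +
        ∑ e, timeIn S t0 (t0 + T0) (N.openArc e) = T0 := by
      rw [timeIn_nodes N hS, timeIn_total N hS ht01]
      ring
    obtain ⟨z, G, hz0, hzsum, hG, hz⟩ := hH N.Arc Q (nf N) n N.len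
      (fun e => timeIn S t0 (t0 + T0) (N.openArc e)) (fun v => timeIn S t0 (t0 + T0) {v})
      (3 * D) h β Γ (2 * Real.sqrt (N.length * D) + 2 * Tm) κ B T0 arcOf W
      (fun i j e => ind (arcOf i = arcOf j ∨ e ∈ (l i j).map Prod.fst))
      (fun i j v => ind (arcOf i = arcOf j ∨ v ∈ vis N (en N (arcOf i) (o i j)) (l i j)))
      L hn2 hT0 hh hβ hΓ0 hΓT hB (by linarith) (by linarith) hκ0 hκ1 N.len_pos
      (fun e => by linarith [len_le_two_diam N hD e]) (fun e => ENNReal.toReal_nonneg)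
      (fun v _ => ENNReal.toReal_nonneg) htot
      (by
        intro e
        convert hcnt e using 4)
      hW0 hW1 (fun i j e => ⟨ind_nonneg _, ind_le_one _⟩) (fun i j v => ⟨ind_nonneg _, ind_le_one _⟩)
      hWl
      (by
        intro e
        convert hsp.arc e using 4)
      (by
        intro v _
        convert hsp.node v using 4)
      hLcard
      (by
        intro A
        convert hcov A using 5)
    refine ⟨z, G, hz0, ?_, hG, ?_⟩
    · convert hzsum using 3
    · intro i j hij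
      have h1 := hcatch i j S hS t0
      have h2 := hz i j hij
      simp only [hij, if_false]
      have h3 : ∀ k : Fin n, ind (∃ t ∈ Icc t0 (t0 + T0), S t = N.pt (arcOf k) (pos k)) =
          if k ∈ L then 1 else 0 := by
        intro k
        have : k ∈ L ↔ ∃ t ∈ Icc t0 (t0 + T0), S t = N.pt (arcOf k) (pos k) := by
          simp [hL, hx]
        unfold ind
        by_cases hk : k ∈ L
        · rw [if_pos hk, if_pos (this.mp hk)]
        · rw [if_neg hk, if_neg (fun h' => hk (this.mpr h'))]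
      rw [h3 i, h3 j] at h1
      have h5 : (Real.sqrt (N.length * D) + 2 * D) / Γ ≤
          (2 * Real.sqrt (N.length * D) + 2 * Tm + 2 * (3 * D)) / Γ :=
        div_le_div_of_nonneg_right (by linarith) hΓ0.le
      linarith

end MPacf82c.St
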