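import Pool.Agent.Lib.MP_acf82c_lc.S.SpecB

/-!
# The move for a pair with a special trip
-/

namespace MPacf82c.St

open Set MeasureTheory
open scoped NNReal ENNReal

namespace PairSp

variable {Q : Type} [MetricSpace Q]

theorem ind_nonneg (p : Prop) : 0 ≤ ind p := by
  unfold ind; split_ifs <;> norm_num

theorem ind_le_one (p : Prop) : ind p ≤ 1 := by
  unfold ind; split_ifs <;> norm_num

theorem ind_mono {p q : Prop} (h : p → q) : ind p ≤ ind q := by
  unfold ind
  by_cases hp : p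
  · rw [if_pos hp, if_pos (h hp)]
  · rw [if_neg hp]; split_ifs <;> norm_num

theorem timeIn_nonneg (S : ℝ → Q) (t0 t1 : ℝ) (A : Set Q) : 0 ≤ timeIn S t0 t1 A :=
  ENNReal.toReal_nonneg

theorem timeIn_nodes_le (N : Network Q) (S : ℝ → Q) (t0 t1 : ℝ) :
    timeIn S t0 t1 N.nodes ≤ ∑ v ∈ nf N, timeIn S t0 t1 {v} := by
  have hfin : ∀ A : Set Q, volume {t : ℝ | t ∈ Icc t0 t1 ∧ S t ∈ A} ≠ ⊤ := by
    intro A
    have h0 : volume (Icc t0 t1) ≠ ⊤ := by
      rw [Real.volume_Icc]
      exact ENNReal.ofReal_ne_top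
    exact ne_top_of_le_ne_top h0 (measure_mono (fun t ht => ht.1))
  unfold timeIn
  rw [← ENNReal.toReal_sum (fun v _ => hfin _)]
  refine ENNReal.toReal_mono (ENNReal.sum_ne_top.2 fun v _ => hfin _) ?_
  refine le_trans (measure_mono ?_)
    (measure_biUnion_finset_le (nf N) fun v => {t : ℝ | t ∈ Icc t0 t1 ∧ S t ∈ ({v} : Set Q)})
  intro t ht
  simp only [mem_iUnion, exists_prop]
  refine ⟨S t, ?_, ht.1, mem_singleton _⟩
  unfold nf
  rw [Set.Finite.mem_toFinset]
  exact ht.2

theorem list_le (N : Network Q) (l : List (N.Arc × Bool)) :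
    ∑ c, ind (c ∈ l.map Prod.fst) * N.len c ≤ clen N l := by
  classical
  induction l with
  | nil =>
    have h : ∀ c : N.Arc, ind (c ∈ ([] : List (N.Arc × Bool)).map Prod.fst) * N.len c = 0 := by
      intro c
      simp [ind]
    rw [Finset.sum_congr rfl fun c _ => h c]
    simp [clen]
  | cons p l ih =>
    have h : ∀ c : N.Arc, ind (c ∈ (p :: l).map Prod.fst) * N.len c ≤
        (if c = p.1 then N.len c else 0) + ind (c ∈ l.map Prod.fst) * N.len c := by
      intro c
      have hl := (N.len_pos c).le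
      rw [List.map_cons, List.mem_cons]
      by_cases h1 : c = p.1
      · rw [if_pos h1]
        have h2 := mul_le_mul_of_nonneg_right (ind_le_one (c = p.1 ∨ c ∈ l.map Prod.fst)) hl
        have h3 := mul_nonneg (ind_nonneg (c ∈ l.map Prod.fst)) hl
        linarith
      · rw [if_neg h1, zero_add]
        refine mul_le_mul_of_nonneg_right (ind_mono ?_) hl
        rintro (h | h)
        · exact absurd h h1
        · exact h
    refine le_trans (Finset.sum_le_sum fun c _ => h c) ?_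
    rw [Finset.sum_add_distrib, Finset.sum_ite_eq' Finset.univ p.1 (fun c => N.len c),
      if_pos (Finset.mem_univ _)]
    have h4 : clen N (p :: l) = N.len p.1 + clen N l := by
      simp [clen]
    rw [h4]
    linarith

/-- The coefficient of an arc. -/
noncomputable def Wt (a x : ℝ) (p : Prop) : ℝ :=
  7 / 8 * a + 1 / 8 * (x * (1 + ind p)) + 1 / 8 * (ind p * (2 * a))

theorem Wt_nonneg {a x : ℝ} {p : Prop} (ha : 0 ≤ a) (hx : 0 ≤ x) : 0 ≤ Wt a x p := by
  unfold Wt
  have := ind_nonneg p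
  positivity

theorem Wt_le {a x : ℝ} (ha1 : a ≤ 1) (hx1 : x ≤ 1) :
    Wt a x (a ≤ 1 / 2) ≤ 7 / 8 + x / 8 := by
  unfold Wt ind
  split_ifs with h
  · linarith
  · linarith

theorem Wt_le' {a x : ℝ} {p : Prop} (ha : 0 ≤ a) (hx : 0 ≤ x) :
    Wt a x p ≤ 9 / 8 * a + x / 4 := by
  unfold Wt
  have h0 := ind_nonneg p
  have h1 := ind_le_one p
  have h2 := mul_le_mul_of_nonneg_right h1 ha
  have h3 := mul_le_mul_of_nonneg_right h1 hx
  nlinarith

end PairSp

open PairSp in
theorem sPairSp (hE : S_ElTrip) (hC : S_SpCurve) (hB : S_SpBad) (hM : S_MoveGen) :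
    S_PairSp := by
  intro Q _ N D hD e e' s s' hs hs' o o' l T hsp T0 Γ hΓ hYΓ hTΓ hΓT
  obtain ⟨a, b, φ, F, m, lam, P, TE, rE, hcur, hTE, hlipE, hleftE, hrightE, hsumE, hbadE⟩ :=
    hE Q N D hD e e' s s' hs hs'
  obtain ⟨r, u, cc, dd, c1, d1, c2, d2, hrt⟩ := hC Q N e e' s s' o o' l T hs hs' hsp
  have hbadS := hB Q N D a b φ F m lam P hD hcur e e' s s' o o' l T hsp r u cc dd c1 d1 c2 d2 hrt
  have hD0 : 0 ≤ D := le_trans dist_nonneg (hD (N.pt e s) (N.pt e s))
  have hsq := Real.sqrt_nonneg (N.length * D)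
  -- durations
  have hcost : ∀ (c : N.Arc) (x : ℝ) (q : Bool), x ∈ Ioo 0 (N.len c) → 0 ≤ cost N c x q := by
    intro c x q hx
    unfold cost
    split_ifs
    · linarith [hx.2]
    · exact hx.1.le
  have hsumc := list_le N l
  have hcl0 : 0 ≤ ∑ c, ind (c ∈ l.map Prod.fst) * N.len c :=
    Finset.sum_nonneg fun c _ => mul_nonneg (ind_nonneg _) (N.len_pos c).le
  have h1c := hcost e s o hs
  have h2c := hcost e' s' o' hs'
  have hdur := hsp.dur
  have hclT : ∑ c, ind (c ∈ l.map Prod.fst) * N.len c ≤ T := by linarith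
  have hT0 : 0 ≤ T := by linarith
  have hlam0 := hcur.lam_nonneg
  have hlam1 := hcur.lam_sum
  have hF1 := hcur.abs_le
  set Y : ℝ := (Real.sqrt (N.length * D) + 2 * D) / Γ with hY
  have hY1 : Y < 1 := by rw [hY, div_lt_one hΓ]; exact hYΓ
  have hY0 : 0 ≤ Y := div_nonneg (by linarith) hΓ.le
  have hmark : ∑ i, lam i * ind (Γ < TE i) ≤ Y := by
    have h1 : ∀ i, lam i * ind (Γ < TE i) ≤ lam i * TE i / Γ := by
      intro i
      rw [mul_div_assoc]
      refine mul_le_mul_of_nonneg_left ?_ (hlam0 i)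
      unfold ind
      split_ifs with h
      · rw [le_div_iff₀ hΓ]; linarith
      · exact div_nonneg (hTE i) hΓ.le
    calc ∑ i, lam i * ind (Γ < TE i) ≤ ∑ i, lam i * TE i / Γ := Finset.sum_le_sum fun i _ => h1 i
      _ = (∑ i, lam i * TE i) / Γ := by rw [Finset.sum_div]
      _ ≤ Y := div_le_div_of_nonneg_right hsumE hΓ.le
  -- the combined family
  obtain ⟨Pm, mv, hPm, hmvl, hmv0, hmv1, hmvm, hmvb⟩ := hM Q (m + 1)
    (Fin.cons (1 / 8) fun i => 7 / 8 * lam i) (Fin.cons T TE)
    (Fin.cons (α := fun _ => ℝ → Q) r rE) (N.pt e s) (N.pt e' s') T0 Γ Y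
    (by
      intro i
      refine Fin.cases ?_ (fun j => ?_) i
      · rw [Fin.cons_zero]; norm_num
      · rw [Fin.cons_succ]
        have := hlam0 j
        positivity)
    (by
      rw [Fin.sum_univ_succ]
      simp only [Fin.cons_zero, Fin.cons_succ]
      rw [← Finset.mul_sum, hlam1]
      norm_num)
    (by
      intro i
      refine Fin.cases ?_ (fun j => ?_) i
      · rw [Fin.cons_zero]; exact hT0
      · rw [Fin.cons_succ]; exact hTE j)
    (by
      intro i
      refine Fin.cases ?_ (fun j => ?_) i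
      · rw [Fin.cons_zero]; exact hrt.lip
      · rw [Fin.cons_succ]; exact hlipE j)
    (by
      intro i
      refine Fin.cases ?_ (fun j => ?_) i
      · rw [Fin.cons_zero]; exact hrt.left
      · rw [Fin.cons_succ]; exact hleftE j)
    (by
      intro i
      refine Fin.cases ?_ (fun j => ?_) i
      · rw [Fin.cons_zero, Fin.cons_zero]; exact hrt.right
      · rw [Fin.cons_succ, Fin.cons_succ]; exact hrightE j)
    hΓ hΓT
    (by
      rw [Fin.sum_univ_succ]
      simp only [Fin.cons_zero, Fin.cons_succ]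
      have h0 : ind (Γ < T) = 0 := by
        unfold ind
        rw [if_neg (not_lt.2 hTΓ)]
      rw [h0, mul_zero, zero_add]
      have h1 : ∑ i, 7 / 8 * lam i * ind (Γ < TE i) = 7 / 8 * ∑ i, lam i * ind (Γ < TE i) := by
        rw [Finset.mul_sum]
        exact Finset.sum_congr rfl fun i _ => by ring
      rw [h1]
      linarith)
    hY1
  refine ⟨Pm, mv, fun c => Wt |F c| (ind (c ∈ l.map Prod.fst)) (|F c| ≤ 1 / 2), hPm, hmvl, hmv0,
    hmv1, hmvm, fun c => Wt_nonneg (abs_nonneg _) (ind_nonneg _),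
    fun c => Wt_le (hF1 c) (ind_le_one _), ?_, ?_⟩
  · calc ∑ c, N.len c * Wt |F c| (ind (c ∈ l.map Prod.fst)) (|F c| ≤ 1 / 2)
        ≤ ∑ c, (9 / 8 * (N.len c * |F c|) + 1 / 4 * (ind (c ∈ l.map Prod.fst) * N.len c)) := by
          refine Finset.sum_le_sum fun c _ => ?_
          have h1 := mul_le_mul_of_nonneg_left (Wt_le' (p := |F c| ≤ 1 / 2) (abs_nonneg (F c))
            (ind_nonneg (c ∈ l.map Prod.fst))) (N.len_pos c).le
          linarith
      _ = 9 / 8 * ∑ c, N.len c * |F c| + 1 / 4 * ∑ c, ind (c ∈ l.map Prod.fst) * N.len c := by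
          rw [Finset.sum_add_distrib, Finset.mul_sum, Finset.mul_sum]
      _ ≤ 2 * Real.sqrt (N.length * D) + 2 * T := by
          have h2 := hcur.energy
          linarith
  · intro S hS t0
    have htt : t0 ≤ t0 + T0 := by linarith
    refine le_trans (hmvb S hS t0) ?_
    have hkey : ∑ i, (Fin.cons (1 / 8) (fun i => 7 / 8 * lam i) : Fin (m + 1) → ℝ) i *
        (volume (badSet S t0 (t0 + T0) ((Fin.cons (α := fun _ => ℝ → Q) r rE) i)
          ((Fin.cons T TE : Fin (m + 1) → ℝ) i))).toReal ≤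
        ∑ v ∈ nf N, (7 / 8 + ind (v ∈ vis N (en N e o) l) / 8) * timeIn S t0 (t0 + T0) {v} +
          ∑ c, Wt |F c| (ind (c ∈ l.map Prod.fst)) (|F c| ≤ 1 / 2) *
            timeIn S t0 (t0 + T0) (N.openArc c) + 3 * D +
          2 * timeIn S t0 (t0 + T0) (N.openArc e) +
          2 * timeIn S t0 (t0 + T0) (N.openArc e') := by
      rw [Fin.sum_univ_succ]
      simp only [Fin.cons_zero, Fin.cons_succ]
      have h1 := hbadS S hS t0 (t0 + T0) htt
      have h2 := hbadE S hS t0 (t0 + T0) htt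
      have h3 := timeIn_nodes_le N S t0 (t0 + T0)
      have h4 : ∑ i, 7 / 8 * lam i * (volume (badSet S t0 (t0 + T0) (rE i) (TE i))).toReal =
          7 / 8 * ∑ i, lam i * (volume (badSet S t0 (t0 + T0) (rE i) (TE i))).toReal := by
        rw [Finset.mul_sum]
        exact Finset.sum_congr rfl fun i _ => by ring
      have h5 : ∑ v ∈ nf N, (7 / 8 + ind (v ∈ vis N (en N e o) l) / 8) *
          timeIn S t0 (t0 + T0) {v} = 7 / 8 * ∑ v ∈ nf N, timeIn S t0 (t0 + T0) {v} +
          1 / 8 * ∑ v ∈ nf N, ind (v ∈ vis N (en N e o) l) * timeIn S t0 (t0 + T0) {v} := by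
        rw [Finset.mul_sum, Finset.mul_sum, ← Finset.sum_add_distrib]
        exact Finset.sum_congr rfl fun v _ => by ring
      have h6 : ∑ c, Wt |F c| (ind (c ∈ l.map Prod.fst)) (|F c| ≤ 1 / 2) *
            timeIn S t0 (t0 + T0) (N.openArc c) =
          7 / 8 * ∑ c, |F c| * timeIn S t0 (t0 + T0) (N.openArc c) +
          1 / 8 * ∑ c, ind (c ∈ l.map Prod.fst) * ((1 + ind (|F c| ≤ 1 / 2)) *
            timeIn S t0 (t0 + T0) (N.openArc c)) +
          1 / 8 * ∑ c, ind (|F c| ≤ 1 / 2) * (2 * |F c| *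
            timeIn S t0 (t0 + T0) (N.openArc c)) := by
        rw [Finset.mul_sum, Finset.mul_sum, Finset.mul_sum, ← Finset.sum_add_distrib,
          ← Finset.sum_add_distrib]
        exact Finset.sum_congr rfl fun c _ => by unfold Wt; ring
      rw [h4, h5, h6]
      have h7 := mul_le_mul_of_nonneg_left h1 (by norm_num : (0 : ℝ) ≤ 1 / 8)
      have h8 := mul_le_mul_of_nonneg_left h2 (by norm_num : (0 : ℝ) ≤ 7 / 8)
      linarith
    have hpos : 0 < T0 - Γ := by linarith
    have h9 := div_le_div_of_nonneg_right hkey hpos.le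
    linarith

end MPacf82c.St
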