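import Pool.Agent.Lib.MP_acf82c_lc.S.SpecA

/-!
# MP_acf82c_lc, S: random order
-/

namespace MPacf82c.St

open Set MeasureTheory Finset
open scoped NNReal ENNReal Nat

namespace PermAvoid

private lemma blk_card {n B k : ℕ} (h : (k + 1) * B ≤ n) : (blk (n := n) B k).card = B := by
  have h1 : (blk (n := n) B k).map Fin.valEmbedding = Finset.Ico (k * B) ((k + 1) * B) := by
    ext a
    simp only [blk, Finset.mem_map, Finset.mem_filter, Finset.mem_univ, true_and,
      Fin.valEmbedding_apply, Finset.mem_Ico]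
    constructor
    · rintro ⟨i, hi, rfl⟩
      exact hi
    · intro ha
      exact ⟨⟨a, lt_of_lt_of_le ha.2 h⟩, ha, rfl⟩
  rw [← Finset.card_map Fin.valEmbedding, h1, Nat.card_Ico, add_mul, one_mul]
  omega

private lemma blk_disj {n B k l : ℕ} (h : k ≠ l) :
    Disjoint (blk (n := n) B k) (blk (n := n) B l) := by
  rw [Finset.disjoint_left]
  intro i hi hj
  simp only [blk, Finset.mem_filter, Finset.mem_univ, true_and] at hi hj
  rcases lt_or_gt_of_ne h with h1 | h1
  · have : (k + 1) * B ≤ l * B := Nat.mul_le_mul_right B h1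
    omega
  · have : (l + 1) * B ≤ k * B := Nat.mul_le_mul_right B h1
    omega

private lemma numer {n K r : ℕ} (hK : K + 1 < n) (hr : r ≤ K + 1) :
    (n : ℝ) ^ r * ((n - r)! : ℝ) ≤ (n ! : ℝ) * ((n : ℝ) / ((n : ℝ) - K - 1)) ^ (K + 1) := by
  have hK' : (0 : ℝ) < (n : ℝ) - K - 1 := by
    have : ((K + 1 : ℕ) : ℝ) < n := by exact_mod_cast hK
    push_cast at this
    linarith
  have h1 : (n - r)! * n.descFactorial r = n ! := Nat.factorial_mul_descFactorial (by omega)
  have h2 : (n + 1 - r) ^ r ≤ n.descFactorial r := Nat.pow_sub_le_descFactorial n r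
  have h3 : ((n : ℝ) - K - 1) ^ r ≤ (n.descFactorial r : ℝ) := by
    have h4 : ((n : ℝ) - K - 1) ≤ ((n + 1 - r : ℕ) : ℝ) := by
      rw [Nat.cast_sub (by omega)]
      push_cast
      have : (r : ℝ) ≤ (K : ℝ) + 1 := by exact_mod_cast hr
      linarith
    calc ((n : ℝ) - K - 1) ^ r ≤ ((n + 1 - r : ℕ) : ℝ) ^ r := pow_le_pow_left₀ hK'.le h4 r
      _ ≤ (n.descFactorial r : ℝ) := by exact_mod_cast h2
  have h5 : (1 : ℝ) ≤ (n : ℝ) / ((n : ℝ) - K - 1) := by
    rw [le_div_iff₀ hK']
    have : (0 : ℝ) ≤ K := Nat.cast_nonneg K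
    linarith
  have h6 : ((n : ℝ) / ((n : ℝ) - K - 1)) ^ r ≤ ((n : ℝ) / ((n : ℝ) - K - 1)) ^ (K + 1) :=
    pow_le_pow_right₀ h5 hr
  have h7 : (n : ℝ) ^ r * ((n - r)! : ℝ) ≤ (n ! : ℝ) * ((n : ℝ) / ((n : ℝ) - K - 1)) ^ r := by
    rw [div_pow, ← h1]
    push_cast
    rw [mul_div_assoc', le_div_iff₀ (pow_pos hK' r)]
    have h8 : (0 : ℝ) ≤ (n : ℝ) ^ r * ((n - r)! : ℝ) := by positivity
    nlinarith [mul_le_mul_of_nonneg_left h3 h8]
  calc (n : ℝ) ^ r * ((n - r)! : ℝ) ≤ (n ! : ℝ) * ((n : ℝ) / ((n : ℝ) - K - 1)) ^ r := h7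
    _ ≤ _ := mul_le_mul_of_nonneg_left h6 (Nat.cast_nonneg _)

end PermAvoid

open PermAvoid in
theorem sPermAvoid (hC : S_PermCount) : S_PermAvoid := by
  classical
  intro n B K q y T hB hK hq hT hr
  set Λ : Finset (Fin n) := T.image y with hΛ
  set A : Fin n → Finset (Fin n) := fun z =>
    univ \ (T.filter fun k => y k = z).biUnion (fun k => blk (n := n) B k) with hA
  have hn : (0 : ℝ) < n := by
    have : 0 < n := by omega
    exact_mod_cast this
  have h1 : (univ.filter fun σ : Equiv.Perm (Fin n) => ∀ k ∈ T, σ (y k) ∉ blk B k).card ≤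
      (univ.filter fun σ : Equiv.Perm (Fin n) => ∀ z ∈ Λ, σ z ∈ A z).card := by
    refine Finset.card_le_card ?_
    intro σ hσ
    simp only [Finset.mem_filter, Finset.mem_univ, true_and] at hσ ⊢
    intro z _
    rw [hA]
    simp only [Finset.mem_sdiff, Finset.mem_univ, true_and, Finset.mem_biUnion, Finset.mem_filter,
      not_exists, not_and, and_imp]
    intro k hk hkz
    rw [← hkz]
    exact hσ k hk
  have h2 := hC n Λ A
  have hAc : ∀ z ∈ Λ, ((A z).card : ℝ) ≤
      (n : ℝ) * (1 - (B : ℝ) / n) ^ (T.filter fun k => y k = z).card := by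
    intro z hz
    obtain ⟨k0, hk0, _⟩ := Finset.mem_image.1 hz
    have hk0q := Finset.mem_range.1 (hT hk0)
    have hBn : B ≤ n := by
      calc B = 1 * B := (one_mul B).symm
        _ ≤ q * B := Nat.mul_le_mul_right B (by omega)
        _ ≤ n := hq
    have hc1 : ((T.filter fun k => y k = z).biUnion (fun k => blk (n := n) B k)).card =
        (T.filter fun k => y k = z).card * B := by
      rw [Finset.card_biUnion (fun k _ l _ hkl => blk_disj hkl)]
      rw [Finset.sum_congr rfl (fun k hk => blk_card (n := n) (B := B) (k := k) ?_)]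
      · rw [Finset.sum_const, smul_eq_mul]
      · have hkq := Finset.mem_range.1 (hT (Finset.mem_filter.1 hk).1)
        exact (Nat.mul_le_mul_right B hkq).trans hq
    have hc2 : (A z).card = n - (T.filter fun k => y k = z).card * B := by
      rw [hA]
      simp only
      rw [Finset.card_sdiff_of_subset (Finset.subset_univ _), hc1, Finset.card_univ,
        Fintype.card_fin]
    have hc3 : (T.filter fun k => y k = z).card * B ≤ n := by
      rw [← hc1]
      calc _ ≤ (univ : Finset (Fin n)).card := Finset.card_le_card (Finset.subset_univ _)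
        _ = n := by rw [Finset.card_univ, Fintype.card_fin]
    rw [hc2, Nat.cast_sub hc3]
    push_cast
    have hBn' : (B : ℝ) / n ≤ 1 := by
      rw [div_le_one hn]
      exact_mod_cast hBn
    have hb := one_add_mul_le_pow (a := -((B : ℝ) / n)) (by linarith)
      (T.filter fun k => y k = z).card
    have hb2 : (n : ℝ) - ((T.filter fun k => y k = z).card : ℝ) * B =
        (n : ℝ) * (1 + ((T.filter fun k => y k = z).card : ℝ) * -((B : ℝ) / n)) := by
      field_simp
      ring
    rw [hb2]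
    refine mul_le_mul_of_nonneg_left ?_ hn.le
    rw [sub_eq_add_neg]
    exact hb
  have h3 : (((∏ z ∈ Λ, (A z).card) * (n - Λ.card)! : ℕ) : ℝ) ≤
      (n : ℝ) ^ Λ.card * (1 - (B : ℝ) / n) ^ T.card * ((n - Λ.card)! : ℝ) := by
    push_cast
    refine mul_le_mul_of_nonneg_right ?_ (Nat.cast_nonneg _)
    calc ∏ z ∈ Λ, ((A z).card : ℝ) ≤
        ∏ z ∈ Λ, ((n : ℝ) * (1 - (B : ℝ) / n) ^ (T.filter fun k => y k = z).card) :=
          Finset.prod_le_prod (fun z _ => Nat.cast_nonneg _) hAc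
      _ = (n : ℝ) ^ Λ.card * (1 - (B : ℝ) / n) ^ T.card := by
          rw [Finset.prod_mul_distrib, Finset.prod_const, Finset.prod_pow_eq_pow_sum,
            ← Finset.card_eq_sum_card_image y T]
  have hpow : (0 : ℝ) ≤ (1 - (B : ℝ) / n) ^ T.card := by
    rcases T.eq_empty_or_nonempty with hT0 | ⟨k0, hk0⟩
    · rw [hT0, Finset.card_empty, pow_zero]
      exact zero_le_one
    · have hk0q := Finset.mem_range.1 (hT hk0)
      have hBn : B ≤ n := by
        calc B = 1 * B := (one_mul B).symm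
          _ ≤ q * B := Nat.mul_le_mul_right B (by omega)
          _ ≤ n := hq
      have hBn' : (B : ℝ) / n ≤ 1 := by
        rw [div_le_one hn]
        exact_mod_cast hBn
      exact pow_nonneg (by linarith) _
  have h4 := numer (n := n) (K := K) (r := Λ.card) hK hr
  calc ((univ.filter fun σ : Equiv.Perm (Fin n) => ∀ k ∈ T, σ (y k) ∉ blk B k).card : ℝ)
      ≤ (((∏ z ∈ Λ, (A z).card) * (n - Λ.card)! : ℕ) : ℝ) := by exact_mod_cast h1.trans h2
    _ ≤ (n : ℝ) ^ Λ.card * (1 - (B : ℝ) / n) ^ T.card * ((n - Λ.card)! : ℝ) := h3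
    _ = ((n : ℝ) ^ Λ.card * ((n - Λ.card)! : ℝ)) * (1 - (B : ℝ) / n) ^ T.card := by ring
    _ ≤ _ := mul_le_mul_of_nonneg_right h4 hpow

end MPacf82c.St
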