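import Pool.Agent.Lib.MP_acf82c_lc.S.SpecA

/-! # Pigeonhole over the scales -/

namespace MPacf82c.St

open Finset

namespace Pig

private theorem step (R : ℕ) (f : ℕ → ℝ) (h0 : ∀ m, 0 ≤ f m)
    (hm : ∀ m m', m ≤ m' → f m' ≤ f m) (j : ℕ) :
    ∑ r ∈ range j, (2 : ℝ) ^ r * R * f (2 ^ (r + 1) * R) ≤
      ∑ m ∈ range (2 ^ j * R + 1), f m := by
  induction j with
  | zero => simpa using Finset.sum_nonneg fun m _ => h0 m
  | succ j ih =>
    have hle : 2 ^ j * R + 1 ≤ 2 ^ (j + 1) * R + 1 := by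
      have : 2 ^ j * R ≤ 2 ^ (j + 1) * R :=
        Nat.mul_le_mul_right _ (Nat.pow_le_pow_right (by norm_num) (Nat.le_succ j))
      omega
    rw [Finset.sum_range_succ, ← Finset.sum_range_add_sum_Ico _ hle]
    refine add_le_add ih ?_
    have hc : (Ico (2 ^ j * R + 1) (2 ^ (j + 1) * R + 1)).card = 2 ^ j * R := by
      rw [Nat.card_Ico, pow_succ]
      have : 2 ^ j * 2 * R = 2 ^ j * R + 2 ^ j * R := by ring
      omega
    have hs : ∀ m ∈ Ico (2 ^ j * R + 1) (2 ^ (j + 1) * R + 1),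
        f (2 ^ (j + 1) * R) ≤ f m := by
      intro m hmem
      rw [Finset.mem_Ico] at hmem
      exact hm _ _ (by omega)
    have := Finset.card_nsmul_le_sum _ _ _ hs
    rw [hc, nsmul_eq_mul] at this
    push_cast at this
    exact this

end Pig

theorem sPig : S_Pig := by
  intro R J M f X _ hJ hM h0 hm hX
  by_contra hcon
  push Not at hcon
  have h1 : ∑ _r ∈ range J, X / J < ∑ r ∈ range J, (2 : ℝ) ^ r * R * f (2 ^ (r + 1) * R) := by
    refine Finset.sum_lt_sum_of_nonempty ⟨0, by simpa using hJ⟩ ?_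
    intro r hr
    have h := hcon (r + 1) (by omega) (by have := Finset.mem_range.1 hr; omega)
    simpa using h
  have h2 : ∑ _r ∈ range J, X / (J : ℝ) = X := by
    rw [Finset.sum_const, card_range, nsmul_eq_mul]
    have : (J : ℝ) ≠ 0 := by exact_mod_cast hJ.ne'
    field_simp
  have h3 := Pig.step R f h0 hm J
  have h4 : ∑ m ∈ range (2 ^ J * R + 1), f m ≤ ∑ m ∈ range M, f m :=
    Finset.sum_le_sum_of_subset_of_nonneg
      (Finset.range_subset_range.2 (by omega)) fun m _ _ => h0 m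
  linarith

end MPacf82c.St
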