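import Pool.Agent.Lib.MP_acf82c_lc.S.SpecC
import Pool.Agent.Lib.MP_acf82c_lc.Samples

/-!
# Sample points with cells

The construction of `samples`; every point of an arc is at distance at most `h` (inside the arc)
from a sample point: the cells have length `len e / m ≤ 2 h`, `m = ⌊len e / h⌋₊ ≥ 1`.
-/

namespace MPacf82c.St

open Set MeasureTheory

namespace SamplesX

/-- every point of an arc is within `h` of the middle of a cell -/
theorem cell {h l t : ℝ} (hh : 0 < h) (hl : h ≤ l) (ht : t ∈ Icc 0 l) {m : ℕ}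
    (hm : m = ⌊l / h⌋₊) : ∃ k < m, |t - ((k : ℝ) + 1 / 2) * (l / m)| ≤ h := by
  have hl0 : 0 < l := lt_of_lt_of_le hh hl
  have h1 : 1 ≤ l / h := by
    rw [le_div_iff₀ hh]
    linarith
  have hm1 : 1 ≤ m := by
    rw [hm]
    exact Nat.le_floor (by exact_mod_cast h1)
  have hmR : (1 : ℝ) ≤ m := by exact_mod_cast hm1
  have hm0 : (0 : ℝ) < m := by linarith
  have h2 : l / h < m + 1 := by
    rw [hm]
    exact Nat.lt_floor_add_one _
  have h3 : l < (m + 1) * h := by
    rwa [div_lt_iff₀ hh] at h2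
  have ha : l / m ≤ 2 * h := by
    rw [div_le_iff₀ hm0]
    nlinarith
  have ha0 : 0 < l / m := by positivity
  have hml : (m : ℝ) * (l / m) = l := by field_simp
  by_cases htl : t < l
  · refine ⟨⌊t / (l / m)⌋₊, ?_, ?_⟩
    · rw [Nat.floor_lt (div_nonneg ht.1 ha0.le), div_lt_iff₀ ha0, hml]
      exact htl
    · have h4 : ((⌊t / (l / m)⌋₊ : ℕ) : ℝ) ≤ t / (l / m) :=
        Nat.floor_le (div_nonneg ht.1 ha0.le)
      have h5 : t / (l / m) < ((⌊t / (l / m)⌋₊ : ℕ) : ℝ) + 1 := Nat.lt_floor_add_one _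
      rw [le_div_iff₀ ha0] at h4
      rw [div_lt_iff₀ ha0] at h5
      rw [abs_le]
      constructor
      · nlinarith
      · nlinarith
  · have ht' : t = l := le_antisymm ht.2 (not_lt.mp htl)
    refine ⟨m - 1, by omega, ?_⟩
    have h4 : ((m - 1 : ℕ) : ℝ) = (m : ℝ) - 1 := by
      rw [Nat.cast_sub hm1]
      norm_num
    rw [h4, ht']
    have h5 : l - ((m : ℝ) - 1 + 1 / 2) * (l / m) = (l / m) / 2 := by
      have : ((m : ℝ) - 1 + 1 / 2) * (l / m) = m * (l / m) - (l / m) / 2 := by ring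
      rw [this, hml]
      ring
    rw [h5, abs_of_pos (by positivity)]
    linarith

end SamplesX

open Classical in
theorem sSamplesX : S_SamplesX := by
  intro Q _ N h hh hle n hn
  have hcard : Fintype.card (Fin n) = Fintype.card (Σ e : N.Arc, Fin ⌊N.len e / h⌋₊) := by
    rw [Fintype.card_fin, Fintype.card_sigma, hn]
    simp
  let φ : Fin n ≃ (Σ e : N.Arc, Fin ⌊N.len e / h⌋₊) := Fintype.equivOfCardEq hcard
  let posn : (Σ e : N.Arc, Fin ⌊N.len e / h⌋₊) → ℝ := fun x =>
    (((x.2 : ℕ) : ℝ) + 1 / 2) * (N.len x.1 / (⌊N.len x.1 / h⌋₊ : ℕ))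
  have hp : ∀ x, h / 2 ≤ posn x ∧ h / 2 ≤ N.len x.1 - posn x ∧
      h ≤ N.len x.1 / (⌊N.len x.1 / h⌋₊ : ℕ) :=
    fun x => MPacf82c.samples_pos hh (hle x.1) rfl x.2.2
  have hmem : ∀ x, posn x ∈ Icc 0 (N.len x.1) := by
    intro x
    obtain ⟨a, b, _⟩ := hp x
    exact ⟨by linarith, by linarith⟩
  have hmin : ∀ x, h / 2 ≤ min (posn x) (N.len x.1 - posn x) :=
    fun x => le_min (hp x).1 (hp x).2.1
  have hdist : ∀ x y, x ≠ y → h ≤ dist (N.pt x.1 (posn x)) (N.pt y.1 (posn y)) := by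
    rintro ⟨e, k⟩ ⟨e', k'⟩ hxy
    by_cases hee : e = e'
    · subst hee
      have hkk : k ≠ k' := by
        rintro rfl
        exact hxy rfl
      have h1 := dist_same_arc N e (hmem ⟨e, k⟩) (hmem ⟨e, k'⟩)
      refine le_trans (le_min ?_ ?_) h1
      · have h2 : posn ⟨e, k⟩ - posn ⟨e, k'⟩ =
            (((k : ℕ) : ℝ) - ((k' : ℕ) : ℝ)) * (N.len e / (⌊N.len e / h⌋₊ : ℕ)) := by
          simp only [posn]
          ring
        have h3 := (hp ⟨e, k⟩).2.2
        have h4 : (1 : ℝ) ≤ |(((k : ℕ) : ℝ) - ((k' : ℕ) : ℝ))| := by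
          have h5 : ((k : ℕ) : ℤ) - ((k' : ℕ) : ℤ) ≠ 0 := by
            intro h6
            apply hkk
            apply Fin.ext
            omega
          have h6 : (1 : ℤ) ≤ |((k : ℕ) : ℤ) - ((k' : ℕ) : ℤ)| := Int.one_le_abs h5
          exact_mod_cast h6
        rw [h2, abs_mul]
        have h7 : 0 < N.len e / (⌊N.len e / h⌋₊ : ℕ) := lt_of_lt_of_le hh h3
        rw [abs_of_pos h7]
        nlinarith
      · have a := hmin ⟨e, k⟩
        have b := hmin ⟨e, k'⟩
        linarith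
    · have h1 := dist_diff_arc N hee (hmem ⟨e, k⟩) (hmem ⟨e', k'⟩)
      have a := hmin ⟨e, k⟩
      have b := hmin ⟨e', k'⟩
      dsimp only at h1 a b ⊢
      linarith
  refine ⟨fun i => (φ i).1, fun i => posn (φ i), ?_, ?_, ?_, ?_, ?_⟩
  · intro i
    obtain ⟨a, b, _⟩ := hp (φ i)
    exact ⟨by linarith, by linarith⟩
  · intro i j hij
    exact hdist _ _ (fun hc => hij (φ.injective hc))
  · intro i z hz
    by_contra hcon
    have h1 := dist_ge_of_notMem N (φ i).1 (hmem (φ i)) hcon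
    have h2 := hmin (φ i)
    rw [dist_comm] at hz
    linarith
  · intro e
    have h1 : (Finset.univ.filter fun i => (φ i).1 = e).card = ⌊N.len e / h⌋₊ := by
      have h2 : (Finset.univ.filter fun i => (φ i).1 = e).card =
          (Finset.univ.image (fun k : Fin ⌊N.len e / h⌋₊ => φ.symm ⟨e, k⟩)).card := by
        congr 1
        ext i
        simp only [Finset.mem_filter, Finset.mem_univ, true_and, Finset.mem_image]
        constructor
        · intro hi
          refine ⟨hi ▸ (φ i).2, ?_⟩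
          rw [Equiv.symm_apply_eq]
          subst hi
          rfl
        · rintro ⟨k, rfl⟩
          simp
      rw [h2, Finset.card_image_of_injective, Finset.card_univ, Fintype.card_fin]
      intro k k' hk
      have h3 := φ.symm.injective hk
      simpa using h3
    rw [h1]
    have h2 : (⌊N.len e / h⌋₊ : ℝ) ≤ N.len e / h :=
      Nat.floor_le (div_nonneg (N.len_pos e).le hh.le)
    rwa [le_div_iff₀ hh] at h2
  · intro e t ht
    obtain ⟨k, hk, hkt⟩ := SamplesX.cell hh (hle e) ht (m := ⌊N.len e / h⌋₊) rfl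
    refine ⟨φ.symm ⟨e, ⟨k, hk⟩⟩, ?_, ?_⟩
    · dsimp only
      rw [Equiv.apply_symm_apply]
    · dsimp only
      rw [Equiv.apply_symm_apply]
      exact hkt

end MPacf82c.St
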