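import Pool.Agent.Lib.MP_acf82c_lc.S.SpecB

/-!
# Stability, part B: the bad set of a special trip (seat helper25)
-/

namespace MPacf82c.St

open Set MeasureTheory
open scoped NNReal ENNReal

namespace SpBad

variable {Q : Type} [MetricSpace Q]

private lemma ind_one {p : Prop} (h : p) : ind p = 1 := by
  unfold ind
  exact if_pos h

private lemma ind_zero {p : Prop} (h : ¬ p) : ind p = 0 := by
  unfold ind
  exact if_neg h

/-- sums over a subset written with indicators -/
private lemma sum_ind {ι : Type} (s t : Finset ι) (h : t ⊆ s) (p : ι → Prop)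
    (hp : ∀ i ∈ s, (p i ↔ i ∈ t)) (g : ι → ℝ) : ∑ i ∈ s, ind (p i) * g i = ∑ i ∈ t, g i := by
  classical
  rw [← Finset.sum_subset h (f := fun i => ind (p i) * g i)]
  · refine Finset.sum_congr rfl fun i hi => ?_
    rw [ind_one ((hp i (h hi)).2 hi), one_mul]
  · intro i hi hn
    rw [ind_zero fun h1 => hn ((hp i hi).1 h1), zero_mul]

/-- the nodes visited are nodes -/
private lemma vis_nodes (N : Network Q) (e : N.Arc) (o : Bool) (l : List (N.Arc × Bool)) {v : Q}
    (hv : v ∈ vis N (en N e o) l) : v ∈ N.nodes := by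
  have hen : ∀ (c : N.Arc) (o : Bool), en N c o ∈ N.nodes := by
    intro c o
    unfold en hd tl
    split_ifs
    · exact ⟨c, Or.inr rfl⟩
    · exact ⟨c, Or.inl rfl⟩
  unfold vis at hv
  rcases List.mem_cons.1 hv with h | h
  · rw [h]
    exact hen e o
  · obtain ⟨p, _, rfl⟩ := List.mem_map.1 h
    exact hen p.1 p.2

end SpBad

open SpBad in
/-- Bad set of a special trip. -/
theorem sSpBad (hA : S_ImgArc) (hI : S_ImgStr) (hT : S_Tel) (hN : S_ChainNodup) : S_SpBad := by
  intro Q _ N D a b φ F m lam P hD hC e e' s s' o o' l T _ r u cc dd c1 d1 c2 d2 hr S hS t0 t1 h01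
  classical
  obtain ⟨ψ, hψL, hψ⟩ := psi_ext N φ F hC.abs_le hC.pot
  obtain ⟨f, hf⟩ : ∃ f : ℝ → ℝ, f = fun t => ψ (S t) := ⟨_, rfl⟩
  have hfL : LipschitzWith 1 f := by
    have h0 := hψL.comp hS
    rw [mul_one] at h0
    rw [hf]
    exact h0
  obtain ⟨Zf, hZf⟩ : ∃ Zf : Finset Q, Zf = (nf N).filter fun v => v ∈ vis N (en N e o) l :=
    ⟨_, rfl⟩
  obtain ⟨lf, hlf⟩ : ∃ lf : Finset N.Arc, lf = (l.map Prod.fst).toFinset := ⟨_, rfl⟩
  have hmlf : ∀ c, c ∈ lf ↔ c ∈ l.map Prod.fst := by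
    intro c
    rw [hlf, List.mem_toFinset]
  -- the covering
  have hsub : badSet S t0 t1 r T ⊆ (⋃ v ∈ Zf, (fun t => t - u v) '' meetSet S t0 t1 {v}) ∪
      ((⋃ c ∈ lf, imgSet N S t0 t1 c (cc c) (dd c)) ∪
        (imgSet N S t0 t1 e c1 d1 ∪ imgSet N S t0 t1 e' c2 d2)) := by
    rintro θ ⟨t, ht, h1, h2, h3⟩
    rcases hr.pos (t - θ) ⟨by linarith, by linarith⟩ with
      ⟨h4, h5⟩ | ⟨c, hc, x, hx, h4, h5⟩ | ⟨x, hx, h4, h5⟩ | ⟨x, hx, h4, h5⟩
    · left
      rw [← h3] at h4 h5
      simp only [mem_iUnion]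
      refine ⟨S t, ?_, t, ⟨ht, rfl⟩, ?_⟩
      · rw [hZf, Finset.mem_filter]
        refine ⟨?_, h4⟩
        unfold nf
        rw [Set.Finite.mem_toFinset]
        exact vis_nodes N e o l h4
      · simp only
        linarith
    · right
      left
      simp only [mem_iUnion]
      exact ⟨c, (hmlf c).2 hc, t, ht, x, hx, by rw [h3, h4], by linarith⟩
    · right
      right
      left
      exact ⟨t, ht, x, hx, by rw [h3, h4], by linarith⟩
    · right
      right
      right
      exact ⟨t, ht, x, hx, by rw [h3, h4], by linarith⟩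
  have himg : ∀ c, volume (imgSet N S t0 t1 c (cc c) (dd c)) ≠ ⊤ := fun c =>
    (hA Q N S hS t0 t1 c (cc c) (dd c) (hr.hdd c)).1
  have hE1 := hA Q N S hS t0 t1 e c1 d1 hr.hd1
  have hE2 := hA Q N S hS t0 t1 e' c2 d2 hr.hd2
  have hAf : volume (⋃ v ∈ Zf, (fun t => t - u v) '' meetSet S t0 t1 {v}) ≠ ⊤ := by
    refine (measure_biUnion_lt_top Zf.finite_toSet ?_).ne
    intro v _
    rw [meeting_vol_shift]
    exact (meetSet_ne_top S t0 t1 _).lt_top
  have hCf : volume (⋃ c ∈ lf, imgSet N S t0 t1 c (cc c) (dd c)) ≠ ⊤ :=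
    (measure_biUnion_lt_top lf.finite_toSet fun c _ => (himg c).lt_top).ne
  have hEf : volume (imgSet N S t0 t1 e c1 d1 ∪ imgSet N S t0 t1 e' c2 d2) ≠ ⊤ :=
    measure_union_ne_top hE1.1 hE2.1
  have h1 : volume.real (badSet S t0 t1 r T) ≤
      volume.real (⋃ v ∈ Zf, (fun t => t - u v) '' meetSet S t0 t1 {v}) +
      (volume.real (⋃ c ∈ lf, imgSet N S t0 t1 c (cc c) (dd c)) +
        (volume.real (imgSet N S t0 t1 e c1 d1) + volume.real (imgSet N S t0 t1 e' c2 d2))) := by
    refine (measureReal_mono hsub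
      (measure_union_ne_top hAf (measure_union_ne_top hCf hEf))).trans ?_
    refine (measureReal_union_le _ _).trans (add_le_add le_rfl ?_)
    refine (measureReal_union_le _ _).trans (add_le_add le_rfl ?_)
    exact measureReal_union_le _ _
  have h2 : volume.real (⋃ v ∈ Zf, (fun t => t - u v) '' meetSet S t0 t1 {v}) ≤
      ∑ v ∈ nf N, ind (v ∈ vis N (en N e o) l) * timeIn S t0 t1 {v} := by
    refine (measureReal_biUnion_finset_le Zf _).trans (le_of_eq ?_)
    rw [sum_ind (nf N) Zf (by rw [hZf]; exact Finset.filter_subset _ _)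
      (fun v => v ∈ vis N (en N e o) l) (fun v hv => by
        rw [hZf, Finset.mem_filter]
        exact ⟨fun h => ⟨hv, h⟩, fun h => h.2⟩)]
    refine Finset.sum_congr rfl fun v _ => ?_
    simp only [Measure.real]
    rw [meeting_vol_shift]
    rfl
  have h3 : volume.real (⋃ c ∈ lf, imgSet N S t0 t1 c (cc c) (dd c)) ≤
      ∑ c ∈ lf, volume.real (imgSet N S t0 t1 c (cc c) (dd c)) :=
    measureReal_biUnion_finset_le lf _
  -- integrals over the strong arcs
  have hint : IntegrableOn (deriv f) (Icc t0 t1) := by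
    refine Measure.integrableOn_of_bounded (M := 1) (by simp [Real.volume_Icc])
      (measurable_deriv f).aestronglyMeasurable ?_
    refine Filter.Eventually.of_forall fun t => ?_
    have := norm_deriv_le_of_lipschitz (x₀ := t) hfL
    simpa using this
  have hint' : ∀ (c : N.Arc) (k : ℝ), ∫ t in meetSet S t0 t1 (N.openArc c), (1 + k * deriv f t) =
      timeIn S t0 t1 (N.openArc c) + k * ∫ t in meetSet S t0 t1 (N.openArc c), deriv f t := by
    intro c k
    have i1 : IntegrableOn (fun _ : ℝ => (1 : ℝ)) (meetSet S t0 t1 (N.openArc c)) :=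
      integrableOn_const (meetSet_ne_top S t0 t1 _)
    have i2 : IntegrableOn (deriv f) (meetSet S t0 t1 (N.openArc c)) :=
      hint.mono_set (meetSet_subset S t0 t1 _)
    rw [integral_add i1 (i2.const_mul k), integral_const_mul]
    have i3 : ∫ _ in meetSet S t0 t1 (N.openArc c), (1 : ℝ) = timeIn S t0 t1 (N.openArc c) := by
      simp [timeIn, meetSet, Measure.real]
    rw [i3]
  obtain ⟨st, hst⟩ : ∃ st : Finset N.Arc, st = lf.filter fun c => 1 / 2 < |F c| := ⟨_, rfl⟩
  have h4 : ∑ c ∈ lf, volume.real (imgSet N S t0 t1 c (cc c) (dd c)) ≤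
      ∑ c ∈ lf, (1 + ind (|F c| ≤ 1 / 2)) * timeIn S t0 t1 (N.openArc c) +
      ∑ c ∈ st, dd c / F c * ∫ t in meetSet S t0 t1 (N.openArc c), deriv f t := by
    rw [hst, Finset.sum_filter, ← Finset.sum_add_distrib]
    refine Finset.sum_le_sum fun c _ => ?_
    by_cases hc : 1 / 2 < |F c|
    · have hF : F c ≠ 0 := by
        intro h0
        rw [h0, abs_zero] at hc
        linarith
      rw [ind_zero (not_le.2 hc), add_zero, one_mul, if_pos hc, ← hint' c (dd c / F c)]
      have h5 := hI Q N φ ψ F hψL hψ S hS t0 t1 c (cc c) (dd c) (hr.hdd c) hF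
      rw [← hf] at h5
      exact h5
    · rw [ind_one (not_lt.1 hc), if_neg hc, add_zero]
      have h5 := (hA Q N S hS t0 t1 c (cc c) (dd c) (hr.hdd c)).2
      have h6 : (1 + 1 : ℝ) = 2 := by norm_num
      rw [h6]
      exact h5
  have h5 : ∑ c ∈ st, dd c / F c * ∫ t in meetSet S t0 t1 (N.openArc c), deriv f t ≤
      2 * D + ∑ c, ind (|F c| ≤ 1 / 2) * (2 * |F c| * timeIn S t0 t1 (N.openArc c)) := by
    have h6 := hT Q N D a b φ ψ F m lam P hD hC hψL hψ S hS t0 t1 h01 st (fun c => dd c / F c)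
      (fun c hc => by
        rw [hst, Finset.mem_filter] at hc
        exact hc.2)
      (fun c hc => by
        rw [hst, Finset.mem_filter] at hc
        have h7 : |dd c| = 1 := by
          rcases hr.hdd c with h | h
          · rw [h, abs_one]
          · rw [h, abs_neg, abs_one]
        have h8 : 0 < |F c| := by linarith [hc.2]
        rw [abs_div, h7, div_le_iff₀ h8]
        linarith [hc.2])
    rw [← hf] at h6
    exact h6
  have h6 : ∑ c, ind (c ∈ l.map Prod.fst) * ((1 + ind (|F c| ≤ 1 / 2)) *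
      timeIn S t0 t1 (N.openArc c)) =
      ∑ c ∈ lf, (1 + ind (|F c| ≤ 1 / 2)) * timeIn S t0 t1 (N.openArc c) :=
    sum_ind Finset.univ lf (Finset.subset_univ _) (fun c => c ∈ l.map Prod.fst)
      (fun c _ => (hmlf c).symm) _
  rw [h6]
  have h7 : volume.real (imgSet N S t0 t1 e c1 d1) ≤ 2 * timeIn S t0 t1 (N.openArc e) := hE1.2
  have h8 : volume.real (imgSet N S t0 t1 e' c2 d2) ≤ 2 * timeIn S t0 t1 (N.openArc e') := hE2.2
  have h9 : (volume (badSet S t0 t1 r T)).toReal = volume.real (badSet S t0 t1 r T) := rfl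
  rw [h9]
  linarith

end MPacf82c.St
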