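import Pool.Agent.Lib.MP_acf82c_lc.S.SpecB

/-!
# The route of a special trip

The path inside `e` from `pt e s` to the end `o`, the chain curve, and the path inside `e'` from the
end `o'` to `pt e' s'` are glued together.
-/

namespace MPacf82c.St

open Set MeasureTheory
open scoped NNReal ENNReal

namespace SpCurve

variable {Q : Type} [MetricSpace Q] (N : Network Q)

/-- the sign of the direction of travel towards the end `o` -/
noncomputable def sg (o : Bool) : ℝ := if o then 1 else -1

theorem sg_or (o : Bool) : sg o = 1 ∨ sg o = -1 := by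
  cases o
  · right; simp [sg]
  · left; simp [sg]

theorem sg_mul (o : Bool) : sg o * sg o = 1 := by
  rcases sg_or o with h | h <;> rw [h] <;> norm_num

theorem abs_sg (o : Bool) : |sg o| = 1 := by
  rcases sg_or o with h | h <;> rw [h] <;> norm_num

/-- the position inside the arc `e` after the time `τ`, starting in `s` towards the end `o` -/
noncomputable def inn (e : N.Arc) (s : ℝ) (o : Bool) (τ : ℝ) : Q :=
  RouteReal.gam N e (s + sg o * max 0 τ)

theorem inn_dist (e : N.Arc) (s : ℝ) (o : Bool) (x y : ℝ) :
    dist (inn N e s o x) (inn N e s o y) ≤ |x - y| := by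
  have h1 := (RouteReal.gam_lip N e).dist_le_mul (s + sg o * max 0 x) (s + sg o * max 0 y)
  rw [NNReal.coe_one, one_mul, Real.dist_eq] at h1
  refine h1.trans ?_
  rw [show s + sg o * max 0 x - (s + sg o * max 0 y) = sg o * (max 0 x - max 0 y) by ring,
    abs_mul, abs_sg, one_mul]
  have h2 := abs_max_sub_max_le_abs x y 0
  rwa [max_comm x 0, max_comm y 0] at h2

theorem inn_nonpos (e : N.Arc) {s : ℝ} (hs : s ∈ Ioo 0 (N.len e)) (o : Bool) {τ : ℝ}
    (h : τ ≤ 0) : inn N e s o τ = N.pt e s := by
  unfold inn
  rw [max_eq_left h, mul_zero, add_zero]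
  exact RouteReal.gam_of_mem N e hs.1.le hs.2.le

theorem cost_pos (e : N.Arc) {s : ℝ} (hs : s ∈ Ioo 0 (N.len e)) (o : Bool) :
    0 < cost N e s o := by
  cases o
  · simpa [cost] using hs.1
  · have := hs.2
    simp only [cost, if_true]
    linarith

theorem inn_ge (e : N.Arc) {s : ℝ} (hs : s ∈ Ioo 0 (N.len e)) (o : Bool) {τ : ℝ}
    (h : cost N e s o ≤ τ) : inn N e s o τ = en N e o := by
  have hp := cost_pos N e hs o
  unfold inn
  rw [max_eq_right (hp.le.trans h)]
  cases o
  · simp only [cost, Bool.false_eq_true, if_false] at h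
    simp only [sg, en, Bool.false_eq_true, if_false, tl]
    exact RouteReal.gam_of_nonpos N e (by linarith)
  · simp only [cost, if_true] at h
    simp only [sg, en, if_true, hd]
    exact RouteReal.gam_of_ge N e (by linarith)

theorem inn_mem (e : N.Arc) {s : ℝ} (hs : s ∈ Ioo 0 (N.len e)) (o : Bool) {τ : ℝ}
    (h0 : 0 ≤ τ) (h1 : τ < cost N e s o) :
    s + sg o * τ ∈ Ioo 0 (N.len e) ∧ inn N e s o τ = N.pt e (s + sg o * τ) := by
  have hm : s + sg o * τ ∈ Ioo 0 (N.len e) := by
    obtain ⟨a, b⟩ := hs
    cases o
    · simp only [cost, Bool.false_eq_true, if_false] at h1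
      simp only [sg, Bool.false_eq_true, if_false]
      constructor <;> linarith
    · simp only [cost, if_true] at h1
      simp only [sg, if_true]
      constructor <;> linarith
  refine ⟨hm, ?_⟩
  unfold inn
  rw [max_eq_right h0]
  exact RouteReal.gam_of_mem N e hm.1.le hm.2.le

theorem clen_nonneg (l : List (N.Arc × Bool)) : 0 ≤ clen N l := by
  apply List.sum_nonneg
  intro x hx
  rw [List.mem_map] at hx
  obtain ⟨p, -, rfl⟩ := hx
  exact (N.len_pos _).le

end SpCurve

open SpCurve in
theorem sSpCurve (hC : S_ChainCurve) : S_SpCurve := by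
  intro Q _ N e e' s s' o o' l T hs hs' hsp
  obtain ⟨r, u, cc, dd, hr, hr0, hr1, hdd, hpos⟩ := hC Q N _ _ l hsp.chain hsp.nodup
  have hdur := hsp.dur
  have hA := cost_pos N e hs o
  have hB := cost_pos N e' hs' o'
  have hL := clen_nonneg N l
  set A : ℝ := cost N e s o with hAdef
  set B : ℝ := cost N e' s' o' with hBdef
  set L : ℝ := clen N l with hLdef
  have hrs : LipschitzWith 1 (fun σ => r (σ - A)) := by
    refine LipschitzWith.of_dist_le_mul ?_
    intro x y
    have := hr.dist_le_mul (x - A) (y - A)
    refine this.trans ?_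
    rw [Real.dist_eq, Real.dist_eq, show x - A - (y - A) = x - y by ring]
  have hg1 : LipschitzWith 1 (fun σ => inn N e s o σ) := by
    refine LipschitzWith.of_dist_le_mul ?_
    intro x y
    rw [NNReal.coe_one, one_mul, Real.dist_eq]
    exact inn_dist N e s o x y
  have hg2 : LipschitzWith 1 (fun σ => inn N e' s' o' (T - σ)) := by
    refine LipschitzWith.of_dist_le_mul ?_
    intro x y
    rw [NNReal.coe_one, one_mul, Real.dist_eq]
    refine (inn_dist N e' s' o' (T - x) (T - y)).trans (le_of_eq ?_)
    rw [show T - x - (T - y) = -(x - y) by ring, abs_neg]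
  -- the middle part
  have hmid : ∀ σ ∈ Icc A (A + L), (if σ ≤ A then inn N e s o σ else
      if σ ≤ A + L then r (σ - A) else inn N e' s' o' (T - σ)) = r (σ - A) := by
    intro σ hσ
    by_cases h1 : σ ≤ A
    · have h2 : σ = A := le_antisymm h1 hσ.1
      rw [if_pos h1, inn_ge N e hs o hσ.1, h2, sub_self, hr0 0 le_rfl]
    · rw [if_neg h1, if_pos hσ.2]
  refine ⟨fun σ => if σ ≤ A then inn N e s o σ else
      if σ ≤ A + L then r (σ - A) else inn N e' s' o' (T - σ),
    fun z => u z + A, fun c => cc c + A, dd, -(sg o * s), sg o, T + sg o' * s', -sg o',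
    ?_, ?_, ?_, hdd, sg_or o, ?_, ?_⟩
  · apply RouteReal.glue (g := fun σ => inn N e s o σ)
      (h := fun σ => if σ ≤ A + L then r (σ - A) else inn N e' s' o' (T - σ)) hg1
    · apply RouteReal.glue (g := fun σ => r (σ - A)) (h := fun σ => inn N e' s' o' (T - σ))
        hrs hg2
      show r (A + L - A) = inn N e' s' o' (T - (A + L))
      rw [add_sub_cancel_left, hr1 L le_rfl, inn_ge N e' hs' o' (by linarith)]
    · show inn N e s o A = if A ≤ A + L then r (A - A) else inn N e' s' o' (T - A)
      rw [if_pos (by linarith), sub_self, hr0 0 le_rfl, inn_ge N e hs o le_rfl]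
  · intro σ hσ
    show (if σ ≤ A then inn N e s o σ else
      if σ ≤ A + L then r (σ - A) else inn N e' s' o' (T - σ)) = N.pt e s
    rw [if_pos (by linarith)]
    exact inn_nonpos N e hs o hσ
  · intro σ hσ
    show (if σ ≤ A then inn N e s o σ else
      if σ ≤ A + L then r (σ - A) else inn N e' s' o' (T - σ)) = N.pt e' s'
    rw [if_neg (by linarith), if_neg (by linarith)]
    exact inn_nonpos N e' hs' o' (by linarith)
  · rcases sg_or o' with h | h
    · right; rw [h]
    · left; rw [h]; norm_num
  · intro σ hσ
    obtain ⟨h0, h1⟩ := hσ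
    by_cases hc1 : σ < A
    · right; right; left
      obtain ⟨hm, he⟩ := inn_mem N e hs o h0 hc1
      refine ⟨s + sg o * σ, hm, ?_, ?_⟩
      · show (if σ ≤ A then inn N e s o σ else
          if σ ≤ A + L then r (σ - A) else inn N e' s' o' (T - σ)) = _
        rw [if_pos hc1.le, he]
      · have := sg_mul o
        linear_combination (-σ) * this
    · push Not at hc1
      by_cases hc2 : σ ≤ A + L
      · have hv := hmid σ ⟨hc1, hc2⟩
        rcases hpos (σ - A) ⟨by linarith, by linarith⟩ with ⟨h2, h3⟩ | ⟨c, hc, x, hx, h2, h3⟩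
        · left
          refine ⟨?_, ?_⟩
          · show (if σ ≤ A then inn N e s o σ else
              if σ ≤ A + L then r (σ - A) else inn N e' s' o' (T - σ)) ∈ _
            rw [hv]; exact h2
          · show σ = u (if σ ≤ A then inn N e s o σ else
              if σ ≤ A + L then r (σ - A) else inn N e' s' o' (T - σ)) + A
            rw [hv]; linarith
        · right; left
          refine ⟨c, hc, x, hx, ?_, ?_⟩
          · show (if σ ≤ A then inn N e s o σ else
              if σ ≤ A + L then r (σ - A) else inn N e' s' o' (T - σ)) = _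
            rw [hv]; exact h2
          · linarith
      · push Not at hc2
        right; right; right
        obtain ⟨hm, he⟩ := inn_mem N e' hs' o' (τ := T - σ) (by linarith) (by linarith)
        refine ⟨s' + sg o' * (T - σ), hm, ?_, ?_⟩
        · show (if σ ≤ A then inn N e s o σ else
            if σ ≤ A + L then r (σ - A) else inn N e' s' o' (T - σ)) = _
          rw [if_neg (by linarith), if_neg (by linarith), he]
        · have := sg_mul o'
          linear_combination (T - σ) * this

end MPacf82c.St
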