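import Pool.Agent.Lib.MP_acf82c_lc.S.SpecC

/-!
# Geodesic special trips
-/

namespace MPacf82c.St

open Set

private theorem spGeo_univ {Q : Type} [MetricSpace Q] (N : Network Q) {x y : Q} {L : ℝ}
    (h : Walk N.len N.pt x y L) : WalkIn N univ x y L := by
  induction h with
  | nil x => exact WalkIn.nil x (mem_univ x)
  | cons e s t hs ht y L _ ih =>
      exact WalkIn.cons e s t hs ht (fun u _ => mem_univ _) y L ih

private theorem spGeo_cost {Q : Type} [MetricSpace Q] (N : Network Q) (e : N.Arc) (s : ℝ)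
    (hs : s ∈ Ioo 0 (N.len e)) (o : Bool) : dist (N.pt e s) (en N e o) ≤ cost N e s o := by
  have hs' : s ∈ Icc 0 (N.len e) := ⟨hs.1.le, hs.2.le⟩
  have h0 : (0 : ℝ) ∈ Icc 0 (N.len e) := ⟨le_refl _, (N.len_pos e).le⟩
  have h1 : N.len e ∈ Icc 0 (N.len e) := ⟨(N.len_pos e).le, le_refl _⟩
  cases o with
  | false =>
      have h := N.dist_le e s hs' 0 h0
      rw [sub_zero, abs_of_pos hs.1] at h
      simpa [en, tl, cost] using h
  | true =>
      have h := N.dist_le e s hs' (N.len e) h1
      rw [abs_of_neg (by linarith [hs.2]), neg_sub] at h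
      simpa [en, hd, cost] using h

theorem sSpGeo (hW : S_SpWalk) (hD : S_ChainDist) : S_SpGeo := by
  intro Q _ N e e' s s' hne hs hs'
  obtain ⟨o, o', l, T, hsp, hT, -⟩ := hW Q N univ e e' s s' (dist (N.pt e s) (N.pt e' s')) hne
    hs hs' (spGeo_univ N (N.walk _ _))
  have h1 := spGeo_cost N e s hs o
  have h2 := spGeo_cost N e' s' hs' o'
  have h3 := hD Q N (en N e o) (en N e' o') l hsp.chain
  have h4 : dist (N.pt e s) (N.pt e' s') ≤
      dist (N.pt e s) (en N e o) + dist (en N e o) (en N e' o') +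
        dist (en N e' o') (N.pt e' s') := dist_triangle4 _ _ _ _
  rw [dist_comm (en N e' o')] at h4
  have h5 := hsp.dur
  have h6 : T = dist (N.pt e s) (N.pt e' s') := by
    apply le_antisymm hT
    linarith
  rw [← h6]
  exact ⟨o, o', l, hsp⟩

end MPacf82c.St
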