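import Pool.Agent.Lib.MP_acf82c_lc.S.SpecC

/-!
# Special trips from walks
-/

namespace MPacf82c.St

theorem sSpWalk (hW : S_WalkChain) (hE : S_Erase) : S_SpWalk := by
  intro Q _ N A e e' s s' L hne hs hs' hwalk
  obtain ⟨o, o', l, hl, hv, hc⟩ := hW Q N A e e' s s' L hne hs hs' hwalk
  obtain ⟨l', hl', hnd, hsub, hlen⟩ := hE Q N (en N e o) (en N e' o') l hl
  refine ⟨o, o', l', cost N e s o + clen N l' + cost N e' s' o', ⟨hl', hnd, rfl⟩, ?_, ?_⟩
  · linarith
  · intro v hv'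
    exact hv v (hsub v hv')

end MPacf82c.St
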