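import Pool.Agent.Lib.MP_acf82c_lc.S.SpecC

/-!
# Choice of the special trips
-/

namespace MPacf82c.St

open Set MeasureTheory
open scoped NNReal ENNReal

namespace Special

variable {Q : Type} [MetricSpace Q]

/-! ### Nodes and arcs of a trip -/

lemma en_node (N : Network Q) (e : N.Arc) (o : Bool) : en N e o ∈ N.nodes := by
  cases o
  · exact ⟨e, Or.inl rfl⟩
  · exact ⟨e, Or.inr rfl⟩

lemma vis_node (N : Network Q) {a v : Q} (ha : a ∈ N.nodes) {l : List (N.Arc × Bool)}
    (hv : v ∈ vis N a l) : v ∈ N.nodes := by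
  unfold vis at hv
  rcases List.mem_cons.1 hv with h | h
  · rw [h]
    exact ha
  · obtain ⟨q, -, rfl⟩ := List.mem_map.1 h
    exact en_node N q.1 q.2

lemma arc_ends (N : Network Q) {a b : Q} {l : List (N.Arc × Bool)}
    (h : Chain (tl N) (hd N) a b l) : (vis N a l).Nodup → ∀ c ∈ l.map Prod.fst,
      tl N c ≠ hd N c ∧ tl N c ∈ vis N a l ∧ hd N c ∈ vis N a l := by
  induction h with
  | nil v =>
    intro _ c hc
    simp at hc
  | fwd e b l hl ih =>
    intro hn c hc
    have e1 : vis N (tl N e) ((e, true) :: l) = tl N e :: vis N (hd N e) l := rfl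
    rw [e1] at hn ⊢
    obtain ⟨h1, h2⟩ := List.nodup_cons.1 hn
    have h3 : hd N e ∈ vis N (hd N e) l := List.mem_cons_self
    rcases List.mem_cons.1 hc with h | h
    · rw [h]
      exact ⟨fun h4 => h1 (h4 ▸ h3), List.mem_cons_self, List.mem_cons_of_mem _ h3⟩
    · obtain ⟨h4, h5, h6⟩ := ih h2 c h
      exact ⟨h4, List.mem_cons_of_mem _ h5, List.mem_cons_of_mem _ h6⟩
  | bwd e b l hl ih =>
    intro hn c hc
    have e1 : vis N (hd N e) ((e, false) :: l) = hd N e :: vis N (tl N e) l := rfl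
    rw [e1] at hn ⊢
    obtain ⟨h1, h2⟩ := List.nodup_cons.1 hn
    have h3 : tl N e ∈ vis N (tl N e) l := List.mem_cons_self
    rcases List.mem_cons.1 hc with h | h
    · rw [h]
      exact ⟨fun h4 => h1 (h4 ▸ h3), List.mem_cons_of_mem _ h3, List.mem_cons_self⟩
    · obtain ⟨h4, h5, h6⟩ := ih h2 c h
      exact ⟨h4, List.mem_cons_of_mem _ h5, List.mem_cons_of_mem _ h6⟩

/-! ### Counting pairs -/

open Classical in
/-- The pairs with the property `R`. -/
noncomputable def ps {n : ℕ} (R : Fin n → Fin n → Prop) : Finset (Fin n × Fin n) :=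
  Finset.univ.filter fun q => R q.1 q.2

lemma mem_ps {n : ℕ} {R : Fin n → Fin n → Prop} {q : Fin n × Fin n} :
    q ∈ ps R ↔ R q.1 q.2 := by
  unfold ps
  simp

lemma ps_mono {n : ℕ} {R R' : Fin n → Fin n → Prop} (h : ∀ i j, R i j → R' i j) :
    ((ps R).card : ℝ) ≤ (ps R').card := by
  refine Nat.cast_le.2 (Finset.card_le_card fun q hq => ?_)
  exact mem_ps.2 (h _ _ (mem_ps.1 hq))

lemma ps_or {n : ℕ} {R R₁ R₂ : Fin n → Fin n → Prop} (h : ∀ i j, R i j → R₁ i j ∨ R₂ i j) :
    ((ps R).card : ℝ) ≤ (ps R₁).card + (ps R₂).card := by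
  classical
  have h1 : ps R ⊆ ps R₁ ∪ ps R₂ := fun q hq =>
    Finset.mem_union.2 ((h _ _ (mem_ps.1 hq)).imp mem_ps.2 mem_ps.2)
  exact_mod_cast (Finset.card_le_card h1).trans (Finset.card_union_le _ _)

lemma sum_ind {n : ℕ} (R : Fin n → Fin n → Prop) : ∑ i, ∑ j, ind (R i j) = (ps R).card := by
  classical
  unfold ps ind
  rw [← Fintype.sum_prod_type' (fun i j => if R i j then (1 : ℝ) else 0), Finset.sum_boole]

lemma sum_off {n : ℕ} (R : Fin n → Fin n → Prop) (hR : ∀ i, R i i) :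
    ∑ i, ∑ j ∈ Finset.univ.filter (fun j => j ≠ i), ind (R i j) = (ps R).card - n := by
  have h : ∀ i, ∑ j ∈ Finset.univ.filter (fun j => j ≠ i), ind (R i j) =
      ∑ j, ind (R i j) - 1 := by
    intro i
    have h1 : ind (R i i) = 1 := by
      unfold ind
      rw [if_pos (hR i)]
    rw [Finset.filter_ne', ← h1, eq_sub_iff_add_eq, Finset.sum_erase_add _ _ (Finset.mem_univ i)]
  rw [Finset.sum_congr rfl fun i _ => h i, Finset.sum_sub_distrib, sum_ind]
  simp

lemma off_le {n : ℕ} {E : Type} (arcOf : Fin n → E) (B : Fin n → Fin n → Prop) {m : ℝ}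
    (hs : ((ps fun i j => arcOf i = arcOf j).card : ℝ) ≤ (n : ℝ) ^ 2 / 16)
    (hB : ((ps fun i j => arcOf i ≠ arcOf j ∧ B i j).card : ℝ) ≤ m) :
    ∑ i, ∑ j ∈ Finset.univ.filter (fun j => j ≠ i), ind (arcOf i = arcOf j ∨ B i j) ≤
      (n : ℝ) ^ 2 / 16 - n + m := by
  rw [sum_off (fun i j => arcOf i = arcOf j ∨ B i j) fun i => Or.inl rfl]
  have h : ((ps fun i j => arcOf i = arcOf j ∨ B i j).card : ℝ) ≤
      (ps fun i j => arcOf i = arcOf j).card + (ps fun i j => arcOf i ≠ arcOf j ∧ B i j).card := by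
    refine ps_or fun i j h => ?_
    by_cases h1 : arcOf i = arcOf j
    · exact Or.inl h1
    · exact Or.inr ⟨h1, h.resolve_left h1⟩
  linarith

lemma arith {n : ℕ} {g m : ℝ} (hg1 : g ≤ 1) (hn : 32 ≤ n) (hm : m ≤ 7 / 8 * (n : ℝ) ^ 2) :
    (n : ℝ) ^ 2 / 16 - n + m ≤ (1 - g / 32) * ((n : ℝ) * ((n : ℝ) - 1)) := by
  have h1 : (32 : ℝ) ≤ n := by exact_mod_cast hn
  have h2 : 0 ≤ (n : ℝ) * ((n : ℝ) - 1) := mul_nonneg (by linarith) (by linarith)
  have h3 : (31 / 32 : ℝ) * ((n : ℝ) * ((n : ℝ) - 1)) ≤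
      (1 - g / 32) * ((n : ℝ) * ((n : ℝ) - 1)) := mul_le_mul_of_nonneg_right (by linarith) h2
  nlinarith

end Special

open Special in
theorem sSpecial (hW : S_SpWalk) (hG : S_SpGeo) (hS : S_GeoSides) (hT : S_TwoPts) :
    S_Special := by
  intro Q _ N D g ℓ' n arcOf pos hD hg0 hg1 hDl hpos hsame hn hgn hav
  classical
  set x : Fin n → Q := fun i => N.pt (arcOf i) (pos i) with hx
  have hn1 : (32 : ℝ) ≤ n := by exact_mod_cast hn
  have hs : ((ps fun i j => arcOf i = arcOf j).card : ℝ) ≤ (n : ℝ) ^ 2 / 16 := by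
    rw [← sum_ind]
    exact hsame
  have hdl : ∀ i j, dist (x i) (x j) ≤ ℓ' := fun i j => (hD _ _).trans hDl
  -- geodesic trips
  have hgeo : ∀ i j, ∃ (o o' : Bool) (l : List (N.Arc × Bool)), arcOf i ≠ arcOf j →
      IsSp N (arcOf i) (pos i) (arcOf j) (pos j) o o' l (dist (x i) (x j)) := by
    intro i j
    by_cases hij : arcOf i = arcOf j
    · exact ⟨true, true, [], fun h => absurd hij h⟩
    · obtain ⟨o, o', l, h⟩ := hG Q N (arcOf i) (arcOf j) (pos i) (pos j) hij (hpos i) (hpos j)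
      exact ⟨o, o', l, fun _ => h⟩
  choose og og' lg hg using hgeo
  set vg : Fin n → Fin n → List Q := fun i j => vis N (en N (arcOf i) (og i j)) (lg i j)
    with hvg
  -- two nodes
  have htwo : ∀ p p' : Q, p ≠ p' →
      ((ps fun i j => arcOf i ≠ arcOf j ∧ p ∈ vg i j ∧ p' ∈ vg i j).card : ℝ) ≤
        (n : ℝ) ^ 2 / 2 := by
    intro p p' hpp
    have h1 := hT n (fun i => dist (x i) p < dist (x i) p')
      (ps fun i j => arcOf i ≠ arcOf j ∧ p ∈ vg i j ∧ p' ∈ vg i j) (by
        intro q hq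
        obtain ⟨h2, h3, h4⟩ := mem_ps.1 hq
        rcases hS Q N (arcOf q.1) (arcOf q.2) (pos q.1) (pos q.2) (og q.1 q.2) (og' q.1 q.2)
          (lg q.1 q.2) (hpos _) (hpos _) (hg q.1 q.2 h2) p h3 p' h4 hpp with ⟨h5, h6⟩ | ⟨h5, h6⟩
        · exact Or.inl ⟨h5, fun h7 => lt_asymm h6 h7⟩
        · exact Or.inr ⟨fun h7 => lt_asymm h5 h7, h6⟩)
    linarith
  -- arcs of geodesic trips
  have harc : ∀ c : N.Arc, ((ps fun i j => arcOf i ≠ arcOf j ∧ c ∈ (lg i j).map Prod.fst).card : ℝ)
      ≤ (n : ℝ) ^ 2 / 2 := by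
    intro c
    by_cases hc : tl N c = hd N c
    · have h1 : (ps fun i j => arcOf i ≠ arcOf j ∧ c ∈ (lg i j).map Prod.fst) = ∅ := by
        refine Finset.eq_empty_of_forall_notMem fun q hq => ?_
        obtain ⟨h2, h3⟩ := mem_ps.1 hq
        exact (arc_ends N (hg _ _ h2).chain (hg _ _ h2).nodup c h3).1 hc
      rw [h1, Finset.card_empty, Nat.cast_zero]
      positivity
    · refine (ps_mono fun i j h => ?_).trans (htwo _ _ hc)
      obtain ⟨h2, h3⟩ := h
      obtain ⟨-, h4, h5⟩ := arc_ends N (hg _ _ h2).chain (hg _ _ h2).nodup c h3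
      exact ⟨h2, h4, h5⟩
  have hsq : 0 ≤ (n : ℝ) ^ 2 := by positivity
  by_cases hcase : ∀ v : Q, ((ps fun i j => arcOf i ≠ arcOf j ∧ v ∈ vg i j).card : ℝ) ≤
      7 / 8 * (n : ℝ) ^ 2
  · -- Case 1
    refine ⟨og, og', lg, fun i j => dist (x i) (x j), hg, hdl, fun v => ?_, fun c => ?_⟩
    · exact (off_le arcOf _ hs (hcase v)).trans (arith hg1 hn le_rfl)
    · exact (off_le arcOf _ hs (harc c)).trans (arith hg1 hn (by linarith))
  · -- Case 2
    push Not at hcase
    obtain ⟨p, hp⟩ := hcase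
    have hpn : p ∈ N.nodes := by
      have h1 : (ps fun i j => arcOf i ≠ arcOf j ∧ p ∈ vg i j).Nonempty := by
        rw [Finset.nonempty_iff_ne_empty]
        intro h0
        rw [h0, Finset.card_empty, Nat.cast_zero] at hp
        nlinarith
      obtain ⟨q, hq⟩ := h1
      exact vis_node N (en_node N _ _) (mem_ps.1 hq).2
    have h1 := hav p hpn
    rw [sum_ind (fun i j => arcOf i ≠ arcOf j ∧ ∃ L ≤ ℓ', WalkIn N {p}ᶜ (x i) (x j) L)] at h1
    set A : Finset (Fin n × Fin n) :=
      ps fun i j => arcOf i ≠ arcOf j ∧ ∃ L ≤ ℓ', WalkIn N {p}ᶜ (x i) (x j) L with hA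
    obtain ⟨C, hCA, hCc⟩ := Finset.exists_subset_card_eq (s := A)
      (n := ⌊g * (n : ℝ) ^ 2 / 8⌋₊) (Nat.floor_le_of_le h1)
    have hC1 : (C.card : ℝ) ≤ g * (n : ℝ) ^ 2 / 8 := by
      rw [hCc]
      exact Nat.floor_le (by positivity)
    have hC2 : g * (n : ℝ) ^ 2 / 16 ≤ C.card := by
      have h2 := Nat.lt_floor_add_one (g * (n : ℝ) ^ 2 / 8)
      rw [← hCc] at h2
      have h3 : 16 * (n : ℝ) ≤ g * n * n := mul_le_mul_of_nonneg_right hgn (by linarith)
      nlinarith
    have hw : ∀ q : Fin n × Fin n, ∃ (o o' : Bool) (l : List (N.Arc × Bool)) (T : ℝ), q ∈ C →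
        IsSp N (arcOf q.1) (pos q.1) (arcOf q.2) (pos q.2) o o' l T ∧ T ≤ ℓ' ∧
          ∀ v ∈ vis N (en N (arcOf q.1) o) l, v ≠ p := by
      intro q
      by_cases hq : q ∈ C
      · obtain ⟨h2, L, hL, h3⟩ := mem_ps.1 (hCA hq)
        obtain ⟨o, o', l, T, h4, h5, h6⟩ := hW Q N {p}ᶜ (arcOf q.1) (arcOf q.2) (pos q.1)
          (pos q.2) L h2 (hpos _) (hpos _) h3
        exact ⟨o, o', l, T, fun _ => ⟨h4, h5.trans hL, fun v hv h7 => h6 v hv h7⟩⟩
      · exact ⟨true, true, [], 0, fun h => absurd h hq⟩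
    choose ow ow' lw Tw hw1 using hw
    have hCne : ∀ q ∈ C, arcOf q.1 ≠ arcOf q.2 := fun q hq => (mem_ps.1 (hCA hq)).1
    set o : Fin n → Fin n → Bool := fun i j => if (i, j) ∈ C then ow (i, j) else og i j with ho
    set o' : Fin n → Fin n → Bool := fun i j => if (i, j) ∈ C then ow' (i, j) else og' i j
      with ho'
    set l : Fin n → Fin n → List (N.Arc × Bool) := fun i j =>
      if (i, j) ∈ C then lw (i, j) else lg i j with hl
    set T : Fin n → Fin n → ℝ := fun i j => if (i, j) ∈ C then Tw (i, j) else dist (x i) (x j)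
      with hTd
    have hCps : ((ps fun i j => (i, j) ∈ C).card : ℝ) = C.card := by
      congr 2
      ext q
      exact mem_ps
    refine ⟨o, o', l, T, fun i j hij => ?_, fun i j => ?_, fun v => ?_, fun c => ?_⟩
    · by_cases h : (i, j) ∈ C
      · simp only [ho, ho', hl, hTd, if_pos h]
        exact (hw1 (i, j) h).1
      · simp only [ho, ho', hl, hTd, if_neg h]
        exact hg i j hij
    · by_cases h : (i, j) ∈ C
      · simp only [hTd, if_pos h]
        exact (hw1 (i, j) h).2.1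
      · simp only [hTd, if_neg h]
        exact hdl i j
    · by_cases hv : v = p
      · -- the node `p`
        rw [hv, sum_off (fun i j => arcOf i = arcOf j ∨ p ∈ vis N (en N (arcOf i) (o i j)) (l i j))
          fun i => Or.inl rfl]
        have h2 : (ps fun i j => arcOf i = arcOf j ∨
            p ∈ vis N (en N (arcOf i) (o i j)) (l i j)) ⊆ Finset.univ \ C := by
          intro q hq
          refine Finset.mem_sdiff.2 ⟨Finset.mem_univ _, fun hqC => ?_⟩
          rcases mem_ps.1 hq with h3 | h3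
          · exact hCne q hqC h3
          · simp only [ho, hl, Prod.mk.eta, if_pos hqC] at h3
            exact (hw1 q hqC).2.2 p h3 rfl
        have h3 := Finset.card_le_card h2
        have h4 : (((Finset.univ : Finset (Fin n × Fin n)) \ C).card : ℝ) =
            (n : ℝ) ^ 2 - C.card := by
          rw [Finset.card_sdiff_of_subset (Finset.subset_univ C),
            Nat.cast_sub (Finset.card_le_card (Finset.subset_univ C)), Finset.card_univ,
            Fintype.card_prod, Fintype.card_fin]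
          push_cast
          ring
        have h5 : ((ps fun i j => arcOf i = arcOf j ∨
            p ∈ vis N (en N (arcOf i) (o i j)) (l i j)).card : ℝ) ≤ (n : ℝ) ^ 2 - C.card := by
          rw [← h4]
          exact_mod_cast h3
        have h6 : 0 ≤ g * (n : ℝ) := by positivity
        nlinarith
      · -- the other nodes
        refine (off_le arcOf _ hs (m := (3 / 4) * (n : ℝ) ^ 2) ?_).trans
          (arith hg1 hn (by linarith))
        have h2 : ((ps fun i j => arcOf i ≠ arcOf j ∧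
            v ∈ vis N (en N (arcOf i) (o i j)) (l i j)).card : ℝ) ≤
            (ps fun i j => (i, j) ∈ C).card + (ps fun i j => arcOf i ≠ arcOf j ∧ v ∈ vg i j).card :=
          ps_or fun i j h => by
            by_cases h3 : (i, j) ∈ C
            · exact Or.inl h3
            · refine Or.inr ⟨h.1, ?_⟩
              have h4 := h.2
              simp only [ho, hl, if_neg h3] at h4
              exact h4
        have h3 : ((ps fun i j => arcOf i ≠ arcOf j ∧ v ∈ vg i j).card : ℝ) ≤
            (ps fun i j => arcOf i ≠ arcOf j ∧ v ∈ vg i j ∧ p ∈ vg i j).card +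
              (ps fun i j => ¬ (arcOf i ≠ arcOf j ∧ p ∈ vg i j)).card :=
          ps_or fun i j h => by
            by_cases h4 : p ∈ vg i j
            · exact Or.inl ⟨h.1, h.2, h4⟩
            · exact Or.inr fun h5 => h4 h5.2
        have h4 : ((ps fun i j => ¬ (arcOf i ≠ arcOf j ∧ p ∈ vg i j)).card : ℝ) =
            (n : ℝ) ^ 2 - (ps fun i j => arcOf i ≠ arcOf j ∧ p ∈ vg i j).card := by
          have h5 : (ps fun i j => ¬ (arcOf i ≠ arcOf j ∧ p ∈ vg i j)) =
              Finset.univ \ (ps fun i j => arcOf i ≠ arcOf j ∧ p ∈ vg i j) := by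
            ext q
            rw [mem_ps, Finset.mem_sdiff, mem_ps]
            simp only [Finset.mem_univ, true_and]
          rw [h5, Finset.card_sdiff_of_subset (Finset.subset_univ _),
            Nat.cast_sub (Finset.card_le_card (Finset.subset_univ _)), Finset.card_univ,
            Fintype.card_prod, Fintype.card_fin]
          push_cast
          ring
        have h5 := htwo v p hv
        have h6 : g * (n : ℝ) ^ 2 ≤ 1 * (n : ℝ) ^ 2 := mul_le_mul_of_nonneg_right hg1 hsq
        rw [hCps] at h2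
        linarith
    · -- arcs
      refine (off_le arcOf _ hs (m := (5 / 8) * (n : ℝ) ^ 2) ?_).trans
        (arith hg1 hn (by linarith))
      have h2 : ((ps fun i j => arcOf i ≠ arcOf j ∧ c ∈ (l i j).map Prod.fst).card : ℝ) ≤
          (ps fun i j => (i, j) ∈ C).card +
            (ps fun i j => arcOf i ≠ arcOf j ∧ c ∈ (lg i j).map Prod.fst).card :=
        ps_or fun i j h => by
          by_cases h3 : (i, j) ∈ C
          · exact Or.inl h3
          · refine Or.inr ⟨h.1, ?_⟩
            have h4 := h.2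
            simp only [hl, if_neg h3] at h4
            exact h4
      have h5 := harc c
      have h6 : g * (n : ℝ) ^ 2 ≤ 1 * (n : ℝ) ^ 2 := mul_le_mul_of_nonneg_right hg1 hsq
      rw [hCps] at h2
      linarith

end MPacf82c.St
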