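import Pool.Agent.Lib.MP_acf82c_lc.S.SpecA

/-!
# Product inequality (helper26)
-/

namespace MPacf82c.St

open Finset

theorem sStarLow : S_StarLow := by
  intro E x w hx hw
  suffices h : (0 ≤ ∏ k ∈ E, x k + ∑ j ∈ E, w j * ∏ k ∈ E.erase j, x k ∧
      0 ≤ ∑ j ∈ E, w j * ∏ k ∈ E.erase j, x k) ∧
      ∏ k ∈ E, x k + ∑ j ∈ E, w j * ∏ k ∈ E.erase j, x k ≤ ∏ k ∈ E, (x k + w k) from h.2
  induction E using Finset.induction_on with
  | empty => simp
  | insert c E hc ih =>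
    have hx' : ∀ k ∈ E, 0 ≤ x k := fun k hk => hx k (mem_insert_of_mem hk)
    have hw' : ∀ k ∈ E, 0 ≤ w k := fun k hk => hw k (mem_insert_of_mem hk)
    obtain ⟨⟨h1, h2⟩, h3⟩ := ih hx' hw'
    have hxc := hx c (mem_insert_self _ _)
    have hwc := hw c (mem_insert_self _ _)
    have hP : 0 ≤ ∏ k ∈ E, x k := prod_nonneg hx'
    have e1 : ∏ k ∈ insert c E, x k = x c * ∏ k ∈ E, x k := prod_insert hc
    have e2 : ∑ j ∈ insert c E, w j * ∏ k ∈ (insert c E).erase j, x k =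
        w c * ∏ k ∈ E, x k + x c * ∑ j ∈ E, w j * ∏ k ∈ E.erase j, x k := by
      rw [sum_insert hc, erase_insert hc, mul_sum]
      congr 1
      apply sum_congr rfl
      intro j hj
      have hjc : j ≠ c := by
        rintro rfl
        exact hc hj
      rw [erase_insert_of_ne hjc.symm, prod_insert (fun h => hc (mem_of_mem_erase h))]
      ring
    have e3 : ∏ k ∈ insert c E, (x k + w k) = (x c + w c) * ∏ k ∈ E, (x k + w k) :=
      prod_insert hc
    rw [e1, e2, e3]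
    have h4 : 0 ≤ w c * ∏ k ∈ E, x k := mul_nonneg hwc hP
    have h5 : 0 ≤ x c * ∑ j ∈ E, w j * ∏ k ∈ E.erase j, x k := mul_nonneg hxc h2
    have h6 : 0 ≤ w c * ∑ j ∈ E, w j * ∏ k ∈ E.erase j, x k := mul_nonneg hwc h2
    have h7 := mul_le_mul_of_nonneg_left h3 (add_nonneg hxc hwc)
    refine ⟨⟨?_, ?_⟩, ?_⟩
    · have := mul_nonneg hxc hP
      linarith
    · linarith
    · linarith

end MPacf82c.St
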