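import Pool.Agent.Lib.MP_acf82c_lc.S.SpecA

/-!
# Product inequality for the stars, upper bound
-/

set_option autoImplicit false

namespace MPacf82c.St

private theorem starUp_aux (x : ℕ → ℝ) (θ : ℝ) (h0 : 0 ≤ θ) (h1 : θ ≤ 1) (E : Finset ℕ) :
    (∀ k ∈ E, 0 ≤ x k) → (∀ k ∈ E, x k ≤ 1) →
    ∏ k ∈ E, (x k + θ * (1 - x k)) ≤
      ∏ k ∈ E, x k + θ * ∑ j ∈ E, (1 - x j) * ∏ k ∈ E.erase j, x k +
        θ ^ 2 * (1 - ∏ k ∈ E, x k - ∑ j ∈ E, (1 - x j) * ∏ k ∈ E.erase j, x k) ∧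
    0 ≤ 1 - ∏ k ∈ E, x k - ∑ j ∈ E, (1 - x j) * ∏ k ∈ E.erase j, x k ∧
    0 ≤ ∑ j ∈ E, (1 - x j) * ∏ k ∈ E.erase j, x k := by
  induction E using Finset.induction_on with
  | empty => simp
  | insert a s ha ih =>
    intro hx hx'
    obtain ⟨i1, i2, i3⟩ := ih (fun k hk => hx k (Finset.mem_insert_of_mem hk))
      (fun k hk => hx' k (Finset.mem_insert_of_mem hk))
    have xa0 : 0 ≤ x a := hx a (Finset.mem_insert_self a s)
    have xa1 : x a ≤ 1 := hx' a (Finset.mem_insert_self a s)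
    have hA : 0 ≤ ∏ k ∈ s, x k :=
      Finset.prod_nonneg fun k hk => hx k (Finset.mem_insert_of_mem hk)
    have hC : ∑ j ∈ insert a s, (1 - x j) * ∏ k ∈ (insert a s).erase j, x k =
        (1 - x a) * ∏ k ∈ s, x k + x a * ∑ j ∈ s, (1 - x j) * ∏ k ∈ s.erase j, x k := by
      rw [Finset.sum_insert ha, Finset.erase_insert ha, Finset.mul_sum]
      congr 1
      refine Finset.sum_congr rfl fun j hj => ?_
      have hne : a ≠ j := fun h => ha (h ▸ hj)
      rw [Finset.erase_insert_of_ne hne, Finset.prod_insert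
        (fun h => ha (Finset.mem_of_mem_erase h))]
      ring
    rw [hC, Finset.prod_insert ha, Finset.prod_insert ha]
    set A := ∏ k ∈ s, x k
    set C := ∑ j ∈ s, (1 - x j) * ∏ k ∈ s.erase j, x k
    have hfac : 0 ≤ x a + θ * (1 - x a) := add_nonneg xa0 (mul_nonneg h0 (by linarith))
    have hR : 0 ≤ 1 - A - C := i2
    refine ⟨?_, ?_, ?_⟩
    · calc (x a + θ * (1 - x a)) * ∏ k ∈ s, (x k + θ * (1 - x k))
          ≤ (x a + θ * (1 - x a)) * (A + θ * C + θ ^ 2 * (1 - A - C)) :=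
            mul_le_mul_of_nonneg_left i1 hfac
        _ ≤ _ := by
            have h2 : 0 ≤ θ ^ 2 * ((1 - x a) * (1 - A - C) * (1 - θ)) :=
              mul_nonneg (sq_nonneg θ)
                (mul_nonneg (mul_nonneg (by linarith) hR) (by linarith))
            nlinarith [h2]
    · have h2 : 0 ≤ (1 - x a) * C := mul_nonneg (by linarith) i3
      nlinarith [h2]
    · exact add_nonneg (mul_nonneg (by linarith) hA) (mul_nonneg xa0 i3)

theorem sStarUp : S_StarUp := by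
  intro E x θ hx hx' h0 h1
  obtain ⟨i1, i2, i3⟩ := starUp_aux x θ h0 h1 E hx hx'
  have hA : 0 ≤ ∏ k ∈ E, x k := Finset.prod_nonneg hx
  have h2 : θ ^ 2 * (1 - ∏ k ∈ E, x k - ∑ j ∈ E, (1 - x j) * ∏ k ∈ E.erase j, x k) ≤
      θ ^ 2 * 1 := mul_le_mul_of_nonneg_left (by linarith) (sq_nonneg θ)
  linarith

end MPacf82c.St
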