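import Pool.Agent.Lib.MP_acf82c_lc.S.SpecC

/-!
# MP_acf82c_lc, S: pairs on different sides
-/

namespace MPacf82c.St

open Set MeasureTheory
open scoped NNReal ENNReal

theorem sTwoPts : S_TwoPts := by
  classical
  intro n c A hA
  set S : Finset (Fin n) := Finset.univ.filter fun i => c i with hS
  have h1 : A ⊆ (S ×ˢ Sᶜ) ∪ (Sᶜ ×ˢ S) := by
    intro q hq
    rcases hA q hq with h | h
    · refine Finset.mem_union_left _ (Finset.mem_product.2 ⟨?_, ?_⟩)
      · exact Finset.mem_filter.2 ⟨Finset.mem_univ _, h.1⟩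
      · rw [Finset.mem_compl, hS, Finset.mem_filter]
        exact fun h' => h.2 h'.2
    · refine Finset.mem_union_right _ (Finset.mem_product.2 ⟨?_, ?_⟩)
      · rw [Finset.mem_compl, hS, Finset.mem_filter]
        exact fun h' => h.1 h'.2
      · exact Finset.mem_filter.2 ⟨Finset.mem_univ _, h.2⟩
  have h2 : A.card ≤ 2 * (S.card * Sᶜ.card) := by
    calc A.card ≤ ((S ×ˢ Sᶜ) ∪ (Sᶜ ×ˢ S)).card := Finset.card_le_card h1
      _ ≤ (S ×ˢ Sᶜ).card + (Sᶜ ×ˢ S).card := Finset.card_union_le _ _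
      _ = 2 * (S.card * Sᶜ.card) := by
          rw [Finset.card_product, Finset.card_product]
          ring
  have h3 : S.card + Sᶜ.card = n := by
    rw [Finset.card_add_card_compl, Fintype.card_fin]
  have h4 : (A.card : ℝ) ≤ 2 * ((S.card : ℝ) * (Sᶜ.card : ℝ)) := by exact_mod_cast h2
  have h5 : (S.card : ℝ) + (Sᶜ.card : ℝ) = n := by exact_mod_cast h3
  rw [← h5]
  nlinarith [sq_nonneg ((S.card : ℝ) - (Sᶜ.card : ℝ))]

end MPacf82c.St
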