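import Pool.Agent.Lib.MP_acf82c_lc.S.SpecA
import Pool.Agent.Lib.MP_acf82c_lc.PermAvg

set_option autoImplicit false

/-! # Stability: random order against plans without an early star -/

namespace MPacf82c.St

open Finset
open scoped Nat

/-- the indicator that `σ u` is not in the first `m` blocks -/
private noncomputable def UpA2_ind {n : ℕ} (B m : ℕ) (a : Fin n) : ℝ :=
  if m * B ≤ a.val then 1 else 0

private theorem UpA2_ind_nonneg {n : ℕ} (B m : ℕ) (a : Fin n) : 0 ≤ UpA2_ind B m a := by
  unfold UpA2_ind; split_ifs <;> norm_num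

private theorem UpA2_ind_sum {n : ℕ} (B m : ℕ) (h : m * B ≤ n) :
    ∑ a : Fin n, UpA2_ind B m a = (n : ℝ) - (m : ℝ) * B := by
  unfold UpA2_ind
  rw [Finset.sum_boole]
  have h1 : (univ.filter fun a : Fin n => m * B ≤ a.val).card = n - m * B := by
    have h2 : (univ.filter fun a : Fin n => m * B ≤ a.val).card +
        (univ.filter fun a : Fin n => ¬ m * B ≤ a.val).card = n := by
      rw [Finset.card_filter_add_card_filter_not, Finset.card_univ, Fintype.card_fin]
    have h3 : (univ.filter fun a : Fin n => ¬ m * B ≤ a.val).card = m * B := by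
      have h4 : (univ.filter fun a : Fin n => ¬ m * B ≤ a.val) =
          (univ : Finset (Fin (m * B))).map (Fin.castLEEmb h) := by
        ext i
        simp only [Finset.mem_filter, Finset.mem_univ, true_and, Finset.mem_map,
          Fin.castLEEmb_apply]
        constructor
        · intro hi
          exact ⟨⟨i.val, by omega⟩, by ext; simp⟩
        · rintro ⟨a, rfl⟩
          simp
      rw [h4, Finset.card_map, Finset.card_univ, Fintype.card_fin]
    omega
  rw [h1, Nat.cast_sub h, Nat.cast_mul]

private theorem UpA2_y {n : ℕ} (M K q : ℕ) (y : ℕ → Fin n) (b : ℕ → Bool) (hq : q ≤ M)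
    (hA : Adm M K y b) (hb : ∀ k < q, b k = false) : ∀ k ≤ q, y k = y 0 := by
  intro k
  induction k with
  | zero => intro _; rfl
  | succ k ih =>
    intro hk
    rw [← hA.1 k (by omega) (hb k (by omega)), ih (by omega)]

private theorem UpA2_prod {n : ℕ} (B M K q : ℕ) [NeZero n] (y : ℕ → Fin n) (b : ℕ → Bool)
    (hn : 0 < n) (hq : q ≤ M) (hA : Adm M K y b) (hb : ∀ k < q, b k = false)
    (σ : Equiv.Perm (Fin n)) : ∀ m ≤ q,
    ∏ k ∈ range m, ((∑ j, fac B (typA B q σ k j) (y k) (b k)) / (n : ℝ)) =
      UpA2_ind B m (σ (y 0)) := by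
  have hn' : (n : ℝ) ≠ 0 := by positivity
  intro m
  induction m with
  | zero => intro _; simp [UpA2_ind]
  | succ m ih =>
    intro hm
    rw [Finset.prod_range_succ, ih (by omega)]
    have h1 : ∀ j : Fin n, fac B (typA B q σ m j) (y m) (b m) =
        if σ (y 0) ∈ (blk B m : Finset (Fin n)) then 0 else 1 := by
      intro j
      have hmem : y m ∈ (blk B m : Finset (Fin n)).map σ.symm.toEmbedding ↔
          σ (y 0) ∈ (blk B m : Finset (Fin n)) := by
        rw [Finset.mem_map_equiv, Equiv.symm_symm, UpA2_y M K q y b hq hA hb m (by omega)]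
      unfold typA fac
      rw [hb m (by omega), if_pos (show m < q by omega)]
      simp only [Bool.false_eq_true, if_false, hmem]
    rw [Finset.sum_congr rfl fun j _ => h1 j, Finset.sum_const, Finset.card_univ,
      Fintype.card_fin, nsmul_eq_mul, mul_div_assoc, mul_div_cancel₀ _ hn']
    unfold UpA2_ind blk
    simp only [Finset.mem_filter, Finset.mem_univ, true_and]
    by_cases h2 : m * B ≤ (σ (y 0)).val
    · by_cases h3 : (m + 1) * B ≤ (σ (y 0)).val
      · rw [if_pos h2, if_pos h3, if_neg (by omega)]; norm_num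
      · rw [if_pos h2, if_neg h3, if_pos ⟨h2, by omega⟩]; norm_num
    · have h3 : ¬ (m + 1) * B ≤ (σ (y 0)).val := by
        intro h
        apply h2
        refine le_trans ?_ h
        exact Nat.mul_le_mul_right B (Nat.le_succ m)
      rw [if_neg h2, if_neg h3, zero_mul]

private theorem UpA2_late {n : ℕ} (B q : ℕ) [NeZero n] (hn : 0 < n) (hB : 0 < B) (hBn : B ≤ n)
    (σ : Equiv.Perm (Fin n)) (u : Fin n) (k : ℕ) (c : Bool) :
    (∑ j, fac B (typA B q σ (q + k) j) u c) / (n : ℝ) =
      if c then (1 : ℝ) else 1 - (B : ℝ) / n := by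
  have hn' : (n : ℝ) ≠ 0 := by positivity
  have hB' : (B : ℝ) ≠ 0 := by positivity
  have h0 : ∀ j, typA B q σ (q + k) j = crudeShift n B j := by
    intro j; unfold typA; rw [if_neg (by omega)]
  simp only [h0]
  cases c with
  | true =>
    have h1 : ∀ j, fac B (crudeShift n B j) u true = 1 := by
      intro j
      simp only [fac, if_true, crudeShift_card hBn]
      exact div_self hB'
    rw [Finset.sum_congr rfl fun j _ => h1 j, Finset.sum_const, Finset.card_univ,
      Fintype.card_fin, nsmul_eq_mul, mul_one, div_self hn', if_pos rfl]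
  | false =>
    have h3 : ∀ j, fac B (crudeShift n B j) u false =
        1 - (if u ∈ crudeShift n B j then (1 : ℝ) else 0) := by
      intro j
      by_cases h : u ∈ crudeShift n B j <;> simp [fac, h]
    simp only [h3]
    rw [Finset.sum_sub_distrib, Finset.sum_boole, crude_count hBn, Finset.sum_const,
      Finset.card_univ, Fintype.card_fin, nsmul_eq_mul, mul_one]
    simp only [Bool.false_eq_true, if_false]
    field_simp

theorem sUpA2 (hG : S_Geo) : S_UpA2 := by
  intro n B M K q _ y b hB hBn hqB hqM hA hb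
  have hn : 0 < n := by omega
  have hn' : (0 : ℝ) < n := by positivity
  have hB' : (0 : ℝ) < B := by positivity
  have hBn' : (B : ℝ) ≤ n := by exact_mod_cast hBn
  have hfac : (0 : ℝ) < (n.factorial : ℝ) := by exact_mod_cast Nat.factorial_pos n
  obtain ⟨M', rfl⟩ := Nat.exists_eq_add_of_le hqM
  have hgeo : ∑ m ∈ range M', ∏ k ∈ range m, (if b (q + k) then (1 : ℝ) else 1 - (B : ℝ) / n) ≤
      K + n / B := by
    have := hG M' K (fun k => b (q + k)) ((B : ℝ) / n) (by positivity)
      ((div_le_one hn').mpr hBn') ?_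
    · rwa [one_div_div] at this
    · refine le_trans ?_ hA.2
      refine Finset.card_le_card_of_injOn (fun k => q + k) ?_ ?_
      · intro k hk
        simp only [Finset.coe_filter, Finset.mem_range, Set.mem_ofPred_eq] at hk ⊢
        exact ⟨by omega, hk.2⟩
      · intro a _ c _ hac
        simpa using hac
  have hs : ∀ σ : Equiv.Perm (Fin n), rnd B (q + M') (typA B q σ) y b ≤
      (∑ m ∈ range (q + 1), UpA2_ind B m (σ (y 0))) +
        UpA2_ind B q (σ (y 0)) * (K + (n : ℝ) / B) := by
    intro σ
    unfold rnd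
    rw [Finset.sum_range_add]
    have e1 : ∀ m ∈ range q,
        ∏ k ∈ range m, ((∑ j, fac B (typA B q σ k j) (y k) (b k)) / (n : ℝ)) =
          UpA2_ind B m (σ (y 0)) := fun m hm =>
      UpA2_prod B (q + M') K q y b hn hqM hA hb σ m (by have := Finset.mem_range.mp hm; omega)
    have e2 : ∀ m ∈ range M',
        ∏ k ∈ range (q + m), ((∑ j, fac B (typA B q σ k j) (y k) (b k)) / (n : ℝ)) =
          UpA2_ind B q (σ (y 0)) *
            ∏ k ∈ range m, (if b (q + k) then (1 : ℝ) else 1 - (B : ℝ) / n) := by
      intro m _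
      rw [Finset.prod_range_add, UpA2_prod B (q + M') K q y b hn hqM hA hb σ q le_rfl]
      congr 1
      exact Finset.prod_congr rfl fun k _ => UpA2_late B q hn hB hBn σ _ k _
    rw [Finset.sum_congr rfl e1, Finset.sum_congr rfl e2, ← Finset.mul_sum,
      Finset.sum_range_succ]
    have h1 := UpA2_ind_nonneg B q (σ (y 0))
    have h2 := mul_le_mul_of_nonneg_left hgeo h1
    linarith
  unfold pavg
  rw [div_le_iff₀ hfac]
  refine (Finset.sum_le_sum fun σ _ => hs σ).trans ?_
  rw [Finset.sum_add_distrib, Finset.sum_comm, ← Finset.sum_mul]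
  have e3 : ∀ m, m * B ≤ n → ∑ σ : Equiv.Perm (Fin n), UpA2_ind B m (σ (y 0)) =
      (1 - (m : ℝ) * B / n) * (n.factorial : ℝ) := by
    intro m hm
    rw [avg_single (fun a => UpA2_ind B m a) (y 0), UpA2_ind_sum B m hm]
    field_simp
  rw [e3 q hqB, Finset.sum_congr rfl fun m hm => e3 m ?_, ← Finset.sum_mul]
  · apply le_of_eq; ring
  · refine le_trans (Nat.mul_le_mul_right B ?_) hqB
    have := Finset.mem_range.mp hm
    omega

end MPacf82c.St
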