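import Pool.Agent.Lib.MP_acf82c_lc.S.SpecA

/-!
# The payoff against the searcher of type B (MP_acf82c_lc, Theorem S)
-/

namespace MPacf82c.St

open Finset
open scoped Nat

namespace UpB

/-- The averaged factor of the round `k`. -/
private noncomputable def fk {n : ℕ} [NeZero n] (B q : ℕ) (y : ℕ → Fin n) (b : ℕ → Bool)
    (k : ℕ) : ℝ := (∑ j, fac B (typB B q k j) (y k) (b k)) / (n : ℝ)

private theorem fk_lt {n : ℕ} [NeZero n] (B q : ℕ) (y : ℕ → Fin n) (b : ℕ → Bool) (k : ℕ)
    (hk : k < q) : fk B q y b k = if b k then (0 : ℝ) else 1 := by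
  have hn : (n : ℝ) ≠ 0 := by exact_mod_cast NeZero.ne n
  unfold fk
  cases hb : b k with
  | true => simp [fac, typB, hk]
  | false => simp [fac, typB, hk, hn]

private theorem fk_ge {n : ℕ} [NeZero n] (B q : ℕ) (y : ℕ → Fin n) (b : ℕ → Bool) (hB : 0 < B)
    (hBn : B ≤ n) (k : ℕ) (hk : q ≤ k) :
    fk B q y b k = if b k then (1 : ℝ) else 1 - (B : ℝ) / n := by
  have hn : (n : ℝ) ≠ 0 := by exact_mod_cast NeZero.ne n
  have hB' : (B : ℝ) ≠ 0 := by exact_mod_cast hB.ne'
  have hk' : ¬ k < q := not_lt.2 hk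
  unfold fk
  cases hb : b k with
  | true =>
    have h3 : ∀ j, fac B (typB B q k j) (y k) true = 1 := by
      intro j
      simp only [fac, typB, hk', if_false, if_true, crudeShift_card hBn]
      exact div_self hB'
    simp only [h3, sum_const, card_univ, Fintype.card_fin, nsmul_eq_mul, mul_one, if_true]
    exact div_self hn
  | false =>
    have h3 : ∀ j, fac B (typB B q k j) (y k) false =
        1 - (if y k ∈ crudeShift n B j then (1 : ℝ) else 0) := by
      intro j
      by_cases h : y k ∈ crudeShift n B j <;> simp [fac, typB, hk', h]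
    simp only [h3]
    rw [Finset.sum_sub_distrib, Finset.sum_boole, crude_count hBn]
    simp only [sum_const, card_univ, Fintype.card_fin, nsmul_eq_mul, mul_one]
    simp only [Bool.false_eq_true, if_false]
    rw [sub_div, div_self hn]

private theorem fk_nonneg {n : ℕ} [NeZero n] (B q : ℕ) (y : ℕ → Fin n) (b : ℕ → Bool)
    (hB : 0 < B) (hBn : B ≤ n) (k : ℕ) : 0 ≤ fk B q y b k := by
  have hn : (0 : ℝ) < n := by exact_mod_cast Nat.pos_of_ne_zero (NeZero.ne n)
  have hBn' : (B : ℝ) / n ≤ 1 := by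
    rw [div_le_one hn]; exact_mod_cast hBn
  rcases lt_or_ge k q with hk | hk
  · rw [fk_lt B q y b k hk]; split_ifs <;> norm_num
  · rw [fk_ge B q y b hB hBn k hk]; split_ifs
    · norm_num
    · linarith

private theorem fk_le_one {n : ℕ} [NeZero n] (B q : ℕ) (y : ℕ → Fin n) (b : ℕ → Bool)
    (hB : 0 < B) (hBn : B ≤ n) (k : ℕ) : fk B q y b k ≤ 1 := by
  have hn : (0 : ℝ) < n := by exact_mod_cast Nat.pos_of_ne_zero (NeZero.ne n)
  have hBn' : 0 ≤ (B : ℝ) / n := by positivity
  rcases lt_or_ge k q with hk | hk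
  · rw [fk_lt B q y b k hk]; split_ifs <;> norm_num
  · rw [fk_ge B q y b hB hBn k hk]; split_ifs
    · norm_num
    · linarith

private theorem prod_le_one' {f : ℕ → ℝ} (h0 : ∀ k, 0 ≤ f k) (h1 : ∀ k, f k ≤ 1) (m : ℕ) :
    ∏ k ∈ range m, f k ≤ 1 :=
  Finset.prod_le_one (fun k _ => h0 k) (fun k _ => h1 k)

end UpB

open UpB in
theorem sUpB (hG : S_Geo) : S_UpB := by
  intro n B M K q _ y b hB hBn hA
  have hn : (0 : ℝ) < n := by exact_mod_cast Nat.pos_of_ne_zero (NeZero.ne n)
  have hB' : (0 : ℝ) < B := by exact_mod_cast hB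
  have h0 := fk_nonneg B q y b hB hBn
  have h1 := fk_le_one B q y b hB hBn
  have hrnd : rnd B M (typB B q) y b = ∑ m ∈ range M, ∏ k ∈ range m, fk B q y b k := rfl
  have hle : ∀ N : ℕ, ∑ m ∈ range N, ∏ k ∈ range m, fk B q y b k ≤ N := by
    intro N
    calc ∑ m ∈ range N, ∏ k ∈ range m, fk B q y b k ≤ ∑ m ∈ range N, (1 : ℝ) :=
          Finset.sum_le_sum fun m _ => prod_le_one' h0 h1 m
      _ = N := by simp
  constructor
  · rw [hrnd]
    have hKn : 0 ≤ (K : ℝ) + (n : ℝ) / B := by positivity
    rcases le_or_gt M (q + 1) with hM | hM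
    · have h2 := hle M
      have h3 : (M : ℝ) ≤ (q : ℝ) + 1 := by exact_mod_cast hM
      linarith
    · obtain ⟨N, rfl⟩ : ∃ N, M = q + 1 + N := ⟨M - (q + 1), by omega⟩
      rw [Finset.sum_range_add]
      have h2 := hle (q + 1)
      push_cast at h2
      have hρ0 : 0 < (B : ℝ) / n := by positivity
      have hρ1 : (B : ℝ) / n ≤ 1 := by
        rw [div_le_one hn]; exact_mod_cast hBn
      have hcard : ((range N).filter fun k => b (q + k) = true).card ≤ K := by
        refine le_trans ?_ hA.2
        refine Finset.card_le_card_of_injOn (fun k => q + k) ?_ ?_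
        · intro k hk
          simp only [coe_filter, Set.mem_ofPred_eq, Finset.mem_range] at hk ⊢
          exact ⟨by omega, hk.2⟩
        · intro k _ l _ hkl
          simpa using hkl
      have h3 := hG N K (fun k => b (q + k)) ((B : ℝ) / n) hρ0 hρ1 hcard
      have h4 : ∀ i, ∏ k ∈ range (q + 1 + i), fk B q y b k ≤
          ∏ k ∈ range i, (if b (q + k) then (1 : ℝ) else 1 - (B : ℝ) / n) := by
        intro i
        have h5 : q + 1 + i = q + i + 1 := by omega
        rw [h5, Finset.prod_range_succ, Finset.prod_range_add]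
        have h6 : ∏ k ∈ range i, fk B q y b (q + k) =
            ∏ k ∈ range i, (if b (q + k) then (1 : ℝ) else 1 - (B : ℝ) / n) :=
          Finset.prod_congr rfl fun k _ => fk_ge B q y b hB hBn (q + k) (by omega)
        have h7 : 0 ≤ ∏ k ∈ range i, fk B q y b (q + k) :=
          Finset.prod_nonneg fun k _ => h0 _
        have h8 : 0 ≤ ∏ k ∈ range q, fk B q y b k := Finset.prod_nonneg fun k _ => h0 _
        have h9 := prod_le_one' h0 h1 q
        rw [← h6]
        calc (∏ k ∈ range q, fk B q y b k) * (∏ k ∈ range i, fk B q y b (q + k)) *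
              fk B q y b (q + i) ≤
              (∏ k ∈ range q, fk B q y b k) * (∏ k ∈ range i, fk B q y b (q + k)) * 1 :=
              mul_le_mul_of_nonneg_left (h1 _) (mul_nonneg h8 h7)
          _ = (∏ k ∈ range q, fk B q y b k) * (∏ k ∈ range i, fk B q y b (q + k)) := mul_one _
          _ ≤ 1 * (∏ k ∈ range i, fk B q y b (q + k)) := mul_le_mul_of_nonneg_right h9 h7
          _ = ∏ k ∈ range i, fk B q y b (q + k) := one_mul _
      have h5 : ∑ i ∈ range N, ∏ k ∈ range (q + 1 + i), fk B q y b k ≤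
          ∑ i ∈ range N, ∏ k ∈ range i, (if b (q + k) then (1 : ℝ) else 1 - (B : ℝ) / n) :=
        Finset.sum_le_sum fun i _ => h4 i
      have h6 : 1 / ((B : ℝ) / n) = (n : ℝ) / B := by rw [one_div_div]
      rw [h6] at h3
      linarith
  · rintro ⟨s, hsq, hsM, hbs⟩
    rw [hrnd]
    have h2 : ∑ m ∈ range M, ∏ k ∈ range m, fk B q y b k ≤
        ∑ m ∈ range M, (if m < s + 1 then (1 : ℝ) else 0) := by
      refine Finset.sum_le_sum fun m _ => ?_
      split_ifs with hm
      · exact prod_le_one' h0 h1 m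
      · refine le_of_eq (Finset.prod_eq_zero (i := s) (Finset.mem_range.2 (by omega)) ?_)
        rw [fk_lt B q y b s hsq, hbs]
        simp
    refine h2.trans ?_
    rw [← Finset.sum_filter, Finset.sum_const, nsmul_eq_mul, mul_one]
    have h3 : ((range M).filter fun m => m < s + 1).card ≤ (range (s + 1)).card := by
      refine Finset.card_le_card ?_
      intro m hm
      rw [Finset.mem_filter] at hm
      exact Finset.mem_range.2 hm.2
    rw [Finset.card_range] at h3
    have h4 : ((range M).filter fun m => m < s + 1).card ≤ q := by omega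
    exact_mod_cast h4

end MPacf82c.St
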