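import Pool.Agent.Lib.MP_acf82c_lc.S.SpecA

/-!
# Stability: the clover constant is less than one
-/

namespace MPacf82c.St.Upper

open Finset
open scoped Nat

private lemma blk_card {n B k : ℕ} : (blk B k : Finset (Fin n)).card ≤ B := by
  have h1 : (blk B k : Finset (Fin n)).card ≤ (Finset.Ico (k * B) ((k + 1) * B)).card := by
    apply Finset.card_le_card_of_injOn (fun i => i.val)
    · intro i hi
      have hi' : i ∈ (blk B k : Finset (Fin n)) := hi
      unfold blk at hi'
      rw [Finset.mem_filter] at hi'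
      exact Finset.mem_coe.mpr (Finset.mem_Ico.mpr hi'.2)
    · intro i _ j _ hij
      exact Fin.ext hij
  rw [Nat.card_Ico] at h1
  have h2 : (k + 1) * B - k * B = B := by
    rw [add_mul, one_mul, Nat.add_sub_cancel_left]
  omega

private lemma typA_card {n B q : ℕ} [NeZero n] (hB : B ≤ n) (σ : Equiv.Perm (Fin n)) (k : ℕ)
    (j : Fin n) : (typA B q σ k j).card ≤ B := by
  unfold typA
  split
  · rw [Finset.card_map]
    exact blk_card
  · rw [crudeShift_card hB]

private lemma typB_card {n B q : ℕ} [NeZero n] (hB : B ≤ n) (k : ℕ)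
    (j : Fin n) : (typB B q k j).card ≤ B := by
  unfold typB
  split
  · simp
  · rw [crudeShift_card hB]

private lemma payoff_empty {n : ℕ} (B M : ℕ) (y : ℕ → Fin n) (b : ℕ → Bool) :
    payoff B M (fun _ => (∅ : Finset (Fin n))) y b ≤ M := by
  unfold payoff
  have h1 : ∀ m ∈ range M, surv B (fun _ => (∅ : Finset (Fin n))) y b m ≤ 1 := by
    intro m _
    unfold surv
    apply Finset.prod_le_one
    · intro k _
      exact fac_nonneg' _ _ _ _
    · intro k _
      unfold fac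
      split
      · simp
      · simp
  calc ∑ m ∈ range M, surv B (fun _ => (∅ : Finset (Fin n))) y b m
      ≤ ∑ m ∈ range M, (1 : ℝ) := Finset.sum_le_sum h1
    _ = M := by simp

private lemma ratio_bound {K n : ℕ} (h : 1001 * (K + 1) ^ 2 ≤ n) :
    ((n : ℝ) / ((n : ℝ) - K - 1)) ^ (K + 1) ≤ 1001 / 1000 := by
  have hn' : (1001 : ℝ) * ((K : ℝ) + 1) ^ 2 ≤ n := by exact_mod_cast h
  have hK : (0 : ℝ) ≤ K := Nat.cast_nonneg K
  have hn0 : (0 : ℝ) < n := by nlinarith
  have hKn : ((K : ℝ) + 1) ^ 2 / n ≤ 1 / 1001 := by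
    rw [div_le_div_iff₀ hn0 (by norm_num)]
    linarith
  have hKn1 : ((K : ℝ) + 1) / n ≤ 1 / 1001 := by
    refine le_trans ?_ hKn
    apply div_le_div_of_nonneg_right _ hn0.le
    nlinarith
  have hb : 1 + ((K + 1 : ℕ) : ℝ) * (-(((K : ℝ) + 1) / n)) ≤ (1 + (-(((K : ℝ) + 1) / n))) ^ (K + 1) := by
    apply one_add_mul_le_pow
    have : (0 : ℝ) ≤ ((K : ℝ) + 1) / n := by positivity
    linarith
  have hb2 : 1000 / 1001 ≤ (1 + (-(((K : ℝ) + 1) / n))) ^ (K + 1) := by
    refine le_trans ?_ hb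
    have e1 : 1 + ((K + 1 : ℕ) : ℝ) * (-(((K : ℝ) + 1) / n)) = 1 - ((K : ℝ) + 1) ^ 2 / n := by
      push_cast
      ring
    rw [e1]
    linarith
  have hpos : (0 : ℝ) < 1 + (-(((K : ℝ) + 1) / n)) := by linarith
  have e2 : (n : ℝ) / ((n : ℝ) - K - 1) = (1 + (-(((K : ℝ) + 1) / n)))⁻¹ := by
    have e3 : 1 + (-(((K : ℝ) + 1) / n)) = ((n : ℝ) - K - 1) / n := by
      field_simp
      ring
    rw [e3, inv_div]
  rw [e2, inv_pow]
  rw [inv_le_comm₀ (by positivity) (by norm_num)]
  calc (1001 / 1000 : ℝ)⁻¹ = 1000 / 1001 := by norm_num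
    _ ≤ _ := hb2

private lemma sum_lin (q : ℕ) (N : ℝ) :
    ∑ m ∈ range (q + 1), (1 - (m : ℝ) / N) = (q : ℝ) + 1 - (q : ℝ) * ((q : ℝ) + 1) / (2 * N) := by
  induction q with
  | zero => simp
  | succ q ih =>
    rw [Finset.sum_range_succ, ih]
    push_cast
    by_cases hN : N = 0
    · subst hN
      simp
    · field_simp
      ring

end MPacf82c.St.Upper

namespace MPacf82c.St

open Finset
open scoped Nat

theorem sUpper (hX : S_Mix) (h1 : S_UpA1) (h2 : S_UpA2) (hB : S_UpB) : S_Upper := by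
  intro K
  refine ⟨1000 * (K + 1), ?_⟩
  intro R n B M V hR hBB hBR hnR hV
  obtain ⟨ι, hι, q, y, b, hq, hsum, hadm, hval⟩ := hV
  have hRpos : 0 < R := lt_of_lt_of_le (by omega) hR
  have hBpos : 0 < B := lt_of_lt_of_le (by omega) hBB
  have hBn : B ≤ n := le_trans (Nat.le_mul_of_pos_right B hRpos) hBR
  have hnpos : 0 < n := lt_of_lt_of_le hBpos hBn
  have : NeZero n := ⟨hnpos.ne'⟩
  have hn2 : 1001 * (K + 1) ^ 2 ≤ n := by
    have h3 : (1000 * (K + 1)) * (1000 * (K + 1)) ≤ B * R := Nat.mul_le_mul hBB hR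
    nlinarith
  have hKn : K + 1 < n := by nlinarith
  -- real quantities
  have hBr : (0 : ℝ) < B := by exact_mod_cast hBpos
  have hnr : (0 : ℝ) < n := by exact_mod_cast hnpos
  have hRr : (0 : ℝ) < R := by exact_mod_cast hRpos
  have hKr : (0 : ℝ) ≤ K := Nat.cast_nonneg K
  have hRR : (1000 : ℝ) * ((K : ℝ) + 1) ≤ R := by exact_mod_cast hR
  have hBBr : (1000 : ℝ) * ((K : ℝ) + 1) ≤ B := by exact_mod_cast hBB
  set N : ℝ := (n : ℝ) / B with hN
  have hNR : (R : ℝ) ≤ N := by
    rw [hN, le_div_iff₀ hBr]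
    have : ((B * R : ℕ) : ℝ) ≤ n := by exact_mod_cast hBR
    push_cast at this
    linarith
  have hNR2 : N ≤ R * (1 + 1 / 1000) := by
    rw [hN, div_le_iff₀ hBr]
    have h3 : (n : ℝ) ≤ ((B : ℝ) + 1) * R := by exact_mod_cast hnR
    have h4 : (1000 : ℝ) ≤ B := by nlinarith
    nlinarith
  have hNpos : 0 < N := lt_of_lt_of_le hRr hNR
  set s : ℕ := R / 2 with hs
  have hs1 : (s : ℝ) ≤ R / 2 := by
    have : 2 * s ≤ R := by omega
    have : (2 : ℝ) * s ≤ R := by exact_mod_cast this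
    linarith
  have hs2 : (R : ℝ) / 2 - 1 / 2 ≤ s := by
    have : R ≤ 2 * s + 1 := by omega
    have : (R : ℝ) ≤ 2 * s + 1 := by exact_mod_cast this
    linarith
  have hsN : (s : ℝ) ≤ N / 2 := by linarith
  have hsN2 : 49 / 100 * N ≤ s := by
    have h5 : (1000 : ℝ) ≤ R := by nlinarith
    nlinarith
  by_cases hM : M < s
  · have h3 := hval (fun _ => ∅) (by simp)
    have h4 : ∑ i, q i * payoff B M (fun _ => (∅ : Finset (Fin n))) (y i) (b i) ≤ ∑ i, q i * (M : ℝ) :=
      Finset.sum_le_sum fun i _ => mul_le_mul_of_nonneg_left (Upper.payoff_empty B M _ _) (hq i)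
    rw [← Finset.sum_mul, hsum, one_mul] at h4
    have h5 : (M : ℝ) ≤ s := by exact_mod_cast hM.le
    linarith
  have hM' : s ≤ M := Nat.le_of_not_lt hM
  have hsB : s * B ≤ n := by
    have : s ≤ R := Nat.div_le_self R 2
    calc s * B ≤ R * B := Nat.mul_le_mul_right B this
      _ = B * R := Nat.mul_comm _ _
      _ ≤ n := hBR
  -- type A
  have hA : V ≤ ∑ i, q i * pavg (fun σ : Equiv.Perm (Fin n) => rnd B M (typA B s σ) (y i) (b i)) := by
    have h3 : ∀ σ : Equiv.Perm (Fin n), V ≤ ∑ i, q i * rnd B M (typA B s σ) (y i) (b i) := by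
      intro σ
      exact hX n B M ι hι q y b V (typA B s σ) hnpos hq hval (fun k j => Upper.typA_card hBn σ k j)
    have h4 : ∑ σ : Equiv.Perm (Fin n), V ≤
        ∑ σ : Equiv.Perm (Fin n), ∑ i, q i * rnd B M (typA B s σ) (y i) (b i) :=
      Finset.sum_le_sum fun σ _ => h3 σ
    rw [Finset.sum_const, Finset.card_univ, Fintype.card_perm, Fintype.card_fin, nsmul_eq_mul,
      Finset.sum_comm] at h4
    have hfac : (0 : ℝ) < (n.factorial : ℝ) := by exact_mod_cast Nat.factorial_pos n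
    have h5 : ∑ i, q i * pavg (fun σ : Equiv.Perm (Fin n) => rnd B M (typA B s σ) (y i) (b i)) =
        (∑ i, ∑ σ : Equiv.Perm (Fin n), q i * rnd B M (typA B s σ) (y i) (b i)) / (n.factorial : ℝ) := by
      rw [Finset.sum_div]
      apply Finset.sum_congr rfl
      intro i _
      unfold pavg
      rw [← Finset.mul_sum, mul_div_assoc]
    rw [h5, le_div_iff₀ hfac]
    linarith
  have hBt : V ≤ ∑ i, q i * rnd B M (typB B s) (y i) (b i) :=
    hX n B M ι hι q y b V (typB B s) hnpos hq hval (fun k j => Upper.typB_card hBn k j)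
  have hmix : V ≤ ∑ i, q i * (15 / 16 * pavg (fun σ : Equiv.Perm (Fin n) =>
      rnd B M (typA B s σ) (y i) (b i)) + 1 / 16 * rnd B M (typB B s) (y i) (b i)) := by
    have e1 : ∑ i, q i * (15 / 16 * pavg (fun σ : Equiv.Perm (Fin n) =>
        rnd B M (typA B s σ) (y i) (b i)) + 1 / 16 * rnd B M (typB B s) (y i) (b i)) =
        15 / 16 * (∑ i, q i * pavg (fun σ : Equiv.Perm (Fin n) =>
          rnd B M (typA B s σ) (y i) (b i))) + 1 / 16 * ∑ i, q i * rnd B M (typB B s) (y i) (b i) := by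
      rw [Finset.mul_sum, Finset.mul_sum, ← Finset.sum_add_distrib]
      apply Finset.sum_congr rfl
      intro i _
      ring
    rw [e1]
    linarith
  refine le_trans hmix ?_
  have hpt : ∀ i, 15 / 16 * pavg (fun σ : Equiv.Perm (Fin n) =>
      rnd B M (typA B s σ) (y i) (b i)) + 1 / 16 * rnd B M (typB B s) (y i) (b i) ≤
      (1 - 1 / 40) * N := by
    intro i
    have hb1 := hB n B M K s (y i) (b i) hBpos hBn (hadm i)
    by_cases hst : ∃ k < s, b i k = true
    · obtain ⟨k, hk, hbk⟩ := hst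
      have hb2 := hb1.2 ⟨k, hk, lt_of_lt_of_le hk hM', hbk⟩
      have ha := h1 n B M K s (y i) (b i) hBpos hKn hBn hsB hM' (hadm i)
      have hr := Upper.ratio_bound hn2
      have ha2 : pavg (fun σ : Equiv.Perm (Fin n) => rnd B M (typA B s σ) (y i) (b i)) ≤
          1001 / 1000 * ((K : ℝ) + N) :=
        le_trans ha (mul_le_mul_of_nonneg_right hr (by positivity))
      nlinarith
    · have hst' : ∀ k < s, b i k = false := by
        intro k hk
        by_contra hc
        exact hst ⟨k, hk, by simpa using hc⟩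
      have ha := h2 n B M K s (y i) (b i) hBpos hBn hsB hM' (hadm i) hst'
      have e1 : ∀ m : ℕ, (m : ℝ) * B / n = (m : ℝ) / N := by
        intro m
        rw [hN]
        field_simp
      have e2 : (∑ m ∈ range (s + 1), (1 - (m : ℝ) * B / n)) = ∑ m ∈ range (s + 1), (1 - (m : ℝ) / N) :=
        Finset.sum_congr rfl fun m _ => by rw [e1 m]
      rw [e2, e1 s, Upper.sum_lin] at ha
      have ha2 : pavg (fun σ : Equiv.Perm (Fin n) => rnd B M (typA B s σ) (y i) (b i)) ≤
          1 + K + N - (s : ℝ) ^ 2 / (2 * N) := by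
        refine le_trans ha ?_
        have e3 : (s : ℝ) + 1 - (s : ℝ) * ((s : ℝ) + 1) / (2 * N) + (1 - (s : ℝ) / N) * ((K : ℝ) + N) =
            1 + K + N - (s : ℝ) ^ 2 / (2 * N) - (s : ℝ) / (2 * N) - (s : ℝ) * K / N := by
          field_simp
          ring
        have h6 : 0 ≤ (s : ℝ) / (2 * N) := by positivity
        have h7 : 0 ≤ (s : ℝ) * K / N := by positivity
        have h8 : (n : ℝ) / B = N := rfl
        linarith
      have h9 : 12 / 100 * N ≤ (s : ℝ) ^ 2 / (2 * N) := by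
        rw [le_div_iff₀ (by positivity)]
        nlinarith
      have hb2 := hb1.1
      nlinarith
  calc ∑ i, q i * (15 / 16 * pavg (fun σ : Equiv.Perm (Fin n) =>
      rnd B M (typA B s σ) (y i) (b i)) + 1 / 16 * rnd B M (typB B s) (y i) (b i))
      ≤ ∑ i, q i * ((1 - 1 / 40) * N) :=
        Finset.sum_le_sum fun i _ => mul_le_mul_of_nonneg_left (hpt i) (hq i)
    _ = (1 - 1 / 40) * N := by rw [← Finset.sum_mul, hsum, one_mul]

end MPacf82c.St
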