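import Pool.Agent.Lib.MP_acf82c_lc.S.SpecC

/-!
# From a walk to a chain
-/

namespace MPacf82c.St

open Set MeasureTheory

namespace WC

variable {Q : Type} [MetricSpace Q] (N : Network Q) (A : Set Q) (e' : N.Arc) (s' : ℝ)

/-- A chain from `x` to an end of `e'` inside `A`. -/
def Con (x : Q) (L : ℝ) : Prop :=
  ∃ (o' : Bool) (l : List (N.Arc × Bool)), Chain (tl N) (hd N) x (en N e' o') l ∧
    (∀ v ∈ vis N x l, v ∈ A) ∧ clen N l + cost N e' s' o' ≤ L

variable {N A e' s'}

theorem Con.mono {x : Q} {L L' : ℝ} (h : Con N A e' s' x L) (hL : L ≤ L') :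
    Con N A e' s' x L' := by
  obtain ⟨o', l, h1, h2, h3⟩ := h
  exact ⟨o', l, h1, h2, h3.trans hL⟩

/-- Prepend an arc. -/
theorem Con.cons {c : N.Arc} {o : Bool} {L L' : ℝ} (h : Con N A e' s' (en N c (!o)) L)
    (hx : en N c o ∈ A) (hL : N.len c + L ≤ L') : Con N A e' s' (en N c o) L' := by
  obtain ⟨o', l, h1, h2, h3⟩ := h
  refine ⟨o', (c, !o) :: l, ?_, ?_, ?_⟩
  · cases o with
    | true =>
      exact Chain.bwd c _ l h1
    | false =>
      exact Chain.fwd c _ l h1
  · intro v hv
    unfold vis at hv h2
    rw [List.map_cons, List.mem_cons] at hv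
    rcases hv with rfl | hv
    · exact hx
    · exact h2 v hv
  · unfold clen at h3 ⊢
    rw [List.map_cons, List.sum_cons]
    simp only
    linarith

/-- The claim of the induction. -/
def Cl (N : Network Q) (A : Set Q) (e' : N.Arc) (s' : ℝ) (x : Q) (L : ℝ) : Prop :=
  (x ∈ N.nodes → Con N A e' s' x L) ∧
  ∀ (c : N.Arc) (s : ℝ), s ∈ Ioo 0 (N.len c) → x = N.pt c s →
    (∃ o, Con N A e' s' (en N c o) (L - cost N c s o)) ∨ (c = e' ∧ |s - s'| ≤ L)

theorem end_cases {c : N.Arc} {t : ℝ} (ht : t ∈ Icc 0 (N.len c)) (h : t ∉ Ioo 0 (N.len c)) :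
    ∃ o : Bool, t = if o then N.len c else 0 := by
  by_cases h0 : t = 0
  · exact ⟨false, by simp [h0]⟩
  · refine ⟨true, ?_⟩
    have h1 : 0 < t := lt_of_le_of_ne ht.1 (Ne.symm h0)
    have h2 : ¬ t < N.len c := fun h2 => h ⟨h1, h2⟩
    push Not at h2
    simp only [if_true]
    exact le_antisymm ht.2 h2

theorem en_eq {c : N.Arc} {t : ℝ} {o : Bool} (h : t = if o then N.len c else 0) :
    N.pt c t = en N c o := by
  cases o with
  | true => simp only [if_true] at h; rw [h]; rfl
  | false => simp only [Bool.false_eq_true, if_false] at h; rw [h]; rfl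

theorem en_mem_nodes (c : N.Arc) (o : Bool) : en N c o ∈ N.nodes := by
  cases o with
  | true => exact ⟨c, Or.inr rfl⟩
  | false => exact ⟨c, Or.inl rfl⟩

theorem cost_end {c : N.Arc} {s t : ℝ} (hs : s ∈ Icc 0 (N.len c)) {o : Bool}
    (h : t = if o then N.len c else 0) : cost N c s o = |s - t| := by
  unfold cost
  cases o with
  | true =>
    simp only [if_true] at h ⊢
    rw [h, abs_of_nonpos (by linarith [hs.2])]
    ring
  | false =>
    simp only [Bool.false_eq_true, if_false] at h ⊢
    rw [h, sub_zero, abs_of_nonneg hs.1]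

theorem cost_nonneg {c : N.Arc} {s : ℝ} (hs : s ∈ Icc 0 (N.len c)) (o : Bool) :
    0 ≤ cost N c s o := by
  unfold cost
  cases o with
  | true => simp only [if_true]; linarith [hs.2]
  | false => simp only [Bool.false_eq_true, if_false]; exact hs.1

theorem cost_not {c : N.Arc} {s : ℝ} (o : Bool) :
    cost N c s o + cost N c s (!o) = N.len c := by
  unfold cost
  cases o <;> simp

theorem cost_lip {c : N.Arc} {s t : ℝ} (o : Bool) : cost N c s o ≤ |s - t| + cost N c t o := by
  unfold cost
  cases o with
  | true =>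
    simp only [if_true]
    have := neg_abs_le (s - t)
    linarith
  | false =>
    simp only [Bool.false_eq_true, if_false]
    have := le_abs_self (s - t)
    linarith

theorem claim (hs' : s' ∈ Ioo 0 (N.len e')) {x y : Q} {L : ℝ} (h : WalkIn N A x y L)
    (hy : y = N.pt e' s') : Cl N A e' s' x L := by
  induction h with
  | nil x hx =>
    refine ⟨fun hn => ?_, fun c s hs hc => ?_⟩
    · exact absurd hn (notMem_nodes_of_mem_openArc N ⟨s', hs', hy.symm⟩)
    · right
      have h1 : N.pt c s = N.pt e' s' := by rw [← hc, hy]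
      obtain ⟨h2, h3⟩ := N.simple c e' s s' hs (Ioo_subset_Icc_self hs') h1
      refine ⟨h2, ?_⟩
      rw [h3, sub_self, abs_zero]
  | cons e₁ s₁ t₁ hs ht hA y L h ih =>
    obtain ⟨ih1, ih2⟩ := ih hy
    have hxA : N.pt e₁ s₁ ∈ A := hA s₁ left_mem_uIcc
    refine ⟨fun hn => ?_, fun c s hsc hc => ?_⟩
    · have hs1 : s₁ ∉ Ioo 0 (N.len e₁) := fun h1 =>
        notMem_nodes_of_mem_openArc N ⟨s₁, h1, rfl⟩ hn
      obtain ⟨o, ho⟩ := end_cases hs hs1
      have hx := en_eq ho
      rw [hx] at hxA ⊢
      have hcs : cost N e₁ t₁ o = |s₁ - t₁| := by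
        rw [cost_end ht ho, abs_sub_comm]
      by_cases hti : t₁ ∈ Ioo 0 (N.len e₁)
      · rcases ih2 e₁ t₁ hti rfl with ⟨o₁, h1⟩ | ⟨h1, h2⟩
        · by_cases hoo : o₁ = o
          · rw [hoo] at h1
            refine h1.mono ?_
            have := cost_nonneg ht o
            have := abs_nonneg (s₁ - t₁)
            linarith
          · have h3 : o₁ = !o := by
              cases o <;> cases o₁ <;> simp_all
            rw [h3] at h1
            refine h1.cons hxA ?_
            have := cost_not (N := N) (c := e₁) (s := t₁) o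
            linarith
        · subst h1
          refine ⟨o, [], Chain.nil _, ?_, ?_⟩
          · intro v hv
            unfold vis at hv
            simp only [List.map_nil, List.mem_singleton] at hv
            rw [hv]
            exact hxA
          · unfold clen
            simp only [List.map_nil, List.sum_nil, zero_add]
            rw [cost_end (Ioo_subset_Icc_self hs') ho, abs_sub_comm]
            have := abs_sub_le s₁ t₁ s'
            linarith
      · obtain ⟨o₁, ho₁⟩ := end_cases ht hti
        have h1 := ih1 (by rw [en_eq ho₁]; exact en_mem_nodes e₁ o₁)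
        rw [en_eq ho₁] at h1
        by_cases hoo : o₁ = o
        · rw [hoo] at h1
          exact h1.mono (by have := abs_nonneg (s₁ - t₁); linarith)
        · have h3 : o₁ = !o := by
            cases o <;> cases o₁ <;> simp_all
          rw [h3] at h1
          refine h1.cons hxA ?_
          have h4 : |s₁ - t₁| = N.len e₁ := by
            have h5 := cost_not (N := N) (c := e₁) (s := t₁) o
            rw [h3] at ho₁
            have h6 := cost_end ht ho₁
            rw [sub_self, abs_zero] at h6
            linarith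
          linarith
    · obtain ⟨h1, h2⟩ := N.simple c e₁ s s₁ hsc hs hc.symm
      subst h1
      subst h2
      by_cases hti : t₁ ∈ Ioo 0 (N.len c)
      · rcases ih2 c t₁ hti rfl with ⟨o₁, h1⟩ | ⟨h1, h2⟩
        · left
          refine ⟨o₁, h1.mono ?_⟩
          have := cost_lip (N := N) (c := c) (s := s) (t := t₁) o₁
          linarith
        · right
          refine ⟨h1, ?_⟩
          have := abs_sub_le s t₁ s'
          linarith
      · left
        obtain ⟨o₁, ho₁⟩ := end_cases ht hti
        have h1 := ih1 (by rw [en_eq ho₁]; exact en_mem_nodes c o₁)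
        rw [en_eq ho₁] at h1
        refine ⟨o₁, h1.mono ?_⟩
        rw [cost_end hs ho₁]
        linarith

end WC

open WC in
theorem sWalkChain : S_WalkChain := by
  intro Q _ N A e e' s s' L hee hs hs' h
  obtain ⟨-, h2⟩ := claim hs' h rfl
  rcases h2 e s hs rfl with ⟨o, o', l, h3, h4, h5⟩ | ⟨h3, -⟩
  · exact ⟨o, o', l, h3, h4, by linarith⟩
  · exact absurd h3 hee

end MPacf82c.St
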