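import Pool.Agent.Lib.MP_acf82c_lc.S.SpecC

/-! # Short walks stay near -/

namespace MPacf82c.St

open Set MeasureTheory
open scoped NNReal ENNReal

private theorem WalkNear.nonneg {Q Arc : Type} {len : Arc → ℝ} {pt : Arc → ℝ → Q} {x y : Q}
    {L : ℝ} (h : Walk len pt x y L) : 0 ≤ L := by
  induction h with
  | nil x => exact le_refl 0
  | cons e s t hs ht y L h ih => exact add_nonneg (abs_nonneg _) ih

theorem sWalkNear : S_WalkNear := by
  intro Q _ N A x y L h
  induction h with
  | nil x =>
    intro hA
    exact WalkIn.nil x (hA x (by simp))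
  | cons e s t hs ht y L h ih =>
    intro hA
    have hL : 0 ≤ L := WalkNear.nonneg h
    refine WalkIn.cons e s t hs ht ?_ y L (ih ?_)
    · intro u hu
      apply hA
      have hu' : u ∈ Icc 0 (N.len e) := by
        rcases le_total s t with h1 | h1
        · rw [uIcc_of_le h1] at hu
          exact ⟨hs.1.trans hu.1, hu.2.trans ht.2⟩
        · rw [uIcc_of_ge h1] at hu
          exact ⟨ht.1.trans hu.1, hu.2.trans hs.2⟩
      have h1 := N.dist_le e s hs u hu'
      have h2 : |s - u| ≤ |s - t| := by
        have h3 := abs_sub_left_of_mem_uIcc hu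
        rw [abs_sub_comm s u, abs_sub_comm s t]
        exact h3
      linarith
    · intro z hz
      apply hA
      have h1 := N.dist_le e s hs t ht
      have h2 := dist_triangle (N.pt e s) (N.pt e t) z
      linarith

end MPacf82c.St
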