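import Pool.Agent.Lib.MP_acf82c_lc.Final
import Pool.Agent.Lib.MP_acf82c_lc.S.SpecC
import Pool.Agent.Lib.MP_acf82c_lc.S.Mix
import Pool.Agent.Lib.MP_acf82c_lc.S.MixP
import Pool.Agent.Lib.MP_acf82c_lc.S.Geo
import Pool.Agent.Lib.MP_acf82c_lc.S.StarUp
import Pool.Agent.Lib.MP_acf82c_lc.S.StarLow
import Pool.Agent.Lib.MP_acf82c_lc.S.EmuPlan
import Pool.Agent.Lib.MP_acf82c_lc.S.BonusPlan
import Pool.Agent.Lib.MP_acf82c_lc.S.GePay
import Pool.Agent.Lib.MP_acf82c_lc.S.Mono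
import Pool.Agent.Lib.MP_acf82c_lc.S.Dom
import Pool.Agent.Lib.MP_acf82c_lc.S.Dm
import Pool.Agent.Lib.MP_acf82c_lc.S.GainPlan
import Pool.Agent.Lib.MP_acf82c_lc.S.Pig
import Pool.Agent.Lib.MP_acf82c_lc.S.CaseB
import Pool.Agent.Lib.MP_acf82c_lc.S.CatAdm
import Pool.Agent.Lib.MP_acf82c_lc.S.CatPay
import Pool.Agent.Lib.MP_acf82c_lc.S.ExtPay
import Pool.Agent.Lib.MP_acf82c_lc.S.CaseA
import Pool.Agent.Lib.MP_acf82c_lc.S.Key
import Pool.Agent.Lib.MP_acf82c_lc.S.PermCount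
import Pool.Agent.Lib.MP_acf82c_lc.S.PermAvoid
import Pool.Agent.Lib.MP_acf82c_lc.S.UpA1
import Pool.Agent.Lib.MP_acf82c_lc.S.UpA2
import Pool.Agent.Lib.MP_acf82c_lc.S.UpB
import Pool.Agent.Lib.MP_acf82c_lc.S.Upper
import Pool.Agent.Lib.MP_acf82c_lc.S.Lvl
import Pool.Agent.Lib.MP_acf82c_lc.S.Clamp
import Pool.Agent.Lib.MP_acf82c_lc.S.ClampD
import Pool.Agent.Lib.MP_acf82c_lc.S.ImgArc
import Pool.Agent.Lib.MP_acf82c_lc.S.ImgStr
import Pool.Agent.Lib.MP_acf82c_lc.S.Tel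
import Pool.Agent.Lib.MP_acf82c_lc.S.ChainNodup
import Pool.Agent.Lib.MP_acf82c_lc.S.ChainCurve
import Pool.Agent.Lib.MP_acf82c_lc.S.SpCurve
import Pool.Agent.Lib.MP_acf82c_lc.S.SpBad
import Pool.Agent.Lib.MP_acf82c_lc.S.ElTrip
import Pool.Agent.Lib.MP_acf82c_lc.S.MoveGen
import Pool.Agent.Lib.MP_acf82c_lc.S.PairSp
import Pool.Agent.Lib.MP_acf82c_lc.S.HubG
import Pool.Agent.Lib.MP_acf82c_lc.S.WalkNear
import Pool.Agent.Lib.MP_acf82c_lc.S.CurveWalk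
import Pool.Agent.Lib.MP_acf82c_lc.S.WalkChain
import Pool.Agent.Lib.MP_acf82c_lc.S.ChainSplit
import Pool.Agent.Lib.MP_acf82c_lc.S.ChainDist
import Pool.Agent.Lib.MP_acf82c_lc.S.Erase
import Pool.Agent.Lib.MP_acf82c_lc.S.SpWalk
import Pool.Agent.Lib.MP_acf82c_lc.S.SpGeo
import Pool.Agent.Lib.MP_acf82c_lc.S.GeoSides
import Pool.Agent.Lib.MP_acf82c_lc.S.TwoPts
import Pool.Agent.Lib.MP_acf82c_lc.S.SamplesX
import Pool.Agent.Lib.MP_acf82c_lc.S.CountJ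
import Pool.Agent.Lib.MP_acf82c_lc.S.CountD
import Pool.Agent.Lib.MP_acf82c_lc.S.Special
import Pool.Agent.Lib.MP_acf82c_lc.S.NetMovesG
import Pool.Agent.Lib.MP_acf82c_lc.S.HStrG
import Pool.Agent.Lib.MP_acf82c_lc.S.ErrMono
import Pool.Agent.Lib.MP_acf82c_lc.S.HSmall
import Pool.Agent.Lib.MP_acf82c_lc.S.NetG
import Pool.Agent.Lib.MP_acf82c_lc.S.UpPart
import Pool.Agent.Lib.MP_acf82c_lc.S.CloverLow
import Pool.Agent.Lib.MP_acf82c_lc.S.Final

/-!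
# Stability: the theorem
-/

namespace MPacf82c.St

open Set MeasureTheory
open scoped NNReal ENNReal

theorem emuPlan : S_EmuPlan := sEmuPlan sGeo sStarUp

theorem bonusPlan : S_BonusPlan := sBonusPlan sStarLow

theorem gainPlan : S_GainPlan :=
  sGainPlan emuPlan bonusPlan sGePay sMono (sDom sMono) sDm

theorem caseB : S_CaseB := sCaseB (sMixP sMix) emuPlan gainPlan sGePay sMono sPig

theorem key : S_Key := sKey caseB (sCaseA sCatPay) sCatAdm sExtPay sGePay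

theorem upper : S_Upper := sUpper sMix (sUpA1 sGeo (sPermAvoid sPermCount)) (sUpA2 sGeo) (sUpB sGeo)

theorem spBad : S_SpBad := sSpBad sImgArc sImgStr (sTel sLvl sClamp sClampD) sChainNodup

theorem pairSp : S_PairSp :=
  sPairSp sElTrip (sSpCurve (sChainCurve sChainNodup)) spBad sMoveGen

theorem spWalk : S_SpWalk := sSpWalk sWalkChain (sErase sChainSplit)

theorem special : S_Special :=
  sSpecial spWalk (sSpGeo spWalk sChainDist) (sGeoSides sChainSplit sChainDist) sTwoPts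

theorem countD : S_CountD := sCountD (sCountJ (sCurveWalk sWalkNear))

theorem netG : S_NetG :=
  sNetG sSamplesX countD special (sNetMovesG pairSp sHubG) sErrMono sHSmall

theorem final : S_Final := sFinal key upper netG sHStrG sHSmall sUpPart sCloverLow

/-- Stability of the Alpern-Asic inequality for small networks. -/
theorem stability : ∃ c : ℝ, 1 / 2 ≤ c ∧
    (∀ ε : ℝ, 0 < ε → ∃ n₀ : ℕ, ∀ n : ℕ, n₀ ≤ n →
      ∀ (Q : Type) [MetricSpace Q] (N : Network Q) (O : Q), IsClover N O n →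
      ∀ w : ℝ≥0, 1 ≤ w →
        HiderGuarantees w O (ENNReal.ofReal ((c - ε) * n)) ∧
        SearcherGuarantees w O (ENNReal.ofReal ((c + ε) * n))) ∧
    (∀ g : ℝ, 0 < g → ∃ δ : ℝ, 0 < δ ∧ ∃ η : ℝ, 0 < η ∧
      ∀ (Q : Type) [MetricSpace Q] (N : Network Q) (O : Q),
      (∀ x y : Q, dist x y ≤ δ * N.length) → NoCentre N (δ * N.length) g →
      ∀ w : ℝ≥0, 1 ≤ w → HiderGuarantees w O (ENNReal.ofReal ((c + η) * N.length))) := by
  obtain ⟨c, hc, h1, -⟩ := main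
  exact ⟨c, hc, h1, final c h1⟩

end MPacf82c.St
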