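import Pool.Agent.Lib.MP_acf82c_lc.S.SpecA

/-!
# Monotonicity (`S_Mono`)
-/

namespace MPacf82c.St

open Finset
open scoped Nat

namespace Mono

private theorem pr_nonneg (s : Finset ℕ) (f : ℕ → ℝ) (h0 : ∀ k, 0 ≤ f k) : 0 ≤ ∏ k ∈ s, f k :=
  Finset.prod_nonneg fun k _ => h0 k

private theorem pr_le_one (s : Finset ℕ) (f : ℕ → ℝ) (h0 : ∀ k, 0 ≤ f k) (h1 : ∀ k, f k ≤ 1) :
    ∏ k ∈ s, f k ≤ 1 :=
  Finset.prod_le_one (fun k _ => h0 k) fun k _ => h1 k

private theorem pr_anti (s t : Finset ℕ) (hst : s ⊆ t) (f : ℕ → ℝ) (h0 : ∀ k, 0 ≤ f k)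
    (h1 : ∀ k, f k ≤ 1) : ∏ k ∈ t, f k ≤ ∏ k ∈ s, f k := by
  rw [← Finset.prod_sdiff hst]
  exact mul_le_of_le_one_left (pr_nonneg s f h0) (pr_le_one _ f h0 h1)

private theorem pavg_mono {n : ℕ} (f g : Equiv.Perm (Fin n) → ℝ) (h : ∀ π, f π ≤ g π) :
    pavg f ≤ pavg g := by
  unfold pavg
  exact div_le_div_of_nonneg_right (Finset.sum_le_sum fun π _ => h π) (by positivity)

private theorem pavg_nonneg {n : ℕ} (f : Equiv.Perm (Fin n) → ℝ) (h : ∀ π, 0 ≤ f π) :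
    0 ≤ pavg f := by
  unfold pavg
  exact div_nonneg (Finset.sum_nonneg fun π _ => h π) (by positivity)

private theorem pavg_le_one {n : ℕ} (f : Equiv.Perm (Fin n) → ℝ) (h : ∀ π, f π ≤ 1) :
    pavg f ≤ 1 := by
  unfold pavg
  have hpos : (0 : ℝ) < (n.factorial : ℝ) := by exact_mod_cast n.factorial_pos
  rw [div_le_one hpos]
  calc ∑ π : Equiv.Perm (Fin n), f π ≤ ∑ _π : Equiv.Perm (Fin n), (1 : ℝ) :=
        Finset.sum_le_sum fun π _ => h π
    _ = (n.factorial : ℝ) := by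
        rw [Finset.sum_const, Finset.card_univ, Fintype.card_perm, Fintype.card_fin, nsmul_eq_mul,
          mul_one]

section
variable {n B : ℕ} {L : ℕ → Finset (Fin n)} {y : ℕ → Fin n} {b : ℕ → Bool}

private theorem fx_nonneg (k : ℕ) : 0 ≤ (if b k then ((L k).card : ℝ) / B else 1) := by
  split_ifs
  · positivity
  · norm_num

private theorem fx_le_one (hB : 0 < B) (hL : ∀ k, (L k).card ≤ B) (k : ℕ) :
    (if b k then ((L k).card : ℝ) / B else 1) ≤ 1 := by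
  split_ifs
  · have hB' : (0 : ℝ) < B := by exact_mod_cast hB
    rw [div_le_one hB']
    exact_mod_cast hL k
  · exact le_refl _

private theorem fs_nonneg (π : Equiv.Perm (Fin n)) (k : ℕ) :
    0 ≤ (if b k then (1 : ℝ) else if π (y k) ∈ L k then 0 else 1) := by
  split_ifs <;> norm_num

private theorem fs_le_one (π : Equiv.Perm (Fin n)) (k : ℕ) :
    (if b k then (1 : ℝ) else if π (y k) ∈ L k then 0 else 1) ≤ 1 := by
  split_ifs <;> norm_num

private theorem stay_nonneg (m : ℕ) (π : Equiv.Perm (Fin n)) : 0 ≤ stay L y b m π :=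
  pr_nonneg _ _ (fs_nonneg π)

private theorem stay_le_one (m : ℕ) (π : Equiv.Perm (Fin n)) : stay L y b m π ≤ 1 :=
  pr_le_one _ _ (fs_nonneg π) (fs_le_one π)

private theorem stay_anti {m m' : ℕ} (h : m ≤ m') (π : Equiv.Perm (Fin n)) :
    stay L y b m' π ≤ stay L y b m π :=
  pr_anti _ _ (Finset.range_mono h) _ (fs_nonneg π) (fs_le_one π)

private theorem sv_nonneg (m : ℕ) : 0 ≤ sv L y b m := pavg_nonneg _ (stay_nonneg m)

private theorem sv_le_one (m : ℕ) : sv L y b m ≤ 1 := pavg_le_one _ (stay_le_one m)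

private theorem sv_anti {m m' : ℕ} (h : m ≤ m') : sv L y b m' ≤ sv L y b m :=
  pavg_mono _ _ (stay_anti h)

private theorem xs_nonneg (m : ℕ) : 0 ≤ xs B L b m := pr_nonneg _ _ fx_nonneg

private theorem xs_le_one (hB : 0 < B) (hL : ∀ k, (L k).card ≤ B) (m : ℕ) : xs B L b m ≤ 1 :=
  pr_le_one _ _ fx_nonneg (fx_le_one hB hL)

private theorem xs_anti (hB : 0 < B) (hL : ∀ k, (L k).card ≤ B) {m m' : ℕ} (h : m ≤ m') :
    xs B L b m' ≤ xs B L b m :=
  pr_anti _ _ (Finset.range_mono h) _ fx_nonneg (fx_le_one hB hL)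

private theorem xsj_nonneg (m j : ℕ) : 0 ≤ xsj B L b m j := pr_nonneg _ _ fx_nonneg

private theorem xsj_le_one (hB : 0 < B) (hL : ∀ k, (L k).card ≤ B) (m j : ℕ) :
    xsj B L b m j ≤ 1 :=
  pr_le_one _ _ fx_nonneg (fx_le_one hB hL)

private theorem xsj_anti (hB : 0 < B) (hL : ∀ k, (L k).card ≤ B) {m m' : ℕ} (h : m ≤ m')
    (j : ℕ) : xsj B L b m' j ≤ xsj B L b m j :=
  pr_anti _ _ (Finset.erase_subset_erase _ (Finset.range_mono h)) _ fx_nonneg (fx_le_one hB hL)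

private theorem am_nonneg (hB : 0 < B) (hL : ∀ k, (L k).card ≤ B) (j : ℕ) : 0 ≤ am B L j := by
  have hB' : (0 : ℝ) < B := by exact_mod_cast hB
  unfold am
  rw [sub_nonneg, div_le_one hB']
  exact_mod_cast hL j

end

end Mono

theorem sMono : S_Mono := by
  intro n B L y b _ hB hL
  refine ⟨?_, ?_, ?_, ?_, ?_, ?_⟩
  · intro m m' h
    exact mul_le_mul (Mono.xs_anti hB hL h) (Mono.sv_anti h) (Mono.sv_nonneg m')
      (Mono.xs_nonneg m)
  · intro m
    exact ⟨mul_nonneg (Mono.xs_nonneg m) (Mono.sv_nonneg m),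
      mul_le_one₀ (Mono.xs_le_one hB hL m) (Mono.sv_nonneg m) (Mono.sv_le_one m)⟩
  · intro m
    exact ⟨Mono.sv_nonneg m, Mono.sv_le_one m⟩
  · intro j m
    exact ⟨Mono.xsj_nonneg m j, Mono.xsj_le_one hB hL m j⟩
  · intro j m m' _ h
    exact mul_le_mul (mul_le_mul_of_nonneg_left (Mono.xsj_anti hB hL h j)
      (Mono.am_nonneg hB hL j)) (Mono.sv_anti h) (Mono.sv_nonneg m')
      (mul_nonneg (Mono.am_nonneg hB hL j) (Mono.xsj_nonneg m j))
  · intro j m
    exact mul_nonneg (mul_nonneg (Mono.am_nonneg hB hL j) (Mono.xsj_nonneg m j))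
      (Mono.sv_nonneg m)

end MPacf82c.St
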