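import Pool.Agent.Lib.MP_acf82c_lc.S.SpecB

/-!
# Stability, part B, module Tel: telescoping
-/

namespace MPacf82c.St

open Set MeasureTheory Filter
open scoped NNReal ENNReal Topology

namespace Tel

variable {Q : Type} [MetricSpace Q] (N : Network Q)

private theorem lo_le_hi (φ : Q → ℝ) (e : N.Arc) : loP N φ e ≤ hiP N φ e :=
  (min_le_left _ _).trans (le_max_left _ _)

private theorem cl_lip (a b : ℝ) : LipschitzWith 1 (cl a b) := by
  have h1 : LipschitzWith 1 fun x : ℝ => min b x := LipschitzWith.id.const_min b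
  have h2 : LipschitzWith 1 fun x : ℝ => max a (min b x) := h1.const_max a
  exact h2

private theorem cl_mem {a b x : ℝ} (h : x ∈ Icc a b) : cl a b x = x := by
  unfold cl
  rw [min_eq_right h.2, max_eq_right h.1]

private theorem cl_hi {a b x : ℝ} (hab : a ≤ b) (h : b ≤ x) : cl a b x = b := by
  unfold cl
  rw [min_eq_left h, max_eq_right hab]

private theorem cl_lo {a b x : ℝ} (hab : a ≤ b) (h : x ≤ a) : cl a b x = a := by
  unfold cl
  rw [min_eq_right (h.trans hab), max_eq_left h]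

private theorem pot_mem {φ : Q → ℝ} {F : N.Arc → ℝ} {e : N.Arc}
    (hpot : φ (N.pt e 0) - φ (N.pt e (N.len e)) = N.len e * F e) {s : ℝ}
    (hs : s ∈ Icc 0 (N.len e)) : φ (N.pt e 0) - F e * s ∈ Icc (loP N φ e) (hiP N φ e) := by
  have hs0 := hs.1
  have hs1 := hs.2
  have h1 : φ (N.pt e (N.len e)) = φ (N.pt e 0) - N.len e * F e := by linarith
  rcases le_total 0 (F e) with hF | hF
  · refine ⟨(min_le_right _ _).trans ?_, le_trans ?_ (le_max_left _ _)⟩
    · rw [h1]
      nlinarith [mul_le_mul_of_nonneg_left hs1 hF]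
    · nlinarith [mul_nonneg hF hs0]
  · refine ⟨(min_le_left _ _).trans ?_, le_trans ?_ (le_max_right _ _)⟩
    · nlinarith [mul_nonneg (neg_nonneg.2 hF) hs0]
    · rw [h1]
      nlinarith [mul_le_mul_of_nonneg_left hs1 (neg_nonneg.2 hF)]

private theorem local_mem {φ ψ : Q → ℝ} {F : N.Arc → ℝ} {e : N.Arc}
    (hpot : φ (N.pt e 0) - φ (N.pt e (N.len e)) = N.len e * F e)
    (hψ : ∀ e, ∀ s ∈ Icc 0 (N.len e), ψ (N.pt e s) = φ (N.pt e 0) - F e * s)
    {S : ℝ → Q} (hS : LipschitzWith 1 S) {t : ℝ} (ht : S t ∈ N.openArc e) :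
    ∀ᶠ t' in 𝓝 t, ψ (S t') ∈ Icc (loP N φ e) (hiP N φ e) := by
  have hopen : ∀ᶠ t' in 𝓝 t, S t' ∈ N.openArc e :=
    hS.continuous.continuousAt.eventually_mem ((isOpen_openArc N e).mem_nhds ht)
  filter_upwards [hopen] with t' h1
  obtain ⟨y, hy, hyt⟩ := h1
  rw [← hyt, hψ e y (Ioo_subset_Icc_self hy)]
  exact pot_mem N hpot (Ioo_subset_Icc_self hy)

private theorem deriv_bdd {g : ℝ → ℝ} (hg : LipschitzWith 1 g) (t0 t1 : ℝ) :
    IntegrableOn (deriv g) (Icc t0 t1) := by
  refine Measure.integrableOn_of_bounded (M := 1) (by simp [Real.volume_Icc])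
    (measurable_deriv g).aestronglyMeasurable ?_
  refine Filter.Eventually.of_forall fun t => ?_
  have := norm_deriv_le_of_lipschitz (x₀ := t) hg
  simpa using this

/-- The integral of the derivative of a function of the potential is collected on the open
arcs. -/
private theorem collect {ψ : Q → ℝ} {S : ℝ → Q} (hS : LipschitzWith 1 S) {t0 t1 : ℝ}
    (h01 : t0 ≤ t1) {c : ℝ → ℝ} (hgL : LipschitzWith 1 fun t => c (ψ (S t))) :
    ∑ e, ∫ t in meetSet S t0 t1 (N.openArc e), deriv (fun t => c (ψ (S t))) t =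
      c (ψ (S t1)) - c (ψ (S t0)) := by
  classical
  set g : ℝ → ℝ := fun t => c (ψ (S t)) with hg
  have hint : IntegrableOn (deriv g) (Icc t0 t1) := deriv_bdd hgL t0 t1
  set U : N.Arc → Set ℝ := fun e => meetSet S t0 t1 (N.openArc e) with hU
  set Z : Set ℝ := meetSet S t0 t1 N.nodes with hZ
  have hUm : ∀ e, MeasurableSet (U e) := fun e =>
    meetSet_open hS.continuous t0 t1 (isOpen_openArc N e)
  have hZm : MeasurableSet Z := meetSet_closed hS.continuous t0 t1 (nodes_finite N).isClosed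
  have hUi : ∀ e, IntegrableOn (deriv g) (U e) := fun e =>
    hint.mono_set (meetSet_subset S t0 t1 _)
  have hsum : ∑ e, ∫ t in U e, deriv g t = ∫ t in ⋃ e, U e, deriv g t := by
    rw [integral_iUnion_fintype hUm ?_ hUi]
    intro e e' hee
    refine Set.disjoint_left.2 ?_
    intro t h3 h4
    exact hee (openArc_unique N h3.2 h4.2)
  have hcov : Icc t0 t1 = (⋃ e, U e) ∪ Z := by
    ext t
    constructor
    · intro ht
      rcases node_or_openArc N (S t) with h | ⟨e, h⟩
      · exact Or.inr ⟨ht, h⟩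
      · exact Or.inl (mem_iUnion.2 ⟨e, ht, h⟩)
    · rintro (h | h)
      · obtain ⟨e, h⟩ := mem_iUnion.1 h
        exact h.1
      · exact h.1
  have hdis : Disjoint (⋃ e, U e) Z := by
    refine Set.disjoint_left.2 ?_
    intro t h3 h4
    obtain ⟨e, h3⟩ := mem_iUnion.1 h3
    exact notMem_nodes_of_mem_openArc N h3.2 h4.2
  have hsplit : ∫ t in Icc t0 t1, deriv g t =
      (∫ t in ⋃ e, U e, deriv g t) + ∫ t in Z, deriv g t := by
    rw [hcov]
    refine setIntegral_union hdis hZm ?_ ?_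
    · exact hint.mono_set (by rw [hcov]; exact subset_union_left)
    · exact hint.mono_set (by rw [hcov]; exact subset_union_right)
  have hZ0 : ∫ t in Z, deriv g t = 0 := by
    have hcount : (g '' Z).Countable := by
      refine (((nodes_finite N).image fun z => c (ψ z)).subset ?_).countable
      rintro _ ⟨t, ht, rfl⟩
      exact ⟨S t, ht.2, rfl⟩
    have h1 : ∫ t in Z, deriv g t = ∫ t in Z, (0 : ℝ) :=
      setIntegral_congr_ae hZm (deriv_zero_of_countable_image hgL hcount)
    rw [h1]; simp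
  have hftc := integral_deriv_lip hgL h01
  rw [hsum]
  rw [hsplit, hZ0, add_zero] at hftc
  exact hftc

end Tel

/-- telescoping -/
theorem sTel (hL : S_Lvl) (hC : S_Clamp) (hD : S_ClampD) : S_Tel := by
  classical
  intro Q _ N D a b φ ψ F m lam P hdist hcur hψL hψ S hS t0 t1 h01 A κ hA hκ
  set f : ℝ → ℝ := fun t => ψ (S t) with hf
  have hfL : LipschitzWith 1 f := by
    have h0 := hψL.comp hS
    rw [mul_one] at h0
    exact h0
  set c : N.Arc → ℝ → ℝ := fun e => cl (loP N φ e) (hiP N φ e) with hc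
  set g : N.Arc → ℝ → ℝ := fun e t => c e (f t) with hg
  have hgL : ∀ e, LipschitzWith 1 (g e) := by
    intro e
    have h0 := (Tel.cl_lip (loP N φ e) (hiP N φ e)).comp hfL
    rw [mul_one] at h0
    exact h0
  set U : N.Arc → Set ℝ := fun e => meetSet S t0 t1 (N.openArc e) with hU
  have hUm : ∀ e, MeasurableSet (U e) := fun e =>
    meetSet_open hS.continuous t0 t1 (isOpen_openArc N e)
  have hUi : ∀ e e', IntegrableOn (deriv (g e)) (U e') := fun e e' =>
    (Tel.deriv_bdd (hgL e) t0 t1).mono_set (meetSet_subset S t0 t1 _)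
  -- disjoint potential intervals
  have hdisj : ∀ e ∈ A, ∀ e', 1 / 2 < |F e'| → e ≠ e' →
      hiP N φ e ≤ loP N φ e' ∨ hiP N φ e' ≤ loP N φ e := by
    intro e he e' he' hne
    refine hL Q N D a b φ F m lam P hcur e e' hne ?_
    have := hA e he
    linarith
  have hclamp : ∀ x y : ℝ, ∑ e ∈ A, |g e x - g e y| ≤ |f x - f y| := by
    intro x y
    exact hC N.Arc A (loP N φ) (hiP N φ) (fun e _ => Tel.lo_le_hi N φ e)
      (fun e he e' he' hne => hdisj e he e' (hA e' he') hne) (f x) (f y)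
  -- derivatives
  have hown : ∀ e, ∀ t ∈ U e, deriv (g e) t = deriv f t := by
    intro e t ht
    refine Filter.EventuallyEq.deriv_eq ?_
    filter_upwards [Tel.local_mem N (hcur.pot e) hψ hS ht.2] with t' h1
    exact Tel.cl_mem h1
  have hother : ∀ e ∈ A, ∀ e', 1 / 2 < |F e'| → e ≠ e' → ∀ t ∈ U e', deriv (g e) t = 0 := by
    intro e he e' he' hne t ht
    rcases hdisj e he e' he' hne with h | h
    · have h2 : g e =ᶠ[𝓝 t] fun _ => hiP N φ e := by
        filter_upwards [Tel.local_mem N (hcur.pot e') hψ hS ht.2] with t' h1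
        exact Tel.cl_hi (Tel.lo_le_hi N φ e) (h.trans h1.1)
      rw [h2.deriv_eq, deriv_const]
    · have h2 : g e =ᶠ[𝓝 t] fun _ => loP N φ e := by
        filter_upwards [Tel.local_mem N (hcur.pot e') hψ hS ht.2] with t' h1
        exact Tel.cl_lo (Tel.lo_le_hi N φ e) (h1.2.trans h)
      rw [h2.deriv_eq, deriv_const]
  -- the formula for one arc
  set Wk : Finset N.Arc := Finset.univ.filter fun e' => |F e'| ≤ 1 / 2 with hWk
  have hone : ∀ e ∈ A, ∫ t in U e, deriv f t =
      (g e t1 - g e t0) - ∑ e' ∈ Wk, ∫ t in U e', deriv (g e) t := by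
    intro e he
    have h1 := Tel.collect N hS h01 (ψ := ψ) (c := c e) (hgL e)
    have h2 : ∑ e', (∫ t in U e', deriv (g e) t) =
        ∑ e' ∈ Wk, (∫ t in U e', deriv (g e) t) +
          ∑ e' ∈ Finset.univ.filter (fun e' => ¬ |F e'| ≤ 1 / 2),
            (∫ t in U e', deriv (g e) t) :=
      (Finset.sum_filter_add_sum_filter_not _ _ _).symm
    have h3 : ∑ e' ∈ Finset.univ.filter (fun e' => ¬ |F e'| ≤ 1 / 2),
        ∫ t in U e', deriv (g e) t = ∫ t in U e, deriv f t := by
      rw [Finset.sum_eq_single e]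
      · exact setIntegral_congr_fun (hUm e) (hown e)
      · intro e' he' hne
        have h4 : 1 / 2 < |F e'| := not_le.1 (Finset.mem_filter.1 he').2
        have h5 : ∫ t in U e', deriv (g e) t = ∫ t in U e', (0 : ℝ) :=
          setIntegral_congr_fun (hUm e') (hother e he e' h4 hne.symm)
        rw [h5]; simp
      · intro h
        exfalso
        apply h
        rw [Finset.mem_filter]
        exact ⟨Finset.mem_univ _, not_le.2 (hA e he)⟩
    have h6 : ∑ e', ∫ t in U e', deriv (g e) t = g e t1 - g e t0 := h1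
    rw [h2, h3] at h6
    linarith
  -- almost everywhere differentiability
  have hdf : ∀ᵐ t : ℝ, DifferentiableAt ℝ f t := hfL.ae_differentiableAt_real
  have hdg : ∀ᵐ t : ℝ, ∀ e ∈ A, DifferentiableAt ℝ (g e) t := by
    rw [ae_all_iff]
    intro e
    filter_upwards [(hgL e).ae_differentiableAt_real] with t ht _ using ht
  have hweak : ∀ e', ∀ᵐ t : ℝ, t ∈ U e' → ‖∑ e ∈ A, κ e * deriv (g e) t‖ ≤ 2 * |F e'| := by
    intro e'
    filter_upwards [hdf, hdg] with t h1 h2 ht
    have h3 := hD N.Arc A f g hclamp t h2 h1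
    have h4 := meeting_deriv_le N hψ hS ht.2
    calc ‖∑ e ∈ A, κ e * deriv (g e) t‖ ≤ ∑ e ∈ A, ‖κ e * deriv (g e) t‖ := norm_sum_le _ _
      _ ≤ ∑ e ∈ A, 2 * |deriv (g e) t| := by
          refine Finset.sum_le_sum fun e he => ?_
          rw [Real.norm_eq_abs, abs_mul]
          exact mul_le_mul_of_nonneg_right (hκ e he) (abs_nonneg _)
      _ = 2 * ∑ e ∈ A, |deriv (g e) t| := by rw [Finset.mul_sum]
      _ ≤ 2 * |F e'| := by
          have h5 : |deriv f t| ≤ |F e'| := h4
          linarith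
  have hint : ∀ e', |∑ e ∈ A, κ e * ∫ t in U e', deriv (g e) t| ≤
      2 * |F e'| * timeIn S t0 t1 (N.openArc e') := by
    intro e'
    have h1 : ∑ e ∈ A, κ e * ∫ t in U e', deriv (g e) t =
        ∫ t in U e', ∑ e ∈ A, κ e * deriv (g e) t := by
      rw [integral_finsetSum A fun e _ => (hUi e e').const_mul (κ e)]
      exact Finset.sum_congr rfl fun e _ => (integral_const_mul _ _).symm
    rw [h1, ← Real.norm_eq_abs]
    exact norm_setIntegral_le_of_norm_le_const_ae' (meetSet_ne_top S t0 t1 _).lt_top (hweak e')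
  -- assemble
  have hfD : |f t1 - f t0| ≤ D := by
    have h1 : dist (f t1) (f t0) ≤ dist (S t1) (S t0) := by
      have := hψL.dist_le_mul (S t1) (S t0)
      simpa using this
    have h2 := hdist (S t1) (S t0)
    rw [Real.dist_eq] at h1
    linarith
  have hfirst : ∑ e ∈ A, κ e * (g e t1 - g e t0) ≤ 2 * D := by
    calc ∑ e ∈ A, κ e * (g e t1 - g e t0) ≤ ∑ e ∈ A, 2 * |g e t1 - g e t0| := by
          refine Finset.sum_le_sum fun e he => ?_
          refine (le_abs_self _).trans ?_
          rw [abs_mul]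
          exact mul_le_mul_of_nonneg_right (hκ e he) (abs_nonneg _)
      _ = 2 * ∑ e ∈ A, |g e t1 - g e t0| := by rw [Finset.mul_sum]
      _ ≤ 2 * D := by
          have h5 := hclamp t1 t0
          linarith
  have hsum : ∑ e ∈ A, κ e * ∫ t in U e, deriv f t =
      ∑ e ∈ A, κ e * (g e t1 - g e t0) -
        ∑ e' ∈ Wk, ∑ e ∈ A, κ e * ∫ t in U e', deriv (g e) t := by
    rw [Finset.sum_comm, ← Finset.sum_sub_distrib]
    refine Finset.sum_congr rfl fun e he => ?_
    rw [hone e he, mul_sub, Finset.mul_sum]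
  have hlast : -(∑ e' ∈ Wk, ∑ e ∈ A, κ e * ∫ t in U e', deriv (g e) t) ≤
      ∑ e', ind (|F e'| ≤ 1 / 2) * (2 * |F e'| * timeIn S t0 t1 (N.openArc e')) := by
    have h1 : ∑ e', ind (|F e'| ≤ 1 / 2) * (2 * |F e'| * timeIn S t0 t1 (N.openArc e')) =
        ∑ e' ∈ Wk, 2 * |F e'| * timeIn S t0 t1 (N.openArc e') := by
      rw [hWk, Finset.sum_filter]
      refine Finset.sum_congr rfl fun e' _ => ?_
      unfold ind
      split_ifs
      · rw [one_mul]
      · rw [zero_mul]
    rw [h1, ← Finset.sum_neg_distrib]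
    refine Finset.sum_le_sum fun e' _ => ?_
    exact (neg_le_abs _).trans (hint e')
  show ∑ e ∈ A, κ e * ∫ t in U e, deriv f t ≤ _
  rw [hsum]
  linarith

end MPacf82c.St
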